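import Pool.Agent.Lib.H98M.M0

/-!
# H59D, file E0: a 2-connected graph with at most n edges has all degrees 2
-/

set_option autoImplicit false

namespace H59D

open Finset H98M

variable {V : Type*} [Fintype V] [DecidableEq V]

/-- An edge leaves every nonempty proper part of a connected set. -/
private theorem exists_edge {G : Finset (Sym2 V)} {W A : Finset V} (hW : ¬ Disc W G) (hA : A ⊆ W)
    (hAn : A.Nonempty) (hne : A ≠ W) : ∃ x ∈ A, ∃ y ∈ W, y ∉ A ∧ s(x, y) ∈ G := by
  by_contra hcon
  push Not at hcon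
  refine hW ⟨A, W \ A, hAn, ?_, disjoint_sdiff, union_sdiff_of_subset hA, fun x hx y hy => ?_⟩
  · rw [sdiff_nonempty]
    exact fun h => hne (hA.antisymm h)
  · exact hcon x hx y (mem_sdiff.1 hy).1 (mem_sdiff.1 hy).2

/-- All degrees of a 2-connected graph are at least 2. -/
theorem two_le_deg {G : Finset (Sym2 V)} (hc : ¬ Disc univ G) (hcut : ∀ z, ¬ Disc (univ.erase z) G)
    (h3 : 3 ≤ Fintype.card V) (v : V) : 2 ≤ (G.filter fun e => v ∈ e).card := by
  have hne : ({v} : Finset V) ≠ univ := by
    intro h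
    have h1 := congrArg Finset.card h
    rw [card_singleton, card_univ] at h1
    omega
  obtain ⟨x, hx, y, -, hy, he⟩ := exists_edge hc (subset_univ {v}) ⟨v, mem_singleton_self v⟩ hne
  rw [mem_singleton] at hx hy
  subst hx
  have hne2 : ({x} : Finset V) ≠ univ.erase y := by
    intro h
    have h1 := congrArg Finset.card h
    rw [card_singleton, card_erase_of_mem (mem_univ y), card_univ] at h1
    omega
  have hsub : ({x} : Finset V) ⊆ univ.erase y := by
    rw [singleton_subset_iff]
    exact mem_erase.2 ⟨Ne.symm hy, mem_univ x⟩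
  obtain ⟨x', hx', z, hz, hzx, he2⟩ := exists_edge (hcut y) hsub ⟨x, mem_singleton_self x⟩ hne2
  rw [mem_singleton] at hx' hzx
  subst hx'
  have hzy : z ≠ y := (mem_erase.1 hz).1
  have h1 : ({s(x', y), s(x', z)} : Finset (Sym2 V)) ⊆ G.filter fun e => x' ∈ e := by
    intro e h
    rw [mem_insert, mem_singleton] at h
    rcases h with rfl | rfl
    · exact mem_filter.2 ⟨he, Sym2.mem_mk_left _ _⟩
    · exact mem_filter.2 ⟨he2, Sym2.mem_mk_left _ _⟩
  have h2 : s(x', y) ≠ s(x', z) := by
    intro h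
    rw [Sym2.eq_iff] at h
    rcases h with ⟨-, h⟩ | ⟨h, -⟩
    · exact hzy h.symm
    · exact hzx h.symm
  calc 2 = ({s(x', y), s(x', z)} : Finset (Sym2 V)).card := (card_pair h2).symm
    _ ≤ _ := card_le_card h1

/-- The handshake lemma. -/
theorem sum_deg {G : Finset (Sym2 V)} (hE : ∀ e ∈ G, ¬ e.IsDiag) :
    ∑ v : V, (G.filter fun e => v ∈ e).card = 2 * G.card := by
  have h1 : ∑ v : V, (G.filter fun e => v ∈ e).card
      = ∑ e ∈ G, ((univ : Finset V).filter fun v => v ∈ e).card := by
    simp only [card_filter]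
    rw [sum_comm]
  rw [h1]
  have h2 : ∀ e ∈ G, ((univ : Finset V).filter fun v => v ∈ e).card = 2 := by
    intro e he
    induction e using Sym2.ind with
    | _ a b =>
      have hab : a ≠ b := fun h => hE _ he (by rw [h]; exact Sym2.mk_isDiag_iff.2 rfl)
      have h3 : ((univ : Finset V).filter fun v => v ∈ s(a, b)) = {a, b} := by
        ext v
        simp
      rw [h3, card_pair hab]
  rw [sum_congr rfl h2, sum_const, smul_eq_mul, mul_comm]

/-- (E0) A 2-connected graph with at most `n` edges has all degrees equal to 2. -/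
theorem deg_two {G : Finset (Sym2 V)} (hE : ∀ e ∈ G, ¬ e.IsDiag) (hc : ¬ Disc univ G)
    (hcut : ∀ z, ¬ Disc (univ.erase z) G) (h3 : 3 ≤ Fintype.card V)
    (hG : G.card ≤ Fintype.card V) (v : V) : (G.filter fun e => v ∈ e).card = 2 := by
  refine le_antisymm ?_ (two_le_deg hc hcut h3 v)
  by_contra hcon
  push Not at hcon
  have h1 : ∑ u : V, 2 < ∑ u : V, (G.filter fun e => u ∈ e).card :=
    sum_lt_sum (fun u _ => two_le_deg hc hcut h3 u) ⟨v, mem_univ v, hcon⟩
  rw [sum_deg hE, sum_const, smul_eq_mul, card_univ] at h1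
  omega

end H59D
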