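import Pool.Agent.Lib.H59D.Defs
import Pool.Agent.Lib.H56G.Schur2
import Pool.Agent.Lib.H56G.Cnt

/-!
# Definitions for D1-D4
-/

open Finset

namespace Pool.Agent.Lib.H59D

open Pool.Agent.Lib.H56G
open Pool.Agent.Lib.H5C (rem)

variable {ι J : Type} [Fintype ι] [DecidableEq ι] [Fintype J] [DecidableEq J]

/-- The value of `u_i^a` at a `t` with `pr i ∣ form j`. -/
noncomputable def vE (s : Sys ι J) (j : J) (i : ι) (a : Option J) : ℝ :=
  if a = some j then 1 - (s.pr i : ℝ) else 1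

/-- The coefficients of the restriction of `Σ c U` to the `t` with `pr i ∣ form j` for all `i ∈ E`. -/
noncomputable def cE (s : Sys ι J) (j : J) (E : Finset ι) (c : (ι → Option J) → ℝ)
    (κ : ι → Option J) : ℝ :=
  ∑ κ₂ ∈ univ.filter (fun κ₂ : ι → Option J => rem κ₂ E = κ), c κ₂ * ∏ i ∈ E, vE s j i (κ₂ i)

end Pool.Agent.Lib.H59D
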