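import Pool.Agent.Lib.H59D.D1a
import Pool.Agent.Lib.H56G.Schur2
import Pool.Agent.Lib.H56G.Cnt
import Pool.Agent.Lib.H5C.PM5b

/-!
# Chunk D1b: the square sum in a residue class modulo `q` with `q ∣ form j`
-/

open Finset

namespace Pool.Agent.Lib.H59D

open Pool.Agent.Lib.H56G
open Pool.Agent.Lib.H5C (rem)

variable {ι J : Type} [Fintype ι] [DecidableEq ι] [Fintype J] [DecidableEq J]

/-- extension by `none` -/
def D1b_ext (E : Finset ι) (κ' : {i // i ∉ E} → Option J) : ι → Option J :=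
  fun i => if h : i ∈ E then none else κ' ⟨i, h⟩

theorem D1b_ext_mem (E : Finset ι) (κ' : {i // i ∉ E} → Option J) (i : ι) (h : i ∈ E) :
    D1b_ext E κ' i = none := by
  unfold D1b_ext
  rw [dif_pos h]

theorem D1b_ext_sub (E : Finset ι) (κ' : {i // i ∉ E} → Option J) (i : {i // i ∉ E}) :
    D1b_ext E κ' i = κ' i := by
  unfold D1b_ext
  rw [dif_neg i.2]

/-- the system of the residue class -/
def D1b_sys (s : Sys ι J) (q t0 : ℕ) (E : Finset ι) (hE : ∀ i, i ∈ E ↔ s.pr i ∣ q) :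
    Sys {i // i ∉ E} J where
  pr := fun i => s.pr i
  prime := fun i => s.prime i
  inj := fun a b h => Subtype.ext (s.inj h)
  M := s.M * q
  b := fun j => s.b j + s.M * t0
  copM := by
    intro i h
    rcases (Nat.Prime.dvd_mul (s.prime i)).1 h with h | h
    · exact s.copM i h
    · exact i.2 ((hE i).2 h)
  dist := by
    intro i j j' hj h
    exact s.dist i j j' hj (Nat.ModEq.add_right_cancel' _ h)

theorem D1b_prod (E : Finset ι) (f : ι → ℝ) (hf : ∀ i ∈ E, f i = 1) :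
    ∏ i : {i // i ∉ E}, f i = ∏ i, f i := by
  rw [← Finset.prod_subtype (univ.filter (fun i => i ∉ E)) (p := fun i => i ∉ E) (by simp) f]
  refine prod_subset (filter_subset _ _) ?_
  intro i _ hi
  apply hf
  by_contra h
  exact hi (by simp [h])

theorem D1b_prod_supp (E : Finset ι) (κ' : {i // i ∉ E} → Option J) (f : ι → ℝ) :
    ∏ i ∈ supp κ', f i = ∏ i ∈ supp (D1b_ext E κ'), f i := by
  unfold supp
  rw [prod_filter, prod_filter]
  rw [← D1b_prod E (fun i => if (D1b_ext E κ' i).isSome then f i else 1)]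
  · refine prod_congr rfl fun i _ => ?_
    rw [D1b_ext_sub]
  · intro i hi
    rw [D1b_ext_mem E κ' i hi]
    simp

theorem D1b_U (s : Sys ι J) (q t0 : ℕ) (E : Finset ι) (hE : ∀ i, i ∈ E ↔ s.pr i ∣ q)
    (κ' : {i // i ∉ E} → Option J) (τ : ℕ) :
    (D1b_sys s q t0 E hE).U κ' τ = s.U (D1b_ext E κ') (t0 + q * τ) := by
  unfold Sys.U
  rw [← D1b_prod E (fun i => (D1b_ext E κ' i).elim 1 (fun j => s.u i j (t0 + q * τ)))]
  · refine prod_congr rfl fun i _ => ?_
    rw [D1b_ext_sub]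
    have : ∀ j, (D1b_sys s q t0 E hE).u i j τ = s.u i j (t0 + q * τ) := by
      intro j
      unfold Sys.u D1b_sys
      simp only
      have e : s.b j + s.M * t0 + s.M * q * τ = s.b j + s.M * (t0 + q * τ) := by ring
      rw [e]
    simp only [this]
  · intro i hi
    rw [D1b_ext_mem E κ' i hi]
    simp

theorem D1b_r (s : Sys ι J) (q t0 : ℕ) (E : Finset ι) (hE : ∀ i, i ∈ E ↔ s.pr i ∣ q)
    (κ' : {i // i ∉ E} → Option J) :
    (D1b_sys s q t0 E hE).r κ' = s.r (D1b_ext E κ') := by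
  unfold Sys.r Sys.rho D1b_sys
  exact D1b_prod_supp E κ' (fun i => (s.pr i : ℝ))

theorem D1b_ps (s : Sys ι J) (q t0 : ℕ) (E : Finset ι) (hE : ∀ i, i ∈ E ↔ s.pr i ∣ q)
    (κ' : {i // i ∉ E} → Option J) :
    (D1b_sys s q t0 E hE).ps κ' = s.ps (D1b_ext E κ') := by
  unfold Sys.ps D1b_sys
  exact D1b_prod_supp E κ' (fun i => (s.pr i : ℝ) + Fintype.card J)

theorem D1b_sum (E : Finset ι) (f : (ι → Option J) → ℝ) :
    ∑ κ ∈ univ.filter (fun κ : ι → Option J => ∀ i ∈ E, κ i = none), f κ =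
      ∑ κ' : {i // i ∉ E} → Option J, f (D1b_ext E κ') := by
  symm
  refine sum_bij' (fun κ' _ => D1b_ext E κ') (fun κ _ => fun i => κ i) ?_ ?_ ?_ ?_ ?_
  · intro κ' _
    rw [mem_filter]
    exact ⟨mem_univ _, fun i hi => D1b_ext_mem E κ' i hi⟩
  · intro κ _
    exact mem_univ _
  · intro κ' _
    funext i
    exact D1b_ext_sub E κ' i
  · intro κ hκ
    rw [mem_filter] at hκ
    funext i
    by_cases h : i ∈ E
    · rw [D1b_ext_mem _ _ i h, hκ.2 i h]
    · exact D1b_ext_sub E _ ⟨i, h⟩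
  · intro κ' _
    rfl

/-- The square sum over the class. Proof. The `t` with `q ∣ b j + M t` form one residue class
`t ≡ t0 mod q` (`q` is coprime to `M`), `0 ≤ t0 < q` (or there is none, if `T < 1`). Write `t = t0 + q τ`.
The term `τ = 0` is at most `B`. For `1 ≤ τ ≤ T/q` (real quotient; let `T' = ⌊(T - t0)/q⌋`) use
`sum_cE` and `H56G.sum_sq_le` for the system `s'` with index type `{i // i ∉ E}`, the same primes,
`M' = M q`, `b' j = b j + M t0` (`copM`: `pr i ∤ q` for `i ∉ E`; `dist` since the differences are the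
same), coefficients `c' κ' = cE s j E c (extension of κ' by none)`: `U κ t = U' κ' τ` for the `κ` with
`κ = none` on `E`, `s'.r κ' = s.r κ`, `s'.ps κ' = s.ps κ`. A nonzero `cE κ` has `r κ ≤ D`
(`r (rem κ₂ E) ≤ r κ₂`, `H5C.PM5b_r_rem`). -/
theorem sum_sq_prog (s : Sys ι J) (c : (ι → Option J) → ℝ) (D : ℝ) (hD : 1 ≤ D)
    (hc : ∀ κ, c κ ≠ 0 → s.r κ ≤ D) (q : ℕ) (hq : 0 < q) (hqM : Nat.Coprime q s.M) (j : J)
    (E : Finset ι) (hE : ∀ i, i ∈ E ↔ s.pr i ∣ q) (B : ℝ)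
    (hB : ∀ t, (∑ κ, c κ * s.U κ t) ^ 2 ≤ B) (T : ℕ) :
    ∑ t ∈ (Icc 1 T).filter (fun t => q ∣ s.b j + s.M * t), (∑ κ, c κ * s.U κ t) ^ 2 ≤
      B + (T : ℝ) / q * ∑ κ ∈ univ.filter (fun κ : ι → Option J => ∀ i ∈ E, κ i = none),
          (cE s j E c κ) ^ 2 * s.ps κ +
        2 * D ^ 4 * (∑ κ ∈ univ.filter (fun κ : ι → Option J => ∀ i ∈ E, κ i = none),
          |cE s j E c κ|) ^ 2 := by
  have hB0 : 0 ≤ B := (sq_nonneg _).trans (hB 0)
  have hps : ∀ κ, 0 ≤ s.ps κ := fun κ => prod_nonneg fun i _ => by positivity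
  have hq0 : (0 : ℝ) < q := by exact_mod_cast hq
  have hR1 : 0 ≤ ∑ κ ∈ univ.filter (fun κ : ι → Option J => ∀ i ∈ E, κ i = none),
      (cE s j E c κ) ^ 2 * s.ps κ :=
    sum_nonneg fun κ _ => mul_nonneg (sq_nonneg _) (hps κ)
  rcases ((Icc 1 T).filter (fun t => q ∣ s.b j + s.M * t)).eq_empty_or_nonempty with h | ⟨t1, h1⟩
  · rw [h, sum_empty]
    positivity
  rw [mem_filter] at h1
  set t0 := t1 % q with ht0
  have hmod : ∀ t, q ∣ s.b j + s.M * t → t % q = t0 := by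
    intro t ht
    have e1 : s.b j + s.M * t ≡ s.b j + s.M * t1 [MOD q] :=
      ((Nat.modEq_zero_iff_dvd).2 ht).trans ((Nat.modEq_zero_iff_dvd).2 h1.2).symm
    have e2 : s.M * t ≡ s.M * t1 [MOD q] := Nat.ModEq.add_left_cancel' _ e1
    exact Nat.ModEq.cancel_left_of_coprime hqM e2
  have hdiv0 : ∀ τ, q ∣ s.b j + s.M * (t0 + q * τ) := by
    intro τ
    have e1 : t0 + q * τ ≡ t1 [MOD q] := by
      rw [Nat.ModEq, Nat.add_mul_mod_self_left, ht0, Nat.mod_mod]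
    have e2 : s.b j + s.M * (t0 + q * τ) ≡ s.b j + s.M * t1 [MOD q] :=
      Nat.ModEq.add_left _ (Nat.ModEq.mul_left _ e1)
    exact (Nat.modEq_zero_iff_dvd).1 (e2.trans ((Nat.modEq_zero_iff_dvd).2 h1.2))
  set F : ℕ → ℝ := fun t => (∑ κ, c κ * s.U κ t) ^ 2 with hF
  -- reduction to the quotients
  have step1 : ∑ t ∈ (Icc 1 T).filter (fun t => q ∣ s.b j + s.M * t), F t ≤
      ∑ τ ∈ range (T / q + 1), F (t0 + q * τ) := by
    have e1 : ∑ t ∈ (Icc 1 T).filter (fun t => q ∣ s.b j + s.M * t), F t =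
        ∑ t ∈ (Icc 1 T).filter (fun t => q ∣ s.b j + s.M * t), F (t0 + q * (t / q)) := by
      refine sum_congr rfl fun t ht => ?_
      rw [mem_filter] at ht
      rw [← hmod t ht.2, Nat.mod_add_div]
    rw [e1]
    have hinj : Set.InjOn (fun t => t / q)
        ((Icc 1 T).filter (fun t => q ∣ s.b j + s.M * t) : Finset ℕ) := by
      intro a ha b hb hab
      rw [mem_coe, mem_filter] at ha hb
      rw [← Nat.mod_add_div a q, ← Nat.mod_add_div b q, hmod a ha.2, hmod b hb.2]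
      simp only at hab
      rw [hab]
    rw [← sum_image (g := fun t => t / q) (f := fun τ => F (t0 + q * τ)) hinj]
    refine sum_le_sum_of_subset_of_nonneg ?_ (fun _ _ _ => sq_nonneg _)
    intro τ hτ
    rw [mem_image] at hτ
    obtain ⟨t, ht, rfl⟩ := hτ
    rw [mem_filter, mem_Icc] at ht
    rw [mem_range]
    exact Nat.lt_succ_of_le (Nat.div_le_div_right ht.1.2)
  have step2 : ∑ τ ∈ range (T / q + 1), F (t0 + q * τ) =
      F (t0 + q * 0) + ∑ τ ∈ Icc 1 (T / q), F (t0 + q * τ) := by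
    rw [sum_range_succ', add_comm]
    congr 1
    rw [← Ico_succ_right_eq_Icc, sum_Ico_eq_sum_range]
    simp only [Order.succ_eq_add_one, Nat.add_sub_cancel]
    refine sum_congr rfl fun τ _ => ?_
    rw [add_comm 1 τ]
  have step3 : ∀ τ, F (t0 + q * τ) =
      (∑ κ' : {i // i ∉ E} → Option J, cE s j E c (D1b_ext E κ') *
        (D1b_sys s q t0 E hE).U κ' τ) ^ 2 := by
    intro τ
    rw [hF]
    simp only
    rw [sum_cE s j E c (t0 + q * τ) (fun i hi => ((hE i).1 hi).trans (hdiv0 τ)),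
      D1b_sum E (fun κ => cE s j E c κ * s.U κ (t0 + q * τ))]
    congr 1
    refine sum_congr rfl fun κ' _ => ?_
    rw [D1b_U]
  have hc' : ∀ κ' : {i // i ∉ E} → Option J, cE s j E c (D1b_ext E κ') ≠ 0 →
      (D1b_sys s q t0 E hE).r κ' ≤ D := by
    intro κ' h
    rw [D1b_r]
    unfold cE at h
    obtain ⟨κ₂, hκ₂, h2⟩ := exists_ne_zero_of_sum_ne_zero h
    rw [mem_filter] at hκ₂
    rw [← hκ₂.2]
    exact (Pool.Agent.Lib.H5C.PM5b_r_rem s κ₂ E).trans (hc κ₂ (left_ne_zero_of_mul h2))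
  have main := sum_sq_le (D1b_sys s q t0 E hE) (fun κ' => cE s j E c (D1b_ext E κ')) D hD hc'
    (T / q)
  have hTq : ((T / q : ℕ) : ℝ) ≤ (T : ℝ) / q := Nat.cast_div_le
  refine step1.trans ?_
  rw [step2, D1b_sum E (fun κ => (cE s j E c κ) ^ 2 * s.ps κ),
    D1b_sum E (fun κ => |cE s j E c κ|)]
  rw [D1b_sum E (fun κ => (cE s j E c κ) ^ 2 * s.ps κ)] at hR1
  have e3 : ∑ τ ∈ Icc 1 (T / q), F (t0 + q * τ) =
      ∑ τ ∈ Icc 1 (T / q), (∑ κ' : {i // i ∉ E} → Option J, cE s j E c (D1b_ext E κ') *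
        (D1b_sys s q t0 E hE).U κ' τ) ^ 2 := sum_congr rfl fun τ _ => step3 τ
  rw [e3]
  have e4 : ∑ κ' : {i // i ∉ E} → Option J, (cE s j E c (D1b_ext E κ')) ^ 2 *
      (D1b_sys s q t0 E hE).ps κ' = ∑ κ' : {i // i ∉ E} → Option J,
        (cE s j E c (D1b_ext E κ')) ^ 2 * s.ps (D1b_ext E κ') :=
    sum_congr rfl fun κ' _ => by rw [D1b_ps]
  rw [e4] at main
  have h5 := mul_le_mul_of_nonneg_right hTq hR1
  have h6 := hB (t0 + q * 0)
  have h7 : F (t0 + q * 0) ≤ B := h6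
  linarith

end Pool.Agent.Lib.H59D
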