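import Pool.Agent.Lib.H59D.D0
import Pool.Agent.Lib.H56G.Schur2
import Pool.Agent.Lib.H56G.Cnt

/-!
# Chunk D1a (expansion): the square sum in a residue class modulo `q` with `q ∣ form j`
-/

open Finset

namespace Pool.Agent.Lib.H59D

open Pool.Agent.Lib.H56G
open Pool.Agent.Lib.H5C (rem)

variable {ι J : Type} [Fintype ι] [DecidableEq ι] [Fintype J] [DecidableEq J]

omit [Fintype ι] [Fintype J] in
theorem D1a_factor (s : Sys ι J) (j : J) (E : Finset ι) (t : ℕ)
    (ht : ∀ i ∈ E, s.pr i ∣ s.b j + s.M * t) (κ : ι → Option J) (i : ι) :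
    (κ i).elim 1 (fun j => s.u i j t) =
      (rem κ E i).elim 1 (fun j => s.u i j t) * (if i ∈ E then vE s j i (κ i) else 1) := by
  by_cases hi : i ∈ E
  · have hr : rem κ E i = none := by simp [rem, hi]
    rw [hr, if_pos hi]
    rcases hk : κ i with _ | j'
    · simp [vE]
    · by_cases hj : j' = j
      · subst hj
        have := ht i hi
        simp [vE, Sys.u, this]
      · have hnd : ¬ s.pr i ∣ s.b j' + s.M * t := by
          intro hd
          have h1 := ht i hi
          apply s.dist i j' j hj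
          have h2 : s.b j' + s.M * t ≡ s.b j + s.M * t [MOD s.pr i] := by
            rw [Nat.ModEq, Nat.mod_eq_zero_of_dvd hd, Nat.mod_eq_zero_of_dvd h1]
          exact Nat.ModEq.add_right_cancel' _ h2
        simp [vE, Sys.u, hnd, hj]
  · have hr : rem κ E i = κ i := by simp [rem, hi]
    rw [hr, if_neg hi, mul_one]

omit [Fintype J] in
theorem D1a_U (s : Sys ι J) (j : J) (E : Finset ι) (t : ℕ)
    (ht : ∀ i ∈ E, s.pr i ∣ s.b j + s.M * t) (κ : ι → Option J) :
    s.U κ t = s.U (rem κ E) t * ∏ i ∈ E, vE s j i (κ i) := by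
  unfold Sys.U
  rw [Finset.prod_congr rfl fun i _ => D1a_factor s j E t ht κ i, Finset.prod_mul_distrib]
  congr 1
  rw [Finset.prod_ite_mem, Finset.univ_inter]

/-- If `pr i ∣ form j (t)` for all `i ∈ E` then no `pr i` divides another form (`s.dist`), so
`U κ t = U (rem κ E) t · ∏_{i ∈ E} vE s j i (κ i)`; sum over the fibres of `κ ↦ rem κ E`
(the `κ` with `κ i ≠ none` for some `i ∈ E` are not of the form `rem κ₂ E`). -/
theorem sum_cE (s : Sys ι J) (j : J) (E : Finset ι) (c : (ι → Option J) → ℝ) (t : ℕ)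
    (ht : ∀ i ∈ E, s.pr i ∣ s.b j + s.M * t) :
    ∑ κ, c κ * s.U κ t =
      ∑ κ ∈ univ.filter (fun κ : ι → Option J => ∀ i ∈ E, κ i = none),
        cE s j E c κ * s.U κ t := by
  have h1 : ∑ κ, c κ * s.U κ t =
      ∑ κ, c κ * (∏ i ∈ E, vE s j i (κ i)) * s.U (rem κ E) t := by
    refine Finset.sum_congr rfl fun κ _ => ?_
    rw [D1a_U s j E t ht κ]
    ring
  rw [h1, ← Finset.sum_fiberwise_of_maps_to
    (t := univ.filter (fun κ : ι → Option J => ∀ i ∈ E, κ i = none)) (g := fun κ => rem κ E)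
    (fun κ _ => by
      simp only [Finset.mem_filter, Finset.mem_univ, true_and]
      intro i hi
      simp [rem, hi])]
  refine Finset.sum_congr rfl fun κ' _ => ?_
  unfold cE
  rw [Finset.sum_mul]
  refine Finset.sum_congr rfl fun κ₂ hκ₂ => ?_
  rw [(Finset.mem_filter.mp hκ₂).2]

end Pool.Agent.Lib.H59D
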