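import Pool.Agent.Lib.H59D.D0
import Pool.Agent.Lib.H5C.PM4b
import Pool.Agent.Lib.H5C.PM5

/-!
# Chunk D2: bounds for the restricted coefficients
-/

open Finset

namespace Pool.Agent.Lib.H59D

open Pool.Agent.Lib.H56G
open Pool.Agent.Lib.H5C (rem)

variable {ι J : Type} [Fintype ι] [DecidableEq ι] [Fintype J] [DecidableEq J]

theorem D2_p (s : Sys ι J) (i : ι) : (0 : ℝ) < (s.pr i : ℝ) - 1 := by
  have hp : (2 : ℝ) ≤ s.pr i := by exact_mod_cast (s.prime i).two_le
  linarith

/-- Taking one prime away. -/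
theorem D2_step (s : Sys ι J) {α D : ℝ} (hα : 0 ≤ α) (hD : 1 < D) (κ : ι → Option J) (i : ι) :
    cc s (bg s α D) D κ ≤ (if κ i = none then 1 else 1 / ((s.pr i : ℝ) - 1)) *
      cc s (bg s α D) D (fun i' => if i' = i then none else κ i') := by
  by_cases hi : κ i = none
  · have h : (fun i' => if i' = i then none else κ i') = κ := by
      funext i'
      by_cases h' : i' = i
      · subst h'
        rw [if_pos rfl, hi]
      · rw [if_neg h']
    rw [h, if_pos hi, one_mul]
  · rw [if_neg hi]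
    obtain ⟨j, hj⟩ : ∃ j, κ i = some j := Option.ne_none_iff_exists'.mp hi
    have hp := D2_p s i
    have hpart : part (fun i' => if i' = i then none else κ i') j = (part κ j).erase i := by
      ext i'
      rw [off_mem_part, Finset.mem_erase, off_mem_part]
      by_cases h : i' = i
      · simp [h]
      · simp [h]
    have hother : ∀ j' ∈ univ.erase j,
        part (fun i' => if i' = i then none else κ i') j' = part κ j' := by
      intro j' hj'
      have hne := Finset.ne_of_mem_erase hj'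
      ext i'
      rw [off_mem_part, off_mem_part]
      by_cases h : i' = i
      · subst h
        rw [if_pos rfl, hj]
        simp [hne.symm]
      · simp [h]
    have hrem : rem κ {i} = fun i' => if i' = i then none else κ i' := by
      funext i'
      unfold rem
      by_cases h : i' = i
      · simp [h]
      · simp [h]
    have hr := Pool.Agent.Lib.H5C.PM5b_r_rem s κ {i}
    rw [hrem] at hr
    rw [cc_bg]
    split_ifs with h
    · rw [cc_bg, if_pos (hr.trans h)]
      rw [← Finset.mul_prod_erase univ _ (Finset.mem_univ j),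
        ← Finset.mul_prod_erase univ (fun j' => ga s α D
          (part (fun i' => if i' = i then none else κ i') j')) (Finset.mem_univ j), hpart,
        Finset.prod_congr rfl (fun j' hj' => by rw [hother j' hj'] :
          ∀ j' ∈ univ.erase j, ga s α D
            (part (fun i' => if i' = i then none else κ i') j') = ga s α D (part κ j')),
        ← mul_assoc]
      refine mul_le_mul_of_nonneg_right ?_
        (Finset.prod_nonneg fun j' _ => ga_nonneg s hα D _)
      exact ga_erase s hα hD.le (part κ j) i ((off_mem_part κ j i).mpr hj)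
    · exact mul_nonneg (by positivity) (cc_bg_nonneg s hα D _)

theorem D2_cc_rem (s : Sys ι J) {α D : ℝ} (hα : 0 ≤ α) (hD : 1 < D) (κ : ι → Option J)
    (E : Finset ι) :
    cc s (bg s α D) D κ ≤ (∏ i ∈ E, if κ i = none then 1 else 1 / ((s.pr i : ℝ) - 1)) *
      cc s (bg s α D) D (rem κ E) := by
  induction E using Finset.induction_on with
  | empty =>
    have h : rem κ ∅ = κ := by
      funext i
      simp [rem]
    rw [h]
    simp
  | insert a E ha ih =>
    have hstep := D2_step s hα hD (rem κ E) a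
    have hrem : (fun i' => if i' = a then none else rem κ E i') = rem κ (insert a E) := by
      funext i'
      unfold rem
      by_cases h1 : i' = a
      · simp [h1]
      · simp [h1, Finset.mem_insert]
    have ha' : rem κ E a = κ a := by
      unfold rem
      rw [if_neg ha]
    rw [hrem, ha'] at hstep
    rw [Finset.prod_insert ha, mul_comm (if κ a = none then (1 : ℝ) else 1 / ((s.pr a : ℝ) - 1)),
      mul_assoc]
    refine ih.trans (mul_le_mul_of_nonneg_left hstep (Finset.prod_nonneg fun i _ => ?_))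
    have := D2_p s i
    split_ifs
    · exact zero_le_one
    · positivity

/-- `cw κ ≤ cc κ` and induction on `E` with `ga_erase` (as `H5C.wt_rem`; `r (rem κ E) ≤ r κ`). -/
theorem cw_rem (s : Sys ι J) {α D : ℝ} (hα : 0 ≤ α) (hD : 1 < D) (κ : ι → Option J)
    (E : Finset ι) :
    cw s α D κ ≤ (∏ i ∈ E, if κ i = none then 1 else 1 / ((s.pr i : ℝ) - 1)) *
      cc s (bg s α D) D (rem κ E) :=
  (cw_le_cc s hα hD κ).trans (D2_cc_rem s hα hD κ E)

/-- The factor at one prime. -/
noncomputable def D2_H (s : Sys ι J) (j : J) (i : ι) (a : Option J) : ℝ :=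
  (if a = none then 1 else 1 / ((s.pr i : ℝ) - 1)) * |vE s j i a|

theorem D2_sum (s : Sys ι J) (W : ℕ)
    (hpr : ∀ i, W < s.pr i) (hJ : Fintype.card J ≤ W) (j : J) (i : ι) :
    ∑ a : Option J, D2_H s j i a ≤ 3 := by
  have hp := D2_p s i
  have h1 : ((Fintype.card J : ℕ) : ℝ) + 1 ≤ s.pr i := by
    have : Fintype.card J + 1 ≤ s.pr i := by have := hpr i; omega
    exact_mod_cast this
  have hnone : D2_H s j i none = 1 := by
    unfold D2_H vE
    simp
  have hj : D2_H s j i (some j) = 1 := by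
    unfold D2_H vE
    simp only [reduceCtorEq, if_false, if_true]
    rw [show (1 : ℝ) - (s.pr i : ℝ) = -((s.pr i : ℝ) - 1) by ring, abs_neg, abs_of_pos hp]
    field_simp
  have hother : ∀ j' ∈ univ.erase j, D2_H s j i (some j') = 1 / ((s.pr i : ℝ) - 1) := by
    intro j' hj'
    have hne := Finset.ne_of_mem_erase hj'
    unfold D2_H vE
    have : ¬ (some j' = some j) := fun h => hne (Option.some.inj h)
    simp [hne]
  rw [Fintype.sum_option, hnone, ← Finset.add_sum_erase univ _ (Finset.mem_univ j), hj,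
    Finset.sum_congr rfl hother, Finset.sum_const, Finset.card_erase_of_mem (Finset.mem_univ j),
    Finset.card_univ, nsmul_eq_mul]
  have h2 : ((Fintype.card J - 1 : ℕ) : ℝ) ≤ (s.pr i : ℝ) - 1 := by
    have : ((Fintype.card J - 1 : ℕ) : ℝ) ≤ (Fintype.card J : ℝ) := by
      exact_mod_cast Nat.sub_le _ _
    linarith
  have h3 : ((Fintype.card J - 1 : ℕ) : ℝ) * (1 / ((s.pr i : ℝ) - 1)) ≤ 1 := by
    rw [mul_one_div, div_le_one hp]
    exact h2
  linarith

theorem D2_H_nonneg (s : Sys ι J) (j : J) (i : ι) (a : Option J) : 0 ≤ D2_H s j i a := by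
  unfold D2_H
  have hp := D2_p s i
  refine mul_nonneg ?_ (abs_nonneg _)
  split_ifs
  · exact zero_le_one
  · positivity

/-- For `κ = none` on `E`: by `cw_rem` and `|vE| ≤ p - 1` for `a = some j`, `1` otherwise,
`|cE κ| ≤ cc κ Σ_{κ₂ : rem κ₂ E = κ} ∏_{i ∈ E} H_i(κ₂ i)`, `H_i none = 1`, `H_i (some j) = 1`,
`H_i (some j') = 1/(p-1)`; the sum over the fibre is `∏_{i ∈ E} Σ_a H_i a ≤ ∏ (1 + 1 + |J|/(p-1)) ≤ 3^|E|`
(`H5C.sum_rem` with `F` = indicator of `κ`). -/
theorem abs_cE_le (s : Sys ι J) {α D : ℝ} (hα : 0 ≤ α) (hD : 1 < D) (W : ℕ)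
    (hpr : ∀ i, W < s.pr i) (hJ : Fintype.card J ≤ W) (j : J) (E : Finset ι)
    (κ : ι → Option J) (hκ : ∀ i ∈ E, κ i = none) :
    |cE s j E (cw s α D) κ| ≤ 3 ^ E.card * cc s (bg s α D) D κ := by
  have hcc := cc_bg_nonneg s hα D κ
  have h1 : |cE s j E (cw s α D) κ| ≤
      ∑ κ₂ ∈ univ.filter (fun κ₂ : ι → Option J => rem κ₂ E = κ),
        cc s (bg s α D) D κ * ∏ i ∈ E, D2_H s j i (κ₂ i) := by
    unfold cE
    refine (Finset.abs_sum_le_sum_abs _ _).trans (Finset.sum_le_sum fun κ₂ hκ₂ => ?_)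
    have hr := (Finset.mem_filter.1 hκ₂).2
    rw [abs_mul, abs_of_nonneg (cw_nonneg s hα D κ₂), Finset.abs_prod]
    have h2 := cw_rem s hα hD κ₂ E
    rw [hr] at h2
    refine (mul_le_mul_of_nonneg_right h2 (Finset.prod_nonneg fun i _ => abs_nonneg _)).trans ?_
    unfold D2_H
    rw [Finset.prod_mul_distrib]
    exact le_of_eq (by ring)
  have h2 := Pool.Agent.Lib.H5C.sum_rem E
    (fun κ' : ι → Option J => if κ' = κ then cc s (bg s α D) D κ else 0) (D2_H s j)
  have h3 : ∑ κ₂ : ι → Option J, (if rem κ₂ E = κ then cc s (bg s α D) D κ else 0) *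
      ∏ i ∈ E, D2_H s j i (κ₂ i) =
      ∑ κ₂ ∈ univ.filter (fun κ₂ : ι → Option J => rem κ₂ E = κ),
        cc s (bg s α D) D κ * ∏ i ∈ E, D2_H s j i (κ₂ i) := by
    rw [Finset.sum_filter]
    refine Finset.sum_congr rfl fun κ₂ _ => ?_
    split_ifs
    · rfl
    · rw [zero_mul]
  rw [h3] at h2
  have h4 : ∑ κ' ∈ univ.filter (fun κ' : ι → Option J => ∀ i ∈ E, κ' i = none),
      (if κ' = κ then cc s (bg s α D) D κ else 0) = cc s (bg s α D) D κ := by
    rw [Finset.sum_ite_eq', if_pos (Finset.mem_filter.2 ⟨Finset.mem_univ _, hκ⟩)]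
  rw [h4] at h2
  rw [h2] at h1
  refine h1.trans (mul_le_mul_of_nonneg_right ?_ hcc)
  calc (∏ i ∈ E, ∑ a : Option J, D2_H s j i a) ≤ ∏ _i ∈ E, (3 : ℝ) :=
        Finset.prod_le_prod (fun i _ => Finset.sum_nonneg fun a _ => D2_H_nonneg s j i a)
          (fun i _ => D2_sum s W hpr hJ j i)
    _ = 3 ^ E.card := by rw [Finset.prod_const]

end Pool.Agent.Lib.H59D
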