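import Pool.Agent.Lib.H59D.Defs

/-!
# Chunk NUM: numerical consequences of the regime (pure asymptotics)
-/

open Finset

namespace Pool.Agent.Lib.H59D

open Pool.Agent.Lib.H5C (WX)

/-- Numerical facts used in the other chunks (`B` is any constant). -/
structure NumF (η B : ℝ) (X k : ℕ) : Prop where
  k1 : 1 ≤ k
  llX : B ≤ Real.log (Real.log X)
  lX : B ≤ Real.log X
  kL : B * (el k * k * Real.log (Real.log X)) ≤ Real.log X
  k_le : (k : ℝ) ≤ Real.log X
  W_ge : (Real.log X) ^ 16 ≤ (WX X : ℝ)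
  W_le : (WX X : ℝ) ≤ 2 * (Real.log X) ^ 16
  W_two : 2 ≤ WX X
  kW : k ≤ WX X
  lW_ge : 16 * Real.log (Real.log X) ≤ Real.log (WX X)
  lW_le : Real.log (WX X) ≤ 17 * Real.log (Real.log X)
  WN : WX X ≤ NN η X
  N_le : (NN η X : ℝ) ≤ (X : ℝ) ^ η
  lN_le : Real.log (NN η X) ≤ η * Real.log X
  lN_ge : η / 2 * Real.log X ≤ Real.log (NN η X)
  lN_B : B ≤ Real.log (NN η X)
  N_B : B ≤ (NN η X : ℝ)
  N_pow : B * (NN η X : ℝ) ^ 50 ≤ (X : ℝ) ^ (1 / 8 : ℝ)
  logpow : B * (Real.log X) ^ 100 ≤ (X : ℝ) ^ (η / 2)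
  ps : Real.exp (6 * (k + 1) * Real.log (NN η X) / (WX X : ℝ)) ≤ 5 / 4
  RR : Real.exp (3 * k / √(WX X : ℝ) + 6 * k * Real.log (NN η X) / (WX X : ℝ)) ≤ 3 / 2

private theorem num_ev (c : ℝ) (hc : 0 < c) (n : ℕ) (B : ℝ) :
    ∀ᶠ L : ℝ in Filter.atTop, B * L ^ n ≤ Real.exp (c * L) := by
  have h := (isLittleO_pow_exp_pos_mul_atTop n hc).def (c := 1 / (|B| + 1)) (by positivity)
  filter_upwards [h, Filter.eventually_ge_atTop 0] with L hL hL0
  have h1 : ‖L ^ n‖ = L ^ n := by
    rw [Real.norm_eq_abs, abs_of_nonneg (by positivity)]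
  have h2 : ‖Real.exp (c * L)‖ = Real.exp (c * L) := by
    rw [Real.norm_eq_abs, abs_of_nonneg (Real.exp_pos _).le]
  rw [h1, h2, div_mul_eq_mul_div, one_mul, le_div_iff₀ (by positivity)] at hL
  have h3 : B ≤ |B| + 1 := (le_abs_self B).trans (by linarith)
  have h4 : 0 ≤ L ^ n := by positivity
  nlinarith

/-- Proof: `K` large depending on `η`, `B` (`X → ∞` is contained in `K ≤ loglog X`; `k ≤ k ℓ ≤ log X`).
`W = ⌈L^16⌉`, `L = log X`; `N = ⌊X^η⌋`, `log N ≥ η L - 1 ≥ (η/2) L`; `N^50 ≤ X^(50 η) ≤ X^(1/20)`. -/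
theorem numF : ∀ η : ℝ, 0 < η → η ≤ 1 / 1000 → ∀ B : ℝ, ∃ K : ℝ, 1 ≤ K ∧
    ∀ X k : ℕ, Rg K X k → NumF η B X k := by
  intro η hη hη1 B
  have hev := ((num_ev η hη 16 2).and (num_ev (η / 2) (by positivity) 0 2)).and
    (((num_ev (3 / 40) (by norm_num) 0 B).and (num_ev (η / 2) (by positivity) 100 B)).and
    (Filter.eventually_ge_atTop (2 * B / η)))
  obtain ⟨L0, hL0⟩ := Filter.eventually_atTop.mp hev
  refine ⟨max (max 1 B) L0, (le_max_left _ _).trans (le_max_left _ _), ?_⟩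
  intro X k hRg
  obtain ⟨hk1, hKll, hKk⟩ := hRg
  set K := max (max 1 B) L0 with hK
  have hK1 : 1 ≤ K := (le_max_left _ _).trans (le_max_left _ _)
  have hKB : B ≤ K := (le_max_right _ _).trans (le_max_left _ _)
  have hKL : L0 ≤ K := le_max_right _ _
  set L := Real.log X with hL
  set ll := Real.log L with hll
  have hLnn : 0 ≤ L := Real.log_natCast_nonneg X
  have hll1 : 1 ≤ ll := hK1.trans hKll
  have hLpos : 0 < L := by
    rcases hLnn.lt_or_eq with h | h
    · exact h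
    · exfalso
      rw [hll, ← h, Real.log_zero] at hll1
      linarith
  have hLexp : L = Real.exp ll := (Real.exp_log hLpos).symm
  have hllL : ll + 1 ≤ L := by
    rw [hLexp]; exact Real.add_one_le_exp ll
  have hL2 : 2 ≤ L := by linarith
  have hXpos : (0 : ℝ) < X := by
    rcases Nat.eq_zero_or_pos X with h | h
    · exfalso
      rw [hL, h, Nat.cast_zero, Real.log_zero] at hL2
      linarith
    · exact_mod_cast h
  have hX1 : (1 : ℝ) ≤ X := by
    have : 0 < X := by exact_mod_cast hXpos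
    exact_mod_cast this
  have hXpow : ∀ a : ℝ, (X : ℝ) ^ a = Real.exp (a * L) := by
    intro a
    rw [Real.rpow_def_of_pos hXpos, mul_comm]
  obtain ⟨⟨he1, he2⟩, ⟨he3, he4⟩, he5⟩ := hL0 L (by linarith)
  rw [pow_zero, mul_one] at he2 he3
  have hkR : (1 : ℝ) ≤ k := by exact_mod_cast hk1
  have hel := el_one_le hk1
  have hprod : (k : ℝ) ≤ el k * k * ll := by
    have h1 : (k : ℝ) ≤ el k * k := by nlinarith
    nlinarith
  have hprod0 : 0 ≤ el k * k * ll := by linarith
  have hkle : (k : ℝ) ≤ L := by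
    have : el k * k * ll ≤ K * (el k * k * ll) := by nlinarith
    linarith
  have hLp : ∀ n : ℕ, 1 ≤ n → L ≤ L ^ n := fun n hn => le_self_pow₀ (by linarith) (by omega)
  have hWge : L ^ 16 ≤ (WX X : ℝ) := Nat.le_ceil _
  have hL16 : L ≤ L ^ 16 := hLp 16 (by norm_num)
  have hWle : (WX X : ℝ) ≤ 2 * L ^ 16 := by
    have : (WX X : ℝ) < L ^ 16 + 1 := Nat.ceil_lt_add_one (by positivity)
    linarith
  have hWpos : (0 : ℝ) < WX X := by linarith
  have hNle : (NN η X : ℝ) ≤ (X : ℝ) ^ η := Nat.floor_le (by positivity)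
  have hWN : WX X ≤ NN η X := by
    apply Nat.le_floor
    rw [hXpow]
    linarith
  have hNge : (X : ℝ) ^ η < (NN η X : ℝ) + 1 := Nat.lt_floor_add_one _
  have hN1 : (2 : ℝ) ≤ NN η X := by
    have : (WX X : ℝ) ≤ NN η X := by exact_mod_cast hWN
    linarith
  have hlNle : Real.log (NN η X) ≤ η * L := by
    have h1 := Real.log_le_log (by linarith) hNle
    rwa [hXpow, Real.log_exp] at h1
  have hlNge : η / 2 * L ≤ Real.log (NN η X) := by
    have h1 : Real.exp (η / 2 * L) ≤ NN η X := by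
      have h2 : Real.exp (η * L) = Real.exp (η / 2 * L) * Real.exp (η / 2 * L) := by
        rw [← Real.exp_add]; congr 1; ring
      have h3 : (X : ℝ) ^ η = Real.exp (η * L) := hXpow η
      rw [h3, h2] at hNge
      nlinarith
    rw [Real.le_log_iff_exp_le (by linarith)]
    exact h1
  have hlNB : B ≤ Real.log (NN η X) := by
    have h1 : B ≤ η / 2 * L := by
      rw [div_le_iff₀ hη] at he5
      linarith
    linarith
  have hNB : B ≤ (NN η X : ℝ) := by
    have := Real.log_le_self (x := (NN η X : ℝ)) (by linarith)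
    linarith
  have hlN0 : 0 ≤ Real.log (NN η X) := Real.log_nonneg (by linarith)
  have hlNL : Real.log (NN η X) ≤ L / 1000 := by nlinarith
  -- the estimate 6 (k+1) log N / W ≤ 1/5
  have hq : 6 * (k + 1) * Real.log (NN η X) / (WX X : ℝ) ≤ 1 / 6 := by
    rw [div_le_iff₀ hWpos]
    have h1 : 6 * ((k : ℝ) + 1) * Real.log (NN η X) ≤ 6 * (2 * L) * (L / 1000) := by
      apply mul_le_mul _ hlNL hlN0 (by positivity)
      linarith
    have h2 : L ^ 2 ≤ L ^ 16 := pow_le_pow_right₀ (by linarith) (by norm_num)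
    have h3 : 6 * (2 * L) * (L / 1000) = 12 / 1000 * L ^ 2 := by ring
    have h4 : 0 ≤ L ^ 2 := by positivity
    rw [h3] at h1
    linarith
  have hq' : 6 * k * Real.log (NN η X) / (WX X : ℝ) ≤ 1 / 6 := by
    refine le_trans ?_ hq
    apply div_le_div_of_nonneg_right _ hWpos.le
    apply mul_le_mul_of_nonneg_right _ hlN0
    linarith
  have hsq : 3 * k / √(WX X : ℝ) ≤ 1 / 6 := by
    have h1 : L ^ 8 ≤ √(WX X : ℝ) := by
      apply Real.le_sqrt_of_sq_le
      calc (L ^ 8) ^ 2 = L ^ 16 := by ring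
        _ ≤ _ := hWge
    have h2 : (0 : ℝ) < √(WX X : ℝ) := Real.sqrt_pos.mpr hWpos
    rw [div_le_iff₀ h2]
    have h3 : (2 : ℝ) ^ 7 ≤ L ^ 7 := pow_le_pow_left₀ (by norm_num) hL2 7
    have h4 : L ^ 8 = L ^ 7 * L := by ring
    have h5 : 128 * L ≤ L ^ 8 := by
      rw [h4]
      exact mul_le_mul_of_nonneg_right (by linarith) (by linarith)
    linarith
  refine ⟨hk1, hKB.trans hKll, by linarith, ?_, hkle, hWge, hWle, ?_, ?_, ?_, ?_, hWN, hNle,
    hlNle, hlNge, hlNB, hNB, ?_, ?_, ?_, ?_⟩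
  · refine le_trans ?_ hKk
    exact mul_le_mul_of_nonneg_right hKB hprod0
  · have : (2 : ℝ) ≤ WX X := by linarith
    exact_mod_cast this
  · have : (k : ℝ) ≤ WX X := by linarith
    exact_mod_cast this
  · have h1 := Real.log_le_log (by positivity) hWge
    rw [Real.log_pow] at h1
    push_cast at h1
    exact h1
  · have h1 := Real.log_le_log hWpos hWle
    rw [Real.log_mul (by norm_num) (by positivity), Real.log_pow] at h1
    push_cast at h1
    have h2 : Real.log 2 ≤ 1 := by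
      have := Real.log_two_lt_d9
      linarith
    linarith
  · have h1 : (NN η X : ℝ) ^ 50 ≤ Real.exp (1 / 20 * L) := by
      calc (NN η X : ℝ) ^ 50 ≤ ((X : ℝ) ^ η) ^ 50 := pow_le_pow_left₀ (by linarith) hNle 50
        _ = Real.exp (50 * (η * L)) := by
            rw [hXpow, ← Real.exp_nat_mul]; push_cast; rfl
        _ ≤ Real.exp (1 / 20 * L) := by
            apply Real.exp_le_exp.mpr
            nlinarith
    rw [hXpow]
    have h2 : Real.exp (1 / 8 * L) = Real.exp (3 / 40 * L) * Real.exp (1 / 20 * L) := by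
      rw [← Real.exp_add]; congr 1; ring
    rw [h2]
    exact mul_le_mul he3 h1 (by positivity) (Real.exp_pos _).le
  · rw [hXpow]
    exact he4
  · have h1 : (1 : ℝ) / 5 ≤ Real.log (5 / 4) := by
      have := Real.one_sub_inv_le_log_of_pos (x := 5 / 4) (by norm_num)
      norm_num at this ⊢
      linarith
    rw [← Real.le_log_iff_exp_le (by norm_num)]
    linarith
  · have h1 : (1 : ℝ) / 3 ≤ Real.log (3 / 2) := by
      have := Real.one_sub_inv_le_log_of_pos (x := 3 / 2) (by norm_num)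
      norm_num at this ⊢
      linarith
    rw [← Real.le_log_iff_exp_le (by norm_num)]
    linarith

end Pool.Agent.Lib.H59D
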