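import Pool.Agent.Lib.H59D.W5a
import Pool.Agent.Lib.H5C.TH4

/-!
# Chunk W5b: the total weight and the weights of the configurations which do not use a form
-/

open Finset

namespace Pool.Agent.Lib.H59D

open Pool.Agent.Lib.H56G

variable {ι J : Type} [Fintype ι] [DecidableEq ι] [Fintype J] [DecidableEq J]

theorem W5b_V_nonneg (s : Sys ι J) (bb : Finset ι → ℝ) :
    0 ≤ ∑ A ∈ univ.filter (fun A : Finset ι => A ≠ ∅), vv s bb A :=
  Finset.sum_nonneg fun A _ => cher2_vv_nonneg s bb A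

theorem W5b_noJ (s : Sys ι J) (bb : Finset ι → ℝ) (W : ℕ) (hW : 1 ≤ W) (hpr : ∀ i, W < s.pr i)
    (hvv : ∀ A, ∀ i ∈ A, vv s bb A ≤ 1 / ((s.pr i : ℝ) - 1) * vv s bb (A.erase i))
    (hsup : ∀ κ, wt s bb κ ≠ 0 → 2 * (supp κ).card ≤ W) (j : J) :
    (1 + ∑ A ∈ univ.filter (fun A : Finset ι => A ≠ ∅), vv s bb A) / 2 *
        ∑ κ ∈ noJ j, wt s bb κ ≤ ZZ s bb := by
  have h := W5a_gen s bb W hW hpr hvv hsup j (fun _ => 1) (fun _ => zero_le_one)
    (fun _ _ _ _ => le_rfl)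
  simp only [one_mul] at h
  exact h

/-- The same twice: first insert in `j1`, then in `j2` (`ins κ j1 A ∈ noJ j2` if `κ ∈ noJ j2`,
`j1 ≠ j2`; `H5C.th4_ins_noJ`). -/
theorem noJ2_ge (s : Sys ι J) (bb : Finset ι → ℝ) (W : ℕ) (hW : 1 ≤ W) (hpr : ∀ i, W < s.pr i)
    (hvv : ∀ A, ∀ i ∈ A, vv s bb A ≤ 1 / ((s.pr i : ℝ) - 1) * vv s bb (A.erase i))
    (hsup : ∀ κ, wt s bb κ ≠ 0 → 2 * (supp κ).card ≤ W) (j1 j2 : J) (hj : j1 ≠ j2) :
    ((1 + ∑ A ∈ univ.filter (fun A : Finset ι => A ≠ ∅), vv s bb A) / 2) ^ 2 *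
        ∑ κ ∈ (noJ j1).filter (fun κ => κ ∈ noJ j2), wt s bb κ ≤ ZZ s bb := by
  classical
  have hV := W5b_V_nonneg s bb
  have h := W5a_gen s bb W hW hpr hvv hsup j1 (fun κ => if κ ∈ noJ j2 then 1 else 0)
    (fun κ => by split_ifs <;> norm_num) (by
      intro κ _ A _
      by_cases h1 : κ ∈ noJ j2
      · have h2 : ins κ j1 A ∈ noJ j2 := Pool.Agent.Lib.H5C.th4_ins_noJ κ j2 j1 hj.symm h1 A
        rw [if_pos h1, if_pos h2]
      · rw [if_neg h1]
        split_ifs <;> norm_num)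
  have e1 : ∑ κ ∈ (noJ j1).filter (fun κ => κ ∈ noJ j2), wt s bb κ =
      ∑ κ ∈ noJ j1, (if κ ∈ noJ j2 then (1 : ℝ) else 0) * wt s bb κ := by
    rw [Finset.sum_filter]
    refine Finset.sum_congr rfl fun κ _ => ?_
    split_ifs <;> simp
  have e2 : ∑ κ ∈ noJ j2, wt s bb κ =
      ∑ κ : ι → Option J, (if κ ∈ noJ j2 then (1 : ℝ) else 0) * wt s bb κ := by
    have e3 : ∑ κ ∈ noJ j2, wt s bb κ =
        ∑ κ ∈ univ.filter (fun κ : ι → Option J => κ ∈ noJ j2), wt s bb κ := by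
      congr 1
      ext κ
      simp
    rw [e3, Finset.sum_filter]
    refine Finset.sum_congr rfl fun κ _ => ?_
    split_ifs <;> simp
  rw [← e1, ← e2] at h
  have h2 := W5b_noJ s bb W hW hpr hvv hsup j2
  have h3 : 0 ≤ (1 + ∑ A ∈ univ.filter (fun A : Finset ι => A ≠ ∅), vv s bb A) / 2 := by
    positivity
  have h4 := mul_le_mul_of_nonneg_left h h3
  calc _ = _ := by rw [pow_two, mul_assoc]
    _ ≤ _ := h4
    _ ≤ _ := h2

/-- `log r κ = Σ_j log ρ(part κ j)` (`r_eq_prod_part`), and for every `j` by `sum_off`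
`Σ_κ wt κ log ρ(part κ j) = Σ_{κ' ∈ noJ j} wt κ' Σ_{A ⊆ free κ'} vv A log ρ(A)
≤ (Σ_{A ≠ ∅} vv A log ρ A) Σ_{noJ j} wt ≤ (Σ_{A ≠ ∅} vv A log ρ A) · 2 ZZ/(1 + Σ vv)` (`noJ_ge`, `B = 0`). -/
theorem mean_log (s : Sys ι J) (bb : Finset ι → ℝ) (W : ℕ) (hW : 1 ≤ W) (hpr : ∀ i, W < s.pr i)
    (hvv : ∀ A, ∀ i ∈ A, vv s bb A ≤ 1 / ((s.pr i : ℝ) - 1) * vv s bb (A.erase i))
    (hsup : ∀ κ, wt s bb κ ≠ 0 → 2 * (supp κ).card ≤ W) :
    ∑ κ : ι → Option J, wt s bb κ * Real.log (s.r κ) ≤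
      Fintype.card J * (2 / (1 + ∑ A ∈ univ.filter (fun A : Finset ι => A ≠ ∅), vv s bb A) *
        (∑ A ∈ univ.filter (fun A : Finset ι => A ≠ ∅), vv s bb A * Real.log (s.rho A)) *
        ZZ s bb) := by
  have hV := W5b_V_nonneg s bb
  set V := ∑ A ∈ univ.filter (fun A : Finset ι => A ≠ ∅), vv s bb A with hVdef
  set S := ∑ A ∈ univ.filter (fun A : Finset ι => A ≠ ∅), vv s bb A * Real.log (s.rho A)
    with hSdef
  have hlog : ∀ A, 0 ≤ Real.log (s.rho A) := fun A => Real.log_nonneg (one_le_rho s A)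
  have hvl : ∀ A, 0 ≤ vv s bb A * Real.log (s.rho A) := fun A =>
    mul_nonneg (cher2_vv_nonneg s bb A) (hlog A)
  have hS0 : 0 ≤ S := Finset.sum_nonneg fun A _ => hvl A
  have hS : ∑ A : Finset ι, vv s bb A * Real.log (s.rho A) = S := by
    have h4 := Finset.sum_filter_add_sum_filter_not (univ : Finset (Finset ι))
      (fun A : Finset ι => A = ∅) (fun A => vv s bb A * Real.log (s.rho A))
    rw [← h4, hSdef]
    have h5 : ∑ A ∈ univ.filter (fun A : Finset ι => A = ∅),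
        vv s bb A * Real.log (s.rho A) = 0 := by
      refine Finset.sum_eq_zero fun A hA => ?_
      rw [(mem_filter.1 hA).2]
      simp [Sys.rho]
    rw [h5, zero_add]
  have hj : ∀ j : J, ∑ κ : ι → Option J, wt s bb κ * Real.log (s.rho (part κ j)) ≤
      2 / (1 + V) * S * ZZ s bb := by
    intro j
    rw [sum_off j]
    have h1 : ∀ κ ∈ noJ j, ∑ A ∈ (free κ).powerset,
        wt s bb (ins κ j A) * Real.log (s.rho (part (ins κ j A) j)) ≤ S * wt s bb κ := by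
      intro κ hκ
      have h2 : ∑ A ∈ (free κ).powerset,
          wt s bb (ins κ j A) * Real.log (s.rho (part (ins κ j A) j)) =
          (∑ A ∈ (free κ).powerset, vv s bb A * Real.log (s.rho A)) * wt s bb κ := by
        rw [Finset.sum_mul]
        refine Finset.sum_congr rfl fun A hA => ?_
        rw [Pool.Agent.Lib.H5C.th2_wt_ins s bb j κ hκ A (mem_powerset.1 hA),
          part_ins_same κ j hκ A (mem_powerset.1 hA)]
        ring
      rw [h2, ← hS]
      refine mul_le_mul_of_nonneg_right ?_ (wt_nonneg s bb κ)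
      exact Finset.sum_le_sum_of_subset_of_nonneg (Finset.subset_univ _) fun A _ _ => hvl A
    refine (Finset.sum_le_sum h1).trans ?_
    rw [← Finset.mul_sum]
    have h3 := W5b_noJ s bb W hW hpr hvv hsup j
    rw [← hVdef] at h3
    have h4 : ∑ κ ∈ noJ j, wt s bb κ ≤ 2 / (1 + V) * ZZ s bb := by
      rw [div_mul_eq_mul_div, le_div_iff₀ (by linarith)]
      linarith
    calc S * ∑ κ ∈ noJ j, wt s bb κ ≤ S * (2 / (1 + V) * ZZ s bb) :=
          mul_le_mul_of_nonneg_left h4 hS0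
      _ = _ := by ring
  have h6 : ∀ κ : ι → Option J, wt s bb κ * Real.log (s.r κ) =
      ∑ j, wt s bb κ * Real.log (s.rho (part κ j)) := by
    intro κ
    rw [r_eq_prod_part, Real.log_prod, Finset.mul_sum]
    intro j _
    have := one_le_rho s (part κ j)
    positivity
  simp_rw [h6]
  rw [Finset.sum_comm]
  refine (Finset.sum_le_sum fun j _ => hj j).trans ?_
  rw [Finset.sum_const, card_univ, nsmul_eq_mul]

end Pool.Agent.Lib.H59D
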