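import Pool.Agent.Lib.H59D.W5a
import Pool.Agent.Lib.H59D.W5b
import Pool.Agent.Lib.H59D.Num
import Pool.Agent.Lib.H56G.Cnt

/-!
# Chunk W6a: the supports are small
-/

open Finset

namespace Pool.Agent.Lib.H59D

open Pool.Agent.Lib.H56G
open Pool.Agent.Lib.H5C (WX)

/-- The supports are small: `log r κ ≤ k log N/4 ≤ (log X)²` (`wt_ne_zero`) and all primes are
`> W ≥ 2`, so `|supp κ| log 2 ≤ log r κ` (`H56G.card_supp_le`) and `W ≥ (log X)^16`. -/
theorem supp_small : ∀ η : ℝ, 0 < η → η ≤ 1 / 1000 → ∃ K : ℝ, 1 ≤ K ∧ ∀ (X : ℕ) {ι J : Type}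
    [Fintype ι] [DecidableEq ι] [Fintype J] [DecidableEq J] (s : Sys ι J) (α : ℝ),
    Rg K X (Fintype.card J) → ∀ κ : ι → Option J, wt s (bg s α (NN η X)) κ ≠ 0 →
    2 * (supp κ).card ≤ WX X := by
  intro η hη hη2
  obtain ⟨K, hK, hnum⟩ := numF η hη hη2 10
  refine ⟨K, hK, ?_⟩
  intro X ι J _ _ _ _ s α hRg κ hκ
  have hN := hnum X (Fintype.card J) hRg
  have hD : (1 : ℝ) < NN η X := by
    have := hN.N_B
    linarith
  have h1 := wt_ne_zero s hD κ hκ
  have h2 := card_supp_le s κ (s.r κ) le_rfl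
  set L := Real.log X with hL
  have hL10 : 10 ≤ L := hN.lX
  have hk := hN.k_le
  have hk0 : (0 : ℝ) ≤ Fintype.card J := Nat.cast_nonneg _
  have h3 : Real.log (NN η X) ≤ L := by
    have := hN.lN_le
    nlinarith
  have h30 : 0 ≤ Real.log (NN η X) := Real.log_nonneg hD.le
  have h4 : (Fintype.card J : ℝ) * (Real.log (NN η X) / 4) ≤ L * (L / 4) :=
    mul_le_mul hk (by linarith) (by linarith) (by linarith)
  have h5 : 2 * ((supp κ).card : ℝ) ≤ L ^ 2 := by nlinarith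
  have h6 : L ^ 2 ≤ L ^ 16 := pow_le_pow_right₀ (by linarith) (by norm_num)
  have h7 := hN.W_ge
  have h8 : (2 * (supp κ).card : ℝ) ≤ (WX X : ℝ) := by
    linarith
  exact_mod_cast h8

end Pool.Agent.Lib.H59D
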