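import Pool.Agent.Lib.H59D.W7a
import Pool.Agent.Lib.H5C.TH4

/-!
# Chunk W7b (two forms): the coefficients of the restrictions
-/

open Finset

namespace Pool.Agent.Lib.H59D

open Pool.Agent.Lib.H56G
open Pool.Agent.Lib.H5C (cr)

variable {ι J : Type} [Fintype ι] [DecidableEq ι] [Fintype J] [DecidableEq J]

/-- the sum of `ga` over a family of sets -/
theorem W7b_sum_ga (s : Sys ι J) {α : ℝ} (hα : 0 ≤ α) (D : ℝ) (F : Finset (Finset ι)) :
    ∑ A ∈ F, ga s α D A ≤ 1 + th s α D := by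
  have h1 : ∑ A ∈ F, ga s α D A ≤ ∑ A : Finset ι, ga s α D A :=
    Finset.sum_le_sum_of_subset_of_nonneg (Finset.subset_univ _) fun A _ _ => ga_nonneg s hα D A
  have h2 : ∑ A : Finset ι, ga s α D A = 1 + th s α D := by
    unfold th
    have h4 := Finset.sum_filter_add_sum_filter_not (univ : Finset (Finset ι))
      (fun A : Finset ι => A = ∅) (fun A => ga s α D A)
    rw [← h4, Finset.filter_eq' univ (∅ : Finset ι), if_pos (mem_univ _), sum_singleton,
      ga_empty]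
  linarith

/-- `cc (ins κ j A) ≤ ga A · cc κ` -/
theorem W7b_cc_ins (s : Sys ι J) {α : ℝ} (hα : 0 ≤ α) (D : ℝ) (j : J)
    (κ : ι → Option J) (hκ : κ ∈ noJ j) (A : Finset ι) (hA : A ⊆ free κ) :
    cc s (bg s α D) D (ins κ j A) ≤ ga s α D A * cc s (bg s α D) D κ := by
  rw [coef2_cc_ins s (bg s α D) D j κ hκ A hA, gam_bg]
  have hr0 : 0 ≤ s.r κ := le_trans zero_le_one (one_le_r s κ)
  have hp : 0 ≤ ∏ j, gam (bg s α D) (part κ j) :=
    Finset.prod_nonneg fun j _ => by rw [gam_bg]; exact ga_nonneg s hα D _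
  split_ifs with h
  · have h2 : s.r κ ≤ D := le_trans (le_mul_of_one_le_right hr0 (one_le_rho s A)) h
    unfold cc
    rw [if_pos h2]
  · exact mul_nonneg (ga_nonneg s hα D A) (cc_bg_nonneg s hα D κ)

/-- The same for two forms: `cp j2 (cr j1 (cw)) κ` is `0` if `κ ∉ noJ j1` (`H5C.th4_ins_not_noJ`), and for
`κ ∈ noJ j1 ∩ noJ j2` it is `Σ_{B ⊆ free κ} Σ_{A ⊆ free (ins κ j2 B)} cw (ins (ins κ j2 B) j1 A)`
with all terms in `[0, ga A ga B ∏ ga(part κ j')]` (and `0` if `r κ > D`). -/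
theorem cp_cr_le (s : Sys ι J) {α D : ℝ} (hα : 0 ≤ α) (hD : 1 < D) (j1 j2 : J) (hj : j1 ≠ j2)
    (κ : ι → Option J) (hκ : κ ∈ noJ j2) :
    0 ≤ cp j2 (cr j1 (cw s α D)) κ ∧
      cp j2 (cr j1 (cw s α D)) κ ≤
        if κ ∈ noJ j1 then (1 + th s α D) ^ 2 * cc s (bg s α D) D κ else 0 := by
  by_cases h1 : κ ∈ noJ j1
  · rw [if_pos h1]
    have hth : 0 ≤ th s α D := th_nonneg s hα D
    have h4 : cp j2 (cr j1 (cw s α D)) κ =
        ∑ B ∈ (free κ).powerset, cp j1 (cw s α D) (ins κ j2 B) := by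
      unfold cp
      refine Finset.sum_congr rfl fun B _ => ?_
      unfold cr
      rw [if_pos (Pool.Agent.Lib.H5C.th4_ins_noJ κ j1 j2 hj h1 B)]
      rfl
    rw [h4]
    have h5 : ∀ B ∈ (free κ).powerset, 0 ≤ cp j1 (cw s α D) (ins κ j2 B) ∧
        cp j1 (cw s α D) (ins κ j2 B) ≤
          (1 + th s α D) * (ga s α D B * cc s (bg s α D) D κ) := by
      intro B hB
      rw [Finset.mem_powerset] at hB
      have h6 := cp_le s hα hD j1 (ins κ j2 B)
        (Pool.Agent.Lib.H5C.th4_ins_noJ κ j1 j2 hj h1 B)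
      refine ⟨h6.1, h6.2.trans ?_⟩
      exact mul_le_mul_of_nonneg_left (W7b_cc_ins s hα D j2 κ hκ B hB) (by linarith)
    refine ⟨Finset.sum_nonneg fun B hB => (h5 B hB).1, ?_⟩
    refine (Finset.sum_le_sum fun B hB => (h5 B hB).2).trans ?_
    rw [← Finset.mul_sum, ← Finset.sum_mul, sq, mul_assoc]
    refine mul_le_mul_of_nonneg_left ?_ (by linarith)
    exact mul_le_mul_of_nonneg_right (W7b_sum_ga s hα D _) (cc_bg_nonneg s hα D κ)
  · rw [if_neg h1]
    have h2 : cp j2 (cr j1 (cw s α D)) κ = 0 := by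
      unfold cp
      refine Finset.sum_eq_zero fun B hB => ?_
      rw [Finset.mem_powerset] at hB
      unfold cr
      rw [if_neg (Pool.Agent.Lib.H5C.th4_ins_not_noJ κ j1 j2 h1 B hB)]
    rw [h2]
    exact ⟨le_rfl, le_rfl⟩

end Pool.Agent.Lib.H59D
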