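import Pool.Agent.Lib.H59D.Num
import Pool.Agent.Lib.H59D.W6a
import Pool.Agent.Lib.H59D.W7
import Pool.Agent.Lib.H56G.Cnt
import Pool.Agent.Lib.H56G.Schur2
import Pool.Agent.Lib.H56G.Main0
import Pool.Agent.Lib.H5C.TH5a

/-!
# Chunk U1: the total mass
-/

open Finset

namespace Pool.Agent.Lib.H59D

open Pool.Agent.Lib.H56G
open Pool.Agent.Lib.H5C (WX)

/-- `ps κ ≤ (5/4) ph κ` up to the level `N³` (`H56G.ps_le` with `D = N³`, `NumF.ps`). -/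
theorem ps_le_ph : ∀ η : ℝ, 0 < η → η ≤ 1 / 1000 → ∃ K : ℝ, 1 ≤ K ∧
    ∀ (X : ℕ) {ι J : Type} [Fintype ι] [DecidableEq ι] [Fintype J] [DecidableEq J]
      (s : Sys ι J), Sv η X s → Rg K X (Fintype.card J) → ∀ κ : ι → Option J,
      s.r κ ≤ (NN η X : ℝ) * NN η X * NN η X → s.ps κ ≤ 5 / 4 * s.ph κ := by
  intro η h0 h1
  obtain ⟨K, hK, hnum⟩ := numF η h0 h1 1
  refine ⟨K, hK, ?_⟩
  intro X ι J _ _ _ _ s hs hR κ hκ
  have hn := hnum X _ hR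
  have hN : (1 : ℝ) ≤ NN η X := hn.N_B
  have hW : 1 ≤ WX X := by
    have := hn.W_two
    omega
  have h2 := ps_le s (WX X) hW hs.lo κ _ hκ
  have h3 : Real.log ((NN η X : ℝ) * NN η X * NN η X) = 3 * Real.log (NN η X) := by
    rw [Real.log_mul (by positivity) (by positivity), Real.log_mul (by positivity) (by positivity)]
    ring
  rw [h3] at h2
  have h4 : 2 * ((Fintype.card J : ℝ) + 1) * (3 * Real.log (NN η X)) / (WX X : ℝ) =
      6 * ((Fintype.card J : ℝ) + 1) * Real.log (NN η X) / (WX X : ℝ) := by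
    ring
  rw [h4] at h2
  have hph : (0 : ℝ) ≤ s.ph κ := zero_le_one.trans (one_le_phi s (supp κ))
  exact h2.trans (mul_le_mul_of_nonneg_right hn.ps hph)


/-- Trivial bound: `|L t| ≤ Σ_{r κ ≤ N} r κ ≤ 3N² · N` (`H5C.th5_U_abs`, `H56G.card_le`,
`cw ≤ cc ≤ 1`, `cw_ne_zero`), as in `H5C.L_sq_le`. -/
theorem Lf_sq_le : ∀ η : ℝ, 0 < η → η ≤ 1 / 1000 → ∃ K : ℝ, 1 ≤ K ∧
    ∀ (X : ℕ) {ι J : Type} [Fintype ι] [DecidableEq ι] [Fintype J] [DecidableEq J]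
      (s : Sys ι J) (α : ℝ), Sv η X s → 0 < α → Rg K X (Fintype.card J) → ∀ t : ℕ,
      (Lf s α (NN η X) t) ^ 2 ≤ 9 * (NN η X : ℝ) ^ 6 := by
  intro η h0 h1
  obtain ⟨K, hK, hnum⟩ := numF η h0 h1 2
  refine ⟨K, hK, ?_⟩
  intro X ι J _ _ _ _ s α hs hα hR t
  have hn := hnum X _ hR
  have hN2 : (2 : ℝ) ≤ NN η X := hn.N_B
  have hN : (1 : ℝ) ≤ NN η X := by linarith
  have hN1 : (1 : ℝ) < NN η X := by linarith
  have hW : 1 ≤ WX X := by
    have := hn.W_two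
    omega
  set D : ℝ := (NN η X : ℝ) with hD
  have hc : ∀ κ : ι → Option J, cw s α D κ ≠ 0 → s.r κ ≤ D := fun κ h => cw_ne_zero s hN1 κ h
  have hc1 : ∀ κ : ι → Option J, |cw s α D κ| ≤ 1 := by
    intro κ
    rw [abs_of_nonneg (cw_nonneg s hα.le D κ)]
    exact (cw_le_cc s hα.le hN1 κ).trans (cc_bg_le_one s hα.le hN κ)
  have hsum := main0_sum_abs s (WX X) hW hs.lo hn.kW (cw s α D) D hN hc hc1
  have h2 : |∑ κ, cw s α D κ * s.U κ t| ≤ 3 * D ^ 2 * D := by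
    calc |∑ κ, cw s α D κ * s.U κ t| ≤ ∑ κ, |cw s α D κ * s.U κ t| :=
          Finset.abs_sum_le_sum_abs _ _
      _ ≤ ∑ κ, |cw s α D κ| * D := by
          refine Finset.sum_le_sum fun κ _ => ?_
          rw [abs_mul]
          by_cases h : cw s α D κ = 0
          · rw [h, abs_zero, zero_mul, zero_mul]
          · exact mul_le_mul_of_nonneg_left ((Pool.Agent.Lib.H5C.th5_U_abs s κ t).trans (hc κ h))
              (abs_nonneg _)
      _ = (∑ κ, |cw s α D κ|) * D := by rw [Finset.sum_mul]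
      _ ≤ 3 * D ^ 2 * D := mul_le_mul_of_nonneg_right hsum (by linarith)
  calc (Lf s α D t) ^ 2 = |∑ κ, cw s α D κ * s.U κ t| ^ 2 := (sq_abs _).symm
    _ ≤ (3 * D ^ 2 * D) ^ 2 := pow_le_pow_left₀ (abs_nonneg _) h2 2
    _ = 9 * D ^ 6 := by ring

/-- `H56G.sum_sq_le` with `D = N`: `Σ cw² ps ≤ (5/4) Σ cc² ph ≤ (5/4) ZZ` (`cw_le_cc`, `cc_sq_mul_ph`,
`wt_nonneg`), error `2N⁴(3N²)² = 18 N^8 ≤ X^(1/2)/8 ≤ (T/8) ZZ` (`card_le`, `NumF.N_pow`). -/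
theorem total_le : ∀ η : ℝ, 0 < η → η ≤ 1 / 1000 → ∃ K : ℝ, 1 ≤ K ∧
    ∀ (X : ℕ) {ι J : Type} [Fintype ι] [DecidableEq ι] [Fintype J] [DecidableEq J]
      (s : Sys ι J) (α : ℝ), Sv η X s → 0 < α → Rg K X (Fintype.card J) → ∀ T : ℕ,
      (X : ℝ) ^ (1 / 2 : ℝ) ≤ T →
      mass s α (NN η X) T (fun _ => True) ≤ 2 * T * ZZ s (bg s α (NN η X)) := by
  intro η h0 h1
  obtain ⟨K1, hK1, hnum⟩ := numF η h0 h1 1000
  obtain ⟨K2, hK2, hps⟩ := ps_le_ph η h0 h1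
  refine ⟨max K1 K2, hK1.trans (le_max_left _ _), ?_⟩
  intro X ι J _ _ _ _ s α hs hα hR T hT
  have hR1 : Rg K1 X (Fintype.card J) := hR.mono (by have := le_max_left K1 K2; linarith)
    (le_max_left _ _)
  have hR2 : Rg K2 X (Fintype.card J) := hR.mono (by have := le_max_left K1 K2; linarith)
    (le_max_right _ _)
  have hn := hnum X _ hR1
  have hps := hps X s hs hR2
  have hN2 : (1000 : ℝ) ≤ NN η X := hn.N_B
  have hN : (1 : ℝ) ≤ NN η X := by linarith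
  have hN1 : (1 : ℝ) < NN η X := by linarith
  have hW : 1 ≤ WX X := by
    have := hn.W_two
    omega
  set D : ℝ := (NN η X : ℝ) with hD
  have hc : ∀ κ : ι → Option J, cw s α D κ ≠ 0 → s.r κ ≤ D := fun κ h => cw_ne_zero s hN1 κ h
  have hc1 : ∀ κ : ι → Option J, |cw s α D κ| ≤ 1 := by
    intro κ
    rw [abs_of_nonneg (cw_nonneg s hα.le D κ)]
    exact (cw_le_cc s hα.le hN1 κ).trans (cc_bg_le_one s hα.le hN κ)
  have hsum := main0_sum_abs s (WX X) hW hs.lo hn.kW (cw s α D) D hN hc hc1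
  have hsq := sum_sq_le s (cw s α D) D hN hc T
  have hX1 : (1 : ℝ) ≤ X := by
    by_contra hcon
    have hX0 : X = 0 := by
      have : X < 1 := by exact_mod_cast (not_le.mp hcon)
      omega
    have h5 := hn.lX
    rw [hX0] at h5
    norm_num at h5
  -- main term
  have hmain : ∑ κ, (cw s α D κ) ^ 2 * s.ps κ ≤ 5 / 4 * ZZ s (bg s α D) := by
    unfold ZZ
    rw [Finset.mul_sum]
    refine Finset.sum_le_sum fun κ _ => ?_
    by_cases h : cw s α D κ = 0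
    · rw [h]
      have := wt_nonneg s (bg s α D) κ
      nlinarith
    · have hr := hc κ h
      have hr3 : s.r κ ≤ D * D * D := by nlinarith
      have h2 := hps κ hr3
      have h3 := cw_le_cc s hα.le hN1 κ
      have h4 := cw_nonneg s hα.le D κ
      have h5 : (cw s α D κ) ^ 2 ≤ (cc s (bg s α D) D κ) ^ 2 := pow_le_pow_left₀ h4 h3 2
      have hph : (0 : ℝ) ≤ s.ph κ := zero_le_one.trans (one_le_phi s (supp κ))
      calc (cw s α D κ) ^ 2 * s.ps κ ≤ (cw s α D κ) ^ 2 * (5 / 4 * s.ph κ) :=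
            mul_le_mul_of_nonneg_left h2 (sq_nonneg _)
        _ ≤ (cc s (bg s α D) D κ) ^ 2 * (5 / 4 * s.ph κ) :=
            mul_le_mul_of_nonneg_right h5 (by positivity)
        _ = 5 / 4 * ((cc s (bg s α D) D κ) ^ 2 * s.ph κ) := by ring
        _ = 5 / 4 * wt s (bg s α D) κ := by rw [cc_sq_mul_ph s _ D κ hr]
  have hZ := one_le_ZZ s (bg s α D)
  -- the error
  have herr : 2 * D ^ 4 * (∑ κ, |cw s α D κ|) ^ 2 ≤ (T : ℝ) / 8 * ZZ s (bg s α D) := by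
    have h2 : (∑ κ, |cw s α D κ|) ^ 2 ≤ (3 * D ^ 2) ^ 2 :=
      pow_le_pow_left₀ (Finset.sum_nonneg fun κ _ => abs_nonneg _) hsum 2
    have h3 : 2 * D ^ 4 * (∑ κ, |cw s α D κ|) ^ 2 ≤ 18 * D ^ 8 := by
      calc 2 * D ^ 4 * (∑ κ, |cw s α D κ|) ^ 2 ≤ 2 * D ^ 4 * (3 * D ^ 2) ^ 2 :=
            mul_le_mul_of_nonneg_left h2 (by positivity)
        _ = 18 * D ^ 8 := by ring
    have h4 : D ^ 8 ≤ D ^ 50 := pow_le_pow_right₀ hN (by norm_num)
    have h5 := hn.N_pow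
    have h6 : (X : ℝ) ^ (1 / 8 : ℝ) ≤ (X : ℝ) ^ (1 / 2 : ℝ) :=
      Real.rpow_le_rpow_of_exponent_le hX1 (by norm_num)
    have h7 : 18 * D ^ 8 ≤ (T : ℝ) / 8 := by
      have h8 : 1000 * D ^ 50 ≤ (T : ℝ) := h5.trans (h6.trans hT)
      have h9 : 0 ≤ D ^ 50 := by positivity
      linarith
    have hT0 : (0 : ℝ) ≤ T := Nat.cast_nonneg T
    nlinarith
  have hmass : mass s α D T (fun _ => True) = ∑ t ∈ Icc 1 T, (∑ κ, cw s α D κ * s.U κ t) ^ 2 := by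
    unfold mass Lf
    refine Finset.sum_congr ?_ fun _ _ => rfl
    ext t
    simp
  rw [hmass]
  have hT0 : (0 : ℝ) ≤ T := Nat.cast_nonneg T
  have h10 : (T : ℝ) * ∑ κ, (cw s α D κ) ^ 2 * s.ps κ ≤ T * (5 / 4 * ZZ s (bg s α D)) :=
    mul_le_mul_of_nonneg_left hmain hT0
  have h11 : 0 ≤ (T : ℝ) * ZZ s (bg s α D) := by positivity
  linarith

end Pool.Agent.Lib.H59D
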