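import Pool.Agent.Lib.H59D.D2
import Pool.Agent.Lib.H59D.D1
import Pool.Agent.Lib.H59D.U1

/-!
# Chunk D3: the mass of the `t` with `q ∣ form j`
-/

open Finset

namespace Pool.Agent.Lib.H59D

open Pool.Agent.Lib.H56G
open Pool.Agent.Lib.H5C (WX)

/-- `sum_sq_prog` with `c = cw`, `D = N`, `B = 9 N^6` (`Lf_sq_le`), `E = {i : pr i ∣ q}`; `abs_cE_le`,
`ps ≤ (5/4) ph` (`ps_le_ph`), `cc² ph = wt` (`cc_sq_mul_ph`):
`Σ cE² ps ≤ (5/4) 9^|E| Σ wt ≤ (5/4) 9^|E| ZZ`, and `(Σ |cE|)² ≤ (3^|E| 3 N²)² = 9^|E| 9 N⁴`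
(`card_le`, `cc ≤ 1`). Total `≤ 9^|E| (9 N^6 + (5/4)(T/q) ZZ + 18 N^8)`, and `27 N^8 ≤ X^(1/4) ≤ T/q`,
`ZZ ≥ 1`. -/
theorem mass_q : ∀ η : ℝ, 0 < η → η ≤ 1 / 1000 → ∃ K : ℝ, 1 ≤ K ∧
    ∀ (X : ℕ) {ι J : Type} [Fintype ι] [DecidableEq ι] [Fintype J] [DecidableEq J]
      (s : Sys ι J) (α : ℝ), Sv η X s → 0 < α → Rg K X (Fintype.card J) → ∀ T : ℕ,
      (X : ℝ) ^ (1 / 2 : ℝ) ≤ T → ∀ (j : J) (q : ℕ), 0 < q → (q : ℝ) ≤ (X : ℝ) ^ (1 / 4 : ℝ) →
      Nat.Coprime q s.M →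
      mass s α (NN η X) T (fun t => q ∣ s.b j + s.M * t) ≤
        9 ^ (univ.filter (fun i => s.pr i ∣ q)).card * (4 * (T / q)) *
          ZZ s (bg s α (NN η X)) := by
  intro η hη hη1
  obtain ⟨K1, hK1, h1⟩ := ps_le_ph η hη hη1
  obtain ⟨K2, hK2, h2⟩ := Lf_sq_le η hη hη1
  obtain ⟨K3, hK3, h3⟩ := numF η hη hη1 27
  refine ⟨max K1 (max K2 K3), hK1.trans (le_max_left _ _), ?_⟩
  intro X ι J _ _ _ _ s α hsv hα hR T hT j q hq hqX hqM
  have hR1 := hR.mono (zero_le_one.trans (hK1.trans (le_max_left _ _))) (le_max_left K1 (max K2 K3))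
  have hR2 := hR.mono (zero_le_one.trans (hK1.trans (le_max_left _ _)))
    ((le_max_left K2 K3).trans (le_max_right K1 (max K2 K3)))
  have hR3 := hR.mono (zero_le_one.trans (hK1.trans (le_max_left _ _)))
    ((le_max_right K2 K3).trans (le_max_right K1 (max K2 K3)))
  have hps := h1 X s hsv hR1
  have hLf := h2 X s α hsv hα hR2
  have hnum := h3 X (Fintype.card J) hR3
  clear h1 h2 h3
  obtain ⟨N, hN⟩ : ∃ N : ℝ, N = (NN η X : ℝ) := ⟨_, rfl⟩
  have hNB : (27 : ℝ) ≤ N := by rw [hN]; exact hnum.N_B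
  have hN1 : (1 : ℝ) ≤ N := by linarith
  have hN1' : (1 : ℝ) < N := by linarith
  have hNpow : 27 * N ^ 50 ≤ (X : ℝ) ^ (1 / 8 : ℝ) := by rw [hN]; exact hnum.N_pow
  rw [← hN] at hps hLf ⊢
  have hX1 : (1 : ℝ) ≤ X := by
    by_contra hc
    have h4 : Real.log X ≤ 0 := Real.log_nonpos (by positivity) (not_le.1 hc).le
    have := hnum.lX
    linarith
  obtain ⟨E, hE⟩ : ∃ E : Finset ι, E = univ.filter (fun i => s.pr i ∣ q) := ⟨_, rfl⟩
  rw [← hE]
  have hEmem : ∀ i, i ∈ E ↔ s.pr i ∣ q := by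
    intro i
    rw [hE, mem_filter]
    exact ⟨fun h => h.2, fun h => ⟨mem_univ i, h⟩⟩
  have hWX : ∀ i, WX X < s.pr i := hsv.lo
  have hmain := sum_sq_prog s (cw s α N) N hN1 (fun κ h => cw_ne_zero s hN1' κ h) q hq hqM j E hEmem
    (9 * N ^ 6) hLf T
  have hmass : mass s α N T (fun t => q ∣ s.b j + s.M * t) =
      ∑ t ∈ (Icc 1 T).filter (fun t => q ∣ s.b j + s.M * t), (∑ κ, cw s α N κ * s.U κ t) ^ 2 := by
    unfold mass
    refine Finset.sum_congr ?_ fun _ _ => rfl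
    ext t
    simp only [mem_filter]
  rw [hmass]
  refine hmain.trans ?_
  have hcE : ∀ κ ∈ univ.filter (fun κ : ι → Option J => ∀ i ∈ E, κ i = none),
      |cE s j E (cw s α N) κ| ≤ 3 ^ E.card * cc s (bg s α N) N κ := by
    intro κ hκ
    exact abs_cE_le s hα.le hN1' (WX X) hWX hnum.kW j E κ (mem_filter.1 hκ).2
  have hcc0 : ∀ κ : ι → Option J, 0 ≤ cc s (bg s α N) N κ := cc_bg_nonneg s hα.le N
  have hccr : ∀ κ : ι → Option J, ¬ s.r κ ≤ N → cc s (bg s α N) N κ = 0 := by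
    intro κ h
    unfold cc
    rw [if_neg h]
  have hps0 : ∀ κ : ι → Option J, 0 ≤ s.ps κ := by
    intro κ
    unfold Sys.ps
    exact Finset.prod_nonneg fun i _ => by positivity
  have h9 : (1 : ℝ) ≤ 9 ^ E.card := one_le_pow₀ (by norm_num)
  have hZ : 1 ≤ ZZ s (bg s α N) := one_le_ZZ s _
  -- the main term
  have hA : ∑ κ ∈ univ.filter (fun κ : ι → Option J => ∀ i ∈ E, κ i = none),
      (cE s j E (cw s α N) κ) ^ 2 * s.ps κ ≤ 9 ^ E.card * (5 / 4) * ZZ s (bg s α N) := by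
    have h5 : ∀ κ ∈ univ.filter (fun κ : ι → Option J => ∀ i ∈ E, κ i = none),
        (cE s j E (cw s α N) κ) ^ 2 * s.ps κ ≤ 9 ^ E.card * (5 / 4) * wt s (bg s α N) κ := by
      intro κ hκ
      have h6 := hcE κ hκ
      have h7 : (cE s j E (cw s α N) κ) ^ 2 ≤ (3 ^ E.card * cc s (bg s α N) N κ) ^ 2 := by
        rw [← sq_abs]
        exact pow_le_pow_left₀ (abs_nonneg _) h6 2
      by_cases hr : s.r κ ≤ N
      · have h8 : s.ps κ ≤ 5 / 4 * s.ph κ := by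
          refine hps κ (hr.trans ?_)
          nlinarith
        rw [← cc_sq_mul_ph s (bg s α N) N κ hr]
        calc (cE s j E (cw s α N) κ) ^ 2 * s.ps κ
            ≤ (3 ^ E.card * cc s (bg s α N) N κ) ^ 2 * (5 / 4 * s.ph κ) :=
              mul_le_mul h7 h8 (hps0 κ) (sq_nonneg _)
          _ = 9 ^ E.card * (5 / 4) * ((cc s (bg s α N) N κ) ^ 2 * s.ph κ) := by
              rw [mul_pow, ← pow_mul, mul_comm E.card 2, pow_mul]
              norm_num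
              ring
      · rw [hccr κ hr] at h7
        have h8 : (cE s j E (cw s α N) κ) ^ 2 = 0 := by
          refine le_antisymm ?_ (sq_nonneg _)
          simpa using h7
        rw [h8, zero_mul]
        have := wt_nonneg s (bg s α N) κ
        positivity
    refine (Finset.sum_le_sum h5).trans ?_
    rw [← Finset.mul_sum]
    refine mul_le_mul_of_nonneg_left ?_ (by positivity)
    unfold ZZ
    exact Finset.sum_le_sum_of_subset_of_nonneg (Finset.filter_subset _ _)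
      fun κ _ _ => wt_nonneg s _ κ
  -- the error term
  have hB : ∑ κ ∈ univ.filter (fun κ : ι → Option J => ∀ i ∈ E, κ i = none),
      |cE s j E (cw s α N) κ| ≤ 3 ^ E.card * (3 * N ^ 2) := by
    refine (Finset.sum_le_sum hcE).trans ?_
    rw [← Finset.mul_sum]
    refine mul_le_mul_of_nonneg_left ?_ (by positivity)
    refine le_trans ?_ (card_le s (WX X) (by have := hnum.W_two; omega) hWX hnum.kW N hN1)
    calc ∑ κ ∈ univ.filter (fun κ : ι → Option J => ∀ i ∈ E, κ i = none), cc s (bg s α N) N κ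
        ≤ ∑ κ : ι → Option J, cc s (bg s α N) N κ :=
          Finset.sum_le_sum_of_subset_of_nonneg (Finset.filter_subset _ _) fun κ _ _ => hcc0 κ
      _ = ∑ κ ∈ univ.filter (fun κ : ι → Option J => s.r κ ≤ N), cc s (bg s α N) N κ := by
          rw [Finset.sum_filter]
          refine Finset.sum_congr rfl fun κ _ => ?_
          split_ifs with h
          · rfl
          · exact hccr κ h
      _ ≤ ∑ κ ∈ univ.filter (fun κ : ι → Option J => s.r κ ≤ N), (1 : ℝ) :=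
          Finset.sum_le_sum fun κ _ => cc_bg_le_one s hα.le hN1 κ
      _ = _ := by rw [Finset.sum_const, nsmul_eq_mul, mul_one]
  have hB2 : (∑ κ ∈ univ.filter (fun κ : ι → Option J => ∀ i ∈ E, κ i = none),
      |cE s j E (cw s α N) κ|) ^ 2 ≤ 9 ^ E.card * (9 * N ^ 4) := by
    have h6 : 0 ≤ ∑ κ ∈ univ.filter (fun κ : ι → Option J => ∀ i ∈ E, κ i = none),
      |cE s j E (cw s α N) κ| := Finset.sum_nonneg fun _ _ => abs_nonneg _
    refine (pow_le_pow_left₀ h6 hB 2).trans (le_of_eq ?_)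
    rw [mul_pow, ← pow_mul, mul_comm E.card 2, pow_mul]
    norm_num
    ring
  have hq0 : (0 : ℝ) < q := by exact_mod_cast hq
  have hTq : (X : ℝ) ^ (1 / 4 : ℝ) ≤ (T : ℝ) / q := by
    rw [le_div_iff₀ hq0]
    calc (X : ℝ) ^ (1 / 4 : ℝ) * q ≤ (X : ℝ) ^ (1 / 4 : ℝ) * (X : ℝ) ^ (1 / 4 : ℝ) :=
          mul_le_mul_of_nonneg_left hqX (by positivity)
      _ = (X : ℝ) ^ (1 / 2 : ℝ) := by
          rw [← Real.rpow_add (by linarith)]
          norm_num
      _ ≤ T := hT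
  have hN8 : 27 * N ^ 8 ≤ (T : ℝ) / q := by
    refine le_trans ?_ hTq
    calc 27 * N ^ 8 ≤ 27 * N ^ 50 := by
          refine mul_le_mul_of_nonneg_left (pow_le_pow_right₀ hN1 (by norm_num)) (by norm_num)
      _ ≤ (X : ℝ) ^ (1 / 8 : ℝ) := hNpow
      _ ≤ (X : ℝ) ^ (1 / 4 : ℝ) := Real.rpow_le_rpow_of_exponent_le hX1 (by norm_num)
  have hN6 : N ^ 6 ≤ N ^ 8 := pow_le_pow_right₀ hN1 (by norm_num)
  have hTq0 : 0 ≤ (T : ℝ) / q := by positivity
  have hN80 : 0 ≤ N ^ 8 := by positivity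
  obtain ⟨Y, hY⟩ : ∃ Y : ℝ, Y = (T : ℝ) / q := ⟨_, rfl⟩
  obtain ⟨Z, hZd⟩ : ∃ Z : ℝ, Z = ZZ s (bg s α N) := ⟨_, rfl⟩
  obtain ⟨e, he⟩ : ∃ e : ℝ, e = 9 ^ E.card := ⟨_, rfl⟩
  rw [← hY] at hN8 hTq0
  rw [← hZd] at hZ hA
  rw [← he] at h9 hA hB2
  rw [← hY, ← hZd, ← he]
  have hYZ : Y ≤ Y * Z := le_mul_of_one_le_right hTq0 hZ
  have hN4 : 0 ≤ N ^ 4 := by positivity
  calc 9 * N ^ 6 + Y * ∑ κ ∈ univ.filter (fun κ : ι → Option J => ∀ i ∈ E, κ i = none),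
          (cE s j E (cw s α N) κ) ^ 2 * s.ps κ +
        2 * N ^ 4 * (∑ κ ∈ univ.filter (fun κ : ι → Option J => ∀ i ∈ E, κ i = none),
          |cE s j E (cw s α N) κ|) ^ 2
      ≤ 9 * N ^ 8 + Y * (e * (5 / 4) * Z) + 2 * N ^ 4 * (e * (9 * N ^ 4)) := by
        refine add_le_add (add_le_add (by linarith) ?_) ?_
        · exact mul_le_mul_of_nonneg_left hA hTq0
        · exact mul_le_mul_of_nonneg_left hB2 (by positivity)
    _ = 9 * N ^ 8 + e * (18 * N ^ 8) + e * (5 / 4 * (Y * Z)) := by ring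
    _ ≤ e * (9 * N ^ 8) + e * (18 * N ^ 8) + e * (5 / 4 * (Y * Z)) := by
        have : 9 * N ^ 8 ≤ e * (9 * N ^ 8) := le_mul_of_one_le_left (by positivity) h9
        linarith
    _ = e * (27 * N ^ 8 + 5 / 4 * (Y * Z)) := by ring
    _ ≤ e * (Y * Z + 5 / 4 * (Y * Z)) := by
        refine mul_le_mul_of_nonneg_left ?_ (by linarith)
        linarith
    _ ≤ e * (4 * Y) * Z := by
        have h10 : 0 ≤ e * (Y * Z) := by
          have : 0 ≤ Y * Z := hTq0.trans hYZ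
          exact mul_nonneg (by linarith) this
        nlinarith [h10]

end Pool.Agent.Lib.H59D
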