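import Pool.Agent.Lib.H59D.D4a
import Pool.Agent.Lib.H59D.W5
import Pool.Agent.Lib.H59D.D1
import Pool.Agent.Lib.H59D.U1

/-!
# Chunk D4b: savings for small primes
-/

open Finset

namespace Pool.Agent.Lib.H59D

open Pool.Agent.Lib.H56G
open Pool.Agent.Lib.H5C (WX)

variable {ι J : Type} [Fintype ι] [DecidableEq ι] [Fintype J] [DecidableEq J]

theorem D4b_tA_sq (s : Sys ι J) {α D : ℝ} (hα : 0 ≤ α) (A : Finset ι) :
    (tA s α D A) ^ 2 * s.phi A =
      if Real.log (s.rho A) ≤ Real.log D / 4 then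
        1 / (s.phi A * (1 + α * Real.log (s.rho A)) ^ 2) else 0 := by
  unfold tA
  have h1 : 0 < s.phi A := lt_of_lt_of_le one_pos (one_le_phi s A)
  have h2 : 0 < 1 + α * Real.log (s.rho A) := by
    have := log_rho_nonneg s A
    positivity
  split_ifs with h
  · field_simp
  · ring

theorem D4b_sum_tA (s : Sys ι J) {α D : ℝ} (hα : 0 ≤ α) (hD : 1 < D) (F : Finset (Finset ι)) :
    ∑ A ∈ F, (tA s α D A) ^ 2 * s.phi A ≤ 1 + Gt s α D := by
  have h0 : ∀ A : Finset ι, 0 ≤ (tA s α D A) ^ 2 * s.phi A := fun A =>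
    mul_nonneg (sq_nonneg _) (zero_le_one.trans (one_le_phi s A))
  refine (Finset.sum_le_sum_of_subset_of_nonneg (Finset.subset_univ F) fun A _ _ => h0 A).trans ?_
  have h4 := Finset.sum_filter_add_sum_filter_not (univ : Finset (Finset ι))
    (fun A : Finset ι => A = ∅) (fun A => (tA s α D A) ^ 2 * s.phi A)
  rw [← h4, Finset.filter_eq' univ (∅ : Finset ι), if_pos (mem_univ _), sum_singleton]
  have h5 : (tA s α D ∅) ^ 2 * s.phi ∅ = 1 := by
    rw [D4b_tA_sq s hα]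
    have h6 : Real.log (s.rho ∅) = 0 := by simp [Sys.rho]
    have h7 : s.phi ∅ = 1 := by simp [Sys.phi]
    have h8 := Real.log_pos hD
    rw [h6, h7, if_pos (by linarith)]
    norm_num
  rw [h5]
  refine le_of_eq ?_
  congr 1
  unfold Gt
  rw [Finset.sum_congr rfl fun A _ => D4b_tA_sq s hα A, ← Finset.sum_filter, Finset.filter_filter]

theorem D4b_S1 (s : Sys ι J) {α D : ℝ} (hα : 0 ≤ α) (hD : 1 < D) (j : J) :
    ∑ κ, (tA s α D (part κ j) * ∏ j' ∈ univ.erase j, ga s α D (part κ j')) ^ 2 * s.ph κ ≤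
      (1 + Gt s α D) * ∑ κ ∈ noJ j, wt s (bg s α D) κ := by
  rw [sum_off j, Finset.mul_sum]
  refine Finset.sum_le_sum fun κ hκ => ?_
  have h1 : ∀ A ∈ (free κ).powerset,
      (tA s α D (part (ins κ j A) j) *
        ∏ j' ∈ univ.erase j, ga s α D (part (ins κ j A) j')) ^ 2 * s.ph (ins κ j A) =
      ((∏ j' ∈ univ.erase j, ga s α D (part κ j')) ^ 2 * s.ph κ) *
        ((tA s α D A) ^ 2 * s.phi A) := by
    intro A hA
    rw [Finset.mem_powerset] at hA
    have h2 : ∏ j' ∈ univ.erase j, ga s α D (part (ins κ j A) j') =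
        ∏ j' ∈ univ.erase j, ga s α D (part κ j') :=
      Finset.prod_congr rfl fun j' hj' => by
        rw [part_ins_other κ j j' (Finset.ne_of_mem_erase hj') A hA]
    rw [part_ins_same κ j hκ A hA, h2, ph_ins s κ j A hA]
    ring
  rw [Finset.sum_congr rfl h1, ← Finset.mul_sum]
  have h3 : wt s (bg s α D) κ =
      (∏ j' ∈ univ.erase j, ga s α D (part κ j')) ^ 2 * s.ph κ := by
    rw [wt_bg, ← Finset.mul_prod_erase univ (fun j' => ga s α D (part κ j')) (mem_univ j),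
      part_noJ κ j hκ, ga_empty, one_mul]
  rw [← h3, mul_comm]
  exact mul_le_mul_of_nonneg_right (D4b_sum_tA s hα hD _) (wt_nonneg s _ κ)

theorem D4b_S2 (s : Sys ι J) (α D : ℝ) :
    ∑ κ, (cc s (bg s α D) D κ) ^ 2 * s.ph κ ≤ ZZ s (bg s α D) := by
  unfold ZZ
  refine Finset.sum_le_sum fun κ _ => ?_
  rcases le_or_gt (s.r κ) D with h | h
  · exact (cc_sq_mul_ph s (bg s α D) D κ h).le
  · have : cc s (bg s α D) D κ = 0 := by
      unfold cc
      rw [if_neg (not_le.mpr h)]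
    rw [this]
    simpa using wt_nonneg s (bg s α D) κ

/-- The algebra of the square bound. -/
theorem D4b_sq {x a b c d : ℝ} (h : |x| ≤ a * b + c * d) :
    x ^ 2 ≤ 2 * a ^ 2 * b ^ 2 + 2 * c ^ 2 * d ^ 2 := by
  have h1 : x ^ 2 ≤ (a * b + c * d) ^ 2 := by
    rw [← sq_abs x]
    exact pow_le_pow_left₀ (abs_nonneg x) h 2
  nlinarith [sq_nonneg (a * b - c * d)]

theorem D4b_n1 {a b : ℝ} (h1 : 1 ≤ a) (h2 : 1 ≤ b) : 1 ≤ a * b := by nlinarith

theorem D4b_n2 {N : ℝ} (h : 1 ≤ N) : N ≤ N * N * N := by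
  have : 1 ≤ N * N := by nlinarith
  nlinarith

theorem D4b_n3 {C x : ℝ} (h6 : C ≤ 0) (h7 : 0 ≤ x) : C * x < 1 := by
  nlinarith [mul_nonneg (neg_nonneg.mpr h6) h7]

theorem D4b_n4 {C x g : ℝ} (h1 : x ≤ 1) (h2 : x * g ≤ C) : x * (1 + g) ≤ 1 + C := by
  linarith [mul_add x 1 g]

theorem D4b_n5 {C x g : ℝ} (h7 : 1 ≤ C * (x * g)) (h8 : 0 ≤ C * x) :
    1 ≤ C * (x * (1 + g)) := by
  have : C * (x * (1 + g)) = C * x + C * (x * g) := by ring
  linarith

/-- The savings. `sum_sq_prog` with `q = p`, `E = {i}`, `B = 9N^6`, `ps ≤ (5/4) ph`,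
`(a+b)² ≤ 2a² + 2b²`, `abs_cE_one`: with
`Σ_κ tA(part κ j)² ∏_{j' ≠ j} ga² ph κ = Σ_{κ' ∈ noJ j} wt κ' Σ_{A ⊆ free κ'} tA(A)² φ(A)
≤ (1 + Gt) Σ_{noJ j} wt ≤ 2 (1+Gt)/(1+Gm) ZZ ≤ 4C² ZZ` (`sum_off`; `noJ_ge` with `B = 0`, `supp_small`;
`1 + Gt ≤ 2C/(αw)`, `Gm ≥ 1/(Cαw)`) and `Σ cc² ph ≤ ZZ`:
`mass ≤ (5/4)(T/p)(72 α² log² p · 4C² + 8 (k/p)²) ZZ + errors`, errors `≤ 9 N^6 + 18 · 9 N^8` (`abs_cE_le`),
`≤ (T/p) (α log p)²`, since `T/p ≥ X^(1/4)` and `α log p ≥ α ≥ 1/log X` (`alo`). -/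
theorem mass_p : ∀ η : ℝ, 0 < η → η ≤ 1 / 1000 → ∀ C : ℝ, ∃ C' K : ℝ, 1 ≤ C' ∧ 1 ≤ K ∧
    ∀ (X : ℕ) {ι J : Type} [Fintype ι] [DecidableEq ι] [Fintype J] [DecidableEq J]
      (s : Sys ι J) (α : ℝ), Data η C X s α → Rg K X (Fintype.card J) → ∀ T : ℕ,
      (X : ℝ) ^ (1 / 2 : ℝ) ≤ T → ∀ (i : ι) (j : J),
      mass s α (NN η X) T (fun t => s.pr i ∣ s.b j + s.M * t) ≤
        C' * (T / s.pr i) * ((α * Real.log (s.pr i)) ^ 2 + (Fintype.card J / (s.pr i : ℝ)) ^ 2) *
          ZZ s (bg s α (NN η X)) := by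
  intro η hη hη1 C
  obtain ⟨K1, hK1, h1⟩ := numF η hη hη1 1000
  obtain ⟨K2, hK2, h2⟩ := supp_small η hη hη1
  obtain ⟨K3, hK3, h3⟩ := ps_le_ph η hη hη1
  obtain ⟨K4, hK4, h4⟩ := Lf_sq_le η hη hη1
  refine ⟨11 + 180 * (|C| * (1 + |C|)), K1 + K2 + K3 + K4, ?_, by linarith, ?_⟩
  · have : 0 ≤ |C| * (1 + |C|) := by positivity
    linarith
  intro X ι J _ _ _ _ s α hd hR T hT i j
  have hR1 := h1 X (Fintype.card J) (hR.mono (by linarith) (by linarith))
  have hR2 := h2 X s α (hR.mono (by linarith) (by linarith))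
  have hR3 := h3 X s hd.sv (hR.mono (by linarith) (by linarith))
  have hR4 := h4 X s α hd.sv hd.a0 (hR.mono (by linarith) (by linarith))
  set N : ℝ := (NN η X : ℝ) with hN
  set p : ℝ := (s.pr i : ℝ) with hp
  set k : ℝ := (Fintype.card J : ℝ) with hk
  have hN1 : 1000 ≤ N := hR1.N_B
  have hN1' : 1 < N := by linarith
  have hN0 : 0 < N := by linarith
  have hα := hd.a0
  have hp2 : 2 ≤ p := by
    have := (s.prime i).two_le
    rw [hp]
    exact_mod_cast this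
  have hpN : p ≤ N := by
    have := hd.sv.hi i
    rw [hp, hN]
    exact_mod_cast this
  have hk1 : 1 ≤ Fintype.card J := hR.1
  have hlogN0 : 0 < Real.log N := Real.log_pos hN1'
  have hel : 1 ≤ el (Fintype.card J) * (Fintype.card J : ℝ) := by
    have h5 := el_one_le hk1
    have h6 : (1 : ℝ) ≤ Fintype.card J := by exact_mod_cast hk1
    exact D4b_n1 h5 h6
  have hαN : 1 ≤ α * Real.log N := hel.trans hd.alo
  have hlogp : 1 / 2 ≤ Real.log p := by
    have h5 := Real.log_two_gt_d9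
    have h6 := Real.log_le_log (by norm_num) hp2
    linarith
  have hlogNN : Real.log N ≤ N := by
    have := Real.log_le_sub_one_of_pos hN0
    linarith
  have hZ1 : 1 ≤ ZZ s (bg s α N) := one_le_ZZ s _
  have hT0 : (0 : ℝ) ≤ T := Nat.cast_nonneg T
  have hXN : 1000 * N ^ 50 ≤ (T : ℝ) := by
    refine hR1.N_pow.trans (le_trans ?_ hT)
    have hX1 : (1 : ℝ) ≤ X := by
      by_contra hc
      have hX0 : X = 0 := by
        have : (X : ℝ) < 1 := not_le.mp hc
        have h7 : X < 1 := by exact_mod_cast this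
        omega
      have := hR1.lX
      rw [hX0] at this
      norm_num at this
    exact Real.rpow_le_rpow_of_exponent_le hX1 (by norm_num)
  -- lower bound for alpha
  have hαlow : 1 / N ≤ α := by
    rw [div_le_iff₀ hN0]
    exact hαN.trans (mul_le_mul_of_nonneg_left hlogNN hα.le)
  have hαp : 1 / (4 * N ^ 2) ≤ (α * Real.log p) ^ 2 := by
    have h5 : 1 / (2 * N) ≤ α * Real.log p := by
      calc 1 / (2 * N) = 1 / N * (1 / 2) := by field_simp
        _ ≤ α * Real.log p := mul_le_mul hαlow hlogp (by norm_num) hα.le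
    have h6 : (1 / (2 * N)) ^ 2 ≤ (α * Real.log p) ^ 2 := pow_le_pow_left₀ (by positivity) h5 2
    calc 1 / (4 * N ^ 2) = (1 / (2 * N)) ^ 2 := by field_simp; ring
      _ ≤ _ := h6
  have hTp0 : 0 ≤ (T : ℝ) / p := by positivity
  have herr : 171 * N ^ 8 ≤ (T : ℝ) / p * (α * Real.log p) ^ 2 := by
    have h5 : 1000 * N ^ 50 / N ≤ (T : ℝ) / p :=
      div_le_div₀ hT0 hXN (by linarith) hpN
    have h6 : 1000 * N ^ 50 / N * (1 / (4 * N ^ 2)) ≤ (T : ℝ) / p * (α * Real.log p) ^ 2 :=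
      mul_le_mul h5 hαp (by positivity) hTp0
    refine le_trans ?_ h6
    have h7 : 1000 * N ^ 50 / N * (1 / (4 * N ^ 2)) = 250 * N ^ 47 := by
      field_simp
      ring
    rw [h7]
    have h8 : N ^ 8 ≤ N ^ 47 := pow_le_pow_right₀ hN1'.le (by norm_num)
    have h9 : 0 ≤ N ^ 8 := by positivity
    linarith
  -- the main inequality
  have hW : ∀ i, WX X < s.pr i := hd.sv.lo
  have hkW : Fintype.card J ≤ WX X := hR1.kW
  have hmain := sum_sq_prog s (cw s α N) N hN1'.le (fun κ h => cw_ne_zero s hN1' κ h)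
    (s.pr i) (s.prime i).pos (((s.prime i).coprime_iff_not_dvd).mpr (s.copM i)) j {i}
    (fun i' => by
      rw [Finset.mem_singleton]
      constructor
      · intro h
        rw [h]
      · intro h
        exact s.inj ((Nat.prime_dvd_prime_iff_eq (s.prime i') (s.prime i)).mp h))
    (9 * N ^ 6) (fun t => hR4 t) T
  have hmass : mass s α N T (fun t => s.pr i ∣ s.b j + s.M * t) =
      ∑ t ∈ (Icc 1 T).filter (fun t => s.pr i ∣ s.b j + s.M * t),
        (∑ κ, cw s α N κ * s.U κ t) ^ 2 := by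
    unfold mass Lf
    exact Finset.sum_congr (by congr) fun _ _ => rfl
  rw [hmass]
  refine hmain.trans ?_
  -- the support of the coefficients
  have hcE : ∀ κ ∈ univ.filter (fun κ : ι → Option J => ∀ i' ∈ ({i} : Finset ι), κ i' = none),
      |cE s j {i} (cw s α N) κ| ≤ 3 * cc s (bg s α N) N κ := by
    intro κ hκ
    have h5 := abs_cE_le s hα.le hN1' (WX X) hW hkW j {i} κ (Finset.mem_filter.mp hκ).2
    simpa using h5
  have hcc0 : ∀ κ : ι → Option J, ¬ s.r κ ≤ N → cc s (bg s α N) N κ = 0 := by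
    intro κ h
    unfold cc
    rw [if_neg h]
  -- error term
  have hS : ∑ κ ∈ univ.filter (fun κ : ι → Option J => ∀ i' ∈ ({i} : Finset ι), κ i' = none),
      |cE s j {i} (cw s α N) κ| ≤ 9 * N ^ 2 := by
    have h5 : ∑ κ ∈ univ.filter (fun κ : ι → Option J => ∀ i' ∈ ({i} : Finset ι), κ i' = none),
        |cE s j {i} (cw s α N) κ| ≤
        ∑ κ ∈ univ.filter (fun κ : ι → Option J => ∀ i' ∈ ({i} : Finset ι), κ i' = none),
          (if s.r κ ≤ N then (3 : ℝ) else 0) := by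
      refine Finset.sum_le_sum fun κ hκ => (hcE κ hκ).trans ?_
      split_ifs with h
      · have := cc_bg_le_one s hα.le hN1'.le κ
        linarith
      · rw [hcc0 κ h]
        norm_num
    have h6 : ∑ κ ∈ univ.filter (fun κ : ι → Option J => ∀ i' ∈ ({i} : Finset ι), κ i' = none),
          (if s.r κ ≤ N then (3 : ℝ) else 0) ≤
        ∑ κ : ι → Option J, (if s.r κ ≤ N then (3 : ℝ) else 0) :=
      Finset.sum_le_sum_of_subset_of_nonneg (Finset.subset_univ _) fun κ _ _ => by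
        split_ifs <;> norm_num
    have h7 : ∑ κ : ι → Option J, (if s.r κ ≤ N then (3 : ℝ) else 0) ≤ 9 * N ^ 2 := by
      rw [← Finset.sum_filter, Finset.sum_const, nsmul_eq_mul]
      have := card_le s (WX X) (by have := hR1.W_two; omega) hW hkW N hN1'.le
      linarith
    linarith
  have hS0 : 0 ≤ ∑ κ ∈ univ.filter
      (fun κ : ι → Option J => ∀ i' ∈ ({i} : Finset ι), κ i' = none),
      |cE s j {i} (cw s α N) κ| := Finset.sum_nonneg fun _ _ => abs_nonneg _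
  have hE2 : 2 * N ^ 4 * (∑ κ ∈ univ.filter
      (fun κ : ι → Option J => ∀ i' ∈ ({i} : Finset ι), κ i' = none),
      |cE s j {i} (cw s α N) κ|) ^ 2 ≤ 162 * N ^ 8 := by
    have h5 := pow_le_pow_left₀ hS0 hS 2
    calc 2 * N ^ 4 * (∑ κ ∈ univ.filter
      (fun κ : ι → Option J => ∀ i' ∈ ({i} : Finset ι), κ i' = none),
      |cE s j {i} (cw s α N) κ|) ^ 2 ≤ 2 * N ^ 4 * (9 * N ^ 2) ^ 2 :=
          mul_le_mul_of_nonneg_left h5 (by positivity)
      _ = 162 * N ^ 8 := by ring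
  have hE1 : 9 * N ^ 6 ≤ 9 * N ^ 8 :=
    mul_le_mul_of_nonneg_left (pow_le_pow_right₀ hN1'.le (by norm_num)) (by norm_num)
  -- square sum
  have hsq : ∑ κ ∈ univ.filter (fun κ : ι → Option J => ∀ i' ∈ ({i} : Finset ι), κ i' = none),
      (cE s j {i} (cw s α N) κ) ^ 2 * s.ps κ ≤
      5 / 4 * (2 * (6 * α * Real.log p) ^ 2 *
        (∑ κ, (tA s α N (part κ j) * ∏ j' ∈ univ.erase j, ga s α N (part κ j')) ^ 2 * s.ph κ) +
        2 * (k / (p - 1)) ^ 2 * ∑ κ, (cc s (bg s α N) N κ) ^ 2 * s.ph κ) := by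
    have hterm : ∀ κ ∈ univ.filter
        (fun κ : ι → Option J => ∀ i' ∈ ({i} : Finset ι), κ i' = none),
        (cE s j {i} (cw s α N) κ) ^ 2 * s.ps κ ≤
        5 / 4 * (2 * (6 * α * Real.log p) ^ 2 *
          ((tA s α N (part κ j) * ∏ j' ∈ univ.erase j, ga s α N (part κ j')) ^ 2 * s.ph κ) +
        2 * (k / (p - 1)) ^ 2 * ((cc s (bg s α N) N κ) ^ 2 * s.ph κ)) := by
      intro κ hκ
      have hph : 0 ≤ s.ph κ := zero_le_one.trans (one_le_phi s (supp κ))
      have hnn : 0 ≤ 5 / 4 * (2 * (6 * α * Real.log p) ^ 2 *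
          ((tA s α N (part κ j) * ∏ j' ∈ univ.erase j, ga s α N (part κ j')) ^ 2 * s.ph κ) +
        2 * (k / (p - 1)) ^ 2 * ((cc s (bg s α N) N κ) ^ 2 * s.ph κ)) := by positivity
      by_cases h : s.r κ ≤ N
      · have hki : κ i = none := (Finset.mem_filter.mp hκ).2 i (Finset.mem_singleton_self i)
        have h5 := abs_cE_one s hα hN1' hαN j i κ hki
        have h6 := D4b_sq h5
        have h7 : s.ps κ ≤ 5 / 4 * s.ph κ := hR3 κ (h.trans (by
          exact D4b_n2 hN1'.le))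
        calc (cE s j {i} (cw s α N) κ) ^ 2 * s.ps κ
            ≤ (cE s j {i} (cw s α N) κ) ^ 2 * (5 / 4 * s.ph κ) :=
              mul_le_mul_of_nonneg_left h7 (sq_nonneg _)
          _ ≤ (2 * (6 * α * Real.log p) ^ 2 *
            (tA s α N (part κ j) * ∏ j' ∈ univ.erase j, ga s α N (part κ j')) ^ 2 +
            2 * (k / (p - 1)) ^ 2 * (cc s (bg s α N) N κ) ^ 2) * (5 / 4 * s.ph κ) :=
              mul_le_mul_of_nonneg_right h6 (by positivity)
          _ = _ := by ring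
      · have h5 := hcE κ hκ
        rw [hcc0 κ h, mul_zero] at h5
        have h6 : cE s j {i} (cw s α N) κ = 0 := abs_eq_zero.mp (le_antisymm h5 (abs_nonneg _))
        rw [h6]
        simpa using hnn
    refine (Finset.sum_le_sum hterm).trans ?_
    rw [← Finset.mul_sum]
    refine mul_le_mul_of_nonneg_left ?_ (by norm_num)
    rw [Finset.sum_add_distrib, ← Finset.mul_sum, ← Finset.mul_sum]
    have hph : ∀ κ : ι → Option J, 0 ≤ s.ph κ := fun κ =>
      zero_le_one.trans (one_le_phi s (supp κ))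
    refine add_le_add (mul_le_mul_of_nonneg_left ?_ (by positivity))
      (mul_le_mul_of_nonneg_left ?_ (by positivity))
    · exact Finset.sum_le_sum_of_subset_of_nonneg (Finset.subset_univ _) fun κ _ _ =>
        mul_nonneg (sq_nonneg _) (hph κ)
    · exact Finset.sum_le_sum_of_subset_of_nonneg (Finset.subset_univ _) fun κ _ _ =>
        mul_nonneg (sq_nonneg _) (hph κ)
  -- the sums
  have hS1 := D4b_S1 s hα.le hN1' j
  have hS2 := D4b_S2 s α N
  have hnoJ := noJ_ge s (bg s α N) (WX X) (by have := hR1.W_two; omega) hW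
    (fun A i hi => vv_erase s hα.le hN1'.le A i hi) hR2 j 0
  have hf1 : (noJ j).filter (fun κ : ι → Option J => (0 : ℝ) < s.r κ) = noJ j :=
    Finset.filter_true_of_mem fun κ _ => by have := one_le_r s κ; linarith
  have hf2 : univ.filter (fun κ : ι → Option J => (0 : ℝ) < s.r κ) = univ :=
    Finset.filter_true_of_mem fun κ _ => by have := one_le_r s κ; linarith
  rw [hf1, hf2] at hnoJ
  have hG : (1 + Gm s α N) / 2 * ∑ κ ∈ noJ j, wt s (bg s α N) κ ≤ ZZ s (bg s α N) := hnoJ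
  set w := Real.log (WX X : ℝ) with hw
  have hw0 : 0 < w := by
    have : (2 : ℝ) ≤ WX X := by exact_mod_cast hR1.W_two
    exact Real.log_pos (by linarith)
  have hGm0 := Gm_nonneg s α N
  have hC0 : 0 < C := by
    have h5 := hd.glo
    by_contra hc
    have h6 : C ≤ 0 := not_lt.mp hc
    have h7 : 0 ≤ α * w * Gm s α N := by positivity
    exact absurd h5 (not_le.mpr (D4b_n3 h6 h7))
  have hno0 : 0 ≤ ∑ κ ∈ noJ j, wt s (bg s α N) κ :=
    Finset.sum_nonneg fun κ _ => wt_nonneg s _ κ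
  have hS1' : (1 + Gt s α N) * ∑ κ ∈ noJ j, wt s (bg s α N) κ ≤
      2 * (C * (1 + C)) * ZZ s (bg s α N) := by
    have haw : 0 < α * w := by positivity
    have h5 : α * w * (1 + Gt s α N) ≤ 1 + C := by
      exact D4b_n4 hd.aw hd.gt
    have h6 : 1 ≤ C * (α * w * (1 + Gm s α N)) := by
      have h7 := hd.glo
      have h8 : 0 ≤ C * (α * w) := by positivity
      exact D4b_n5 h7 h8
    have h7 : (1 + Gt s α N) ≤ (1 + C) * (C * (1 + Gm s α N)) := by
      have h8 : 0 ≤ C * (1 + Gm s α N) := by positivity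
      have h9 : (α * w * (1 + Gt s α N)) * (C * (1 + Gm s α N)) ≤
          (1 + C) * (C * (1 + Gm s α N)) := mul_le_mul_of_nonneg_right h5 h8
      have hGt0 : 0 ≤ 1 + Gt s α N := by
        have : 0 ≤ Gt s α N := Finset.sum_nonneg fun A _ => by
          have h10 := one_le_phi s A
          have h11 := log_rho_nonneg s A
          positivity
        linarith
      have h10 : (1 + Gt s α N) * 1 ≤ (1 + Gt s α N) * (C * (α * w * (1 + Gm s α N))) :=
        mul_le_mul_of_nonneg_left h6 hGt0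
      calc (1 + Gt s α N) = (1 + Gt s α N) * 1 := by ring
        _ ≤ (1 + Gt s α N) * (C * (α * w * (1 + Gm s α N))) := h10
        _ = (α * w * (1 + Gt s α N)) * (C * (1 + Gm s α N)) := by ring
        _ ≤ _ := h9
    calc (1 + Gt s α N) * ∑ κ ∈ noJ j, wt s (bg s α N) κ
        ≤ (1 + C) * (C * (1 + Gm s α N)) * ∑ κ ∈ noJ j, wt s (bg s α N) κ :=
          mul_le_mul_of_nonneg_right h7 hno0
      _ = 2 * (C * (1 + C)) * ((1 + Gm s α N) / 2 * ∑ κ ∈ noJ j, wt s (bg s α N) κ) := by ring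
      _ ≤ _ := mul_le_mul_of_nonneg_left hG (by positivity)
  have hkp : (k / (p - 1)) ^ 2 ≤ 4 * (k / p) ^ 2 := by
    have hk0 : 0 ≤ k := Nat.cast_nonneg _
    have h5 : k / (p - 1) ≤ 2 * (k / p) := by
      rw [div_le_iff₀ (by linarith)]
      have h6 : 2 * (k / p) * (p - 1) = k * (2 * (p - 1) / p) := by
        field_simp
      rw [h6]
      have h7 : 1 ≤ 2 * (p - 1) / p := by
        rw [le_div_iff₀ (by linarith)]
        linarith
      exact le_mul_of_one_le_right hk0 h7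
    have h8 : 0 ≤ k / (p - 1) := div_nonneg hk0 (by linarith)
    calc (k / (p - 1)) ^ 2 ≤ (2 * (k / p)) ^ 2 := pow_le_pow_left₀ h8 h5 2
      _ = _ := by ring
  have hZ0 : 0 ≤ ZZ s (bg s α N) := by linarith
  have hfin : ∑ κ ∈ univ.filter (fun κ : ι → Option J => ∀ i' ∈ ({i} : Finset ι), κ i' = none),
      (cE s j {i} (cw s α N) κ) ^ 2 * s.ps κ ≤
      (180 * (C * (1 + C)) * (α * Real.log p) ^ 2 + 10 * (k / p) ^ 2) * ZZ s (bg s α N) := by
    refine hsq.trans ?_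
    have h5 : 2 * (6 * α * Real.log p) ^ 2 *
        (∑ κ, (tA s α N (part κ j) * ∏ j' ∈ univ.erase j, ga s α N (part κ j')) ^ 2 * s.ph κ) ≤
        2 * (6 * α * Real.log p) ^ 2 * (2 * (C * (1 + C)) * ZZ s (bg s α N)) :=
      mul_le_mul_of_nonneg_left (hS1.trans hS1') (by positivity)
    have h6 : 2 * (k / (p - 1)) ^ 2 * ∑ κ, (cc s (bg s α N) N κ) ^ 2 * s.ph κ ≤
        2 * (4 * (k / p) ^ 2) * ZZ s (bg s α N) := by
      refine mul_le_mul (mul_le_mul_of_nonneg_left hkp (by norm_num)) hS2 ?_ (by positivity)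
      exact Finset.sum_nonneg fun κ _ => mul_nonneg (sq_nonneg _)
        (zero_le_one.trans (one_le_phi s (supp κ)))
    calc 5 / 4 * (2 * (6 * α * Real.log p) ^ 2 *
        (∑ κ, (tA s α N (part κ j) * ∏ j' ∈ univ.erase j, ga s α N (part κ j')) ^ 2 * s.ph κ) +
        2 * (k / (p - 1)) ^ 2 * ∑ κ, (cc s (bg s α N) N κ) ^ 2 * s.ph κ)
        ≤ 5 / 4 * (2 * (6 * α * Real.log p) ^ 2 * (2 * (C * (1 + C)) * ZZ s (bg s α N)) +
          2 * (4 * (k / p) ^ 2) * ZZ s (bg s α N)) :=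
          mul_le_mul_of_nonneg_left (add_le_add h5 h6) (by norm_num)
      _ = _ := by ring
  have hmul := mul_le_mul_of_nonneg_left hfin hTp0
  rw [abs_of_pos hC0]
  have herr' : 171 * N ^ 8 ≤ (T : ℝ) / p * (α * Real.log p) ^ 2 * ZZ s (bg s α N) :=
    herr.trans (le_mul_of_one_le_right (by positivity) hZ1)
  have hx : 0 ≤ (T : ℝ) / p * (α * Real.log p) ^ 2 * ZZ s (bg s α N) := by positivity
  have hy : 0 ≤ (T : ℝ) / p * (k / p) ^ 2 * ZZ s (bg s α N) := by positivity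
  have hCC : 0 ≤ C * (1 + C) := by positivity
  have hz := mul_nonneg hCC hy
  have e1 : (11 + 180 * (C * (1 + C))) * ((T : ℝ) / p) *
      ((α * Real.log p) ^ 2 + (k / p) ^ 2) * ZZ s (bg s α N) =
      11 * ((T : ℝ) / p * (α * Real.log p) ^ 2 * ZZ s (bg s α N)) +
      11 * ((T : ℝ) / p * (k / p) ^ 2 * ZZ s (bg s α N)) +
      180 * (C * (1 + C) * ((T : ℝ) / p * (α * Real.log p) ^ 2 * ZZ s (bg s α N))) +
      180 * (C * (1 + C) * ((T : ℝ) / p * (k / p) ^ 2 * ZZ s (bg s α N))) := by ring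
  have e2 : (T : ℝ) / p * ((180 * (C * (1 + C)) * (α * Real.log p) ^ 2 + 10 * (k / p) ^ 2) *
      ZZ s (bg s α N)) =
      180 * (C * (1 + C) * ((T : ℝ) / p * (α * Real.log p) ^ 2 * ZZ s (bg s α N))) +
      10 * ((T : ℝ) / p * (k / p) ^ 2 * ZZ s (bg s α N)) := by ring
  rw [e1]
  rw [e2] at hmul
  linarith

end Pool.Agent.Lib.H59D
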