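import Pool.Agent.Lib.H59D.D2

/-!
# Chunk D4a (coefficients): savings for small primes
-/

open Finset

namespace Pool.Agent.Lib.H59D

open Pool.Agent.Lib.H56G

variable {ι J : Type} [Fintype ι] [DecidableEq ι] [Fintype J] [DecidableEq J]

/-- `h` is almost constant: `|h(u) - h(u+δ)| ≤ δ (1/Z + α)/(1 + αu)`. (For `u ≥ Z` both are `0`.) -/
theorem hh_sub_le {α Z u δ : ℝ} (hα : 0 ≤ α) (hZ : 0 < Z) (hu : 0 ≤ u) (hδ : 0 ≤ δ) :
    |hh α Z u - hh α Z (u + δ)| ≤ δ * (1 / Z + α) / (1 + α * u) := by
  have h0 := hh_anti (α := α) (Z := Z) hα hZ.le hu (show u ≤ u + δ by linarith)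
  rw [abs_of_nonneg (by linarith)]
  unfold hh
  have h1 : 0 < 1 + α * u := by positivity
  have h2 : 0 < 1 + α * (u + δ) := by positivity
  set m := max 0 (1 - u / Z) with hm
  set n := max 0 (1 - (u + δ) / Z) with hn
  have hn0 : 0 ≤ n := le_max_left _ _
  have hn1 : n ≤ 1 := by
    refine max_le zero_le_one ?_
    have : 0 ≤ (u + δ) / Z := by positivity
    linarith
  have hmn : m ≤ n + δ / Z := by
    refine max_le (by positivity) ?_
    have h3 : 1 - (u + δ) / Z ≤ n := le_max_right _ _
    have h4 : (u + δ) / Z = u / Z + δ / Z := by rw [add_div]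
    linarith
  rw [div_sub_div _ _ h1.ne' h2.ne', div_le_div_iff₀ (by positivity) h1]
  have h5 : m * (1 + α * (u + δ)) - (1 + α * u) * n ≤
      δ * (1 / Z + α) * (1 + α * (u + δ)) := by
    have h6 : m * (1 + α * (u + δ)) ≤ (n + δ / Z) * (1 + α * (u + δ)) :=
      mul_le_mul_of_nonneg_right hmn h2.le
    have h7 : n * (α * δ) ≤ 1 * (α * δ) := mul_le_mul_of_nonneg_right hn1 (by positivity)
    have h8 : α * δ * 1 ≤ α * δ * (1 + α * (u + δ)) :=
      mul_le_mul_of_nonneg_left (by have : 0 ≤ α * (u + δ) := by positivity
                                    linarith) (by positivity)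
    have h9 : δ / Z = δ * (1 / Z) := by ring
    rw [h9] at h6
    linarith
  calc (m * (1 + α * (u + δ)) - (1 + α * u) * n) * (1 + α * u)
      ≤ δ * (1 / Z + α) * (1 + α * (u + δ)) * (1 + α * u) :=
        mul_le_mul_of_nonneg_right h5 h1.le
    _ = δ * (1 / Z + α) * ((1 + α * u) * (1 + α * (u + δ))) := by ring

/-- `t(A) = 1/(φ(A) (1 + α log ρ(A)))` if `log ρ(A) ≤ Z`, `0` otherwise. -/
noncomputable def tA (s : Sys ι J) (α D : ℝ) (A : Finset ι) : ℝ :=
  if Real.log (s.rho A) ≤ Real.log D / 4 then 1 / (s.phi A * (1 + α * Real.log (s.rho A))) else 0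

theorem D4a_fibre (i : ι) (κ : ι → Option J) (hκ : κ i = none) (f : (ι → Option J) → ℝ) :
    ∑ κ₂ ∈ univ.filter (fun κ₂ : ι → Option J => Pool.Agent.Lib.H5C.rem κ₂ {i} = κ), f κ₂ =
      ∑ a : Option J, f (Function.update κ i a) := by
  refine Finset.sum_nbij' (fun κ₂ => κ₂ i) (fun a => Function.update κ i a) ?_ ?_ ?_ ?_ ?_
  · intro κ₂ _
    exact Finset.mem_univ _
  · intro a _
    rw [Finset.mem_filter]
    refine ⟨Finset.mem_univ _, ?_⟩
    funext i'
    unfold Pool.Agent.Lib.H5C.rem
    by_cases h : i' = i
    · subst h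
      simp [hκ]
    · simp [h, Function.update_of_ne h]
  · intro κ₂ h
    have h1 := (Finset.mem_filter.1 h).2
    funext i'
    by_cases h' : i' = i
    · subst h'
      simp
    · rw [Function.update_of_ne h', ← h1]
      unfold Pool.Agent.Lib.H5C.rem
      simp [h']
  · intro a _
    simp
  · intro κ₂ h
    have h1 := (Finset.mem_filter.1 h).2
    congr 1
    funext i'
    by_cases h' : i' = i
    · subst h'
      simp
    · rw [Function.update_of_ne h', ← h1]
      unfold Pool.Agent.Lib.H5C.rem
      simp [h']

theorem D4a_cut_sub {D r p : ℝ} (hD : 1 < D) (hr : 1 ≤ r) (hp : 1 ≤ p) :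
    |cut D r - cut D (p * r)| ≤ Real.log p / Real.log D := by
  have hlD := Real.log_pos hD
  have hlp := Real.log_nonneg hp
  unfold cut
  have h := abs_max_sub_max_le_max 0 (1 - Real.log r / Real.log D) 0
    (1 - Real.log (p * r) / Real.log D)
  refine h.trans ?_
  rw [sub_self, abs_zero, Real.log_mul (by linarith) (by linarith)]
  refine max_le (by positivity) ?_
  rw [show 1 - Real.log r / Real.log D - (1 - (Real.log p + Real.log r) / Real.log D) =
    Real.log p / Real.log D by ring, abs_of_nonneg (by positivity)]

/-- `E = {i}`, `p = pr i`, `κ i = none`, `A = part κ j`, `u = log ρ(A)`: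
`cE κ = cw κ - (p-1) cw (κ with i ↦ j) + Σ_{j' ≠ j} cw (κ with i ↦ j')`. The first two terms are
`∏_{j' ≠ j} ga(part κ j') · (1/φ(A)) (cut(r) h(u) - cut(rp) h(u + log p))` with absolute value
`≤ ∏_{j' ≠ j} ga(part κ j') · log p (1/log D + 4/log D + α) t(A) ≤ ∏ .. · 6 α log p · t(A)`
(`hh_sub_le`, `|cut r - cut (rp)| ≤ log p/log D`, `1 ≤ α log D`; both vanish for `u > Z` or `r > D`); the
other terms are `≤ (1/(p-1)) cc κ` each (`cw_rem`). -/
theorem abs_cE_one (s : Sys ι J) {α D : ℝ} (hα : 0 < α) (hD : 1 < D)
    (hαD : 1 ≤ α * Real.log D) (j : J) (i : ι) (κ : ι → Option J) (hκ : κ i = none) :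
    |cE s j {i} (cw s α D) κ| ≤
      6 * α * Real.log (s.pr i) *
        (tA s α D (part κ j) * ∏ j' ∈ univ.erase j, ga s α D (part κ j')) +
      Fintype.card J / ((s.pr i : ℝ) - 1) * cc s (bg s α D) D κ := by
  have hlD := Real.log_pos hD
  have hp := D2_p s i
  have hp2 : (2 : ℝ) ≤ s.pr i := by exact_mod_cast (s.prime i).two_le
  have hcc := cc_bg_nonneg s hα.le D κ
  have e1 : cE s j {i} (cw s α D) κ =
      ∑ a : Option J, cw s α D (Function.update κ i a) * vE s j i a := by
    unfold cE
    rw [D4a_fibre i κ hκ (fun κ₂ => cw s α D κ₂ * ∏ i' ∈ ({i} : Finset ι), vE s j i' (κ₂ i'))]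
    refine Finset.sum_congr rfl fun a _ => ?_
    simp
  have e2 : ∑ a : Option J, cw s α D (Function.update κ i a) * vE s j i a =
      (cw s α D κ - ((s.pr i : ℝ) - 1) * cw s α D (Function.update κ i (some j))) +
        ∑ j' ∈ univ.erase j, cw s α D (Function.update κ i (some j')) := by
    have hv0 : vE s j i none = 1 := by simp [vE]
    have hv1 : vE s j i (some j) = 1 - (s.pr i : ℝ) := by simp [vE]
    have hv2 : ∀ j' ∈ univ.erase j, cw s α D (Function.update κ i (some j')) *
        vE s j i (some j') = cw s α D (Function.update κ i (some j')) := by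
      intro j' hj'
      have hne := Finset.ne_of_mem_erase hj'
      simp [vE, hne]
    have hupd : Function.update κ i none = κ := by
      rw [← hκ]
      exact Function.update_eq_self i κ
    rw [Fintype.sum_option, hupd, hv0, ← Finset.add_sum_erase univ _ (Finset.mem_univ j), hv1,
      Finset.sum_congr rfl hv2]
    ring
  rw [e1, e2]
  refine (abs_add_le _ _).trans (add_le_add ?_ ?_)
  · -- the main terms
    have hnotin : i ∉ part κ j := by
      rw [off_mem_part, hκ]
      simp
    have hnotin' : i ∉ supp κ := by
      rw [off_mem_supp, hκ]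
      simp
    have hpj : part (Function.update κ i (some j)) j = insert i (part κ j) := by
      ext i'
      rw [off_mem_part, Finset.mem_insert, off_mem_part]
      by_cases h : i' = i
      · subst h
        simp
      · rw [Function.update_of_ne h]
        simp [h]
    have hpj' : ∀ j' ∈ univ.erase j, part (Function.update κ i (some j)) j' = part κ j' := by
      intro j' hj'
      have hne := Finset.ne_of_mem_erase hj'
      ext i'
      rw [off_mem_part, off_mem_part]
      by_cases h : i' = i
      · subst h
        simp [hκ, hne.symm]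
      · rw [Function.update_of_ne h]
    have hs : supp (Function.update κ i (some j)) = insert i (supp κ) := by
      ext i'
      rw [off_mem_supp, Finset.mem_insert, off_mem_supp]
      by_cases h : i' = i
      · subst h
        simp
      · rw [Function.update_of_ne h]
        simp [h]
    have hr : s.r (Function.update κ i (some j)) = (s.pr i : ℝ) * s.r κ := by
      unfold Sys.r Sys.rho
      rw [hs, Finset.prod_insert hnotin']
    have hrho : s.rho (insert i (part κ j)) = (s.pr i : ℝ) * s.rho (part κ j) := by
      unfold Sys.rho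
      rw [Finset.prod_insert hnotin]
    have hphi : s.phi (insert i (part κ j)) = ((s.pr i : ℝ) - 1) * s.phi (part κ j) := by
      unfold Sys.phi
      rw [Finset.prod_insert hnotin]
    have hrho1 := one_le_rho s (part κ j)
    have hphi1 := one_le_phi s (part κ j)
    have hu := log_rho_nonneg s (part κ j)
    have hr1 := one_le_r s κ
    set u := Real.log (s.rho (part κ j)) with hudef
    set P := ∏ j' ∈ univ.erase j, ga s α D (part κ j') with hP
    have hP0 : 0 ≤ P := Finset.prod_nonneg fun j' _ => ga_nonneg s hα.le D _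
    set lp := Real.log (s.pr i : ℝ) with hlp
    have hlp0 : 0 ≤ lp := Real.log_nonneg (by linarith)
    have hlog : Real.log ((s.pr i : ℝ) * s.rho (part κ j)) = u + lp := by
      rw [Real.log_mul (by linarith) (by linarith)]
      ring
    have f1 : cw s α D κ = cut D (s.r κ) * (hh α (Real.log D / 4) u / s.phi (part κ j) * P) := by
      unfold cw
      rw [← Finset.mul_prod_erase univ _ (Finset.mem_univ j)]
      rfl
    have f2 : cw s α D (Function.update κ i (some j)) =
        cut D ((s.pr i : ℝ) * s.r κ) *
          (hh α (Real.log D / 4) (u + lp) / (((s.pr i : ℝ) - 1) * s.phi (part κ j)) * P) := by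
      unfold cw
      rw [← Finset.mul_prod_erase univ _ (Finset.mem_univ j), hpj, hr,
        Finset.prod_congr rfl (fun j' hj' => by rw [hpj' j' hj'] :
          ∀ j' ∈ univ.erase j, ga s α D (part (Function.update κ i (some j)) j') =
            ga s α D (part κ j'))]
      unfold ga
      rw [hrho, hphi, hlog]
      rfl
    have f3 : cw s α D κ - ((s.pr i : ℝ) - 1) * cw s α D (Function.update κ i (some j)) =
        P / s.phi (part κ j) * (cut D (s.r κ) * hh α (Real.log D / 4) u -
          cut D ((s.pr i : ℝ) * s.r κ) * hh α (Real.log D / 4) (u + lp)) := by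
      rw [f1, f2]
      have : s.phi (part κ j) ≠ 0 := by linarith
      field_simp
    rw [f3, abs_mul, abs_of_nonneg (by positivity : 0 ≤ P / s.phi (part κ j))]
    by_cases hZ : u ≤ Real.log D / 4
    · have g1 : |cut D (s.r κ) * hh α (Real.log D / 4) u -
          cut D ((s.pr i : ℝ) * s.r κ) * hh α (Real.log D / 4) (u + lp)| ≤
          6 * α * lp / (1 + α * u) := by
        have hau : 0 < 1 + α * u := by positivity
        have k1 : cut D (s.r κ) * hh α (Real.log D / 4) u -
            cut D ((s.pr i : ℝ) * s.r κ) * hh α (Real.log D / 4) (u + lp) =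
            (cut D (s.r κ) - cut D ((s.pr i : ℝ) * s.r κ)) * hh α (Real.log D / 4) u +
            cut D ((s.pr i : ℝ) * s.r κ) *
              (hh α (Real.log D / 4) u - hh α (Real.log D / 4) (u + lp)) := by ring
        have k2 := D4a_cut_sub (r := s.r κ) (p := s.pr i) hD hr1 (by linarith)
        have k3 := hh_sub_le (α := α) (Z := Real.log D / 4) (u := u) (δ := lp) hα.le
          (by positivity) hu hlp0
        have k4 := hh_nonneg (α := α) (Z := Real.log D / 4) (u := u) hα.le hu
        have k5 := hh_le (α := α) (Z := Real.log D / 4) (u := u) hα.le (by positivity) hu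
        have k6 := cut_nonneg D ((s.pr i : ℝ) * s.r κ)
        have k7 : cut D ((s.pr i : ℝ) * s.r κ) ≤ 1 := cut_le_one hD.le (by nlinarith)
        have k8 : 1 / Real.log D ≤ α := by
          rw [div_le_iff₀ hlD]
          exact hαD
        rw [k1]
        refine (abs_add_le _ _).trans ?_
        rw [abs_mul, abs_mul, abs_of_nonneg k4, abs_of_nonneg k6]
        have k9 : |cut D (s.r κ) - cut D ((s.pr i : ℝ) * s.r κ)| * hh α (Real.log D / 4) u ≤
            (lp * α) * (1 / (1 + α * u)) := by
          refine mul_le_mul (k2.trans ?_) k5 k4 (by positivity)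
          rw [div_eq_mul_one_div]
          exact mul_le_mul_of_nonneg_left k8 hlp0
        have k10 : cut D ((s.pr i : ℝ) * s.r κ) *
            |hh α (Real.log D / 4) u - hh α (Real.log D / 4) (u + lp)| ≤
            lp * (5 * α) * (1 / (1 + α * u)) := by
          refine (mul_le_of_le_one_left (abs_nonneg _) k7).trans (k3.trans ?_)
          rw [div_eq_mul_one_div]
          refine mul_le_mul_of_nonneg_right (mul_le_mul_of_nonneg_left ?_ hlp0) (by positivity)
          have : 1 / (Real.log D / 4) = 4 * (1 / Real.log D) := by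
            field_simp
          rw [this]
          linarith
        refine (add_le_add k9 k10).trans (le_of_eq ?_)
        ring
      have g2 : tA s α D (part κ j) = 1 / (s.phi (part κ j) * (1 + α * u)) := by
        unfold tA
        rw [if_pos hZ]
      rw [g2]
      refine (mul_le_mul_of_nonneg_left g1 (by positivity)).trans (le_of_eq ?_)
      have hau : 1 + α * u ≠ 0 := by positivity
      have : s.phi (part κ j) ≠ 0 := by linarith
      field_simp
    · have hZ' := not_le.mp hZ
      have hz0 : 0 < Real.log D / 4 := by positivity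
      rw [hh_eq_zero hz0 hZ'.le, hh_eq_zero hz0 (by linarith : Real.log D / 4 ≤ u + lp)]
      have g2 : tA s α D (part κ j) = 0 := by
        unfold tA
        rw [if_neg hZ]
      rw [g2]
      simp
  · -- the other forms
    have hterm : ∀ j' ∈ univ.erase j, cw s α D (Function.update κ i (some j')) ≤
        1 / ((s.pr i : ℝ) - 1) * cc s (bg s α D) D κ := by
      intro j' _
      have h := cw_rem s hα.le hD (Function.update κ i (some j')) {i}
      have hrem : Pool.Agent.Lib.H5C.rem (Function.update κ i (some j')) {i} = κ := by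
        funext i'
        unfold Pool.Agent.Lib.H5C.rem
        by_cases h : i' = i
        · subst h
          simp [hκ]
        · simp [h, Function.update_of_ne h]
      rw [hrem] at h
      simpa using h
    rw [abs_of_nonneg (Finset.sum_nonneg fun j' _ => cw_nonneg s hα.le D _)]
    refine (Finset.sum_le_sum hterm).trans ?_
    rw [Finset.sum_const, nsmul_eq_mul]
    have hcard : (((univ : Finset J).erase j).card : ℝ) ≤ Fintype.card J := by
      exact_mod_cast (Finset.card_le_univ _)
    calc (((univ : Finset J).erase j).card : ℝ) * (1 / ((s.pr i : ℝ) - 1) * cc s (bg s α D) D κ)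
        ≤ (Fintype.card J : ℝ) * (1 / ((s.pr i : ℝ) - 1) * cc s (bg s α D) D κ) :=
          mul_le_mul_of_nonneg_right hcard (by positivity)
      _ = _ := by ring

end Pool.Agent.Lib.H59D
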