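import Pool.Agent.Lib.H5C.PAR
import Pool.Agent.Lib.H56G.Off
import Pool.Agent.Lib.H56G.Coef1
import Pool.Agent.Lib.H5C.TH3
import Pool.Agent.Lib.H5C.PM4a

/-!
# Project H59D (MP_f686a1_nt): Maynard-Tao in the full range, with almost prime components

See `PROOF.md` in this folder. Sieve objects (`Sys`, `noJ`, `cp`, `cc`, `vv`, `wt`, `ZZ`, ..) are
those of `Lib/H56G/Defs.lean`; `cr`, `WX` those of `Lib/H5C`.

`k = |J|` is the number of forms, `ℓ = el k = 1 + log k`, `W = WX X = ⌈(log X)^16⌉`,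
`N = NN η X = ⌊X^η⌋`. The sieve primes are primes in `(W, N]`; the level is `D = N`.
-/

open Finset

namespace Pool.Agent.Lib.H59D

open Pool.Agent.Lib.H56G
open Pool.Agent.Lib.H5C (WX cr rem)

/-! ## Parameters -/

/-- The upper end of the sieve primes. -/
noncomputable def NN (η : ℝ) (X : ℕ) : ℕ := ⌊(X : ℝ) ^ η⌋₊

/-- `ℓ = 1 + log k` -/
noncomputable def el (k : ℕ) : ℝ := 1 + Real.log k

/-- The regime: `X` large and `K k ℓ loglog X ≤ log X`. -/
def Rg (K : ℝ) (X k : ℕ) : Prop :=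
  1 ≤ k ∧ K ≤ Real.log (Real.log X) ∧
    K * (el k * k * Real.log (Real.log X)) ≤ Real.log X

/-! ## Coefficients -/

/-- The profile `(1 - u/Z)⁺/(1 + α u)`. -/
noncomputable def hh (α Z u : ℝ) : ℝ := max 0 (1 - u / Z) / (1 + α * u)

/-- The cut off `(1 - log r/log D)⁺`. -/
noncomputable def cut (D r : ℝ) : ℝ := max 0 (1 - Real.log r / Real.log D)

variable {ι J : Type} [Fintype ι] [DecidableEq ι] [Fintype J] [DecidableEq J]

/-- One part of the coefficients: `h(log ρ(A))/φ(A)`, `Z = log D/4`. -/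
noncomputable def ga (s : Sys ι J) (α D : ℝ) (A : Finset ι) : ℝ :=
  hh α (Real.log D / 4) (Real.log (s.rho A)) / s.phi A

/-- `- ga`, so that `gam (bg s α D) A = ga s α D A` (`H56G.gam`). -/
noncomputable def bg (s : Sys ι J) (α D : ℝ) (A : Finset ι) : ℝ := - ga s α D A

/-- `θ = Σ_{A ≠ ∅} ga A` -/
noncomputable def th (s : Sys ι J) (α D : ℝ) : ℝ :=
  ∑ A ∈ univ.filter (fun A : Finset ι => A ≠ ∅), ga s α D A

/-- `Σ_{A ≠ ∅} (ga A)² φ(A)` -/
noncomputable def Gm (s : Sys ι J) (α D : ℝ) : ℝ :=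
  ∑ A ∈ univ.filter (fun A : Finset ι => A ≠ ∅), vv s (bg s α D) A

/-- `Σ_{A ≠ ∅, log ρ(A) ≤ Z} 1/(φ(A) (1 + α log ρ(A))²)` -/
noncomputable def Gt (s : Sys ι J) (α D : ℝ) : ℝ :=
  ∑ A ∈ univ.filter (fun A : Finset ι => A ≠ ∅ ∧ Real.log (s.rho A) ≤ Real.log D / 4),
    1 / (s.phi A * (1 + α * Real.log (s.rho A)) ^ 2)

/-- The coefficients of the weight. -/
noncomputable def cw (s : Sys ι J) (α D : ℝ) (κ : ι → Option J) : ℝ :=
  cut D (s.r κ) * ∏ j, ga s α D (part κ j)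

/-- The weight is `(Lf t)²`. -/
noncomputable def Lf (s : Sys ι J) (α D : ℝ) (t : ℕ) : ℝ := ∑ κ, cw s α D κ * s.U κ t

open Classical in
/-- The mass of the `t ≤ T` with `P t`. -/
noncomputable def mass (s : Sys ι J) (α D : ℝ) (T : ℕ) (P : ℕ → Prop) : ℝ :=
  ∑ t ∈ (Icc 1 T).filter P, (Lf s α D t) ^ 2

/-! ## The sieve primes and the data -/

/-- The primes in `(W, N]` which are not sieve primes. -/
def Mis (s : Sys ι J) (W N : ℕ) : Finset ℕ :=
  (Ioc W N).filter (fun p => p.Prime ∧ ∀ i, s.pr i ≠ p)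

/-- The sieve primes are in `(W, N]`, and at most `(log X)^3` primes are missing. -/
structure Sv (η : ℝ) (X : ℕ) (s : Sys ι J) : Prop where
  lo : ∀ i, WX X < s.pr i
  hi : ∀ i, s.pr i ≤ NN η X
  mis : ((Mis s (WX X) (NN η X)).card : ℝ) ≤ (Real.log X) ^ 3

/-- Everything which is used about the parameter `α` (of size `k ℓ/log N`). -/
structure Data (η C : ℝ) (X : ℕ) (s : Sys ι J) (α : ℝ) : Prop where
  sv : Sv η X s
  a0 : 0 < α
  alo : el (Fintype.card J) * Fintype.card J ≤ α * Real.log (NN η X)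
  ahi : α * Real.log (NN η X) ≤ C * (el (Fintype.card J) * Fintype.card J)
  aw : α * Real.log (WX X) ≤ 1
  tlo : el (Fintype.card J) ≤ C * (α * Real.log (WX X) * th s α (NN η X))
  thi : α * Real.log (WX X) * th s α (NN η X) ≤ C * el (Fintype.card J)
  glo : 1 ≤ C * (α * Real.log (WX X) * Gm s α (NN η X))
  ghi : α * Real.log (WX X) * Gm s α (NN η X) ≤ C
  gt : α * Real.log (WX X) * Gt s α (NN η X) ≤ C
  tail : ∑ κ ∈ univ.filter (fun κ : ι → Option J => √(NN η X : ℝ) < s.r κ),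
      wt s (bg s α (NN η X)) κ ≤ ZZ s (bg s α (NN η X)) / 10

/-! ## Basic lemmas -/

theorem hh_nonneg {α Z u : ℝ} (hα : 0 ≤ α) (hu : 0 ≤ u) : 0 ≤ hh α Z u :=
  div_nonneg (le_max_left _ _) (by positivity)

theorem hh_zero_arg (α Z : ℝ) : hh α Z 0 = 1 := by simp [hh]

/-- `h(u) ≤ 1/(1 + α u)` -/
theorem hh_le {α Z u : ℝ} (hα : 0 ≤ α) (hZ : 0 ≤ Z) (hu : 0 ≤ u) : hh α Z u ≤ 1 / (1 + α * u) := by
  unfold hh
  have h1 : 0 < 1 + α * u := by positivity
  refine div_le_div_of_nonneg_right (max_le zero_le_one ?_) h1.le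
  have : 0 ≤ u / Z := by positivity
  linarith

theorem hh_le_one {α Z u : ℝ} (hα : 0 ≤ α) (hZ : 0 ≤ Z) (hu : 0 ≤ u) : hh α Z u ≤ 1 := by
  refine (hh_le hα hZ hu).trans ?_
  have h1 : 0 < 1 + α * u := by positivity
  rw [div_le_one h1]
  nlinarith [mul_nonneg hα hu]

theorem hh_eq_zero {α Z u : ℝ} (hZ : 0 < Z) (hu : Z ≤ u) : hh α Z u = 0 := by
  unfold hh
  have h : 1 ≤ u / Z := by rw [le_div_iff₀ hZ]; linarith
  rw [max_eq_left (by linarith), zero_div]

/-- `h` is decreasing. -/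
theorem hh_anti {α Z u v : ℝ} (hα : 0 ≤ α) (hZ : 0 ≤ Z) (hu : 0 ≤ u) (huv : u ≤ v) :
    hh α Z v ≤ hh α Z u := by
  unfold hh
  have h1 : 0 < 1 + α * u := by positivity
  have h2 : 1 + α * u ≤ 1 + α * v := by nlinarith
  have h3 : u / Z ≤ v / Z := div_le_div_of_nonneg_right huv hZ
  have h4 : max 0 (1 - v / Z) ≤ max 0 (1 - u / Z) := max_le_max le_rfl (by linarith)
  exact div_le_div₀ (le_max_left _ _) h4 h1 h2

theorem log_rho_nonneg (s : Sys ι J) (A : Finset ι) : 0 ≤ Real.log (s.rho A) :=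
  Real.log_nonneg (one_le_rho s A)

theorem log_rho_erase (s : Sys ι J) (A : Finset ι) (i : ι) (hi : i ∈ A) :
    Real.log (s.rho A) = Real.log (s.pr i) + Real.log (s.rho (A.erase i)) := by
  rw [Pool.Agent.Lib.H5C.pm4a_rho s A i hi, Real.log_mul]
  · have := (s.prime i).pos
    positivity
  · have := one_le_rho s (A.erase i)
    positivity

theorem ga_empty (s : Sys ι J) (α D : ℝ) : ga s α D ∅ = 1 := by
  simp [ga, Sys.rho, Sys.phi, hh_zero_arg]

theorem ga_nonneg (s : Sys ι J) {α : ℝ} (hα : 0 ≤ α) (D : ℝ) (A : Finset ι) :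
    0 ≤ ga s α D A :=
  div_nonneg (hh_nonneg hα (log_rho_nonneg s A)) (zero_le_one.trans (one_le_phi s A))

theorem ga_le_one (s : Sys ι J) {α D : ℝ} (hα : 0 ≤ α) (hD : 1 ≤ D) (A : Finset ι) :
    ga s α D A ≤ 1 := by
  unfold ga
  have h1 := one_le_phi s A
  rw [div_le_one (by linarith)]
  exact (hh_le_one hα (by have := Real.log_nonneg hD; positivity) (log_rho_nonneg s A)).trans h1

theorem ga_eq_zero (s : Sys ι J) {α D : ℝ} (hD : 1 < D) (A : Finset ι)
    (h : Real.log D / 4 ≤ Real.log (s.rho A)) : ga s α D A = 0 := by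
  unfold ga
  rw [hh_eq_zero (by have := Real.log_pos hD; positivity) h, zero_div]

/-- Taking a prime away. -/
theorem ga_erase (s : Sys ι J) {α D : ℝ} (hα : 0 ≤ α) (hD : 1 ≤ D) (A : Finset ι) (i : ι)
    (hi : i ∈ A) : ga s α D A ≤ 1 / ((s.pr i : ℝ) - 1) * ga s α D (A.erase i) := by
  unfold ga
  have hp : (2 : ℝ) ≤ s.pr i := by exact_mod_cast (s.prime i).two_le
  have h1 : (0 : ℝ) < (s.pr i : ℝ) - 1 := by linarith
  have h2 := one_le_phi s (A.erase i)
  rw [Pool.Agent.Lib.H5C.pm4a_phi s A i hi, one_div, ← div_eq_inv_mul, div_div,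
    mul_comm (s.phi (A.erase i))]
  refine div_le_div_of_nonneg_right ?_ (by positivity)
  refine hh_anti hα (by have := Real.log_nonneg hD; positivity) (log_rho_nonneg s _) ?_
  rw [log_rho_erase s A i hi]
  have : 0 ≤ Real.log (s.pr i : ℝ) := Real.log_nonneg (by linarith)
  linarith

theorem gam_bg (s : Sys ι J) (α D : ℝ) (A : Finset ι) : gam (bg s α D) A = ga s α D A := by
  unfold gam bg
  split_ifs with h
  · rw [h, ga_empty]
  · rw [neg_neg]

theorem vv_bg (s : Sys ι J) (α D : ℝ) (A : Finset ι) :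
    vv s (bg s α D) A = (ga s α D A) ^ 2 * s.phi A := by
  unfold vv
  rw [gam_bg]

theorem vv_nonneg (s : Sys ι J) (bb : Finset ι → ℝ) (A : Finset ι) : 0 ≤ vv s bb A :=
  mul_nonneg (sq_nonneg _) (zero_le_one.trans (one_le_phi s A))

theorem vv_erase (s : Sys ι J) {α D : ℝ} (hα : 0 ≤ α) (hD : 1 ≤ D) (A : Finset ι) (i : ι)
    (hi : i ∈ A) :
    vv s (bg s α D) A ≤ 1 / ((s.pr i : ℝ) - 1) * vv s (bg s α D) (A.erase i) := by
  rw [vv_bg, vv_bg, Pool.Agent.Lib.H5C.pm4a_phi s A i hi]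
  have hp : (2 : ℝ) ≤ s.pr i := by exact_mod_cast (s.prime i).two_le
  have h1 : (0 : ℝ) < (s.pr i : ℝ) - 1 := by linarith
  have h2 := one_le_phi s (A.erase i)
  have h3 := ga_erase s hα hD A i hi
  have h4 : (ga s α D A) ^ 2 ≤ (1 / ((s.pr i : ℝ) - 1) * ga s α D (A.erase i)) ^ 2 :=
    pow_le_pow_left₀ (ga_nonneg s hα D A) h3 2
  calc (ga s α D A) ^ 2 * (((s.pr i : ℝ) - 1) * s.phi (A.erase i))
      ≤ (1 / ((s.pr i : ℝ) - 1) * ga s α D (A.erase i)) ^ 2 *
        (((s.pr i : ℝ) - 1) * s.phi (A.erase i)) :=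
        mul_le_mul_of_nonneg_right h4 (by positivity)
    _ = _ := by field_simp

theorem Gm_nonneg (s : Sys ι J) (α D : ℝ) : 0 ≤ Gm s α D :=
  Finset.sum_nonneg fun A _ => vv_nonneg s _ A

theorem th_nonneg (s : Sys ι J) {α : ℝ} (hα : 0 ≤ α) (D : ℝ) : 0 ≤ th s α D :=
  Finset.sum_nonneg fun A _ => ga_nonneg s hα D A

theorem cc_bg (s : Sys ι J) (α D : ℝ) (κ : ι → Option J) :
    cc s (bg s α D) D κ = if s.r κ ≤ D then ∏ j, ga s α D (part κ j) else 0 := by
  unfold cc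
  simp only [gam_bg]

theorem cc_bg_nonneg (s : Sys ι J) {α : ℝ} (hα : 0 ≤ α) (D : ℝ) (κ : ι → Option J) :
    0 ≤ cc s (bg s α D) D κ := by
  rw [cc_bg]
  split_ifs
  · exact Finset.prod_nonneg fun j _ => ga_nonneg s hα D _
  · exact le_rfl

theorem cc_bg_le_one (s : Sys ι J) {α D : ℝ} (hα : 0 ≤ α) (hD : 1 ≤ D) (κ : ι → Option J) :
    cc s (bg s α D) D κ ≤ 1 := by
  rw [cc_bg]
  split_ifs
  · exact Finset.prod_le_one (fun j _ => ga_nonneg s hα D _) (fun j _ => ga_le_one s hα hD _)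
  · exact zero_le_one

theorem one_le_r (s : Sys ι J) (κ : ι → Option J) : 1 ≤ s.r κ := one_le_rho s (supp κ)

theorem cut_nonneg (D r : ℝ) : 0 ≤ cut D r := le_max_left _ _

theorem cut_le_one {D r : ℝ} (hD : 1 ≤ D) (hr : 1 ≤ r) : cut D r ≤ 1 := by
  unfold cut
  refine max_le zero_le_one ?_
  have h1 := Real.log_nonneg hD
  have h2 := Real.log_nonneg hr
  have : 0 ≤ Real.log r / Real.log D := by positivity
  linarith

theorem cut_eq_zero {D r : ℝ} (hD : 1 < D) (hr : D ≤ r) : cut D r = 0 := by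
  unfold cut
  have h1 := Real.log_pos hD
  have h2 : Real.log D ≤ Real.log r := Real.log_le_log (by linarith) hr
  have : 1 ≤ Real.log r / Real.log D := by rw [le_div_iff₀ h1]; linarith
  exact max_eq_left (by linarith)

theorem cw_nonneg (s : Sys ι J) {α : ℝ} (hα : 0 ≤ α) (D : ℝ) (κ : ι → Option J) :
    0 ≤ cw s α D κ :=
  mul_nonneg (cut_nonneg _ _) (Finset.prod_nonneg fun j _ => ga_nonneg s hα D _)

theorem cw_le_cc (s : Sys ι J) {α D : ℝ} (hα : 0 ≤ α) (hD : 1 < D) (κ : ι → Option J) :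
    cw s α D κ ≤ cc s (bg s α D) D κ := by
  rw [cc_bg]
  unfold cw
  have h0 : 0 ≤ ∏ j, ga s α D (part κ j) := Finset.prod_nonneg fun j _ => ga_nonneg s hα D _
  split_ifs with h
  · exact mul_le_of_le_one_left h0 (cut_le_one hD.le (one_le_r s κ))
  · rw [cut_eq_zero hD (not_le.mp h).le, zero_mul]

theorem cw_ne_zero (s : Sys ι J) {α D : ℝ} (hD : 1 < D) (κ : ι → Option J)
    (h : cw s α D κ ≠ 0) : s.r κ ≤ D := by
  by_contra hc
  exact h (by unfold cw; rw [cut_eq_zero hD (not_le.mp hc).le, zero_mul])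

theorem wt_bg (s : Sys ι J) (α D : ℝ) (κ : ι → Option J) :
    wt s (bg s α D) κ = (∏ j, ga s α D (part κ j)) ^ 2 * s.ph κ := by
  unfold wt
  simp only [vv_bg]
  rw [Finset.prod_mul_distrib, ← Finset.prod_pow, ← ph_eq_prod_part]

/-- The support of the weights: every part has size at most `D^(1/4)`. -/
theorem wt_ne_zero (s : Sys ι J) {α D : ℝ} (hD : 1 < D) (κ : ι → Option J)
    (h : wt s (bg s α D) κ ≠ 0) : Real.log (s.r κ) ≤ Fintype.card J * (Real.log D / 4) := by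
  have h1 : ∀ j, Real.log (s.rho (part κ j)) ≤ Real.log D / 4 := by
    intro j
    by_contra hc
    apply h
    unfold wt
    refine Finset.prod_eq_zero (mem_univ j) ?_
    rw [vv_bg, ga_eq_zero s hD _ (not_le.mp hc).le]
    ring
  rw [r_eq_prod_part, Real.log_prod (fun j _ => by have := one_le_rho s (part κ j); positivity)]
  refine (Finset.sum_le_sum fun j _ => h1 j).trans ?_
  rw [Finset.sum_const, card_univ, nsmul_eq_mul]

theorem el_one_le {k : ℕ} (hk : 1 ≤ k) : 1 ≤ el k := by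
  unfold el
  have : 0 ≤ Real.log k := Real.log_nonneg (by exact_mod_cast hk)
  linarith

theorem el_le {k : ℕ} (hk : 1 ≤ k) : el k ≤ k := by
  unfold el
  have : Real.log k ≤ k - 1 := Real.log_le_sub_one_of_pos (by exact_mod_cast hk)
  linarith

theorem Rg.mono {K K' : ℝ} {X k : ℕ} (h : Rg K X k) (h0 : 0 ≤ K) (hK : K' ≤ K) : Rg K' X k := by
  obtain ⟨h1, h2, h3⟩ := h
  refine ⟨h1, hK.trans h2, le_trans ?_ h3⟩
  have hl := el_one_le h1
  have hll : 0 ≤ Real.log (Real.log X) := h0.trans h2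
  exact mul_le_mul_of_nonneg_right hK (by positivity)

theorem mass_nonneg (s : Sys ι J) (α D : ℝ) (T : ℕ) (P : ℕ → Prop) : 0 ≤ mass s α D T P :=
  Finset.sum_nonneg fun t _ => sq_nonneg _

theorem mass_mono (s : Sys ι J) (α D : ℝ) (T : ℕ) (P Q : ℕ → Prop)
    (h : ∀ t, 1 ≤ t → t ≤ T → P t → Q t) : mass s α D T P ≤ mass s α D T Q := by
  classical
  unfold mass
  refine Finset.sum_le_sum_of_subset_of_nonneg ?_ fun t _ _ => sq_nonneg _
  intro t ht
  rw [mem_filter, mem_Icc] at ht ⊢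
  exact ⟨ht.1, h t ht.1.1 ht.1.2 ht.2⟩

theorem mass_or (s : Sys ι J) (α D : ℝ) (T : ℕ) (P Q : ℕ → Prop) :
    mass s α D T (fun t => P t ∨ Q t) ≤ mass s α D T P + mass s α D T Q := by
  classical
  unfold mass
  have h := Finset.sum_union_inter (s₁ := (Icc 1 T).filter P) (s₂ := (Icc 1 T).filter Q)
    (f := fun t => (Lf s α D t) ^ 2)
  refine (le_of_eq (Finset.sum_congr
    (s₂ := (Icc 1 T).filter P ∪ (Icc 1 T).filter Q) ?_ fun _ _ => rfl)).trans ?_
  · ext t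
    simp only [mem_union, mem_filter]
    tauto
  have h2 : 0 ≤ ∑ t ∈ (Icc 1 T).filter P ∩ (Icc 1 T).filter Q, (Lf s α D t) ^ 2 :=
    Finset.sum_nonneg fun t _ => sq_nonneg _
  linarith

/-- Union bound. -/
theorem mass_exists (s : Sys ι J) (α D : ℝ) (T : ℕ) {β : Type} (S : Finset β)
    (P : β → ℕ → Prop) :
    mass s α D T (fun t => ∃ b ∈ S, P b t) ≤ ∑ b ∈ S, mass s α D T (P b) := by
  classical
  induction S using Finset.induction_on with
  | empty =>
    simp [mass]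
  | insert a S ha ih =>
    rw [Finset.sum_insert ha]
    refine le_trans (mass_mono s α D T _ (fun t => P a t ∨ ∃ b ∈ S, P b t) ?_)
      ((mass_or s α D T _ _).trans (by linarith))
    intro t _ _ ht
    obtain ⟨b, hb, hP⟩ := ht
    rcases Finset.mem_insert.mp hb with rfl | hb
    · exact Or.inl hP
    · exact Or.inr ⟨b, hb, hP⟩

end Pool.Agent.Lib.H59D
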