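import Pool.Agent.Lib.H59D.MX

/-!
# Chunk F1: the system of forms of an admissible set
-/

open Finset

namespace Pool.Agent.Lib.H59D

open Pool.Agent.Lib.H56G
open Pool.Agent.Lib.H5C (WX)

theorem F1_card_log (n : ℕ) (hn : 0 < n) (W : ℕ) (hW : 2 ≤ W) :
    ((n.primeFactors.filter (fun p => W < p)).card : ℝ) ≤ Real.log n := by
  set S := n.primeFactors.filter (fun p => W < p) with hS
  have h1 : 3 ^ S.card ≤ ∏ p ∈ S, p := by
    apply Finset.pow_card_le_prod
    intro p hp
    rw [hS, Finset.mem_filter] at hp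
    omega
  have h2 : (∏ p ∈ S, p) ∣ n :=
    dvd_trans (Finset.prod_dvd_prod_of_subset _ _ _ (Finset.filter_subset _ _))
      (Nat.prod_primeFactors_dvd n)
  have h3 : ((3 : ℝ)) ^ S.card ≤ n := by
    exact_mod_cast h1.trans (Nat.le_of_dvd hn h2)
  have h4 : Real.log ((3 : ℝ) ^ S.card) ≤ Real.log n := Real.log_le_log (by positivity) h3
  rw [Real.log_pow] at h4
  have h5 : (1 : ℝ) ≤ Real.log 3 := by
    rw [Real.le_log_iff_exp_le (by norm_num)]
    have := Real.exp_one_lt_d9
    linarith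
  have h6 : (0 : ℝ) ≤ S.card := by positivity
  nlinarith

/-- The Chinese remainder theorem for the shift. -/
theorem F1_crt (P : Finset ℕ) (hP : ∀ p ∈ P, p.Prime) (A : Finset ℕ)
    (hA : ∀ p : ℕ, p.Prime → ∃ r : ZMod p, ∀ a ∈ A, (a : ZMod p) ≠ r) :
    ∃ b0 : ℕ, b0 < ∏ p ∈ P, p ∧ ∀ a ∈ A, Nat.Coprime (b0 + a) (∏ p ∈ P, p) := by
  classical
  choose! r hr using hA
  have hne : ∀ p ∈ P, id p ≠ 0 := fun p hp => (hP p hp).ne_zero
  have hpp : Set.Pairwise (P : Set ℕ) (Function.onFun Nat.Coprime (id : ℕ → ℕ)) := by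
    intro p hp q hq hpq
    exact (Nat.coprime_primes (hP p hp) (hP q hq)).2 hpq
  obtain ⟨b0, hb0⟩ : ∃ b0 : ℕ, b0 < ∏ p ∈ P, id p ∧ ∀ p ∈ P, b0 ≡ (-(r p)).val [MOD id p] :=
    ⟨Nat.chineseRemainderOfFinset (fun p => (-(r p)).val) id P hne hpp,
      Nat.chineseRemainderOfFinset_lt_prod _ _ hne hpp,
      (Nat.chineseRemainderOfFinset (fun p => (-(r p)).val) id P hne hpp).2⟩
  refine ⟨b0, by simpa using hb0.1, ?_⟩
  intro a ha
  apply Nat.Coprime.prod_right
  intro p hp
  have hpp2 := hP p hp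
  haveI : Fact p.Prime := ⟨hpp2⟩
  rw [Nat.coprime_comm, Nat.Prime.coprime_iff_not_dvd hpp2]
  intro hd
  have h1 : ((b0 + a : ℕ) : ZMod p) = 0 := (ZMod.natCast_eq_zero_iff _ _).2 hd
  have h2 : ((b0 : ℕ) : ZMod p) = -(r p) := by
    have h3 := (ZMod.natCast_eq_natCast_iff b0 ((-(r p)).val) p).2 (hb0.2 p hp)
    rw [h3, ZMod.natCast_zmod_val]
  push_cast at h1
  rw [h2] at h1
  apply hr p hpp2 a ha
  have h4 : (a : ZMod p) = r p + (-(r p) + a) := by ring
  rw [h4, h1, add_zero]

/-- `ι` = the primes `p ∈ (W, N]` which divide no difference of elements of `A` (subtype of a finset),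
`M = MX X p1`, `b a = b0 + a`, with `b0 < M` chosen by the Chinese remainder theorem: for every prime
`p ∣ M` there is a residue class without elements of `A` (admissibility), `b0` is in minus this class
(`M` is squarefree). `copM`: the primes of `ι` are `> W ≥ y` (`MX_le`, `dvd_MX`). Missing primes: each
divides some `a - a' ≠ 0`, `|a - a'| ≤ X`, and an integer in `[1, X]` has at most
`log X/log W ≤ log X` prime factors `> W`; so `#Mis ≤ k² log X ≤ (log X)³` (`k ≤ log X`). -/
theorem exists_sys : ∀ η : ℝ, 0 < η → η ≤ 1 / 1000 → ∃ K : ℝ, 1 ≤ K ∧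
    ∀ (X : ℕ) (A : Finset ℕ), A.Nonempty →
      (∀ p : ℕ, p.Prime → ∃ r : ZMod p, ∀ a ∈ A, (a : ZMod p) ≠ r) →
      (∀ a ∈ A, a ≤ X) → Rg K X A.card → ∀ p1 : ℕ,
      ∃ (ι : Type) (_ : Fintype ι) (_ : DecidableEq ι) (s : Sys ι {a // a ∈ A}) (b0 : ℕ),
        s.M = MX X p1 ∧ b0 < MX X p1 ∧ (∀ a, s.b a = b0 + a.1) ∧
        (∀ a, Nat.Coprime (s.b a) s.M) ∧ Sv η X s := by
  intro η hη hη1
  obtain ⟨K1, hK1, hnum⟩ := numF η hη hη1 3
  obtain ⟨X0, hX0⟩ := MX_le η hη
  refine ⟨max K1 (X0 + 1), le_max_of_le_left hK1, ?_⟩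
  intro X A hAne hadm hAX hR p1
  classical
  have hR1 : Rg K1 X A.card := hR.mono (by positivity) (le_max_left _ _)
  have hN := hnum X A.card hR1
  have hXX0 : X0 ≤ X := by
    have h1 : ((X0 : ℝ) + 1) ≤ Real.log (Real.log X) := (le_max_right _ _).trans hR.2.1
    have h2 : Real.log (Real.log X) ≤ Real.log X := by
      rcases le_or_gt (Real.log X) 0 with h0 | h0
      · exfalso
        have := hN.lX
        linarith
      · have := Real.log_le_sub_one_of_pos h0
        linarith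
    have h3 : Real.log X ≤ X := by
      rcases Nat.eq_zero_or_pos X with h0 | h0
      · subst h0
        simp
      · have := Real.log_le_sub_one_of_pos (show (0 : ℝ) < X by exact_mod_cast h0)
        linarith
    have h4 : (X0 : ℝ) ≤ X := by linarith
    exact_mod_cast h4
  obtain ⟨_, _, hYW, _, _⟩ := hX0 X hXX0 p1
  obtain ⟨b0, hb0, hcop⟩ := F1_crt ((Icc 1 (YX X)).filter (fun p => p.Prime ∧ p ≠ p1))
    (fun p hp => (Finset.mem_filter.1 hp).2.1) A hadm
  set S : Finset ℕ := (Ioc (WX X) (NN η X)).filter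
    (fun p => p.Prime ∧ ∀ a ∈ A, ∀ a' ∈ A, a ≠ a' → ¬ a ≡ a' [MOD p]) with hS
  have hSm : ∀ p, p ∈ S ↔ (WX X < p ∧ p ≤ NN η X) ∧
      p.Prime ∧ ∀ a ∈ A, ∀ a' ∈ A, a ≠ a' → ¬ a ≡ a' [MOD p] := by
    intro p
    rw [hS, Finset.mem_filter, Finset.mem_Ioc]
  let s : Sys {p // p ∈ S} {a // a ∈ A} :=
    { pr := fun i => i.1
      prime := fun i => ((hSm i.1).1 i.2).2.1
      inj := Subtype.val_injective
      M := MX X p1
      b := fun a => b0 + a.1
      copM := by
        intro i hd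
        have h1 := (hSm i.1).1 i.2
        have h2 := (dvd_MX X p1 i.1 h1.2.1).1 hd
        omega
      dist := by
        intro i j j' hne hmod
        have h1 := (hSm i.1).1 i.2
        refine h1.2.2 j.1 j.2 j'.1 j'.2 (fun h => hne (Subtype.ext h)) ?_
        exact Nat.ModEq.add_left_cancel' b0 hmod }
  refine ⟨{p // p ∈ S}, inferInstance, inferInstance, s, b0, rfl, hb0, fun _ => rfl, ?_, ?_⟩
  · intro a
    exact hcop a.1 a.2
  · refine ⟨fun i => ((hSm i.1).1 i.2).1.1, fun i => ((hSm i.1).1 i.2).1.2, ?_⟩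
    have hsub : Mis s (WX X) (NN η X) ⊆ (A ×ˢ A).biUnion
        (fun q => (q.1 - q.2).primeFactors.filter (fun p => WX X < p)) := by
      intro p hp
      unfold Mis at hp
      rw [Finset.mem_filter, Finset.mem_Ioc] at hp
      obtain ⟨⟨h1, h2⟩, h3, h4⟩ := hp
      have h5 : p ∉ S := fun h => h4 ⟨p, h⟩ rfl
      rw [hSm] at h5
      have h6 : ∃ a ∈ A, ∃ a' ∈ A, a ≠ a' ∧ a ≡ a' [MOD p] := by
        by_contra hc
        push Not at hc
        exact h5 ⟨⟨h1, h2⟩, h3, hc⟩
      obtain ⟨a, ha, a', ha', hne, hmod⟩ := h6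
      have key : ∀ x ∈ A, ∀ y ∈ A, y < x → y ≡ x [MOD p] → p ∈ (A ×ˢ A).biUnion
        (fun q => (q.1 - q.2).primeFactors.filter (fun p => WX X < p)) := by
        intro x hx y hy hyx hm
        rw [Finset.mem_biUnion]
        refine ⟨(x, y), Finset.mem_product.2 ⟨hx, hy⟩, ?_⟩
        rw [Finset.mem_filter, Nat.mem_primeFactors]
        refine ⟨⟨h3, (Nat.modEq_iff_dvd' hyx.le).1 hm, ?_⟩, h1⟩
        simp only
        omega
      rcases lt_or_gt_of_ne hne with hlt | hgt
      · exact key a' ha' a ha hlt hmod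
      · exact key a ha a' ha' hgt hmod.symm
    have hXpos : (0 : ℝ) < X := by
      rcases Nat.eq_zero_or_pos X with h0 | h0
      · exfalso
        have := hN.lX
        rw [h0] at this
        norm_num at this
      · exact_mod_cast h0
    have hL3 := hN.lX
    have h7 : ∀ q ∈ A ×ˢ A,
        ((((q.1 - q.2).primeFactors.filter (fun p => WX X < p)).card : ℕ) : ℝ) ≤ Real.log X := by
      intro q hq
      rcases Nat.eq_zero_or_pos (q.1 - q.2) with h0 | h0
      · rw [h0]
        simp only [Nat.primeFactors_zero, Finset.filter_empty, Finset.card_empty, Nat.cast_zero]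
        linarith
      · refine (F1_card_log _ h0 (WX X) hN.W_two).trans ?_
        refine Real.log_le_log (by exact_mod_cast h0) ?_
        have h8 : q.1 - q.2 ≤ X := by
          have := hAX q.1 (Finset.mem_product.1 hq).1
          omega
        exact_mod_cast h8
    have h9 : ((Mis s (WX X) (NN η X)).card : ℝ) ≤ (A.card : ℝ) ^ 2 * Real.log X := by
      calc ((Mis s (WX X) (NN η X)).card : ℝ) ≤ (((A ×ˢ A).biUnion
            (fun q => (q.1 - q.2).primeFactors.filter (fun p => WX X < p))).card : ℝ) := by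
            exact_mod_cast Finset.card_le_card hsub
        _ ≤ ((∑ q ∈ A ×ˢ A,
            ((q.1 - q.2).primeFactors.filter (fun p => WX X < p)).card : ℕ) : ℝ) := by
            exact_mod_cast Finset.card_biUnion_le
        _ = ∑ q ∈ A ×ˢ A,
            (((q.1 - q.2).primeFactors.filter (fun p => WX X < p)).card : ℝ) := by
            push_cast
            rfl
        _ ≤ ∑ _q ∈ A ×ˢ A, Real.log X := Finset.sum_le_sum h7
        _ = (A.card : ℝ) ^ 2 * Real.log X := by
            rw [Finset.sum_const, nsmul_eq_mul, Finset.card_product]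
            push_cast
            ring
    refine h9.trans ?_
    have h10 : (A.card : ℝ) ^ 2 ≤ (Real.log X) ^ 2 := pow_le_pow_left₀ (by positivity) hN.k_le 2
    calc (A.card : ℝ) ^ 2 * Real.log X ≤ (Real.log X) ^ 2 * Real.log X :=
          mul_le_mul_of_nonneg_right h10 (by linarith)
      _ = (Real.log X) ^ 3 := by ring

end Pool.Agent.Lib.H59D
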