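import Mathlib

/-!
# Chunk F3a: second moment (Paley-Zygmund), pure Mathlib
-/

open Finset

namespace Pool.Agent.Lib.H59D

/-- `L ≥ 0` weights on `S`, `0 ≤ f ≤ g`. The `t` with `f t < μ/4` contribute at most
`(μ/4) 2A = μA/2` to `Σ L f ≥ μ A`; Cauchy-Schwarz for the others:
`(μA/2)² ≤ (Σ_{f ≥ μ/4} L)(Σ L f²) ≤ (Σ_{f ≥ μ/4} L) σ A`. -/
theorem pz (S : Finset ℕ) (L f g : ℕ → ℝ) (hL : ∀ t ∈ S, 0 ≤ L t) (hf : ∀ t ∈ S, 0 ≤ f t)
    (hfg : ∀ t ∈ S, f t ≤ g t) (A μ σ : ℝ) (hA : 0 < A) (hμ : 0 ≤ μ) (hσ : 0 < σ)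
    (htot : ∑ t ∈ S, L t ≤ 2 * A) (hlo : μ * A ≤ ∑ t ∈ S, L t * f t)
    (hup : ∑ t ∈ S, L t * (g t) ^ 2 ≤ σ * A) :
    μ ^ 2 / (4 * σ) * A ≤ ∑ t ∈ S.filter (fun t => μ / 4 ≤ f t), L t := by
  set S1 := S.filter (fun t => μ / 4 ≤ f t) with hS1
  have hsplit := Finset.sum_filter_add_sum_filter_not S (fun t => μ / 4 ≤ f t) (fun t => L t * f t)
  have h2 : ∑ t ∈ S.filter (fun t => ¬ μ / 4 ≤ f t), L t * f t ≤ μ * A / 2 := by
    calc ∑ t ∈ S.filter (fun t => ¬ μ / 4 ≤ f t), L t * f t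
        ≤ ∑ t ∈ S.filter (fun t => ¬ μ / 4 ≤ f t), L t * (μ / 4) := by
          refine Finset.sum_le_sum fun t ht => ?_
          rw [Finset.mem_filter, not_le] at ht
          exact mul_le_mul_of_nonneg_left ht.2.le (hL t ht.1)
      _ ≤ ∑ t ∈ S, L t * (μ / 4) := by
          refine Finset.sum_le_sum_of_subset_of_nonneg (Finset.filter_subset _ _) fun t ht _ => ?_
          exact mul_nonneg (hL t ht) (by positivity)
      _ = (∑ t ∈ S, L t) * (μ / 4) := by rw [Finset.sum_mul]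
      _ ≤ (2 * A) * (μ / 4) := mul_le_mul_of_nonneg_right htot (by positivity)
      _ = μ * A / 2 := by ring
  have h3 : μ * A / 2 ≤ ∑ t ∈ S1, L t * f t := by
    linarith
  have hcs := Finset.sum_mul_sq_le_sq_mul_sq S1 (fun t => √(L t)) (fun t => √(L t) * f t)
  have e1 : ∑ t ∈ S1, √(L t) * (√(L t) * f t) = ∑ t ∈ S1, L t * f t := by
    refine Finset.sum_congr rfl fun t ht => ?_
    rw [← mul_assoc, Real.mul_self_sqrt (hL t (Finset.mem_filter.1 ht).1)]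
  have e2 : ∑ t ∈ S1, √(L t) ^ 2 = ∑ t ∈ S1, L t := by
    refine Finset.sum_congr rfl fun t ht => ?_
    rw [Real.sq_sqrt (hL t (Finset.mem_filter.1 ht).1)]
  have e3 : ∑ t ∈ S1, (√(L t) * f t) ^ 2 ≤ σ * A := by
    refine le_trans ?_ hup
    calc ∑ t ∈ S1, (√(L t) * f t) ^ 2 ≤ ∑ t ∈ S1, L t * (g t) ^ 2 := by
          refine Finset.sum_le_sum fun t ht => ?_
          have hts := (Finset.mem_filter.1 ht).1
          rw [mul_pow, Real.sq_sqrt (hL t hts)]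
          exact mul_le_mul_of_nonneg_left (pow_le_pow_left₀ (hf t hts) (hfg t hts) 2) (hL t hts)
      _ ≤ ∑ t ∈ S, L t * (g t) ^ 2 := by
          refine Finset.sum_le_sum_of_subset_of_nonneg (Finset.filter_subset _ _) fun t ht _ => ?_
          exact mul_nonneg (hL t ht) (sq_nonneg _)
  rw [e1, e2] at hcs
  have hB : 0 ≤ ∑ t ∈ S1, L t :=
    Finset.sum_nonneg fun t ht => hL t (Finset.mem_filter.1 ht).1
  have h4 : (μ * A / 2) ^ 2 ≤ (∑ t ∈ S1, L t) * (σ * A) := by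
    calc (μ * A / 2) ^ 2 ≤ (∑ t ∈ S1, L t * f t) ^ 2 := pow_le_pow_left₀ (by positivity) h3 2
      _ ≤ _ := hcs
      _ ≤ _ := mul_le_mul_of_nonneg_left e3 hB
  have h5 : μ ^ 2 / (4 * σ) * A = (μ * A / 2) ^ 2 / (σ * A) := by
    field_simp
    ring
  rw [h5, div_le_iff₀ (by positivity)]
  exact h4

end Pool.Agent.Lib.H59D
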