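import Pool.Agent.Lib.H59D.Defs
import Pool.Agent.Lib.H59D.F3a

/-!
# Chunk F3b: many primes
-/

open Finset

namespace Pool.Agent.Lib.H59D

open Pool.Agent.Lib.H56G

variable {ι J : Type} [Fintype ι] [DecidableEq ι] [Fintype J] [DecidableEq J]

/-- Interchange of the sum over the forms with the mass. -/
theorem F3b_swap (s : Sys ι J) (α D : ℝ) (T : ℕ) {β : Type} (S : Finset β) (P : β → ℕ → Prop)
    [∀ b t, Decidable (P b t)] :
    ∑ t ∈ Icc 1 T, (Lf s α D t) ^ 2 * ∑ b ∈ S, (if P b t then (1 : ℝ) else 0) =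
      ∑ b ∈ S, mass s α D T (P b) := by
  unfold mass
  simp only [Finset.mul_sum]
  rw [Finset.sum_comm]
  refine Finset.sum_congr rfl fun b _ => ?_
  rw [Finset.sum_filter]
  refine Finset.sum_congr rfl fun t _ => ?_
  split_ifs <;> simp

open Classical in
/-- The second moment argument for two abstract families of events. -/
theorem F3b_core (s : Sys ι J) (α D : ℝ) (T : ℕ) (A u v : ℝ) (hA : 0 < A)
    (hu : 0 ≤ u) (hv : 0 < v) (hJ : 1 ≤ Fintype.card J) (P Q : J → ℕ → Prop)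
    (hPQ : ∀ j t, P j t → Q j t)
    (htot : mass s α D T (fun _ => True) ≤ 2 * A)
    (hlo : ∀ j, u * A ≤ mass s α D T (P j))
    (h1 : ∀ j, mass s α D T (Q j) ≤ v * A)
    (h2 : ∀ j1 j2, j1 ≠ j2 → mass s α D T (fun t => Q j1 t ∧ Q j2 t) ≤ v ^ 2 * A) :
    ((Fintype.card J * u) ^ 2 /
        (4 * (Fintype.card J * v + (Fintype.card J : ℝ) ^ 2 * v ^ 2))) * A ≤
      mass s α D T (fun t => Fintype.card J * u / 4 ≤
        ((univ.filter (fun j : J => P j t)).card : ℝ)) := by
  set L : ℕ → ℝ := fun t => (Lf s α D t) ^ 2 with hLd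
  set f : ℕ → ℝ := fun t => ∑ j, (if P j t then (1 : ℝ) else 0) with hfd
  set g : ℕ → ℝ := fun t => ∑ j, (if Q j t then (1 : ℝ) else 0) with hgd
  have hkpos : (0 : ℝ) < Fintype.card J := by exact_mod_cast hJ
  have hfg : ∀ t ∈ Icc 1 T, f t ≤ g t := by
    intro t _
    refine Finset.sum_le_sum fun j _ => ?_
    by_cases h : P j t
    · rw [if_pos h, if_pos (hPQ j t h)]
    · rw [if_neg h]
      split_ifs <;> norm_num
  have hf0 : ∀ t ∈ Icc 1 T, 0 ≤ f t := by
    intro t _
    refine Finset.sum_nonneg fun j _ => ?_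
    split_ifs <;> norm_num
  have htot' : ∑ t ∈ Icc 1 T, L t ≤ 2 * A := by
    refine le_trans (le_of_eq ?_) htot
    unfold mass
    rw [Finset.sum_filter]
    refine Finset.sum_congr rfl fun t _ => ?_
    rw [if_pos trivial]
  have hlo' : (Fintype.card J * u) * A ≤ ∑ t ∈ Icc 1 T, L t * f t := by
    have e := F3b_swap s α D T univ P
    rw [show ∑ t ∈ Icc 1 T, L t * f t = ∑ b : J, mass s α D T (P b) from e]
    calc (Fintype.card J * u) * A = ∑ _b : J, u * A := by
          rw [Finset.sum_const, card_univ, nsmul_eq_mul]; ring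
      _ ≤ _ := Finset.sum_le_sum fun j _ => hlo j
  have hup' : ∑ t ∈ Icc 1 T, L t * (g t) ^ 2 ≤
      (Fintype.card J * v + (Fintype.card J : ℝ) ^ 2 * v ^ 2) * A := by
    have e := F3b_swap s α D T (univ : Finset (J × J)) (fun b t => Q b.1 t ∧ Q b.2 t)
    have hg2 : ∀ t, (g t) ^ 2 =
        ∑ b : J × J, (if Q b.1 t ∧ Q b.2 t then (1 : ℝ) else 0) := by
      intro t
      rw [Fintype.sum_prod_type, hgd]
      simp only
      rw [sq, Finset.sum_mul_sum]
      refine Finset.sum_congr rfl fun j1 _ => Finset.sum_congr rfl fun j2 _ => ?_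
      by_cases h3 : Q j1 t
      · by_cases h4 : Q j2 t
        · rw [if_pos h3, if_pos h4, if_pos ⟨h3, h4⟩, mul_one]
        · rw [if_pos h3, if_neg h4, if_neg (show ¬ (Q j1 t ∧ Q j2 t) from fun h => h4 h.2), mul_zero]
      · rw [if_neg h3, if_neg (show ¬ (Q j1 t ∧ Q j2 t) from fun h => h3 h.1), zero_mul]
    have e2 : ∑ t ∈ Icc 1 T, L t * (g t) ^ 2 =
        ∑ b : J × J, mass s α D T (fun t => Q b.1 t ∧ Q b.2 t) := by
      rw [← e]
      exact Finset.sum_congr rfl fun t _ => by rw [hg2 t]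
    rw [e2, Fintype.sum_prod_type]
    have h3 : ∀ j1 : J, ∑ j2 : J, mass s α D T (fun t => Q j1 t ∧ Q j2 t) ≤
        v * A + Fintype.card J * (v ^ 2 * A) := by
      intro j1
      rw [← Finset.add_sum_erase univ _ (mem_univ j1)]
      refine add_le_add ?_ ?_
      · refine le_trans (mass_mono s α D T _ _ ?_) (h1 j1)
        intro t _ _ h
        exact h.1
      · calc ∑ j2 ∈ univ.erase j1, mass s α D T (fun t => Q j1 t ∧ Q j2 t)
            ≤ ∑ j2 ∈ univ.erase j1, v ^ 2 * A := by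
              refine Finset.sum_le_sum fun j2 hj2 => ?_
              exact h2 j1 j2 (Finset.ne_of_mem_erase hj2).symm
          _ ≤ ∑ j2 : J, v ^ 2 * A := by
              refine Finset.sum_le_sum_of_subset_of_nonneg (Finset.subset_univ _) fun _ _ _ => ?_
              positivity
          _ = _ := by rw [Finset.sum_const, card_univ, nsmul_eq_mul]
    calc ∑ j1 : J, ∑ j2 : J, mass s α D T (fun t => Q j1 t ∧ Q j2 t)
        ≤ ∑ _j1 : J, (v * A + Fintype.card J * (v ^ 2 * A)) := Finset.sum_le_sum fun j1 _ => h3 j1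
      _ = _ := by
        rw [Finset.sum_const, card_univ, nsmul_eq_mul]
        ring
  have hmain := pz (Icc 1 T) L f g (fun t _ => sq_nonneg _) hf0 hfg A (Fintype.card J * u)
    (Fintype.card J * v + (Fintype.card J : ℝ) ^ 2 * v ^ 2) hA (by positivity) (by positivity)
    htot' hlo' hup'
  refine hmain.trans ?_
  unfold mass
  refine Finset.sum_le_sum_of_subset_of_nonneg ?_ fun t _ _ => sq_nonneg _
  intro t ht
  rw [Finset.mem_filter] at ht ⊢
  refine ⟨ht.1, ht.2.trans ?_⟩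
  rw [hfd]
  simp only
  rw [Finset.sum_boole]

open Classical in
/-- `f t = #{j : form j prime and larger than all sieve primes}`, `g t = #{j : no sieve prime divides
form j}` (`f ≤ g`); `Σ L f = Σ_j mass{..}`, `Σ L g² = Σ_j mass{one} + Σ_{j1 ≠ j2} mass{two}`,
`L t = (Lf t)²`, `S = Icc 1 T`; `pz` with `μ = k u`, `σ = k v + k² v²`; and
`f t ≤ #{j : form j prime}`. -/
theorem many_primes (s : Sys ι J) (α D : ℝ) (T : ℕ) (A u v : ℝ) (hA : 0 < A)
    (hu : 0 ≤ u) (hv : 0 < v) (hJ : 1 ≤ Fintype.card J)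
    (htot : mass s α D T (fun _ => True) ≤ 2 * A)
    (hlo : ∀ j, u * A ≤ mass s α D T
      (fun t => (s.b j + s.M * t).Prime ∧ ∀ i, s.pr i < s.b j + s.M * t))
    (h1 : ∀ j, mass s α D T (fun t => ∀ i, ¬ s.pr i ∣ s.b j + s.M * t) ≤ v * A)
    (h2 : ∀ j1 j2, j1 ≠ j2 → mass s α D T (fun t => (∀ i, ¬ s.pr i ∣ s.b j1 + s.M * t) ∧
        ∀ i, ¬ s.pr i ∣ s.b j2 + s.M * t) ≤ v ^ 2 * A) :
    ((Fintype.card J * u) ^ 2 /
        (4 * (Fintype.card J * v + (Fintype.card J : ℝ) ^ 2 * v ^ 2))) * A ≤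
      mass s α D T (fun t => Fintype.card J * u / 4 ≤
        ((univ.filter (fun j : J => (s.b j + s.M * t).Prime)).card : ℝ)) := by
  refine (F3b_core s α D T A u v hA hu hv hJ
    (fun j t => (s.b j + s.M * t).Prime ∧ ∀ i, s.pr i < s.b j + s.M * t)
    (fun j t => ∀ i, ¬ s.pr i ∣ s.b j + s.M * t) ?_ htot hlo h1 h2).trans ?_
  · intro j t h i hi
    have h3 := (Nat.prime_dvd_prime_iff_eq (s.prime i) h.1).1 hi
    have h4 := h.2 i
    omega
  · refine mass_mono s α D T _ _ fun t _ _ ht => ht.trans ?_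
    have : (univ.filter (fun j : J => (s.b j + s.M * t).Prime ∧
        ∀ i, s.pr i < s.b j + s.M * t)).card ≤
        (univ.filter (fun j : J => (s.b j + s.M * t).Prime)).card := by
      refine Finset.card_le_card fun j hj => ?_
      rw [Finset.mem_filter] at hj ⊢
      exact ⟨hj.1, hj.2.1⟩
    refine le_trans ?_ (Nat.cast_le.2 this)
    exact le_of_eq (by congr)

end Pool.Agent.Lib.H59D
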