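import Pool.Agent.Lib.H59D.MXa

/-!
# Chunk MXb: the Euler function of the modulus
-/

open Finset

namespace Pool.Agent.Lib.H59D

open Pool.Agent.Lib.H5C (WX)

open Pool.Agent.Lib.Sieve (primesUpTo mem_primesUpTo)

/-- `log y ≥ (1/12) loglog X` for large `X` -/
theorem MXb_logY : ∃ X0 : ℕ, ∀ X : ℕ, X0 ≤ X → 2 ≤ YX X ∧ 0 < Real.log (Real.log X) ∧
    1 / 12 * Real.log (Real.log X) ≤ Real.log (YX X) := by
  have e1 : ∀ᶠ X : ℕ in Filter.atTop, (2 : ℝ) ≤ (Real.log X) ^ (1 / 132 : ℝ) :=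
    ((tendsto_rpow_atTop (by norm_num : (0 : ℝ) < 1 / 132)).comp MXa_tendsto).eventually_ge_atTop 2
  have e3 : ∀ᶠ X : ℕ in Filter.atTop, (2 : ℝ) ≤ (Real.log X) ^ (1 / 11 : ℝ) :=
    ((tendsto_rpow_atTop (by norm_num : (0 : ℝ) < 1 / 11)).comp MXa_tendsto).eventually_ge_atTop 2
  have e4 : ∀ᶠ X : ℕ in Filter.atTop, (2 : ℝ) ≤ Real.log X := MXa_tendsto.eventually_ge_atTop 2
  obtain ⟨X0, hX0⟩ := Filter.eventually_atTop.mp ((e1.and e3).and e4)
  refine ⟨X0, fun X hX => ?_⟩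
  obtain ⟨⟨h1, h3⟩, h4⟩ := hX0 X hX
  set L := Real.log X with hL
  have hL0 : 0 < L := by linarith
  have hy : L ^ (1 / 11 : ℝ) < YX X + 1 := Nat.lt_floor_add_one _
  have h2 : L ^ (1 / 11 : ℝ) = L ^ (1 / 12 : ℝ) * L ^ (1 / 132 : ℝ) := by
    rw [← Real.rpow_add hL0]
    norm_num
  have h5 : (1 : ℝ) ≤ L ^ (1 / 12 : ℝ) := Real.one_le_rpow (by linarith) (by norm_num)
  have h6 : L ^ (1 / 12 : ℝ) ≤ YX X := by nlinarith
  refine ⟨?_, Real.log_pos (by linarith), ?_⟩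
  · unfold YX
    rw [Nat.le_floor_iff (by positivity)]
    exact_mod_cast h3
  · rw [← Real.log_rpow hL0]
    exact Real.log_le_log (by positivity) h6

/-- `MX/φ(MX) = ∏_{p ≤ y, p ≠ p1} (1 - 1/p)⁻¹ ≥ (1/2) ∏_{p ≤ y} (1 - 1/p)⁻¹ ≥ (1/2) log y`
(`Sieve.prod_one_sub_inv_le`), `log y ≥ (1/12) loglog X`. (`Nat.totient` of a squarefree number:
`Nat.totient_prod`-like, or `Nat.totient_eq_mul_prod_factors`.) -/
theorem totient_MX : ∃ c : ℝ, 0 < c ∧ ∃ X0 : ℕ, ∀ X : ℕ, X0 ≤ X → ∀ p1 : ℕ, p1.Prime →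
    c * Real.log (Real.log X) * ((MX X p1).totient : ℝ) ≤ (MX X p1 : ℝ) := by
  obtain ⟨X0, hX0⟩ := MXb_logY
  refine ⟨1 / 24, by norm_num, X0, fun X hX p1 hp1 => ?_⟩
  obtain ⟨hy2, hll, hlogy⟩ := hX0 X hX
  have hpf : (MX X p1).primeFactors = (primesUpTo (YX X)).filter (fun p => p ≠ p1) := by
    ext p
    rw [Nat.mem_primeFactors, mem_filter, mem_primesUpTo]
    constructor
    · rintro ⟨h1, h2, -⟩
      obtain ⟨h3, h4⟩ := (dvd_MX X p1 p h1).mp h2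
      exact ⟨⟨h1, h3⟩, h4⟩
    · rintro ⟨⟨h1, h2⟩, h3⟩
      exact ⟨h1, (dvd_MX X p1 p h1).mpr ⟨h2, h3⟩, (MX_pos X p1).ne'⟩
  have hφ : ((MX X p1).totient : ℝ) = MX X p1 *
      ∏ p ∈ (primesUpTo (YX X)).filter (fun p => p ≠ p1), (1 - 1 / (p : ℝ)) := by
    have h1 := Nat.totient_eq_mul_prod_factors (MX X p1)
    have h2 : (((MX X p1).totient : ℚ) : ℝ) =
        ((MX X p1 * ∏ p ∈ (MX X p1).primeFactors, (1 - (p : ℚ)⁻¹) : ℚ) : ℝ) := by rw [h1]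
    push_cast at h2
    rw [h2, hpf]
    congr 1
    refine prod_congr rfl fun p _ => ?_
    rw [one_div]
  have hpos : ∀ p ∈ primesUpTo (YX X), 0 < 1 - 1 / (p : ℝ) := by
    intro p hp
    have h1 : (1 : ℝ) < p := by exact_mod_cast (mem_primesUpTo.mp hp).1.one_lt
    rw [sub_pos, div_lt_one (by linarith)]
    exact h1
  have h2 : ∏ p ∈ (primesUpTo (YX X)).filter (fun p => p ≠ p1), (1 - 1 / (p : ℝ)) ≤
      2 * ∏ p ∈ primesUpTo (YX X), (1 - 1 / (p : ℝ)) := by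
    have h3 : 0 ≤ ∏ p ∈ (primesUpTo (YX X)).filter (fun p => p ≠ p1), (1 - 1 / (p : ℝ)) :=
      prod_nonneg fun p hp => (hpos p (mem_filter.mp hp).1).le
    rw [← prod_filter_mul_prod_filter_not (primesUpTo (YX X)) (fun p => p ≠ p1)]
    have h4 : (1 : ℝ) / 2 ≤ ∏ p ∈ (primesUpTo (YX X)).filter (fun p => ¬ p ≠ p1),
        (1 - 1 / (p : ℝ)) := by
      have h5 : (primesUpTo (YX X)).filter (fun p => ¬ p ≠ p1) ⊆ {p1} := by
        intro p hp
        rw [mem_singleton]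
        exact not_not.mp (mem_filter.mp hp).2
      rcases Finset.subset_singleton_iff.mp h5 with h6 | h6
      · rw [h6, prod_empty]
        norm_num
      · rw [h6, prod_singleton]
        have h7 : (2 : ℝ) ≤ p1 := by exact_mod_cast hp1.two_le
        have h8 : 1 / (p1 : ℝ) ≤ 1 / 2 := one_div_le_one_div_of_le (by norm_num) h7
        linarith
    nlinarith
  have h3 := Pool.Agent.Lib.Sieve.prod_one_sub_inv_le (YX X) hy2
  have hy0 : 0 < Real.log (YX X) := Real.log_pos (by exact_mod_cast hy2)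
  have hM0 : (0 : ℝ) < MX X p1 := by exact_mod_cast MX_pos X p1
  have h4 : ∏ p ∈ (primesUpTo (YX X)).filter (fun p => p ≠ p1), (1 - 1 / (p : ℝ)) ≤
      2 / Real.log (YX X) := by
    refine h2.trans ?_
    calc 2 * ∏ p ∈ primesUpTo (YX X), (1 - 1 / (p : ℝ)) ≤ 2 * (1 / Real.log (YX X)) := by linarith
      _ = _ := by ring
  rw [hφ]
  calc 1 / 24 * Real.log (Real.log X) * (MX X p1 *
        ∏ p ∈ (primesUpTo (YX X)).filter (fun p => p ≠ p1), (1 - 1 / (p : ℝ)))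
      ≤ (1 / 2 * Real.log (YX X)) * (MX X p1 * (2 / Real.log (YX X))) := by
        refine mul_le_mul (by linarith) (mul_le_mul_of_nonneg_left h4 hM0.le) ?_ (by positivity)
        exact mul_nonneg hM0.le (prod_nonneg fun p hp => (hpos p (mem_filter.mp hp).1).le)
    _ = MX X p1 := by field_simp

end Pool.Agent.Lib.H59D
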