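import Pool.Agent.Lib.H59D.MXa
import Pool.Agent.Lib.H59D.MXb

/-!
# Chunk MXc: the primes `≤ W` which do not divide the modulus
-/

open Finset

namespace Pool.Agent.Lib.H59D

open Pool.Agent.Lib.H5C (WX)

open Pool.Agent.Lib.Sieve (primesUpTo mem_primesUpTo)

theorem MXc_mono {s t : Finset ℕ} (h : s ⊆ t) (f : ℕ → ℝ) (hf : ∀ i ∈ t, 1 ≤ f i) :
    ∏ i ∈ s, f i ≤ ∏ i ∈ t, f i := by
  rw [← prod_sdiff h]
  have h1 : 1 ≤ ∏ i ∈ t \ s, f i :=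
    Finset.prod_induction f (fun x => 1 ≤ x) (fun a b ha hb => one_le_mul_of_one_le_of_one_le ha hb)
      le_rfl (fun i hi => hf i (mem_sdiff.mp hi).1)
  have h2 : 0 ≤ ∏ i ∈ s, f i := prod_nonneg fun i hi => by linarith [hf i (h hi)]
  nlinarith

theorem MXc_logW : ∃ X0 : ℕ, ∀ X : ℕ, X0 ≤ X → 2 ≤ WX X ∧
    Real.log (WX X) ≤ 17 * Real.log (Real.log X) := by
  have e4 : ∀ᶠ X : ℕ in Filter.atTop, (2 : ℝ) ≤ Real.log X := MXa_tendsto.eventually_ge_atTop 2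
  obtain ⟨X0, hX0⟩ := Filter.eventually_atTop.mp e4
  refine ⟨X0, fun X hX => ?_⟩
  have h4 := hX0 X hX
  have hdef : WX X = ⌈(Real.log X) ^ 16⌉₊ := rfl
  set L := Real.log X with hL
  have hL0 : 0 < L := by linarith
  have h1 : (2 : ℝ) ≤ L ^ 16 := by
    calc (2 : ℝ) ≤ 2 ^ 16 := by norm_num
      _ ≤ L ^ 16 := pow_le_pow_left₀ (by norm_num) h4 16
  have h2 : L ^ 16 ≤ (WX X : ℝ) := by
    rw [hdef]
    exact Nat.le_ceil _
  have h3 : (WX X : ℝ) ≤ L ^ 17 := by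
    have h5 : (WX X : ℝ) < L ^ 16 + 1 := by
      rw [hdef]
      exact Nat.ceil_lt_add_one (by positivity)
    have h6 : L ^ 17 = L ^ 16 * L := pow_succ L 16
    nlinarith
  refine ⟨by exact_mod_cast h1.trans h2, ?_⟩
  have h5 : Real.log (L ^ 17) = 17 * Real.log L := by
    rw [Real.log_pow]
    norm_num
  rw [← h5]
  exact Real.log_le_log (by linarith) h3

/-- The primes of `UU` are `p1` and primes in `(y, W]`. `(1 - 3/(2p))⁻¹ ≤ (1 - 1/p)^(-3)` for `p ≥ 2`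
(`(1-x)³ ≤ 1 - 3x/2` for `0 ≤ x ≤ 1/2`), so the product is at most
`8 ∏_{y < p ≤ W} (1 - 1/p)^(-3) ≤ 8 (500 log W/log y)³` (`Sieve.prod_one_sub_inv_le`,
`Helper57.prod_one_sub_inv_inv_le`), and `log W/log y ≤ 17 · 12`. -/
theorem prod_UU : ∃ C : ℝ, 1 ≤ C ∧ ∃ X0 : ℕ, ∀ X : ℕ, X0 ≤ X → ∀ p1 : ℕ,
    ∏ p ∈ UU X p1, (1 - 3 / (2 * (p : ℝ)))⁻¹ ≤ C := by
  obtain ⟨X1, hX1⟩ := MXb_logY
  obtain ⟨X2, hX2⟩ := MXc_logW
  obtain ⟨X3, hX3⟩ := MX_le 1 one_pos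
  refine ⟨4 * (500 * 204) ^ 3, by norm_num, max X1 (max X2 X3), fun X hX p1 => ?_⟩
  obtain ⟨hy2, hll, hlogy⟩ := hX1 X ((le_max_left _ _).trans hX)
  obtain ⟨hW2, hlogW⟩ := hX2 X ((le_max_left _ _).trans ((le_max_right _ _).trans hX))
  obtain ⟨-, -, hyW, -, -⟩ := hX3 X ((le_max_right _ _).trans ((le_max_right _ _).trans hX)) p1
  -- local factors
  have hloc : ∀ p : ℕ, p.Prime → 1 ≤ (1 - 3 / (2 * (p : ℝ)))⁻¹ ∧
      (1 - 3 / (2 * (p : ℝ)))⁻¹ ≤ 4 ∧ (1 - 3 / (2 * (p : ℝ)))⁻¹ ≤ ((1 - 1 / (p : ℝ))⁻¹) ^ 3 ∧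
      1 ≤ (1 - 1 / (p : ℝ))⁻¹ := by
    intro p hp
    have hp2 : (2 : ℝ) ≤ p := by exact_mod_cast hp.two_le
    set x : ℝ := 1 / (p : ℝ) with hx
    have hx0 : 0 < x := by positivity
    have hx2 : x ≤ 1 / 2 := one_div_le_one_div_of_le (by norm_num) hp2
    have e : 3 / (2 * (p : ℝ)) = 3 / 2 * x := by
      rw [hx]
      field_simp
    rw [e]
    have h1 : 0 < 1 - 3 / 2 * x := by linarith
    have h2 : 0 < 1 - x := by linarith
    refine ⟨?_, ?_, ?_, ?_⟩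
    · rw [one_le_inv₀ h1]
      linarith
    · rw [inv_le_comm₀ h1 (by norm_num)]
      linarith
    · rw [inv_pow, inv_le_inv₀ h1 (by positivity)]
      nlinarith [mul_nonneg hx0.le (by linarith : 0 ≤ 1 / 2 - x),
        mul_nonneg (mul_nonneg hx0.le hx0.le) (by linarith : 0 ≤ 1 / 2 - x)]
    · rw [one_le_inv₀ h2]
      linarith
  have hUU : ∀ p, p ∈ UU X p1 ↔ (p.Prime ∧ p ≤ WX X) ∧ ¬ (p ≤ YX X ∧ p ≠ p1) := by
    intro p
    unfold UU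
    rw [mem_filter, mem_Icc]
    constructor
    · rintro ⟨⟨h1, h2⟩, h3, h4⟩
      exact ⟨⟨h3, h2⟩, fun h => h4 ((dvd_MX X p1 p h3).mpr h)⟩
    · rintro ⟨⟨h1, h2⟩, h3⟩
      exact ⟨⟨h1.one_lt.le, h2⟩, h1, fun h => h3 ((dvd_MX X p1 p h1).mp h)⟩
  rw [← prod_filter_mul_prod_filter_not (UU X p1) (fun p => p = p1)]
  have hA : ∏ p ∈ (UU X p1).filter (fun p => p = p1), (1 - 3 / (2 * (p : ℝ)))⁻¹ ≤ 4 := by
    have h5 : (UU X p1).filter (fun p => p = p1) ⊆ {p1} := by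
      intro p hp
      rw [mem_singleton]
      exact (mem_filter.mp hp).2
    rcases Finset.subset_singleton_iff.mp h5 with h6 | h6
    · rw [h6, prod_empty]
      norm_num
    · have h7 : p1 ∈ (UU X p1).filter (fun p => p = p1) := by
        rw [h6]
        exact mem_singleton_self _
      rw [h6, prod_singleton]
      exact (hloc p1 ((hUU p1).mp (mem_filter.mp h7).1).1.1).2.1
  have hB : ∏ p ∈ (UU X p1).filter (fun p => ¬ p = p1), (1 - 3 / (2 * (p : ℝ)))⁻¹ ≤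
      (500 * 204) ^ 3 := by
    set V := (primesUpTo (WX X)) \ (primesUpTo (YX X)) with hV
    have hsub : (UU X p1).filter (fun p => ¬ p = p1) ⊆ V := by
      intro p hp
      rw [mem_filter, hUU] at hp
      rw [hV, mem_sdiff, mem_primesUpTo, mem_primesUpTo]
      exact ⟨hp.1.1, fun h => hp.1.2 ⟨h.2, hp.2⟩⟩
    have hVp : ∀ p ∈ V, p.Prime := fun p hp => (mem_primesUpTo.mp (mem_sdiff.mp hp).1).1
    refine (MXc_mono hsub _ fun p hp => (hloc p (hVp p hp)).1).trans ?_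
    have h1 : ∏ p ∈ V, (1 - 3 / (2 * (p : ℝ)))⁻¹ ≤ (∏ p ∈ V, (1 - 1 / (p : ℝ))⁻¹) ^ 3 := by
      rw [← prod_pow]
      exact prod_le_prod (fun p hp => by linarith [(hloc p (hVp p hp)).1])
        (fun p hp => (hloc p (hVp p hp)).2.2.1)
    refine h1.trans ?_
    have h0 : 0 ≤ ∏ p ∈ V, (1 - 1 / (p : ℝ))⁻¹ :=
      prod_nonneg fun p hp => by linarith [(hloc p (hVp p hp)).2.2.2]
    refine pow_le_pow_left₀ h0 ?_ 3
    -- the quotient of Mertens products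
    have hsubP : primesUpTo (YX X) ⊆ primesUpTo (WX X) := by
      intro p hp
      rw [mem_primesUpTo] at hp ⊢
      exact ⟨hp.1, hp.2.trans hyW⟩
    have h2 : (∏ p ∈ V, (1 - 1 / (p : ℝ))⁻¹) * ∏ p ∈ primesUpTo (YX X), (1 - 1 / (p : ℝ))⁻¹ =
        ∏ p ∈ primesUpTo (WX X), (1 - 1 / (p : ℝ))⁻¹ := prod_sdiff hsubP
    have h3 := Pool.Agent.Lib.Helper57.prod_one_sub_inv_inv_le (WX X) hW2
    have h4 := Pool.Agent.Lib.Sieve.prod_one_sub_inv_le (YX X) hy2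
    have hy0 : 0 < Real.log (YX X) := Real.log_pos (by exact_mod_cast hy2)
    have h5 : 0 < ∏ p ∈ primesUpTo (YX X), (1 - 1 / (p : ℝ)) := by
      refine prod_pos fun p hp => ?_
      have h1 : (1 : ℝ) < p := by exact_mod_cast (mem_primesUpTo.mp hp).1.one_lt
      rw [sub_pos, div_lt_one (by linarith)]
      exact h1
    have h6 : ∏ p ∈ V, (1 - 1 / (p : ℝ))⁻¹ =
        (∏ p ∈ primesUpTo (WX X), (1 - 1 / (p : ℝ))⁻¹) *
          ∏ p ∈ primesUpTo (YX X), (1 - 1 / (p : ℝ)) := by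
      rw [← h2, prod_inv_distrib (s := primesUpTo (YX X)), mul_assoc, inv_mul_cancel₀ h5.ne',
        mul_one]
    rw [h6]
    have h7 : 0 ≤ ∏ p ∈ primesUpTo (WX X), (1 - 1 / (p : ℝ))⁻¹ := by
      rw [← h2]
      refine mul_nonneg h0 ?_
      rw [prod_inv_distrib]
      exact (inv_pos.mpr h5).le
    calc (∏ p ∈ primesUpTo (WX X), (1 - 1 / (p : ℝ))⁻¹) *
          ∏ p ∈ primesUpTo (YX X), (1 - 1 / (p : ℝ))
        ≤ (500 * Real.log (WX X)) * (1 / Real.log (YX X)) :=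
          mul_le_mul h3 h4 h5.le (h7.trans h3)
      _ ≤ 500 * 204 := by
          rw [mul_one_div, div_le_iff₀ hy0]
          nlinarith
  have hA0 : 0 ≤ ∏ p ∈ (UU X p1).filter (fun p => p = p1), (1 - 3 / (2 * (p : ℝ)))⁻¹ :=
    prod_nonneg fun p hp => by
      linarith [(hloc p ((hUU p).mp (mem_filter.mp hp).1).1.1).1]
  have hB0 : 0 ≤ ∏ p ∈ (UU X p1).filter (fun p => ¬ p = p1), (1 - 3 / (2 * (p : ℝ)))⁻¹ :=
    prod_nonneg fun p hp => by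
      linarith [(hloc p ((hUU p).mp (mem_filter.mp hp).1).1.1).1]
  exact mul_le_mul hA hB hB0 (by norm_num)

end Pool.Agent.Lib.H59D
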