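import Pool.Agent.Lib.H59D.MXa
import Pool.Agent.Lib.H59D.MXb
import Pool.Agent.Lib.H59D.MXc
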