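import Pool.Agent.Lib.H59D.D3
import Pool.Agent.Lib.H59D.MX

/-!
# Chunk F4b: missing primes; squares of sieve primes
-/

open Finset

namespace Pool.Agent.Lib.H59D

open Pool.Agent.Lib.H56G
open Pool.Agent.Lib.H5C (WX)

theorem f4b_Xlarge {K : ℝ} {X k X0 : ℕ} (h : Rg K X k) (hK : (X0 : ℝ) ≤ K) (h1 : 1 ≤ K) :
    X0 ≤ X ∧ 1 ≤ X := by
  have hll : K ≤ Real.log (Real.log X) := h.2.1
  have hl0 : 0 < Real.log (Real.log (X : ℝ)) := by linarith
  have hl1 : 1 < Real.log (X : ℝ) := by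
    by_contra hc
    have hc' : Real.log (X : ℝ) ≤ 1 := not_lt.mp hc
    rcases Nat.eq_zero_or_pos X with h0 | h0
    · rw [h0] at hl0
      simp at hl0
    · have h2 : 0 ≤ Real.log (X : ℝ) := Real.log_nonneg (by exact_mod_cast h0)
      have := Real.log_nonpos h2 hc'
      linarith
  have hX0 : 0 < X := by
    rcases Nat.eq_zero_or_pos X with h0 | h0
    · rw [h0] at hl1
      simp at hl1
      linarith
    · exact h0
  have hXR : (0 : ℝ) < X := by exact_mod_cast hX0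
  have e1 : Real.log (Real.log (X : ℝ)) ≤ Real.log X := by
    have := Real.log_le_sub_one_of_pos (show 0 < Real.log (X : ℝ) by linarith)
    linarith
  have e2 : Real.log (X : ℝ) ≤ X := by
    have := Real.log_le_sub_one_of_pos hXR
    linarith
  constructor
  · have : (X0 : ℝ) ≤ X := by linarith
    exact_mod_cast this
  · exact hX0

/-- `mass_q` with `q = p` (`p ≤ N ≤ X^(1/4)`; `p ∤ s.M` by `dvd_MX`, `MX_le`: `y ≤ W < p`; no `pr i` is
`p`): the sum over `Mis` is `≤ #Mis (4 T/W) ZZ ≤ 4 (log X)³/(log X)^16 T ZZ ≤ (ε/k) T ZZ` (`k ≤ log X`). -/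
theorem ev2 : ∀ η : ℝ, 0 < η → η ≤ 1 / 1000 → ∀ ε : ℝ, 0 < ε → ∃ K : ℝ, 1 ≤ K ∧
    ∀ (X : ℕ) {ι J : Type} [Fintype ι] [DecidableEq ι] [Fintype J] [DecidableEq J]
      (s : Sys ι J) (α : ℝ), Sv η X s → 0 < α → Rg K X (Fintype.card J) → ∀ p1 : ℕ,
      s.M = MX X p1 → ∀ T : ℕ, (X : ℝ) ^ (1 / 2 : ℝ) ≤ T → ∀ j : J,
      mass s α (NN η X) T (fun t => ∃ p ∈ Mis s (WX X) (NN η X), p ∣ s.b j + s.M * t) ≤
        ε / Fintype.card J * T * ZZ s (bg s α (NN η X)) := by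
  intro η hη hη1 ε hε
  obtain ⟨K1, hK1, hmq⟩ := mass_q η hη hη1
  obtain ⟨K2, hK2, hnum⟩ := numF η hη hη1 (max 1 (4 / ε))
  obtain ⟨X0, hX0⟩ := MX_le η hη
  refine ⟨max (max K1 K2) X0, hK1.trans ((le_max_left _ _).trans (le_max_left _ _)), ?_⟩
  intro X ι J _ _ _ _ s α hsv hα hrg p1 hM T hT j
  have hpos : (0 : ℝ) ≤ max (max K1 K2) X0 :=
    le_trans (by linarith) ((le_max_left K1 K2).trans (le_max_left _ _))
  have hrg1 : Rg K1 X (Fintype.card J) := hrg.mono hpos ((le_max_left _ _).trans (le_max_left _ _))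
  have hrg2 : Rg K2 X (Fintype.card J) := hrg.mono hpos ((le_max_right _ _).trans (le_max_left _ _))
  have hN := hnum X _ hrg2
  obtain ⟨hXX0, hX1⟩ := f4b_Xlarge hrg (le_max_right (max K1 K2) (X0 : ℝ))
    (hK1.trans ((le_max_left _ _).trans (le_max_left _ _)))
  obtain ⟨-, -, hy, -, -⟩ := hX0 X hXX0 p1
  have hX1R : (1 : ℝ) ≤ X := by exact_mod_cast hX1
  have hZ := one_le_ZZ s (bg s α (NN η X))
  have hZ0 : 0 ≤ ZZ s (bg s α (NN η X)) := by linarith
  have hW2 := hN.W_two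
  have hWR : (0 : ℝ) < WX X := by
    have : 0 < WX X := by omega
    exact_mod_cast this
  have hT0 : (0 : ℝ) ≤ T := Nat.cast_nonneg _
  refine (mass_exists s α (NN η X) T (Mis s (WX X) (NN η X))
    (fun p t => p ∣ s.b j + s.M * t)).trans ?_
  have hterm : ∀ p ∈ Mis s (WX X) (NN η X),
      mass s α (NN η X) T (fun t => p ∣ s.b j + s.M * t) ≤
        4 * (T / WX X) * ZZ s (bg s α (NN η X)) := by
    intro p hp
    obtain ⟨hp1, hpp, hpi⟩ := mem_filter.mp hp
    rw [mem_Ioc] at hp1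
    have hcop : Nat.Coprime p s.M := by
      rw [Nat.Prime.coprime_iff_not_dvd hpp, hM, dvd_MX X p1 p hpp]
      rintro ⟨h1, -⟩
      omega
    have hle : (p : ℝ) ≤ (X : ℝ) ^ (1 / 4 : ℝ) := by
      have h1 : (p : ℝ) ≤ NN η X := by exact_mod_cast hp1.2
      refine h1.trans (hN.N_le.trans ?_)
      exact Real.rpow_le_rpow_of_exponent_le hX1R (by linarith)
    have hcard : (univ.filter (fun i => s.pr i ∣ p)).card = 0 := by
      rw [Finset.card_eq_zero, Finset.filter_eq_empty_iff]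
      intro i _ hd
      exact hpi i ((Nat.prime_dvd_prime_iff_eq (s.prime i) hpp).mp hd)
    have := hmq X s α hsv hα hrg1 T hT j p hpp.pos hle hcop
    rw [hcard, pow_zero, one_mul] at this
    refine this.trans (mul_le_mul_of_nonneg_right ?_ hZ0)
    refine mul_le_mul_of_nonneg_left ?_ (by norm_num)
    refine div_le_div_of_nonneg_left hT0 hWR ?_
    exact_mod_cast hp1.1.le
  refine (Finset.sum_le_sum hterm).trans ?_
  rw [Finset.sum_const, nsmul_eq_mul]
  have hmis := hsv.mis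
  have hk1 := hN.k1
  have hkR : (1 : ℝ) ≤ Fintype.card J := by exact_mod_cast hk1
  have hk0 : (0 : ℝ) < Fintype.card J := by linarith
  have hkle := hN.k_le
  have hWge := hN.W_ge
  have hB := hN.lX
  have hL1 : 1 ≤ Real.log (X : ℝ) := (le_max_left _ _).trans hB
  have hL4 : 4 / ε ≤ Real.log (X : ℝ) := (le_max_right _ _).trans hB
  set L : ℝ := Real.log (X : ℝ) with hL
  have hL0 : 0 < L := by linarith
  have h4 : 4 ≤ ε * L := by
    rw [div_le_iff₀ hε] at hL4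
    linarith
  have key : ((Mis s (WX X) (NN η X)).card : ℝ) * (4 / WX X) ≤ ε / Fintype.card J := by
    rw [le_div_iff₀ hk0]
    have e1 : ((Mis s (WX X) (NN η X)).card : ℝ) * (4 / WX X) * Fintype.card J ≤
        L ^ 3 * (4 / L ^ 16) * L := by
      refine mul_le_mul (mul_le_mul hmis ?_ (by positivity) (by positivity)) hkle hk0.le
        (by positivity)
      exact div_le_div_of_nonneg_left (by norm_num) (by positivity) hWge
    refine e1.trans ?_
    have e2 : L ^ 3 * (4 / L ^ 16) * L = 4 / L ^ 12 := by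
      field_simp
    rw [e2, div_le_iff₀ (by positivity)]
    have e3 : L ≤ L ^ 12 := by
      calc L = L ^ 1 := (pow_one L).symm
        _ ≤ L ^ 12 := pow_le_pow_right₀ hL1 (by norm_num)
    nlinarith
  calc ((Mis s (WX X) (NN η X)).card : ℝ) * (4 * (T / WX X) * ZZ s (bg s α (NN η X)))
      = ((Mis s (WX X) (NN η X)).card : ℝ) * (4 / WX X) * (T * ZZ s (bg s α (NN η X))) := by ring
    _ ≤ ε / Fintype.card J * (T * ZZ s (bg s α (NN η X))) :=
        mul_le_mul_of_nonneg_right key (mul_nonneg hT0 hZ0)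
    _ = ε / Fintype.card J * T * ZZ s (bg s α (NN η X)) := by ring

/-- `mass_q` with `q = (pr i)² ≤ N² ≤ X^(1/4)`, `#{i' : pr i' ∣ q} = 1`: `9 · 4 (T/(pr i)²) ZZ`; the sum
over `i` is `≤ 36 (T/W) ZZ` (`H56G.cnt_sum_inv_sq`). -/
theorem ev4 : ∀ η : ℝ, 0 < η → η ≤ 1 / 1000 → ∀ ε : ℝ, 0 < ε → ∃ K : ℝ, 1 ≤ K ∧
    ∀ (X : ℕ) {ι J : Type} [Fintype ι] [DecidableEq ι] [Fintype J] [DecidableEq J]
      (s : Sys ι J) (α : ℝ), Sv η X s → 0 < α → Rg K X (Fintype.card J) →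
      ∀ T : ℕ, (X : ℝ) ^ (1 / 2 : ℝ) ≤ T → ∀ j : J,
      mass s α (NN η X) T (fun t => ∃ i, s.pr i ^ 2 ∣ s.b j + s.M * t) ≤
        ε / Fintype.card J * T * ZZ s (bg s α (NN η X)) := by
  intro η hη hη1 ε hε
  obtain ⟨K1, hK1, hmq⟩ := mass_q η hη hη1
  obtain ⟨K2, hK2, hnum⟩ := numF η hη hη1 (max 1 (36 / ε))
  refine ⟨max K1 K2, hK1.trans (le_max_left _ _), ?_⟩
  intro X ι J _ _ _ _ s α hsv hα hrg T hT j
  have hpos : (0 : ℝ) ≤ max K1 K2 := le_trans (by linarith) (le_max_left K1 K2)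
  have hrg1 : Rg K1 X (Fintype.card J) := hrg.mono hpos (le_max_left _ _)
  have hrg2 : Rg K2 X (Fintype.card J) := hrg.mono hpos (le_max_right _ _)
  have hN := hnum X _ hrg2
  obtain ⟨-, hX1⟩ := f4b_Xlarge (X0 := 0) hrg (by simpa using hpos)
    (hK1.trans (le_max_left _ _))
  have hX1R : (1 : ℝ) ≤ X := by exact_mod_cast hX1
  have hZ := one_le_ZZ s (bg s α (NN η X))
  have hZ0 : 0 ≤ ZZ s (bg s α (NN η X)) := by linarith
  have hW2 := hN.W_two
  have hWR : (0 : ℝ) < WX X := by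
    have : 0 < WX X := by omega
    exact_mod_cast this
  have hT0 : (0 : ℝ) ≤ T := Nat.cast_nonneg _
  have h0 : mass s α (NN η X) T (fun t => ∃ i, s.pr i ^ 2 ∣ s.b j + s.M * t) ≤
      mass s α (NN η X) T (fun t => ∃ i ∈ (univ : Finset ι), s.pr i ^ 2 ∣ s.b j + s.M * t) :=
    mass_mono s α _ T _ _ fun t _ _ ⟨i, hi⟩ => ⟨i, mem_univ i, hi⟩
  refine h0.trans ((mass_exists s α (NN η X) T univ
    (fun i t => s.pr i ^ 2 ∣ s.b j + s.M * t)).trans ?_)
  have hterm : ∀ i ∈ (univ : Finset ι),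
      mass s α (NN η X) T (fun t => s.pr i ^ 2 ∣ s.b j + s.M * t) ≤
        36 * T * ZZ s (bg s α (NN η X)) * (((s.pr i : ℕ) : ℝ) ^ 2)⁻¹ := by
    intro i _
    have hpp := s.prime i
    have hcop : Nat.Coprime (s.pr i ^ 2) s.M :=
      Nat.Coprime.pow_left 2 ((Nat.Prime.coprime_iff_not_dvd hpp).mpr (s.copM i))
    have hle : ((s.pr i ^ 2 : ℕ) : ℝ) ≤ (X : ℝ) ^ (1 / 4 : ℝ) := by
      have h1 : (s.pr i : ℝ) ≤ NN η X := by exact_mod_cast hsv.hi i
      have h2 : (s.pr i : ℝ) ≤ (X : ℝ) ^ η := h1.trans hN.N_le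
      calc ((s.pr i ^ 2 : ℕ) : ℝ) = (s.pr i : ℝ) ^ 2 := by push_cast; ring
        _ ≤ ((X : ℝ) ^ η) ^ 2 := pow_le_pow_left₀ (Nat.cast_nonneg _) h2 2
        _ = (X : ℝ) ^ (η * 2) := by
            rw [← Real.rpow_natCast, ← Real.rpow_mul (by linarith)]
            norm_num
        _ ≤ (X : ℝ) ^ (1 / 4 : ℝ) := Real.rpow_le_rpow_of_exponent_le hX1R (by linarith)
    have hcard : (univ.filter (fun i' => s.pr i' ∣ s.pr i ^ 2)).card = 1 := by
      have : univ.filter (fun i' => s.pr i' ∣ s.pr i ^ 2) = {i} := by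
        ext i'
        simp only [mem_filter, mem_univ, true_and, mem_singleton]
        constructor
        · intro hd
          have := (Nat.prime_dvd_prime_iff_eq (s.prime i') hpp).mp
            ((s.prime i').dvd_of_dvd_pow hd)
          exact s.inj this
        · rintro rfl
          exact dvd_pow_self _ (by norm_num)
      rw [this, Finset.card_singleton]
    have := hmq X s α hsv hα hrg1 T hT j (s.pr i ^ 2) (pow_pos hpp.pos 2) hle hcop
    rw [hcard, pow_one] at this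
    refine this.trans (le_of_eq ?_)
    push_cast
    rw [div_eq_mul_inv]
    ring
  refine (Finset.sum_le_sum hterm).trans ?_
  rw [← Finset.mul_sum]
  have hinv := cnt_sum_inv_sq s (WX X) (by omega) hsv.lo
  have hk1 := hN.k1
  have hkR : (1 : ℝ) ≤ Fintype.card J := by exact_mod_cast hk1
  have hk0 : (0 : ℝ) < Fintype.card J := by linarith
  have hkle := hN.k_le
  have hWge := hN.W_ge
  have hB := hN.lX
  have hL1 : 1 ≤ Real.log (X : ℝ) := (le_max_left _ _).trans hB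
  have hL4 : 36 / ε ≤ Real.log (X : ℝ) := (le_max_right _ _).trans hB
  set L : ℝ := Real.log (X : ℝ) with hL
  have hL0 : 0 < L := by linarith
  have h4 : 36 ≤ ε * L := by
    rw [div_le_iff₀ hε] at hL4
    linarith
  have key : 36 * (WX X : ℝ)⁻¹ ≤ ε / Fintype.card J := by
    rw [le_div_iff₀ hk0]
    have e1 : 36 * (WX X : ℝ)⁻¹ * Fintype.card J ≤ 36 * (L ^ 16)⁻¹ * L := by
      refine mul_le_mul (mul_le_mul_of_nonneg_left ?_ (by norm_num)) hkle hk0.le (by positivity)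
      exact inv_anti₀ (by positivity) hWge
    refine e1.trans ?_
    have e2 : 36 * (L ^ 16)⁻¹ * L = 36 / L ^ 15 := by
      field_simp
    rw [e2, div_le_iff₀ (by positivity)]
    have e3 : L ≤ L ^ 15 := by
      calc L = L ^ 1 := (pow_one L).symm
        _ ≤ L ^ 15 := pow_le_pow_right₀ hL1 (by norm_num)
    nlinarith
  calc 36 * (T : ℝ) * ZZ s (bg s α (NN η X)) * ∑ i, (((s.pr i : ℕ) : ℝ) ^ 2)⁻¹
      ≤ 36 * (T : ℝ) * ZZ s (bg s α (NN η X)) * (WX X : ℝ)⁻¹ :=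
        mul_le_mul_of_nonneg_left hinv (by positivity)
    _ = 36 * (WX X : ℝ)⁻¹ * (T * ZZ s (bg s α (NN η X))) := by ring
    _ ≤ ε / Fintype.card J * (T * ZZ s (bg s α (NN η X))) :=
        mul_le_mul_of_nonneg_right key (mul_nonneg hT0 hZ0)
    _ = ε / Fintype.card J * T * ZZ s (bg s α (NN η X)) := by ring

end Pool.Agent.Lib.H59D
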