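import Pool.Agent.Lib.H59D.Num

/-!
# Definition of the threshold `w1` (events of F4)
-/

open Finset

namespace Pool.Agent.Lib.H59D

open Pool.Agent.Lib.H5C (WX)

/-- `w1 = max (W, exp (log N/(K₂ k³)))` -/
noncomputable def w1 (η K₂ : ℝ) (X k : ℕ) : ℝ :=
  max (WX X : ℝ) (Real.exp (Real.log (NN η X) / (K₂ * (k : ℝ) ^ 3)))

end Pool.Agent.Lib.H59D
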