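import Pool.Agent.Lib.H59D.Defs
import Pool.Agent.Lib.H15P.NT1
import Pool.Agent.Lib.Sieve.PrimeSum

/-!
# Chunk N2: Mertens type sums over the sieve primes
-/

open Finset

namespace Pool.Agent.Lib.H59D

open Pool.Agent.Lib.H56G

variable {ι J : Type} [Fintype ι] [DecidableEq ι] [Fintype J] [DecidableEq J]

/-- The primes `pr i` are distinct primes in `(⌊w⌋, N]`; `H15P.mertens_sum_le` with `a = ⌊w⌋₊ ≥ 2`,
`b = N`: `≤ log (500 log N/log ⌊w⌋)`, and `log ⌊w⌋ ≥ (1/2) log w` for `w ≥ 2`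
(`⌊w⌋ ≥ 2`, `w ≤ ⌊w⌋ + 1 ≤ ⌊w⌋²`). -/
theorem sum_inv_le (s : Sys ι J) (N : ℕ) (hN : ∀ i, s.pr i ≤ N) (w : ℝ) (hw : 2 ≤ w)
    (hwN : w ≤ N) :
    ∑ i ∈ univ.filter (fun i => w < (s.pr i : ℝ)), 1 / (s.pr i : ℝ) ≤
      Real.log (1000 * (Real.log N / Real.log w)) := by
  have ha2 : 2 ≤ ⌊w⌋₊ := Nat.le_floor (by exact_mod_cast hw)
  have haN : ⌊w⌋₊ ≤ N := Nat.floor_le_of_le hwN
  have h1 := H15P.mertens_sum_le ⌊w⌋₊ N ha2 haN
  have h2 : ∑ i ∈ univ.filter (fun i => w < (s.pr i : ℝ)), 1 / (s.pr i : ℝ) ≤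
      ∑ p ∈ (Ioc ⌊w⌋₊ N).filter Nat.Prime, 1 / (p : ℝ) := by
    rw [← Finset.sum_image (f := fun p : ℕ => 1 / (p : ℝ)) (g := s.pr)
      (fun x _ y _ h => s.inj h)]
    refine Finset.sum_le_sum_of_subset_of_nonneg ?_ fun p _ _ => by positivity
    intro p hp
    rw [mem_image] at hp
    obtain ⟨i, hi, rfl⟩ := hp
    rw [mem_filter] at hi
    rw [mem_filter, mem_Ioc]
    exact ⟨⟨(Nat.floor_lt (by linarith)).mpr hi.2, hN i⟩, s.prime i⟩
  refine h2.trans (h1.trans ?_)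
  have haR : (2 : ℝ) ≤ (⌊w⌋₊ : ℝ) := by exact_mod_cast ha2
  have hla : 0 < Real.log (⌊w⌋₊ : ℝ) := Real.log_pos (by linarith)
  have hlw : 0 < Real.log w := Real.log_pos (by linarith)
  have hlN : 0 < Real.log (N : ℝ) := Real.log_pos (by linarith)
  have h3 : Real.log w ≤ 2 * Real.log (⌊w⌋₊ : ℝ) := by
    have h4 : w ≤ (⌊w⌋₊ : ℝ) ^ 2 := by
      have := Nat.lt_floor_add_one w
      nlinarith
    have h5 := Real.log_le_log (by linarith) h4
    rwa [Real.log_pow] at h5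
  apply Real.log_le_log (by positivity)
  have h6 : Real.log N / Real.log (⌊w⌋₊ : ℝ) ≤ 2 * (Real.log N / Real.log w) := by
    rw [← mul_div_assoc, div_le_div_iff₀ hla hlw]
    nlinarith
  linarith

/-- `(log p)² ≤ log w log p` and `Sieve.sum_log_div_le ⌊w⌋`; `log 4 ≤ 2 log w`. -/
theorem sum_log_sq_le (s : Sys ι J) (w : ℝ) (hw : 2 ≤ w) :
    ∑ i ∈ univ.filter (fun i => (s.pr i : ℝ) ≤ w), (Real.log (s.pr i)) ^ 2 / (s.pr i : ℝ) ≤
      3 * (Real.log w) ^ 2 := by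
  have ha2 : 2 ≤ ⌊w⌋₊ := Nat.le_floor (by exact_mod_cast hw)
  have haR : (2 : ℝ) ≤ (⌊w⌋₊ : ℝ) := by exact_mod_cast ha2
  have hlw : 0 < Real.log w := Real.log_pos (by linarith)
  have h1 := Sieve.sum_log_div_le ⌊w⌋₊ (by omega)
  have h2 : ∑ i ∈ univ.filter (fun i => (s.pr i : ℝ) ≤ w),
      (Real.log (s.pr i)) ^ 2 / (s.pr i : ℝ) ≤
      Real.log w * ∑ p ∈ Sieve.primesUpTo ⌊w⌋₊, Real.log p / p := by
    rw [Finset.mul_sum]
    have h3 : ∀ i ∈ univ.filter (fun i => (s.pr i : ℝ) ≤ w),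
        (Real.log (s.pr i)) ^ 2 / (s.pr i : ℝ) ≤
          Real.log w * (Real.log (s.pr i) / (s.pr i : ℝ)) := by
      intro i hi
      rw [mem_filter] at hi
      have hp : (2 : ℝ) ≤ s.pr i := by exact_mod_cast (s.prime i).two_le
      have h4 : Real.log (s.pr i) ≤ Real.log w := Real.log_le_log (by linarith) hi.2
      have h5 : 0 ≤ Real.log (s.pr i : ℝ) := Real.log_nonneg (by linarith)
      rw [← mul_div_assoc]
      apply div_le_div_of_nonneg_right _ (by linarith)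
      rw [sq]
      exact mul_le_mul_of_nonneg_right h4 h5
    refine (Finset.sum_le_sum h3).trans ?_
    rw [← Finset.sum_image (f := fun p : ℕ => Real.log w * (Real.log p / (p : ℝ)))
      (g := s.pr) (fun x _ y _ h => s.inj h)]
    refine Finset.sum_le_sum_of_subset_of_nonneg ?_ fun p _ _ => ?_
    · intro p hp
      rw [mem_image] at hp
      obtain ⟨i, hi, rfl⟩ := hp
      rw [mem_filter] at hi
      rw [Sieve.mem_primesUpTo]
      exact ⟨s.prime i, Nat.le_floor hi.2⟩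
    · have : 0 ≤ Real.log (p : ℝ) := Real.log_natCast_nonneg p
      positivity
  have h3 : Real.log (⌊w⌋₊ : ℝ) ≤ Real.log w :=
    Real.log_le_log (by linarith) (Nat.floor_le (by linarith))
  have h4 : Real.log 4 ≤ 2 * Real.log w := by
    have h5 : Real.log 4 = 2 * Real.log 2 := by
      rw [show (4 : ℝ) = 2 ^ 2 by norm_num, Real.log_pow]
      push_cast
      ring
    have h6 : Real.log 2 ≤ Real.log w := Real.log_le_log (by norm_num) hw
    linarith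
  calc _ ≤ _ := h2
    _ ≤ Real.log w * (3 * Real.log w) := by
        apply mul_le_mul_of_nonneg_left _ hlw.le
        linarith
    _ = 3 * (Real.log w) ^ 2 := by ring

/-- `Σ 1/p³ ≤ Σ_{n > W} 1/n³ ≤ (1/W) Σ_{n > W} 1/n² ≤ 1/W²` (`H56G.cnt_sum_inv_sq`). -/
theorem sum_inv_cube_le (s : Sys ι J) (W : ℕ) (hW : 1 ≤ W) (hpr : ∀ i, W < s.pr i) :
    ∑ i, 1 / (s.pr i : ℝ) ^ 3 ≤ 1 / (W : ℝ) ^ 2 := by
  have hWR : (1 : ℝ) ≤ W := by exact_mod_cast hW
  have h1 := cnt_sum_inv_sq s W hW hpr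
  have h2 : ∀ i, 1 / (s.pr i : ℝ) ^ 3 ≤ 1 / (W : ℝ) * (1 / (s.pr i : ℝ) ^ 2) := by
    intro i
    have h3 : (W : ℝ) ≤ s.pr i := by exact_mod_cast (hpr i).le
    have h4 : (0 : ℝ) < s.pr i := by linarith
    rw [div_mul_div_comm, one_mul]
    apply one_div_le_one_div_of_le (by positivity)
    have : (s.pr i : ℝ) ^ 3 = s.pr i * (s.pr i : ℝ) ^ 2 := by ring
    rw [this]
    exact mul_le_mul_of_nonneg_right h3 (by positivity)
  calc ∑ i, 1 / (s.pr i : ℝ) ^ 3 ≤ ∑ i, 1 / (W : ℝ) * (1 / (s.pr i : ℝ) ^ 2) :=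
        Finset.sum_le_sum fun i _ => h2 i
    _ = 1 / (W : ℝ) * ∑ i, 1 / (s.pr i : ℝ) ^ 2 := by rw [Finset.mul_sum]
    _ ≤ 1 / (W : ℝ) * (1 / (W : ℝ)) := by
        apply mul_le_mul_of_nonneg_left _ (by positivity)
        simpa only [one_div] using h1
    _ = 1 / (W : ℝ) ^ 2 := by
        rw [div_mul_div_comm, one_mul, sq]

end Pool.Agent.Lib.H59D
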