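import Pool.Agent.Lib.H59D.D4
import Pool.Agent.Lib.H59D.N2
import Pool.Agent.Lib.H59D.F40

/-!
# Chunk F4c: small sieve primes
-/

open Finset

namespace Pool.Agent.Lib.H59D

open Pool.Agent.Lib.H56G
open Pool.Agent.Lib.H5C (WX)

/-- numerical part of `ev3` -/
theorem F4c_num {C' C ε K₂ k ℓ a lN lw W L : ℝ} (hC' : 1 ≤ C') (hε : 0 < ε)
    (hK₂ : 1 + 6 * C' * C ^ 2 / ε ≤ K₂) (hk : 1 ≤ k) (hℓ : 0 ≤ ℓ) (hℓk : ℓ ≤ k) (ha : 0 < a)
    (hlN : 0 < lN) (hahi : a * lN ≤ C * (ℓ * k)) (hlw : lw = lN / (K₂ * k ^ 3))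
    (hL : 2 * C' / ε ≤ L) (hL1 : 1 ≤ L) (hkL : k ≤ L) (hW : L ^ 16 ≤ W) :
    C' * (a ^ 2 * (3 * lw ^ 2) + k ^ 2 * (1 / W ^ 2)) ≤ ε / k := by
  have hK1 : 1 ≤ K₂ := by
    have : 0 ≤ 6 * C' * C ^ 2 / ε := by positivity
    linarith
  have hkpos : 0 < k := by linarith
  have hℓpos : 0 < ℓ := by
    rcases hℓ.lt_or_eq with h | h
    · exact h
    · exfalso
      rw [← h] at hahi
      have := mul_pos ha hlN
      linarith
  have hCpos : 0 < C := by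
    by_contra hc
    have h1 : 0 < a * lN := mul_pos ha hlN
    have h2 : C * (ℓ * k) ≤ 0 := mul_nonpos_of_nonpos_of_nonneg (not_lt.mp hc) (by positivity)
    linarith
  have h1 : a * lw ≤ C / (K₂ * k) := by
    rw [hlw, ← mul_div_assoc, div_le_div_iff₀ (by positivity) (by positivity)]
    have h2 : C * (ℓ * k) ≤ C * (k * k) :=
      mul_le_mul_of_nonneg_left (mul_le_mul_of_nonneg_right hℓk hkpos.le) hCpos.le
    calc a * lN * (K₂ * k) ≤ C * (k * k) * (K₂ * k) :=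
          mul_le_mul_of_nonneg_right (hahi.trans h2) (by positivity)
      _ = C * (K₂ * k ^ 3) := by ring
  have h0 : 0 ≤ a * lw := by rw [hlw]; positivity
  have h2 : (a * lw) ^ 2 ≤ (C / (K₂ * k)) ^ 2 := pow_le_pow_left₀ h0 h1 2
  have h3 : C' * (3 * (C / (K₂ * k)) ^ 2) ≤ ε / 2 / k := by
    rw [div_pow, ← mul_div_assoc, ← mul_div_assoc, div_le_div_iff₀ (by positivity) hkpos]
    have h4 : 6 * C' * C ^ 2 ≤ ε * K₂ := by
      have h5 : 6 * C' * C ^ 2 / ε ≤ K₂ := by linarith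
      rw [div_le_iff₀ hε] at h5
      linarith
    have h6 : ε * K₂ * k ≤ ε * K₂ * k * (K₂ * k) := by
      refine le_mul_of_one_le_right (by positivity) ?_
      nlinarith
    calc C' * (3 * C ^ 2) * k = 6 * C' * C ^ 2 * k / 2 := by ring
      _ ≤ ε * K₂ * k / 2 := by
          refine div_le_div_of_nonneg_right ?_ (by norm_num)
          exact mul_le_mul_of_nonneg_right h4 hkpos.le
      _ ≤ ε * K₂ * k * (K₂ * k) / 2 := div_le_div_of_nonneg_right h6 (by norm_num)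
      _ = ε / 2 * (K₂ * k) ^ 2 := by ring
  have hW1 : 1 ≤ W := le_trans (one_le_pow₀ hL1) hW
  have h4 : C' * (k ^ 2 * (1 / W ^ 2)) ≤ ε / 2 / k := by
    rw [← mul_assoc, mul_one_div, div_le_div_iff₀ (by positivity) hkpos]
    have h5 : L ^ 4 ≤ W ^ 2 := by
      calc L ^ 4 ≤ L ^ 32 := pow_le_pow_right₀ hL1 (by norm_num)
        _ = (L ^ 16) ^ 2 := by ring
        _ ≤ W ^ 2 := pow_le_pow_left₀ (by positivity) hW 2
    have h6 : k ^ 3 ≤ L ^ 3 := pow_le_pow_left₀ hkpos.le hkL 3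
    have h7 : 2 * C' ≤ ε * L := by
      rw [div_le_iff₀ hε] at hL
      linarith
    calc C' * k ^ 2 * k = 2 * C' * k ^ 3 / 2 := by ring
      _ ≤ ε * L * L ^ 3 / 2 := by
          refine div_le_div_of_nonneg_right ?_ (by norm_num)
          exact mul_le_mul h7 h6 (by positivity) (by positivity)
      _ = ε / 2 * L ^ 4 := by ring
      _ ≤ ε / 2 * W ^ 2 := mul_le_mul_of_nonneg_left h5 (by positivity)
  calc C' * (a ^ 2 * (3 * lw ^ 2) + k ^ 2 * (1 / W ^ 2))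
      = C' * (3 * (a * lw) ^ 2) + C' * (k ^ 2 * (1 / W ^ 2)) := by ring
    _ ≤ C' * (3 * (C / (K₂ * k)) ^ 2) + C' * (k ^ 2 * (1 / W ^ 2)) := by
        have := mul_le_mul_of_nonneg_left h2 (by positivity : (0 : ℝ) ≤ C' * 3)
        linarith
    _ ≤ ε / 2 / k + ε / 2 / k := add_le_add h3 h4
    _ = ε / k := by ring

theorem F4c_false {ι J : Type} [Fintype ι] [DecidableEq ι] [Fintype J] [DecidableEq J]
    (s : Sys ι J) (α D : ℝ) (T : ℕ) (P : ℕ → Prop) (h : ∀ t, ¬ P t) : mass s α D T P = 0 := by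
  classical
  unfold mass
  refine Finset.sum_eq_zero fun t ht => ?_
  rw [mem_filter] at ht
  exact absurd ht.2 (h t)

/-- If `w1 = W` there is no such `i`. Otherwise `log w1 = log N/(K₂ k³)`; union bound and `mass_p`:
`Σ_{pr i ≤ w1} C' ((α log p)²/p + k²/p³) T ZZ ≤ C' (3 α² (log w1)² + k²/W²) T ZZ` (`sum_log_sq_le`,
`sum_inv_cube_le`), `α log w1 = α log N/(K₂ k³) ≤ C ℓ k/(K₂ k³) ≤ C/(K₂ k)` (`ahi`, `el_le`), and
`k²/W² ≤ (log X)^(-30)`. So `≤ (3C'C²/K₂² + small)/k ≤ ε/k` for `K₂` large. -/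
theorem ev3 : ∀ η : ℝ, 0 < η → η ≤ 1 / 1000 → ∀ C ε : ℝ, 0 < ε → ∃ K₂ K : ℝ, 1 ≤ K₂ ∧ 1 ≤ K ∧
    ∀ (X : ℕ) {ι J : Type} [Fintype ι] [DecidableEq ι] [Fintype J] [DecidableEq J]
      (s : Sys ι J) (α : ℝ), Data η C X s α → Rg K X (Fintype.card J) →
      ∀ T : ℕ, (X : ℝ) ^ (1 / 2 : ℝ) ≤ T → ∀ j : J,
      mass s α (NN η X) T (fun t => ∃ i, (s.pr i : ℝ) ≤ w1 η K₂ X (Fintype.card J) ∧
        s.pr i ∣ s.b j + s.M * t) ≤
        ε / Fintype.card J * T * ZZ s (bg s α (NN η X)) := by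
  intro η hη hη1 C ε hε
  obtain ⟨C', Kp, hC', hKp, hp⟩ := mass_p η hη hη1 C
  obtain ⟨Kn, hKn1, hn⟩ := numF η hη hη1 (1 + 2 * C' / ε)
  have hpos : 0 ≤ 6 * C' * C ^ 2 / ε := by positivity
  refine ⟨1 + 6 * C' * C ^ 2 / ε, max Kp Kn, by linarith, le_max_of_le_left hKp, ?_⟩
  intro X ι J _ _ _ _ s α hD hR T hT j
  set K₂ : ℝ := 1 + 6 * C' * C ^ 2 / ε with hK₂
  set k := Fintype.card J with hk
  have hRp : Rg Kp X k := hR.mono (by linarith [le_max_left Kp Kn]) (le_max_left _ _)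
  have hRn : Rg Kn X k := hR.mono (by linarith [le_max_left Kp Kn]) (le_max_right _ _)
  have hF := hn X k hRn
  have hk1 : (1 : ℝ) ≤ k := by exact_mod_cast hF.k1
  have hkpos : (0 : ℝ) < k := by linarith
  have hC'ε : 0 ≤ 2 * C' / ε := by positivity
  have hlN : 1 ≤ Real.log (NN η X) := by linarith [hF.lN_B]
  have hL : 1 + 2 * C' / ε ≤ Real.log X := hF.lX
  have hZ1 : 1 ≤ ZZ s (bg s α (NN η X)) := one_le_ZZ s _
  have hT0 : (0 : ℝ) ≤ T := Nat.cast_nonneg T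
  have hα := hD.a0
  have hsv := hD.sv
  have hRHS : 0 ≤ ε / k * T * ZZ s (bg s α (NN η X)) := by positivity
  rcases le_or_gt (w1 η K₂ X k) (WX X) with hw | hw
  · refine le_trans (le_of_eq (F4c_false s α _ T _ ?_)) hRHS
    rintro t ⟨i, hi, _⟩
    have h1 : ((WX X : ℕ) : ℝ) < s.pr i := by exact_mod_cast hsv.lo i
    linarith
  have hw1 : w1 η K₂ X k = Real.exp (Real.log (NN η X) / (K₂ * (k : ℝ) ^ 3)) := by
    unfold w1
    refine max_eq_right ?_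
    by_contra hc
    unfold w1 at hw
    rw [max_eq_left (not_le.mp hc).le] at hw
    exact lt_irrefl _ hw
  have hW2 : (2 : ℝ) ≤ WX X := by exact_mod_cast hF.W_two
  set w := w1 η K₂ X k with hwdef
  have hlw : Real.log w = Real.log (NN η X) / (K₂ * (k : ℝ) ^ 3) := by
    rw [hw1, Real.log_exp]
  have hW1 : 1 ≤ WX X := le_trans (by norm_num) hF.W_two
  have h1 : mass s α (NN η X) T (fun t => ∃ i, (s.pr i : ℝ) ≤ w ∧ s.pr i ∣ s.b j + s.M * t) ≤
      ∑ i ∈ univ.filter (fun i => (s.pr i : ℝ) ≤ w),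
        mass s α (NN η X) T (fun t => s.pr i ∣ s.b j + s.M * t) := by
    refine le_trans (mass_mono s α _ T _ _ ?_)
      (mass_exists s α (NN η X) T (univ.filter (fun i => (s.pr i : ℝ) ≤ w))
        (fun i t => s.pr i ∣ s.b j + s.M * t))
    rintro t _ _ ⟨i, hi, hd⟩
    exact ⟨i, by simpa using hi, hd⟩
  refine h1.trans ?_
  have h2 : ∀ i ∈ univ.filter (fun i => (s.pr i : ℝ) ≤ w),
      mass s α (NN η X) T (fun t => s.pr i ∣ s.b j + s.M * t) ≤
      C' * (α ^ 2 * ((Real.log (s.pr i)) ^ 2 / (s.pr i : ℝ)) +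
        (k : ℝ) ^ 2 * (1 / (s.pr i : ℝ) ^ 3)) * (T * ZZ s (bg s α (NN η X))) := by
    intro i _
    refine (hp X s α hD hRp T hT i j).trans (le_of_eq ?_)
    have hpi : (s.pr i : ℝ) ≠ 0 := by exact_mod_cast (s.prime i).ne_zero
    rw [← hk]
    field_simp
  refine (Finset.sum_le_sum h2).trans ?_
  rw [← Finset.sum_mul, ← Finset.mul_sum, Finset.sum_add_distrib, ← Finset.mul_sum,
    ← Finset.mul_sum]
  have h3 := sum_log_sq_le s w (by linarith)
  have h4 : ∑ i ∈ univ.filter (fun i => (s.pr i : ℝ) ≤ w), 1 / (s.pr i : ℝ) ^ 3 ≤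
      1 / (WX X : ℝ) ^ 2 := by
    refine le_trans ?_ (sum_inv_cube_le s (WX X) hW1 hsv.lo)
    exact Finset.sum_le_sum_of_subset_of_nonneg (filter_subset _ _) fun i _ _ => by positivity
  have h5 := F4c_num (C' := C') (C := C) (ε := ε) (K₂ := K₂) (k := k) (ℓ := el k) (a := α)
    (lN := Real.log (NN η X)) (lw := Real.log w) (W := WX X) (L := Real.log X)
    hC' hε le_rfl hk1 (by linarith [el_one_le hF.k1]) (el_le hF.k1) hα (by linarith) hD.ahi hlw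
    (by linarith) (by linarith) hF.k_le hF.W_ge
  have hTZ : 0 ≤ T * ZZ s (bg s α (NN η X)) := by positivity
  calc C' * (α ^ 2 * ∑ i ∈ univ.filter (fun i => (s.pr i : ℝ) ≤ w),
          (Real.log (s.pr i)) ^ 2 / (s.pr i : ℝ) +
        (k : ℝ) ^ 2 * ∑ i ∈ univ.filter (fun i => (s.pr i : ℝ) ≤ w), 1 / (s.pr i : ℝ) ^ 3) *
        (T * ZZ s (bg s α (NN η X)))
      ≤ C' * (α ^ 2 * (3 * (Real.log w) ^ 2) + (k : ℝ) ^ 2 * (1 / (WX X : ℝ) ^ 2)) *
        (T * ZZ s (bg s α (NN η X))) := by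
        refine mul_le_mul_of_nonneg_right ?_ hTZ
        refine mul_le_mul_of_nonneg_left ?_ (by linarith)
        exact add_le_add (mul_le_mul_of_nonneg_left h3 (by positivity))
          (mul_le_mul_of_nonneg_left h4 (by positivity))
    _ ≤ ε / k * (T * ZZ s (bg s α (NN η X))) := mul_le_mul_of_nonneg_right h5 hTZ
    _ = ε / k * T * ZZ s (bg s α (NN η X)) := by ring

end Pool.Agent.Lib.H59D
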