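import Mathlib

/-!
# Chunk N4a: elementary symmetric functions (pure Mathlib)
-/

open Finset

namespace Pool.Agent.Lib.H59D

variable {ι : Type} [DecidableEq ι]

theorem N4a_pow (s x : ℝ) (hs : 0 ≤ s) (hx : 0 ≤ x) (h : ℕ) :
    s ^ (h + 1) + (h + 1) * (x * s ^ h) ≤ (s + x) ^ (h + 1) := by
  induction h with
  | zero => simp
  | succ h ih =>
    calc s ^ (h + 1 + 1) + ((h + 1 : ℕ) + 1) * (x * s ^ (h + 1))
        ≤ (s ^ (h + 1) + (h + 1) * (x * s ^ h)) * (s + x) := by
          have : 0 ≤ (h + 1) * (x * s ^ h) * x := by positivity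
          push_cast
          have e : (s ^ (h + 1) + (h + 1) * (x * s ^ h)) * (s + x) =
              s ^ (h + 1 + 1) + ((h : ℝ) + 1 + 1) * (x * s ^ (h + 1)) +
                (h + 1) * (x * s ^ h) * x := by ring
          rw [e]
          linarith
      _ ≤ (s + x) ^ (h + 1) * (s + x) := mul_le_mul_of_nonneg_right ih (by positivity)
      _ = (s + x) ^ (h + 1 + 1) := by ring

/-- `Σ_{|E| = h, E ⊆ F} ∏_{i ∈ E} x_i ≤ (Σ_{i ∈ F} x_i)^h/h!` for `x ≥ 0`: induction on `h`,
`(h+1) e_{h+1} = Σ_{|E| = h} ∏_E x · Σ_{i ∉ E} x_i ≤ e_h Σ x`. -/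
theorem esymm_le (F : Finset ι) (x : ι → ℝ) (hx : ∀ i ∈ F, 0 ≤ x i) (h : ℕ) :
    ∑ E ∈ F.powersetCard h, ∏ i ∈ E, x i ≤ (∑ i ∈ F, x i) ^ h / h.factorial := by
  induction F using Finset.induction_on generalizing h with
  | empty =>
    rcases h with _ | h
    · simp
    · rw [Finset.powersetCard_eq_empty.2 (by simp)]
      simp
  | insert a F ha ih =>
    have hxF : ∀ i ∈ F, 0 ≤ x i := fun i hi => hx i (Finset.mem_insert_of_mem hi)
    have hxa : 0 ≤ x a := hx a (Finset.mem_insert_self _ _)
    rcases h with _ | h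
    · simp
    · rw [Finset.powersetCard_succ_insert ha, Finset.sum_union, Finset.sum_insert ha]
      · have h1 := ih hxF (h + 1)
        have h2 := ih hxF h
        have hs : 0 ≤ ∑ i ∈ F, x i := Finset.sum_nonneg hxF
        have h3 : ∑ E ∈ (F.powersetCard h).image (insert a), ∏ i ∈ E, x i =
            x a * ∑ E ∈ F.powersetCard h, ∏ i ∈ E, x i := by
          rw [Finset.sum_image, Finset.mul_sum]
          · refine Finset.sum_congr rfl fun E hE => ?_
            rw [Finset.prod_insert]
            exact fun h => ha ((Finset.mem_powersetCard.1 hE).1 h)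
          · intro E hE E' hE' hEE'
            have h4 : a ∉ E := fun h => ha ((Finset.mem_powersetCard.1 hE).1 h)
            have h5 : a ∉ E' := fun h => ha ((Finset.mem_powersetCard.1 hE').1 h)
            rw [← Finset.erase_insert h4, ← Finset.erase_insert h5]
            exact congrArg (fun G => Finset.erase G a) hEE'
        rw [h3]
        have h6 := N4a_pow (∑ i ∈ F, x i) (x a) hs hxa h
        have h7 : (((h + 1).factorial : ℕ) : ℝ) = (h + 1) * (h.factorial : ℝ) := by
          rw [Nat.factorial_succ]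
          push_cast
          ring
        have hf : (0 : ℝ) < (h.factorial : ℝ) := by exact_mod_cast Nat.factorial_pos h
        calc _ ≤ (∑ i ∈ F, x i) ^ (h + 1) / (h + 1).factorial +
              x a * ((∑ i ∈ F, x i) ^ h / h.factorial) :=
              add_le_add h1 (mul_le_mul_of_nonneg_left h2 hxa)
          _ = ((∑ i ∈ F, x i) ^ (h + 1) + (h + 1) * (x a * (∑ i ∈ F, x i) ^ h)) /
              (h + 1).factorial := by
              rw [h7]
              field_simp
          _ ≤ (x a + ∑ i ∈ F, x i) ^ (h + 1) / (h + 1).factorial := by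
              rw [add_comm (x a)]
              exact div_le_div_of_nonneg_right h6 (by positivity)
      · rw [Finset.disjoint_left]
        intro E hE hE'
        obtain ⟨E'', _, rfl⟩ := Finset.mem_image.1 hE'
        exact ha ((Finset.mem_powersetCard.1 hE).1 (Finset.mem_insert_self _ _))

end Pool.Agent.Lib.H59D
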