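import Pool.Agent.Lib.H59D.Defs
import Pool.Agent.Lib.H59D.N4a

/-!
# Chunk N4b: many prime factors
-/

open Finset

namespace Pool.Agent.Lib.H59D

open Pool.Agent.Lib.H56G

variable {ι J : Type} [Fintype ι] [DecidableEq ι] [Fintype J] [DecidableEq J]

theorem N4b_pow (s : Sys ι J) (h : ℕ) (R : ℝ) (hR : 1 ≤ R) (m : ℕ) (G : Finset ι)
    (hG : m * h ≤ G.card) (hE : ∀ E ⊆ G, E.card = h → R < s.rho E) : R ^ m ≤ s.rho G := by
  induction m generalizing G with
  | zero =>
    rw [pow_zero]
    exact one_le_rho s G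
  | succ m ih =>
    have h1 : h ≤ G.card := by
      have : (m + 1) * h = m * h + h := by ring
      omega
    obtain ⟨E, hEG, hEc⟩ := Finset.exists_subset_card_eq h1
    have h2 : m * h ≤ (G \ E).card := by
      rw [Finset.card_sdiff_of_subset hEG]
      have : (m + 1) * h = m * h + h := by ring
      omega
    have h3 := ih (G \ E) h2 (fun E' hE' hc => hE E' (hE'.trans Finset.sdiff_subset) hc)
    have h4 := hE E hEG hEc
    have h5 : s.rho G = s.rho (G \ E) * s.rho E := by
      unfold Sys.rho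
      exact (Finset.prod_sdiff hEG).symm
    rw [h5, pow_succ]
    exact mul_le_mul h3 h4.le (by linarith) (by have := one_le_rho s (G \ E); linarith)

/-- If at least `5h` of the primes `pr i > w1` divide `n = form j (t) ≤ R^5`, take `5h` of them and split
into five disjoint sets `E` of `h` elements; the product of the five `ρ(E)` divides `n`
(`n > 0`), so some `ρ(E) ≤ R`. Union bound (`mass_exists`) over the `E ∈ F.powersetCard h`,
`F = {i : w1 < pr i}`, with `ρ(E) ≤ R`, `hmass` and `esymm_le` with `x_i = 1/pr i`. -/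
theorem mass_many (s : Sys ι J) (α D : ℝ) (T : ℕ) (j : J) (w1 : ℝ) (h : ℕ) (hh : 1 ≤ h)
    (R A B : ℝ) (hR : 1 ≤ R) (hA : 0 ≤ A) (hB : 0 ≤ B)
    (hmass : ∀ E : Finset ι, E.card = h → s.rho E ≤ R →
      mass s α D T (fun t => ∀ i ∈ E, s.pr i ∣ s.b j + s.M * t) ≤ A * (B ^ h / s.rho E))
    (hsize : ∀ t, 1 ≤ t → t ≤ T → 0 < s.b j + s.M * t ∧ ((s.b j + s.M * t : ℕ) : ℝ) ≤ R ^ 5) :
    mass s α D T (fun t => 5 * h ≤
      (univ.filter (fun i => w1 < (s.pr i : ℝ) ∧ s.pr i ∣ s.b j + s.M * t)).card) ≤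
      A * ((B * ∑ i ∈ univ.filter (fun i => w1 < (s.pr i : ℝ)), 1 / (s.pr i : ℝ)) ^ h /
        h.factorial) := by
  set F := univ.filter (fun i => w1 < (s.pr i : ℝ)) with hF
  have hkey : ∀ t, 1 ≤ t → t ≤ T → 5 * h ≤
      (univ.filter (fun i => w1 < (s.pr i : ℝ) ∧ s.pr i ∣ s.b j + s.M * t)).card →
      ∃ E ∈ (F.powersetCard h).filter (fun E => s.rho E ≤ R),
        ∀ i ∈ E, s.pr i ∣ s.b j + s.M * t := by
    intro t ht1 ht2 hc
    obtain ⟨hn0, hn5⟩ := hsize t ht1 ht2
    set G := univ.filter (fun i => w1 < (s.pr i : ℝ) ∧ s.pr i ∣ s.b j + s.M * t) with hG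
    by_contra hcon
    push Not at hcon
    have hall : ∀ E ⊆ G, E.card = h → R < s.rho E := by
      intro E hE hEc
      by_contra h6
      push Not at h6
      have h7 := hcon E (by
        rw [Finset.mem_filter, Finset.mem_powersetCard]
        refine ⟨⟨fun i hi => ?_, hEc⟩, h6⟩
        have := hE hi
        rw [hG, Finset.mem_filter] at this
        rw [hF, Finset.mem_filter]
        exact ⟨this.1, this.2.1⟩)
      obtain ⟨i, hi, hnd⟩ := h7
      have := hE hi
      rw [hG, Finset.mem_filter] at this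
      exact hnd this.2.2
    have h1 : h ≤ G.card := by omega
    obtain ⟨E, hEG, hEc⟩ := Finset.exists_subset_card_eq h1
    have h2 : 4 * h ≤ (G \ E).card := by
      rw [Finset.card_sdiff_of_subset hEG]
      omega
    have h3 := N4b_pow s h R hR 4 (G \ E) h2
      (fun E' hE' hc => hall E' (hE'.trans Finset.sdiff_subset) hc)
    have h4 := hall E hEG hEc
    have h5 : s.rho G = s.rho (G \ E) * s.rho E := by
      unfold Sys.rho
      exact (Finset.prod_sdiff hEG).symm
    have h6 : R ^ 5 < s.rho G := by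
      rw [h5]
      calc R ^ 5 = R ^ 4 * R := by ring
        _ ≤ s.rho (G \ E) * R := mul_le_mul_of_nonneg_right h3 (by linarith)
        _ < s.rho (G \ E) * s.rho E :=
          mul_lt_mul_of_pos_left h4 (by have := one_le_rho s (G \ E); linarith)
    have h7 : (∏ i ∈ G, s.pr i) ∣ s.b j + s.M * t := by
      refine Finset.prod_dvd_of_isRelPrime ?_ ?_
      · intro i _ i' _ hne
        exact Nat.coprime_iff_isRelPrime.1
          ((Nat.coprime_primes (s.prime i) (s.prime i')).2 (fun he => hne (s.inj he)))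
      · intro i hi
        rw [hG, Finset.mem_filter] at hi
        exact hi.2.2
    have h8 : ((∏ i ∈ G, s.pr i : ℕ) : ℝ) ≤ ((s.b j + s.M * t : ℕ) : ℝ) := by
      exact_mod_cast Nat.le_of_dvd hn0 h7
    have h9 : s.rho G = ((∏ i ∈ G, s.pr i : ℕ) : ℝ) := by
      unfold Sys.rho
      push_cast
      rfl
    rw [← h9] at h8
    linarith
  refine (mass_mono s α D T _ _ hkey).trans ?_
  refine (mass_exists s α D T _ (fun E t => ∀ i ∈ E, s.pr i ∣ s.b j + s.M * t)).trans ?_
  have h10 : ∀ E ∈ (F.powersetCard h).filter (fun E => s.rho E ≤ R),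
      mass s α D T (fun t => ∀ i ∈ E, s.pr i ∣ s.b j + s.M * t) ≤ A * (B ^ h / s.rho E) := by
    intro E hE
    rw [Finset.mem_filter, Finset.mem_powersetCard] at hE
    exact hmass E hE.1.2 hE.2
  refine (Finset.sum_le_sum h10).trans ?_
  have h11 : ∑ E ∈ (F.powersetCard h).filter (fun E => s.rho E ≤ R), A * (B ^ h / s.rho E) ≤
      ∑ E ∈ F.powersetCard h, A * (B ^ h / s.rho E) := by
    refine Finset.sum_le_sum_of_subset_of_nonneg (Finset.filter_subset _ _) fun E _ _ => ?_
    have := one_le_rho s E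
    positivity
  refine h11.trans ?_
  have h12 : ∑ E ∈ F.powersetCard h, A * (B ^ h / s.rho E) =
      A * (B ^ h * ∑ E ∈ F.powersetCard h, ∏ i ∈ E, (1 / (s.pr i : ℝ))) := by
    rw [Finset.mul_sum, Finset.mul_sum]
    refine Finset.sum_congr rfl fun E _ => ?_
    unfold Sys.rho
    rw [Finset.prod_div_distrib, Finset.prod_const_one]
    ring
  rw [h12, mul_pow]
  refine mul_le_mul_of_nonneg_left ?_ hA
  rw [mul_div_assoc]
  refine mul_le_mul_of_nonneg_left ?_ (by positivity)
  exact esymm_le F (fun i => 1 / (s.pr i : ℝ)) (fun i _ => by positivity) h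

end Pool.Agent.Lib.H59D
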