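import Pool.Agent.Lib.H59D.D3
import Pool.Agent.Lib.H59D.N2
import Pool.Agent.Lib.H59D.N4
import Pool.Agent.Lib.H59D.F40

/-!
# Chunk F4d: many sieve primes `> w1`
-/

open Finset

namespace Pool.Agent.Lib.H59D

open Pool.Agent.Lib.H56G
open Pool.Agent.Lib.H5C (WX)

/-- `h! ≥ (h/e)^h`, in the form `x^h/h! ≤ (e x/h)^h` -/
theorem F4d_fact (x : ℝ) (hx : 0 ≤ x) (h : ℕ) (hh : 1 ≤ h) :
    x ^ h / h.factorial ≤ (Real.exp 1 * x / h) ^ h := by
  have hpos : (0 : ℝ) < h := by exact_mod_cast hh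
  have h1 : (h : ℝ) ^ h / h.factorial ≤ Real.exp h := by
    have := Real.pow_div_factorial_le_exp (h : ℝ) hpos.le h
    exact this
  have h2 : Real.exp (h : ℝ) = (Real.exp 1) ^ h := by
    rw [← Real.exp_nat_mul, mul_one]
  have hf : (0 : ℝ) < h.factorial := by exact_mod_cast h.factorial_pos
  rw [div_pow, mul_pow, div_le_div_iff₀ hf (pow_pos hpos h)]
  rw [div_le_iff₀ hf, h2] at h1
  have h3 : 0 ≤ x ^ h := pow_nonneg hx h
  nlinarith [mul_le_mul_of_nonneg_left h1 h3]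

/-- `w1` and the sum of `1/p` -/
theorem F4d_log {N k K₂ w : ℝ} (hk : 1 ≤ k) (hK : 1 ≤ K₂) (hN : 0 < Real.log N)
    (hw : Real.exp (Real.log N / (K₂ * k ^ 3)) ≤ w) :
    Real.log (1000 * (Real.log N / Real.log w)) ≤
      (10 + Real.log K₂) * (1 + Real.log k) := by
  have hk3 : (1 : ℝ) ≤ k ^ 3 := one_le_pow₀ hk
  have hKk : 0 < K₂ * k ^ 3 := by positivity
  have h1 : Real.log N / (K₂ * k ^ 3) ≤ Real.log w := by
    rw [Real.le_log_iff_exp_le (lt_of_lt_of_le (Real.exp_pos _) hw)]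
    exact hw
  have h0 : 0 < Real.log N / (K₂ * k ^ 3) := by positivity
  have h2 : Real.log N / Real.log w ≤ K₂ * k ^ 3 := by
    rw [div_le_iff₀ (h0.trans_le h1)]
    rw [div_le_iff₀ hKk] at h1
    linarith
  have h3 : 0 < Real.log N / Real.log w := div_pos hN (h0.trans_le h1)
  have h4 : Real.log (1000 * (Real.log N / Real.log w)) ≤ Real.log (1000 * (K₂ * k ^ 3)) :=
    Real.log_le_log (by positivity) (by linarith)
  refine h4.trans ?_
  rw [Real.log_mul (by norm_num) hKk.ne', Real.log_mul (by positivity) (by positivity),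
    Real.log_pow]
  have h5 : Real.log 1000 ≤ 7 := by
    have : (1000 : ℝ) = 10 ^ 3 := by norm_num
    rw [this, Real.log_pow]
    have h6 : Real.log 10 ≤ 7 / 3 := by
      rw [Real.log_le_iff_le_exp (by norm_num)]
      have h7 : (10 : ℝ) ^ 3 ≤ Real.exp (7 / 3) ^ 3 := by
        rw [← Real.exp_nat_mul]
        have h8 : ((3 : ℕ) : ℝ) * (7 / 3) = ((7 : ℕ) : ℝ) * 1 := by norm_num
        rw [h8, Real.exp_nat_mul]
        have h9 : (2.7182818283 : ℝ) < Real.exp 1 := Real.exp_one_gt_d9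
        have h10 : (2.7182818283 : ℝ) ^ 7 ≤ Real.exp 1 ^ 7 :=
          pow_le_pow_left₀ (by norm_num) h9.le 7
        refine le_trans ?_ h10
        norm_num
      exact le_of_pow_le_pow_left₀ (by norm_num) (Real.exp_pos _).le h7
    push_cast
    linarith
  have h6 : 0 ≤ Real.log k := Real.log_nonneg hk
  have h7 : 0 ≤ Real.log K₂ := Real.log_nonneg hK
  push_cast
  nlinarith [mul_nonneg h6 h7]

/-- `h = ⌈C₅ ℓ⌉`. `mass_many` with `R = X^(1/4)`, `A = 4 T ZZ`, `B = 9`: for `|E| = h`, `ρ(E) ≤ R` use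
`mass_q` with `q = ∏_{i ∈ E} pr i` (`= ρ(E)`, coprime to `s.M` by `copM`; `{i : pr i ∣ q} = E`;
`q ∣ form` iff all `pr i ∣ form`). `Σ_{pr i > w1} 1/pr i ≤ log (1000 log N/log w1) ≤ log (1000 K₂ k³)
≤ C₆ ℓ` (`sum_inv_le` with `w = w1 ≥ 2`, `w1 ≤ N`). `h! ≥ (h/e)^h`, so the bound is
`4 T ZZ (9 e C₆ ℓ/h)^h ≤ 4 T ZZ e^(-2h) ≤ 4 e^(-C₅ ℓ) e^(-ℓ) T ZZ ≤ (ε/k) T ZZ` for `C₅ ≥ 9 e³ C₆ + ..`. -/
theorem ev5 : ∀ η : ℝ, 0 < η → η ≤ 1 / 1000 → ∀ ε K₂ : ℝ, 0 < ε → 1 ≤ K₂ →
    ∃ C₅ K : ℝ, 1 ≤ C₅ ∧ 1 ≤ K ∧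
    ∀ (X : ℕ) {ι J : Type} [Fintype ι] [DecidableEq ι] [Fintype J] [DecidableEq J]
      (s : Sys ι J) (α : ℝ), Sv η X s → 0 < α → Rg K X (Fintype.card J) →
      ∀ T : ℕ, (X : ℝ) ^ (1 / 2 : ℝ) ≤ T → 0 < s.M → s.M * T ≤ 61 * X → ∀ j : J, s.b j ≤ X →
      mass s α (NN η X) T (fun t => 5 * ⌈C₅ * el (Fintype.card J)⌉₊ ≤
        (univ.filter (fun i => w1 η K₂ X (Fintype.card J) < (s.pr i : ℝ) ∧
          s.pr i ∣ s.b j + s.M * t)).card) ≤
        ε / Fintype.card J * T * ZZ s (bg s α (NN η X)) := by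
  intro η hη hη1 ε K₂ hε hK₂
  obtain ⟨Kq, hKq1, hq⟩ := mass_q η hη hη1
  obtain ⟨Kn, hKn1, hn⟩ := numF η hη hη1 62
  have hlK : 0 ≤ Real.log K₂ := Real.log_nonneg hK₂
  have he3 : 0 < Real.exp 3 := Real.exp_pos _
  refine ⟨1 + 9 * Real.exp 3 * (10 + Real.log K₂) + 4 / ε, max Kq Kn, ?_, le_max_of_le_left hKq1, ?_⟩
  · have : 0 ≤ 9 * Real.exp 3 * (10 + Real.log K₂) := by positivity
    have : 0 ≤ 4 / ε := by positivity
    linarith
  intro X ι J _ _ _ _ s α hsv hα hR T hT hM hMT j hbj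
  set C₅ : ℝ := 1 + 9 * Real.exp 3 * (10 + Real.log K₂) + 4 / ε with hC₅
  set k := Fintype.card J with hk
  have hRq : Rg Kq X k := hR.mono (by linarith [le_max_left Kq Kn]) (le_max_left _ _)
  have hRn : Rg Kn X k := hR.mono (by linarith [le_max_left Kq Kn]) (le_max_right _ _)
  have hF := hn X k hRn
  have hk1 : (1 : ℝ) ≤ k := by exact_mod_cast hF.k1
  have hkpos : (0 : ℝ) < k := by linarith
  have hel : 1 ≤ el k := el_one_le hF.k1
  have hlN : 62 ≤ Real.log (NN η X) := hF.lN_B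
  have hN62 : 62 ≤ (NN η X : ℝ) := hF.N_B
  have hC₅1 : 1 ≤ C₅ := by
    have : 0 ≤ 9 * Real.exp 3 * (10 + Real.log K₂) := by positivity
    have : 0 ≤ 4 / ε := by positivity
    linarith
  have hZ1 : 1 ≤ ZZ s (bg s α (NN η X)) := one_le_ZZ s _
  have hT0 : (0 : ℝ) ≤ T := Nat.cast_nonneg T
  have hX18 : (62 : ℝ) ≤ (X : ℝ) ^ (1 / 8 : ℝ) := by
    refine le_trans ?_ hF.N_pow
    have : (1 : ℝ) ≤ (NN η X : ℝ) ^ 50 := one_le_pow₀ (by linarith)
    linarith
  have hX0 : (0 : ℝ) < X := by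
    rcases Nat.eq_zero_or_pos X with h | h
    · rw [h, Nat.cast_zero, Real.zero_rpow (by norm_num)] at hX18
      linarith
    · exact_mod_cast h
  have hX14 : (62 : ℝ) ≤ (X : ℝ) ^ (1 / 4 : ℝ) := by
    have h1 : (X : ℝ) ^ (1 / 4 : ℝ) = (X : ℝ) ^ (1 / 8 : ℝ) * (X : ℝ) ^ (1 / 8 : ℝ) := by
      rw [← Real.rpow_add hX0]
      norm_num
    rw [h1]
    nlinarith
  set h : ℕ := ⌈C₅ * el k⌉₊ with hh
  have hh0 : C₅ * el k ≤ h := Nat.le_ceil _
  have hh1 : 1 ≤ h := by
    have : (1 : ℝ) ≤ h := le_trans (by nlinarith) hh0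
    exact_mod_cast this
  have hhpos : (0 : ℝ) < h := by exact_mod_cast hh1
  set S : ℝ := ∑ i ∈ univ.filter (fun i => w1 η K₂ X k < (s.pr i : ℝ)), 1 / (s.pr i : ℝ) with hS
  have hS0 : 0 ≤ S := Finset.sum_nonneg fun i _ => by positivity
  have hSle : S ≤ (10 + Real.log K₂) * el k := by
    refine (sum_inv_le s (NN η X) hsv.hi (w1 η K₂ X k) ?_ ?_).trans ?_
    · exact le_max_of_le_left (by exact_mod_cast hF.W_two)
    · refine max_le (by exact_mod_cast hF.WN) ?_
      rw [← Real.le_log_iff_exp_le (by linarith)]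
      refine div_le_self (by linarith) ?_
      have : (1 : ℝ) ≤ (k : ℝ) ^ 3 := one_le_pow₀ hk1
      nlinarith
    · exact F4d_log hk1 hK₂ (by linarith) (le_max_right _ _)
  refine (mass_many s α (NN η X) T j (w1 η K₂ X k) h hh1 ((X : ℝ) ^ (1 / 4 : ℝ))
    (4 * T * ZZ s (bg s α (NN η X))) 9 (by linarith) (by positivity) (by norm_num) ?_ ?_).trans ?_
  · intro E hE hrE
    have hq1 := hq X s α hsv hα hRq T hT j (∏ i ∈ E, s.pr i)
      (Finset.prod_pos fun i _ => (s.prime i).pos)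
      (by
        refine le_trans (le_of_eq ?_) hrE
        unfold Sys.rho
        push_cast
        rfl)
      (Nat.Coprime.prod_left fun i _ =>
        (Nat.Prime.coprime_iff_not_dvd (s.prime i)).mpr (s.copM i))
    have hfilt : (univ.filter (fun i => s.pr i ∣ ∏ i ∈ E, s.pr i)) = E := by
      ext i
      simp only [mem_filter, mem_univ, true_and]
      constructor
      · intro hi
        rw [Prime.dvd_finsetProd_iff (s.prime i).prime] at hi
        obtain ⟨i', hi', hd⟩ := hi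
        rw [Nat.prime_dvd_prime_iff_eq (s.prime i) (s.prime i')] at hd
        rw [s.inj hd]
        exact hi'
      · intro hi
        exact Finset.dvd_prod_of_mem _ hi
    rw [hfilt, hE] at hq1
    refine (mass_mono s α _ T _ _ ?_).trans (hq1.trans (le_of_eq ?_))
    · intro t _ _ ht
      refine Finset.prod_dvd_of_isRelPrime ?_ ht
      intro i _ i' _ hii
      exact Nat.coprime_iff_isRelPrime.mp
        ((Nat.coprime_primes (s.prime i) (s.prime i')).mpr fun hc => hii (s.inj hc))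
    · have : ((∏ i ∈ E, s.pr i : ℕ) : ℝ) = s.rho E := by
        unfold Sys.rho
        push_cast
        rfl
      rw [this]
      ring
  · intro t ht1 htT
    refine ⟨by
      have : 0 < s.M * t := Nat.mul_pos hM (by omega)
      omega, ?_⟩
    have h1 : s.b j + s.M * t ≤ 62 * X := by
      have : s.M * t ≤ s.M * T := Nat.mul_le_mul_left _ htT
      omega
    have h2 : ((s.b j + s.M * t : ℕ) : ℝ) ≤ 62 * X := by exact_mod_cast h1
    refine h2.trans ?_
    have h3 : ((X : ℝ) ^ (1 / 4 : ℝ)) ^ 5 = (X : ℝ) ^ (1 / 4 : ℝ) * X := by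
      have h4 : ((X : ℝ) ^ (1 / 4 : ℝ)) ^ 4 = X := by
        rw [← Real.rpow_natCast, ← Real.rpow_mul hX0.le]
        norm_num
      calc ((X : ℝ) ^ (1 / 4 : ℝ)) ^ 5 = (X : ℝ) ^ (1 / 4 : ℝ) * ((X : ℝ) ^ (1 / 4 : ℝ)) ^ 4 := by
            ring
        _ = _ := by rw [h4]
    rw [h3]
    exact mul_le_mul_of_nonneg_right hX14 hX0.le
  · have h1 : (9 * S) ^ h / h.factorial ≤ (Real.exp 1 * (9 * S) / h) ^ h :=
      F4d_fact _ (by positivity) h hh1
    have h2 : Real.exp 1 * (9 * S) / h ≤ Real.exp (-2) := by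
      rw [div_le_iff₀ hhpos]
      have h3 : Real.exp 1 = Real.exp (-2) * Real.exp 3 := by
        rw [← Real.exp_add]
        norm_num
      rw [h3, mul_assoc]
      refine mul_le_mul_of_nonneg_left ?_ (Real.exp_pos _).le
      have h4 : Real.exp 3 * (9 * S) ≤ 9 * Real.exp 3 * (10 + Real.log K₂) * el k := by
        have := mul_le_mul_of_nonneg_left hSle (by positivity : (0 : ℝ) ≤ Real.exp 3 * 9)
        linarith
      have h5 : 9 * Real.exp 3 * (10 + Real.log K₂) * el k ≤ C₅ * el k := by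
        refine mul_le_mul_of_nonneg_right ?_ (by linarith)
        have : 0 ≤ 4 / ε := by positivity
        linarith
      linarith
    have h3 : (Real.exp 1 * (9 * S) / h) ^ h ≤ Real.exp (-2) ^ h :=
      pow_le_pow_left₀ (by positivity) h2 h
    have h4 : Real.exp (-2) ^ h = Real.exp (-(2 * h)) := by
      rw [← Real.exp_nat_mul]
      congr 1
      ring
    have h5 : Real.exp (-(2 * (h : ℝ))) ≤ Real.exp (-C₅) * Real.exp (-(el k)) := by
      rw [← Real.exp_add]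
      refine Real.exp_le_exp.mpr ?_
      nlinarith
    have h6 : Real.exp (-(el k)) ≤ 1 / k := by
      have : Real.exp (-(el k)) = Real.exp (-1) / k := by
        unfold el
        rw [neg_add, Real.exp_add, Real.exp_neg (Real.log k), Real.exp_log hkpos]
        ring
      rw [this]
      refine div_le_div_of_nonneg_right ?_ hkpos.le
      exact Real.exp_le_one_iff.mpr (by norm_num)
    have h7 : Real.exp (-C₅) ≤ ε / 4 := by
      rw [Real.exp_neg]
      have h8 : 4 / ε ≤ Real.exp C₅ := by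
        have h9 : C₅ + 1 ≤ Real.exp C₅ := Real.add_one_le_exp _
        have h10 : 0 ≤ 9 * Real.exp 3 * (10 + Real.log K₂) := by positivity
        linarith
      rw [inv_le_comm₀ (Real.exp_pos _) (by positivity)]
      rw [inv_div]
      exact h8
    have h8 : (9 * S) ^ h / h.factorial ≤ ε / 4 * (1 / k) := by
      refine h1.trans (h3.trans ?_)
      rw [h4]
      refine h5.trans ?_
      exact mul_le_mul h7 h6 (Real.exp_pos _).le (by positivity)
    calc 4 * T * ZZ s (bg s α (NN η X)) * ((9 * S) ^ h / h.factorial)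
        ≤ 4 * T * ZZ s (bg s α (NN η X)) * (ε / 4 * (1 / k)) :=
          mul_le_mul_of_nonneg_left h8 (by positivity)
      _ = ε / k * T * ZZ s (bg s α (NN η X)) := by ring

end Pool.Agent.Lib.H59D
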