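import Pool.Agent.Lib.H59D.D3
import Pool.Agent.Lib.H59D.MX

/-!
# Chunk F4e: squares of primes `> N`
-/

open Finset

namespace Pool.Agent.Lib.H59D

open Pool.Agent.Lib.H56G
open Pool.Agent.Lib.H5C (WX)

/-- One residue class. -/
theorem F4e_card (T b M q : ℕ) (hq : 0 < q) (hc : Nat.Coprime q M) :
    ((((Icc 1 T).filter (fun t => q ∣ b + M * t)).card : ℕ) : ℝ) ≤ T / q + 1 := by
  classical
  rcases ((Icc 1 T).filter (fun t => q ∣ b + M * t)).eq_empty_or_nonempty with h | ⟨t0, ht0⟩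
  · rw [h]
    simp only [card_empty, Nat.cast_zero]
    positivity
  have hsub : (Icc 1 T).filter (fun t => q ∣ b + M * t) ⊆
      (Ioc 0 T).filter (fun t => t ≡ t0 [MOD q]) := by
    intro t ht
    rw [mem_filter, mem_Icc] at ht ht0
    rw [mem_filter, mem_Ioc]
    refine ⟨by omega, ?_⟩
    have h1 : b + M * t ≡ b + M * t0 [MOD q] :=
      ((Nat.modEq_zero_iff_dvd.mpr ht.2).trans (Nat.modEq_zero_iff_dvd.mpr ht0.2).symm)
    have h2 : M * t ≡ M * t0 [MOD q] := Nat.ModEq.add_left_cancel' b h1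
    exact Nat.ModEq.cancel_left_of_coprime hc h2
  have h1 := card_le_card hsub
  have h2 := Nat.Ioc_filter_modEq_card 0 T hq t0
  have h3 : (((((Ioc 0 T).filter (fun t => t ≡ t0 [MOD q])).card : ℕ) : ℤ) : ℝ) ≤ T / q + 1 := by
    rw [h2]
    have hqr : (0 : ℝ) < q := by exact_mod_cast hq
    push_cast
    refine max_le ?_ (by positivity)
    have h4 : ((⌊((T : ℚ) - t0) / q⌋ : ℤ) : ℚ) ≤ ((T : ℚ) - t0) / q := Int.floor_le _
    have h5 : (((0 : ℕ) : ℚ) - t0) / q < ((⌊(((0 : ℕ) : ℚ) - t0) / q⌋ : ℤ) : ℚ) + 1 :=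
      Int.lt_floor_add_one _
    have h6 : ((⌊((T : ℚ) - t0) / q⌋ : ℤ) : ℚ) - ((⌊(((0 : ℕ) : ℚ) - t0) / q⌋ : ℤ) : ℚ) ≤
        T / q + 1 := by
      have h7 : ((T : ℚ) - t0) / q - (((0 : ℕ) : ℚ) - t0) / q = T / q := by
        push_cast
        ring
      linarith
    have h8 : (((⌊((T : ℚ) - t0) / q⌋ : ℤ) : ℚ) - ((⌊(((0 : ℕ) : ℚ) - t0) / q⌋ : ℤ) : ℚ) : ℝ) ≤
        ((T / q + 1 : ℚ) : ℝ) := by
      exact_mod_cast h6
    push_cast at h8
    simpa using h8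
  have h4 : ((((Icc 1 T).filter (fun t => q ∣ b + M * t)).card : ℕ) : ℝ) ≤
      ((((Ioc 0 T).filter (fun t => t ≡ t0 [MOD q])).card : ℕ) : ℝ) := by
    exact_mod_cast h1
  refine h4.trans ?_
  exact_mod_cast h3

/-- `Σ_{p ∈ S} 1/p² ≤ 1/m` for `S ⊆ (m, ∞)` -/
theorem F4e_sum (S : Finset ℕ) (m : ℕ) (hm : m ≠ 0) (hS : ∀ p ∈ S, m < p) :
    ∑ p ∈ S, 1 / (p : ℝ) ^ 2 ≤ 1 / (m : ℝ) := by
  classical
  set n : ℕ := m + S.sup id with hn
  have hsub : S ⊆ Ioc m n := by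
    intro p hp
    rw [mem_Ioc]
    refine ⟨hS p hp, ?_⟩
    have : p ≤ S.sup id := Finset.le_sup (f := id) hp
    omega
  have h1 := sum_Ioc_inv_sq_le_sub (α := ℝ) hm (show m ≤ n by omega)
  calc ∑ p ∈ S, 1 / (p : ℝ) ^ 2 ≤ ∑ p ∈ Ioc m n, 1 / (p : ℝ) ^ 2 :=
        Finset.sum_le_sum_of_subset_of_nonneg hsub fun i _ _ => by positivity
    _ = ∑ p ∈ Ioc m n, ((p : ℝ) ^ 2)⁻¹ := by simp only [one_div]
    _ ≤ (m : ℝ)⁻¹ - (n : ℝ)⁻¹ := h1
    _ ≤ 1 / m := by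
        rw [one_div]
        have : (0 : ℝ) ≤ (n : ℝ)⁻¹ := by positivity
        linarith

/-- numerical part, `Y = X^(1/8)` -/
theorem F4e_num {B ε N k Y T : ℝ} (hε : 0 < ε) (hB : 1 + 180 / ε ≤ B) (hk : 1 ≤ k)
    (hN : B * k ≤ N) (hY : B * N ^ 50 ≤ Y) (hT : Y ^ 6 ≤ T) :
    9 * N ^ 6 * (T * (2 / Y) + 8 * Y ^ 4) ≤ ε / (2 * k) * T ∧ 4 * T * (1 / N) ≤ ε / (2 * k) * T := by
  have h180 : 0 < 180 / ε := by positivity
  have hB1 : 1 ≤ B := by linarith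
  have hN1 : 1 ≤ N := by nlinarith
  have hN50 : 1 ≤ N ^ 50 := one_le_pow₀ hN1
  have hY1 : 1 ≤ Y := by nlinarith
  have hYpos : 0 < Y := by linarith
  have hT0 : 0 < T := lt_of_lt_of_le (pow_pos hYpos 6) hT
  have hkpos : 0 < k := by linarith
  have hBε : 180 ≤ B * ε := by
    have : 180 / ε ≤ B := by linarith
    rwa [div_le_iff₀ hε] at this
  constructor
  · have h1 : 8 * Y ^ 4 ≤ T * (8 / Y) := by
      rw [mul_div_assoc', le_div_iff₀ hYpos]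
      have : Y ^ 5 ≤ Y ^ 6 := pow_le_pow_right₀ hY1 (by norm_num)
      nlinarith
    have h2 : T * (2 / Y) + 8 * Y ^ 4 ≤ T * (10 / Y) := by
      have : T * (2 / Y) + T * (8 / Y) = T * (10 / Y) := by ring
      linarith
    have h3 : 9 * N ^ 6 * (10 / Y) ≤ ε / (2 * k) := by
      rw [mul_div_assoc', div_le_div_iff₀ hYpos (by positivity)]
      have h4 : N ^ 7 ≤ N ^ 50 := pow_le_pow_right₀ hN1 (by norm_num)
      have h5 : k ≤ N := by nlinarith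
      have h6 : N ^ 6 * k ≤ N ^ 7 := by
        have := mul_le_mul_of_nonneg_left h5 (by positivity : (0 : ℝ) ≤ N ^ 6)
        calc N ^ 6 * k ≤ N ^ 6 * N := this
          _ = N ^ 7 := by ring
      have h7 : 180 * N ^ 50 ≤ ε * Y := by
        have h8 := mul_le_mul_of_nonneg_left hY hε.le
        have h9 : 180 * N ^ 50 ≤ B * ε * N ^ 50 := mul_le_mul_of_nonneg_right hBε (by positivity)
        linarith
      calc 9 * N ^ 6 * 10 * (2 * k) = 180 * (N ^ 6 * k) := by ring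
        _ ≤ 180 * N ^ 50 := by linarith
        _ ≤ ε * Y := h7
    calc 9 * N ^ 6 * (T * (2 / Y) + 8 * Y ^ 4) ≤ 9 * N ^ 6 * (T * (10 / Y)) :=
          mul_le_mul_of_nonneg_left h2 (by positivity)
      _ = 9 * N ^ 6 * (10 / Y) * T := by ring
      _ ≤ ε / (2 * k) * T := mul_le_mul_of_nonneg_right h3 hT0.le
  · have h1 : 4 * (1 / N) ≤ ε / (2 * k) := by
      rw [mul_one_div, div_le_div_iff₀ (by linarith) (by positivity)]
      have h2 := mul_le_mul_of_nonneg_left hN hε.le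
      have h3 : 180 * k ≤ B * ε * k := mul_le_mul_of_nonneg_right hBε hkpos.le
      nlinarith
    calc 4 * T * (1 / N) = 4 * (1 / N) * T := by ring
      _ ≤ _ := mul_le_mul_of_nonneg_right h1 hT0.le

/-- `p ∤ s.M` (`dvd_MX`, `MX_le`: `y ≤ W ≤ N < p`). Primes `p ≤ X^(1/8)`: `mass_q` with `q = p²`
(no `pr i ≤ N` divides `p²`): `Σ_{p > N} 4 (T/p²) ZZ ≤ 4 (T/N) ZZ`. Primes `X^(1/8) < p`,
`p² ≤ form ≤ 62 X`: at most `T/p² + 1` values `t ≤ T` (one residue class modulo `p²`), each with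
`(Lf t)² ≤ 9 N^6` (`Lf_sq_le`): `≤ 9 N^6 (T Σ_{n > X^(1/8)} 1/n² + √(62 X)) ≤ 9 N^6 (2 T X^(-1/8) + 8 X^(1/2))`,
at most `(ε/(2k)) T` since `T ≥ X^(3/4)`, `N^6 ≤ X^(0.006)`, `k ≤ log X`. -/
theorem ev6 : ∀ η : ℝ, 0 < η → η ≤ 1 / 1000 → ∀ ε : ℝ, 0 < ε → ∃ K : ℝ, 1 ≤ K ∧
    ∀ (X : ℕ) {ι J : Type} [Fintype ι] [DecidableEq ι] [Fintype J] [DecidableEq J]
      (s : Sys ι J) (α : ℝ), Sv η X s → 0 < α → Rg K X (Fintype.card J) → ∀ p1 : ℕ,
      s.M = MX X p1 → ∀ T : ℕ, (X : ℝ) ^ (3 / 4 : ℝ) ≤ T → s.M * T ≤ 61 * X →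
      ∀ j : J, s.b j ≤ X → Nat.Coprime (s.b j) s.M →
      mass s α (NN η X) T (fun t => ∃ p, p.Prime ∧ NN η X < p ∧ p ^ 2 ∣ s.b j + s.M * t) ≤
        ε / Fintype.card J * T * ZZ s (bg s α (NN η X)) := by
  classical
  intro η hη hη1 ε hε
  obtain ⟨Kq, hKq1, hq⟩ := mass_q η hη hη1
  obtain ⟨Kl, hKl1, hl⟩ := Lf_sq_le η hη hη1
  obtain ⟨X0, hX0⟩ := MX_le η hη
  obtain ⟨Kn, hKn1, hn⟩ := numF η hη hη1 (1 + 180 / ε + X0)
  refine ⟨max Kq (max Kl Kn), le_max_of_le_left hKq1, ?_⟩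
  intro X ι J _ _ _ _ s α hsv hα hR p1 hM T hT hMT j hbj _
  set k := Fintype.card J with hk
  have hK0 : 0 ≤ max Kq (max Kl Kn) := by linarith [le_max_left Kq (max Kl Kn)]
  have hRq : Rg Kq X k := hR.mono hK0 (le_max_left _ _)
  have hRl : Rg Kl X k := hR.mono hK0 ((le_max_left _ _).trans (le_max_right _ _))
  have hRn : Rg Kn X k := hR.mono hK0 ((le_max_right _ _).trans (le_max_right _ _))
  have hF := hn X k hRn
  set B : ℝ := 1 + 180 / ε + X0 with hB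
  have h180 : 0 < 180 / ε := by positivity
  have hX00 : (0 : ℝ) ≤ X0 := Nat.cast_nonneg X0
  have hB1 : 1 ≤ B := by linarith
  have hk1 : (1 : ℝ) ≤ k := by exact_mod_cast hF.k1
  have hkpos : (0 : ℝ) < k := by linarith
  have hL1 : 1 ≤ Real.log X := hB1.trans hF.lX
  have hXr : (0 : ℝ) < X := by
    rcases Nat.eq_zero_or_pos X with h | h
    · rw [h, Nat.cast_zero, Real.log_zero] at hL1
      linarith
    · exact_mod_cast h
  have hXX0 : X0 ≤ X := by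
    have h1 : (X0 : ℝ) ≤ X := by
      have h2 : Real.log X ≤ X := Real.log_le_self hXr.le
      have h3 := hF.lX
      linarith
    exact_mod_cast h1
  obtain ⟨_, _, hYW, hY8, _⟩ := hX0 X hXX0 p1
  have hZ1 : 1 ≤ ZZ s (bg s α (NN η X)) := one_le_ZZ s _
  set Z := ZZ s (bg s α (NN η X)) with hZ
  set N := NN η X with hN
  have hN1 : (1 : ℝ) ≤ N := hB1.trans hF.N_B
  have hNpos : 0 < N := by
    have : (0 : ℝ) < N := by linarith
    exact_mod_cast this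
  have hNk : B * k ≤ N := by
    have h1 : (X : ℝ) ^ (η / 2) ≤ N := by
      have h2 := hF.lN_ge
      rw [Real.le_log_iff_exp_le (by linarith)] at h2
      rwa [Real.rpow_def_of_pos hXr, mul_comm]
    have h3 : B * Real.log X ≤ B * (Real.log X) ^ 100 :=
      mul_le_mul_of_nonneg_left (le_self_pow₀ hL1 (by norm_num)) (by linarith)
    have h4 : B * k ≤ B * Real.log X := mul_le_mul_of_nonneg_left hF.k_le (by linarith)
    linarith [hF.logpow]
  set Y : ℝ := (X : ℝ) ^ (1 / 8 : ℝ) with hY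
  have hYN : B * (N : ℝ) ^ 50 ≤ Y := hF.N_pow
  have hY0 : 0 < Y := Real.rpow_pos_of_pos hXr _
  have hYpow : ∀ n : ℕ, Y ^ n = (X : ℝ) ^ ((n : ℝ) / 8) := by
    intro n
    rw [hY, ← Real.rpow_natCast, ← Real.rpow_mul hXr.le]
    congr 1
    ring
  have hY8' : Y ^ 8 = X := by
    rw [hYpow]
    norm_num
  have hTY : Y ^ 6 ≤ T := by
    rw [hYpow]
    norm_num
    exact hT
  have hY2 : Y ^ 2 = (X : ℝ) ^ (1 / 4 : ℝ) := by
    rw [hYpow]
    norm_num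
  have hN50 : 1 ≤ (N : ℝ) ^ 50 := one_le_pow₀ hN1
  have hY1 : 1 ≤ Y := by nlinarith
  obtain ⟨hnum1, hnum2⟩ := F4e_num (B := B) (ε := ε) (N := N) (k := k) (Y := Y) (T := T) hε
    (by linarith) hk1 hNk hYN hTY
  have hY2' : 2 ≤ Y := by
    have h1 : (2 : ℝ) ≤ N := by
      have : 2 ≤ N := hF.W_two.trans hF.WN
      exact_mod_cast this
    have h2 : (N : ℝ) ≤ (N : ℝ) ^ 50 := le_self_pow₀ hN1 (by norm_num)
    nlinarith
  have hT12 : (X : ℝ) ^ (1 / 2 : ℝ) ≤ T := by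
    refine le_trans ?_ hTY
    have h1 : (X : ℝ) ^ (1 / 2 : ℝ) = Y ^ 4 := by
      rw [hYpow]
      norm_num
    rw [h1]
    exact pow_le_pow_right₀ hY1 (by norm_num)
  have hnd : ∀ p : ℕ, p.Prime → N < p → ¬ p ∣ s.M := by
    intro p hp hNp hd
    rw [hM, dvd_MX X p1 p hp] at hd
    have := hF.WN
    omega
  set A : Finset ℕ := (Icc 1 ⌊Y⌋₊).filter (fun p => p.Prime ∧ N < p) with hA
  set D : Finset ℕ := (Icc 1 ⌊8 * Y ^ 4⌋₊).filter (fun p => p.Prime ∧ N < p ∧ ⌊Y⌋₊ < p) with hD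
  have hsplit : mass s α N T (fun t => ∃ p, p.Prime ∧ N < p ∧ p ^ 2 ∣ s.b j + s.M * t) ≤
      mass s α N T (fun t => (∃ p ∈ A, p ^ 2 ∣ s.b j + s.M * t) ∨
        ∃ p ∈ D, p ^ 2 ∣ s.b j + s.M * t) := by
    refine mass_mono s α _ T _ _ ?_
    rintro t ht1 htT ⟨p, hp, hNp, hd⟩
    rcases le_or_gt p ⌊Y⌋₊ with h | h
    · left
      exact ⟨p, mem_filter.mpr ⟨mem_Icc.mpr ⟨hp.one_lt.le, h⟩, hp, hNp⟩, hd⟩
    · right
      refine ⟨p, mem_filter.mpr ⟨mem_Icc.mpr ⟨hp.one_lt.le, ?_⟩, hp, hNp, h⟩, hd⟩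
      rw [Nat.le_floor_iff (by positivity)]
      have h1 : s.b j + s.M * t ≤ 62 * X := by
        have : s.M * t ≤ s.M * T := Nat.mul_le_mul_left _ htT
        omega
      have h2 : 0 < s.b j + s.M * t := by
        have : 0 < s.M * t := Nat.mul_pos (by rw [hM]; exact MX_pos X p1) (by omega)
        omega
      have h3 : p ^ 2 ≤ 62 * X := (Nat.le_of_dvd h2 hd).trans h1
      have h4 : (p : ℝ) ^ 2 ≤ (8 * Y ^ 4) ^ 2 := by
        have h5 : (p : ℝ) ^ 2 ≤ 62 * X := by exact_mod_cast h3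
        have h6 : (8 * Y ^ 4) ^ 2 = 64 * Y ^ 8 := by ring
        rw [h6, hY8']
        linarith
      exact le_of_pow_le_pow_left₀ (by norm_num) (by positivity) h4
  refine hsplit.trans ((mass_or s α _ T _ _).trans ?_)
  have hmA : mass s α N T (fun t => ∃ p ∈ A, p ^ 2 ∣ s.b j + s.M * t) ≤ ε / (2 * k) * T * Z := by
    refine (mass_exists s α N T A (fun p t => p ^ 2 ∣ s.b j + s.M * t)).trans ?_
    have h1 : ∀ p ∈ A, mass s α N T (fun t => p ^ 2 ∣ s.b j + s.M * t) ≤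
        4 * T * Z * (1 / (p : ℝ) ^ 2) := by
      intro p hp
      rw [hA, mem_filter, mem_Icc] at hp
      obtain ⟨⟨hp1, hpY⟩, hpp, hNp⟩ := hp
      have hpY' : (p : ℝ) ≤ Y := (Nat.le_floor_iff hY0.le).mp hpY
      have h2 := hq X s α hsv hα hRq T hT12 j (p ^ 2) (by positivity)
        (by
          push_cast
          rw [← hY2]
          exact pow_le_pow_left₀ (by positivity) hpY' 2)
        (Nat.Coprime.pow_left 2 ((Nat.Prime.coprime_iff_not_dvd hpp).mpr (hnd p hpp hNp)))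
      have h3 : univ.filter (fun i => s.pr i ∣ p ^ 2) = ∅ := by
        rw [Finset.filter_eq_empty_iff]
        intro i _ hd
        have h4 := (s.prime i).dvd_of_dvd_pow hd
        rw [Nat.prime_dvd_prime_iff_eq (s.prime i) hpp] at h4
        have h5 := hsv.hi i
        omega
      rw [h3, card_empty, pow_zero, one_mul] at h2
      refine h2.trans (le_of_eq ?_)
      push_cast
      ring
    refine (Finset.sum_le_sum h1).trans ?_
    rw [← Finset.mul_sum]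
    have h2 : ∑ p ∈ A, 1 / (p : ℝ) ^ 2 ≤ 1 / (N : ℝ) :=
      F4e_sum A N hNpos.ne' fun p hp => (mem_filter.mp hp).2.2
    calc 4 * T * Z * ∑ p ∈ A, 1 / (p : ℝ) ^ 2 ≤ 4 * T * Z * (1 / (N : ℝ)) :=
          mul_le_mul_of_nonneg_left h2 (by positivity)
      _ = 4 * T * (1 / (N : ℝ)) * Z := by ring
      _ ≤ ε / (2 * k) * T * Z := mul_le_mul_of_nonneg_right hnum2 (by linarith)
  have hmD : mass s α N T (fun t => ∃ p ∈ D, p ^ 2 ∣ s.b j + s.M * t) ≤ ε / (2 * k) * T * Z := by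
    refine (mass_exists s α N T D (fun p t => p ^ 2 ∣ s.b j + s.M * t)).trans ?_
    have h1 : ∀ p ∈ D, mass s α N T (fun t => p ^ 2 ∣ s.b j + s.M * t) ≤
        9 * (N : ℝ) ^ 6 * (T * (1 / (p : ℝ) ^ 2) + 1) := by
      intro p hp
      rw [hD, mem_filter, mem_Icc] at hp
      obtain ⟨⟨hp1, _⟩, hpp, hNp, _⟩ := hp
      have h2 := F4e_card T (s.b j) s.M (p ^ 2) (by positivity)
        (Nat.Coprime.pow_left 2 ((Nat.Prime.coprime_iff_not_dvd hpp).mpr (hnd p hpp hNp)))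
      unfold mass
      have h3 : ∑ t ∈ (Icc 1 T).filter (fun t => p ^ 2 ∣ s.b j + s.M * t),
          (Lf s α N t) ^ 2 ≤ ∑ t ∈ (Icc 1 T).filter (fun t => p ^ 2 ∣ s.b j + s.M * t),
          9 * (N : ℝ) ^ 6 := Finset.sum_le_sum fun t _ => hl X s α hsv hα hRl t
      rw [Finset.sum_const, nsmul_eq_mul] at h3
      have h4 : ∑ t ∈ (Icc 1 T).filter (fun t => p ^ 2 ∣ s.b j + s.M * t),
          (Lf s α N t) ^ 2 ≤ (T / (p : ℝ) ^ 2 + 1) * (9 * (N : ℝ) ^ 6) := by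
        refine h3.trans (mul_le_mul_of_nonneg_right ?_ (by positivity))
        push_cast at h2
        exact h2
      refine le_trans (le_of_eq ?_) (h4.trans (le_of_eq (by ring)))
      exact Finset.sum_congr (Finset.filter_congr_decidable _ _ _) fun _ _ => rfl
    refine (Finset.sum_le_sum h1).trans ?_
    rw [← Finset.mul_sum, Finset.sum_add_distrib, ← Finset.mul_sum, Finset.sum_const,
      nsmul_eq_mul, mul_one]
    have hfl : ⌊Y⌋₊ ≠ 0 := by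
      have : 1 ≤ ⌊Y⌋₊ := Nat.le_floor (by simpa using hY1)
      omega
    have h2 : ∑ p ∈ D, 1 / (p : ℝ) ^ 2 ≤ 2 / Y := by
      refine (F4e_sum D ⌊Y⌋₊ hfl fun p hp => (mem_filter.mp hp).2.2.2).trans ?_
      have h3 : Y < ⌊Y⌋₊ + 1 := Nat.lt_floor_add_one Y
      rw [div_le_div_iff₀ (by linarith) hY0]
      linarith
    have h3 : (D.card : ℝ) ≤ 8 * Y ^ 4 := by
      have h4 : D.card ≤ ⌊8 * Y ^ 4⌋₊ := by
        have := card_le_card (filter_subset (fun p => p.Prime ∧ N < p ∧ ⌊Y⌋₊ < p)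
          (Icc 1 ⌊8 * Y ^ 4⌋₊))
        rw [Nat.card_Icc] at this
        simpa using this
      exact (Nat.le_floor_iff (by positivity)).mp h4
    have h4 : 9 * (N : ℝ) ^ 6 * (T * ∑ p ∈ D, 1 / (p : ℝ) ^ 2 + D.card) ≤
        9 * (N : ℝ) ^ 6 * (T * (2 / Y) + 8 * Y ^ 4) :=
      mul_le_mul_of_nonneg_left
        (add_le_add (mul_le_mul_of_nonneg_left h2 (Nat.cast_nonneg T)) h3) (by positivity)
    refine h4.trans (hnum1.trans ?_)
    exact le_mul_of_one_le_right (by positivity) hZ1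
  calc mass s α N T (fun t => ∃ p ∈ A, p ^ 2 ∣ s.b j + s.M * t) +
        mass s α N T (fun t => ∃ p ∈ D, p ^ 2 ∣ s.b j + s.M * t)
      ≤ ε / (2 * k) * T * Z + ε / (2 * k) * T * Z := add_le_add hmA hmD
    _ = ε / k * T * Z := by
        field_simp
        ring

end Pool.Agent.Lib.H59D
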