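import Pool.Agent.Lib.H59D.Defs

/-!
# Chunk N3: counting the prime factors (deterministic)
-/

open Finset

namespace Pool.Agent.Lib.H59D

open Pool.Agent.Lib.H56G

variable {ι J : Type} [Fintype ι] [DecidableEq ι] [Fintype J] [DecidableEq J]

theorem N3_filter_len (L : List ℕ) (W N : ℕ) (hWN : ∀ p ∈ L, 0 < p) :
    L.length ≤ (L.filter (fun p => decide (p ≤ W))).length +
      (L.filter (fun p => decide (W < p ∧ p ≤ N))).length +
      (L.filter (fun p => decide (N < p))).length := by
  clear hWN
  induction L with
  | nil => simp
  | cons a L ih =>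
    by_cases h1 : a ≤ W
    · have h1' : ¬ W < a := not_lt.mpr h1
      by_cases h3 : N < a
      · simp only [List.length_cons, List.filter_cons, h1, h1', h3, decide_true, if_true,
          false_and, decide_false]
        simp only [List.length_cons, Bool.false_eq_true, if_false]
        omega
      · simp only [List.length_cons, List.filter_cons, h1, h1', h3, decide_true, if_true,
          false_and, decide_false]
        simp only [List.length_cons, Bool.false_eq_true, if_false]
        omega
    · by_cases h2 : a ≤ N
      · have h1' : W < a := not_le.mp h1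
        simp only [List.length_cons, List.filter_cons, h1, h2, h1', decide_true, if_true, not_lt.mpr h2,
          and_self, decide_false]
        simp only [List.length_cons, Bool.false_eq_true, if_false]
        omega
      · have h1' : W < a := not_le.mp h1
        have h2' : N < a := not_le.mp h2
        simp only [List.length_cons, List.filter_cons, h1, h2, h1', h2', decide_true, if_true,
          and_false, decide_false]
        simp only [List.length_cons, Bool.false_eq_true, if_false]
        omega

/-- Split the list `n.primeFactorsList` into the primes `≤ W`, in `(W, N]`, `> N`. First part: it has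
fewer than `m0` elements, otherwise the product `q` of `m0` of them divides `n` and contradicts `h1`.
Second part: such a prime is not in `Mis` (`h2`), so it is some `pr i`, it is `> w1` (`h3`), and it occurs
once (`h4`); at most `m1` elements (`h5`). Third part: `N^(length) ≤ n`. -/
theorem Omega_le (s : Sys ι J) (W N M : ℕ) (hN : 2 ≤ N) (w1 : ℝ) (n : ℕ)
    (hn : 0 < n) (m0 m1 : ℕ)
    (hM : ∀ p, p.Prime → p ∣ M → ¬ p ∣ n)
    (h1 : ∀ q, q ∣ n → (∀ p, p.Prime → p ∣ q → p ≤ W ∧ ¬ p ∣ M) →
      ArithmeticFunction.cardFactors q ≠ m0)
    (h2 : ∀ p ∈ Mis s W N, ¬ p ∣ n)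
    (h3 : ∀ i, (s.pr i : ℝ) ≤ w1 → ¬ s.pr i ∣ n)
    (h4 : ∀ i, ¬ s.pr i ^ 2 ∣ n)
    (h5 : (univ.filter (fun i => w1 < (s.pr i : ℝ) ∧ s.pr i ∣ n)).card ≤ m1) :
    (ArithmeticFunction.cardFactors n : ℝ) ≤ m0 + m1 + Real.log n / Real.log N := by
  have hn0 : n ≠ 0 := hn.ne'
  set L := n.primeFactorsList with hL
  have hLp : ∀ p ∈ L, p.Prime := fun p hp => Nat.prime_of_mem_primeFactorsList hp
  have hLd : ∀ p ∈ L, p ∣ n := fun p hp => Nat.dvd_of_mem_primeFactorsList hp
  have hLprod : L.prod = n := Nat.prod_primeFactorsList hn0
  have hsub : ∀ l : List ℕ, l.Sublist L → l.prod ∣ n := by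
    intro l hl
    rw [← hLprod]
    exact hl.prod_dvd_prod
  have hlen := N3_filter_len L W N (fun p hp => (hLp p hp).pos)
  rw [ArithmeticFunction.cardFactors_apply, ← hL]
  -- first part
  have hA : (L.filter (fun p => decide (p ≤ W))).length ≤ m0 := by
    by_contra hc
    push Not at hc
    set l := (L.filter (fun p => decide (p ≤ W))).take m0 with hl
    have hls : l.Sublist (L.filter (fun p => decide (p ≤ W))) := List.take_sublist _ _
    have hlL : l.Sublist L := hls.trans List.filter_sublist
    have hll : l.length = m0 := by
      rw [hl, List.length_take]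
      omega
    have hlp : ∀ p ∈ l, p.Prime := fun p hp => hLp p (hlL.subset hp)
    have hperm : l.Perm l.prod.primeFactorsList := Nat.primeFactorsList_unique rfl hlp
    refine h1 l.prod (hsub l hlL) ?_ ?_
    · intro p hp hpd
      have h0 : l.prod ≠ 0 := by
        intro h0
        have := hsub l hlL
        rw [h0] at this
        exact hn0 (Nat.eq_zero_of_zero_dvd this)
      have hmem : p ∈ l.prod.primeFactorsList := (Nat.mem_primeFactorsList h0).2 ⟨hp, hpd⟩
      have hmem2 : p ∈ l := hperm.symm.subset hmem
      refine ⟨?_, ?_⟩
      · have := hls.subset hmem2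
        rw [List.mem_filter] at this
        simpa using this.2
      · intro hpM
        exact hM p hp hpM (hLd p (hlL.subset hmem2))
    · rw [ArithmeticFunction.cardFactors_apply, ← hperm.length_eq, hll]
  -- second part
  have hB : (L.filter (fun p => decide (W < p ∧ p ≤ N))).length ≤ m1 := by
    have hex : ∀ p ∈ L.filter (fun p => decide (W < p ∧ p ≤ N)), ∃ i, s.pr i = p := by
      intro p hp
      rw [List.mem_filter] at hp
      obtain ⟨hpL, hpW⟩ := hp
      simp only [decide_eq_true_eq] at hpW
      by_contra hc
      push Not at hc
      refine h2 p ?_ (hLd p hpL)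
      unfold Mis
      rw [Finset.mem_filter, Finset.mem_Ioc]
      exact ⟨hpW, hLp p hpL, hc⟩
    have hnd : (L.filter (fun p => decide (W < p ∧ p ≤ N))).Nodup := by
      rw [List.nodup_iff_count_le_one]
      intro p
      by_cases hp : p ∈ L.filter (fun p => decide (W < p ∧ p ≤ N))
      · obtain ⟨i, hi⟩ := hex p hp
        by_contra hc
        push Not at hc
        have hrep : (List.replicate 2 p).Sublist (L.filter (fun p => decide (W < p ∧ p ≤ N))) :=
          List.replicate_sublist_iff.2 hc
        have := hsub _ (hrep.trans List.filter_sublist)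
        rw [List.prod_replicate, ← hi] at this
        exact h4 i this
      · rw [List.count_eq_zero_of_not_mem hp]
        exact zero_le_one
    rw [← List.toFinset_card_of_nodup hnd]
    refine le_trans ?_ h5
    refine le_trans (Finset.card_le_card (t := (univ.filter (fun i => w1 < (s.pr i : ℝ) ∧ s.pr i ∣ n)).image s.pr) ?_)
      Finset.card_image_le
    intro p hp
    rw [List.mem_toFinset] at hp
    obtain ⟨i, hi⟩ := hex p hp
    rw [List.mem_filter] at hp
    rw [Finset.mem_image]
    refine ⟨i, ?_, hi⟩
    rw [Finset.mem_filter]
    have hd : s.pr i ∣ n := by rw [hi]; exact hLd p hp.1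
    refine ⟨Finset.mem_univ _, ?_, hd⟩
    by_contra hc
    exact h3 i (not_lt.mp hc) hd
  -- third part
  have hC : ((L.filter (fun p => decide (N < p))).length : ℝ) ≤ Real.log n / Real.log N := by
    set l := L.filter (fun p => decide (N < p)) with hl
    have hd := hsub l List.filter_sublist
    have hle : l.prod ≤ n := Nat.le_of_dvd hn hd
    have hpow : N ^ l.length ≤ l.prod := by
      apply List.pow_card_le_prod
      intro p hp
      rw [hl, List.mem_filter] at hp
      have := hp.2
      simp only [decide_eq_true_eq] at this
      exact this.le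
    have h6 : (N : ℝ) ^ l.length ≤ n := by exact_mod_cast hpow.trans hle
    have hN1 : (1 : ℝ) < N := by exact_mod_cast (by omega : 1 < N)
    have hlN : 0 < Real.log N := Real.log_pos hN1
    rw [le_div_iff₀ hlN, ← Real.log_pow]
    exact Real.log_le_log (by positivity) h6
  have h7 : (L.length : ℝ) ≤ (L.filter (fun p => decide (p ≤ W))).length +
      (L.filter (fun p => decide (W < p ∧ p ≤ N))).length +
      (L.filter (fun p => decide (N < p))).length := by exact_mod_cast hlen
  have h8 : ((L.filter (fun p => decide (p ≤ W))).length : ℝ) ≤ m0 := by exact_mod_cast hA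
  have h9 : ((L.filter (fun p => decide (W < p ∧ p ≤ N))).length : ℝ) ≤ m1 := by exact_mod_cast hB
  linarith

end Pool.Agent.Lib.H59D
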