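import Pool.Agent.Lib.H59D.F4a
import Pool.Agent.Lib.H59D.F4b
import Pool.Agent.Lib.H59D.F4c
import Pool.Agent.Lib.H59D.F4d
import Pool.Agent.Lib.H59D.F4e
import Pool.Agent.Lib.H59D.N3

/-!
# Chunk F4: the forms are nice, except for a small mass
-/

open Finset

namespace Pool.Agent.Lib.H59D

open Pool.Agent.Lib.H56G
open Pool.Agent.Lib.H5C (WX)

/-- `n` has at most `C₁ ℓ` prime factors; those which are `> W` are `> X^(c₁/k³)` and occur once. -/
def Nice (c₁ C₁ : ℝ) (X k n : ℕ) : Prop :=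
  (ArithmeticFunction.cardFactors n : ℝ) ≤ C₁ * el k ∧
    ∀ p, p.Prime → p ∣ n → WX X < p →
      Real.exp (c₁ * Real.log X / (k : ℝ) ^ 3) < p ∧ ¬ p ^ 2 ∣ n

/-- Outside the six events the form is nice. -/
theorem F4_det {ι J : Type} [Fintype ι] [DecidableEq ι] [Fintype J] [DecidableEq J]
    (s : Sys ι J) (η C₃ C₅ K₂ : ℝ) (hη : 0 < η) (hC₃ : 1 ≤ C₃) (hC₅ : 1 ≤ C₅)
    (hK₂ : 1 ≤ K₂) (X : ℕ) (hF : NumF η 5 X (Fintype.card J)) (n : ℕ) (hn : 0 < n)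
    (hnX : n ≤ 62 * X) (hM : ∀ p, p.Prime → p ∣ s.M → ¬ p ∣ n)
    (h1 : ¬ ∃ q, q ∣ n ∧ (∀ p, p.Prime → p ∣ q → p ≤ WX X ∧ ¬ p ∣ s.M) ∧
      ArithmeticFunction.cardFactors q = ⌈C₃ * el (Fintype.card J)⌉₊)
    (h2 : ¬ ∃ p ∈ Mis s (WX X) (NN η X), p ∣ n)
    (h3 : ¬ ∃ i, (s.pr i : ℝ) ≤ w1 η K₂ X (Fintype.card J) ∧ s.pr i ∣ n)
    (h4 : ¬ ∃ i, s.pr i ^ 2 ∣ n)
    (h5 : ¬ 5 * ⌈C₅ * el (Fintype.card J)⌉₊ ≤
      (univ.filter (fun i => w1 η K₂ X (Fintype.card J) < (s.pr i : ℝ) ∧ s.pr i ∣ n)).card)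
    (h6 : ¬ ∃ p, p.Prime ∧ NN η X < p ∧ p ^ 2 ∣ n) :
    Nice (η / (4 * K₂)) (C₃ + 5 * C₅ + 6 + 4 / η) X (Fintype.card J) n := by
  have hl1 : 1 ≤ el (Fintype.card J) := el_one_le hF.k1
  have hlX : 5 ≤ Real.log X := hF.lX
  have hNlog := hF.lN_ge
  have hlN0 : 0 < Real.log (NN η X) := lt_of_lt_of_le (by positivity) hNlog
  have hN2 : 2 ≤ NN η X := hF.W_two.trans hF.WN
  have hk3 : (1 : ℝ) ≤ (Fintype.card J : ℝ) ^ 3 := by
    have : (1 : ℝ) ≤ Fintype.card J := by exact_mod_cast hF.k1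
    exact one_le_pow₀ this
  constructor
  · have hO := Omega_le s (WX X) (NN η X) s.M hN2 (w1 η K₂ X (Fintype.card J)) n hn
      ⌈C₃ * el (Fintype.card J)⌉₊ (5 * ⌈C₅ * el (Fintype.card J)⌉₊) hM
      (fun q hq hq2 hq3 => h1 ⟨q, hq, hq2, hq3⟩)
      (fun p hp hpn => h2 ⟨p, hp, hpn⟩)
      (fun i hi hin => h3 ⟨i, hi, hin⟩)
      (fun i hi => h4 ⟨i, hi⟩)
      (not_le.mp h5).le
    have a1 : ((⌈C₃ * el (Fintype.card J)⌉₊ : ℕ) : ℝ) ≤ C₃ * el (Fintype.card J) + 1 :=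
      (Nat.ceil_lt_add_one (by positivity)).le
    have a2 : ((⌈C₅ * el (Fintype.card J)⌉₊ : ℕ) : ℝ) ≤ C₅ * el (Fintype.card J) + 1 :=
      (Nat.ceil_lt_add_one (by positivity)).le
    have hXpos : (0 : ℝ) < X := by
      rcases Nat.eq_zero_or_pos X with h | h
      · subst h
        omega
      · exact_mod_cast h
    have a3 : Real.log n ≤ 2 * Real.log X := by
      have b1 : Real.log n ≤ Real.log (62 * X) := by
        apply Real.log_le_log (by exact_mod_cast hn)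
        exact_mod_cast hnX
      have b2 : Real.log (62 * X) = Real.log 62 + Real.log X :=
        Real.log_mul (by norm_num) hXpos.ne'
      have b3 : Real.log 62 ≤ 5 := by
        rw [Real.log_le_iff_le_exp (by norm_num)]
        have := Real.exp_one_gt_d9
        have h5 : Real.exp 5 = Real.exp 1 ^ 5 := by
          rw [← Real.exp_nat_mul]
          norm_num
        rw [h5]
        have h6 : (2.7 : ℝ) ^ 5 ≤ Real.exp 1 ^ 5 := pow_le_pow_left₀ (by norm_num) (by linarith) 5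
        refine le_trans ?_ h6
        norm_num
      linarith
    have a4 : Real.log n / Real.log (NN η X) ≤ 4 / η := by
      rw [div_le_div_iff₀ hlN0 hη]
      calc Real.log n * η ≤ 2 * Real.log X * η := mul_le_mul_of_nonneg_right a3 hη.le
        _ = 4 * (η / 2 * Real.log X) := by ring
        _ ≤ 4 * Real.log (NN η X) := by linarith
    have a5 : 0 < 4 / η := by positivity
    push_cast at hO
    have a6 : 4 / η ≤ 4 / η * el (Fintype.card J) := le_mul_of_one_le_right a5.le hl1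
    nlinarith [hO, a1, a2, a4, a6, hl1]
  · intro p hp hpn hWp
    have hexp : η / (4 * K₂) * Real.log X / (Fintype.card J : ℝ) ^ 3 ≤
        Real.log (NN η X) / (K₂ * (Fintype.card J : ℝ) ^ 3) := by
      rw [div_le_div_iff₀ (by positivity) (by positivity)]
      have e1 : η / (4 * K₂) * Real.log X * (K₂ * (Fintype.card J : ℝ) ^ 3) =
          (η / 4 * Real.log X) * (Fintype.card J : ℝ) ^ 3 := by
        field_simp
      rw [e1]
      refine mul_le_mul_of_nonneg_right ?_ (by positivity)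
      refine le_trans ?_ hNlog
      have : 0 ≤ η * Real.log X := by positivity
      linarith
    by_cases hpN : NN η X < p
    · refine ⟨?_, fun h => h6 ⟨p, hp, hpN, h⟩⟩
      have e2 : Real.log (NN η X) / (K₂ * (Fintype.card J : ℝ) ^ 3) ≤ Real.log (NN η X) := by
        apply div_le_self hlN0.le
        nlinarith
      have e3 : Real.exp (η / (4 * K₂) * Real.log X / (Fintype.card J : ℝ) ^ 3) ≤ (NN η X : ℝ) := by
        rw [← Real.exp_log (show (0 : ℝ) < NN η X by positivity)]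
        exact Real.exp_le_exp.mpr (hexp.trans e2)
      exact lt_of_le_of_lt e3 (by exact_mod_cast hpN)
    · have hpN' := not_lt.mp hpN
      have hex : ∃ i, s.pr i = p := by
        by_contra hcon
        push_neg at hcon
        refine h2 ⟨p, ?_, hpn⟩
        unfold Mis
        rw [Finset.mem_filter, Finset.mem_Ioc]
        exact ⟨⟨hWp, hpN'⟩, hp, hcon⟩
      obtain ⟨i, rfl⟩ := hex
      refine ⟨?_, fun h => h4 ⟨i, h⟩⟩
      have e4 : w1 η K₂ X (Fintype.card J) < (s.pr i : ℝ) := by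
        by_contra hcon
        exact h3 ⟨i, not_lt.mp hcon, hpn⟩
      refine lt_of_le_of_lt ?_ e4
      unfold w1
      exact le_max_of_le_right (Real.exp_le_exp.mpr hexp)

/-- `ev1`, .., `ev6` with `ε/6`. Outside the six events `Omega_le` (`M = s.M`, `n = form j (t)`,
`0 < n ≤ 62 X`, coprime to `s.M` since `b j` is, `W = WX X`, `N = NN η X`, `w1 = w1 η K₂ X k`,
`m1 = 5⌈C₅ ℓ⌉`) gives `Ω(n) ≤ ⌈C₃ ℓ⌉ + 5⌈C₅ ℓ⌉ + log (62X)/log N`, and
`log (62 X)/log N ≤ 2 log X/((η/2) log X) = 4/η`; so `Ω ≤ (C₃ + 5 C₅ + 6 + 4/η) ℓ` (`ℓ ≥ 1`). A prime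
`p > W`, `p ∣ n` is `> N` (then `p² ∤ n` by `ev6`), or not missing, so it is a `pr i` with `pr i > w1`
(`ev3`) and `p² ∤ n` (`ev4`); `w1, N ≥ exp (log N/(K₂k³)) ≥ exp (c₁ log X/k³)` with `c₁ = η/(2K₂)`
(take `c₁ = η/(4K₂)` for the strict inequality). -/
theorem nice_mass : ∀ η : ℝ, 0 < η → η ≤ 1 / 1000 → ∀ C ε : ℝ, 0 < ε →
    ∃ c₁ C₁ K : ℝ, 0 < c₁ ∧ 1 ≤ C₁ ∧ 1 ≤ K ∧
    ∀ (X : ℕ) {ι J : Type} [Fintype ι] [DecidableEq ι] [Fintype J] [DecidableEq J]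
      (s : Sys ι J) (α : ℝ), Data η C X s α → Rg K X (Fintype.card J) → ∀ p1 : ℕ,
      s.M = MX X p1 → ∀ T : ℕ, (X : ℝ) ^ (3 / 4 : ℝ) ≤ T → s.M * T ≤ 61 * X →
      ∀ j : J, s.b j ≤ X → Nat.Coprime (s.b j) s.M →
      mass s α (NN η X) T (fun t => ¬ Nice c₁ C₁ X (Fintype.card J) (s.b j + s.M * t)) ≤
        ε / Fintype.card J * T * ZZ s (bg s α (NN η X)) := by
  intro η hη hη1 C ε hε
  have hε6 : 0 < ε / 6 := by positivity
  obtain ⟨C₃, K1, hC₃, hK1, e1⟩ := ev1 η hη hη1 (ε / 6) hε6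
  obtain ⟨Kb, hKb, e2⟩ := ev2 η hη hη1 (ε / 6) hε6
  obtain ⟨K₂, K3, hK₂, hK3, e3⟩ := ev3 η hη hη1 C (ε / 6) hε6
  obtain ⟨K4, hK4, e4⟩ := ev4 η hη hη1 (ε / 6) hε6
  obtain ⟨C₅, K5, hC₅, hK5, e5⟩ := ev5 η hη hη1 (ε / 6) K₂ hε6 hK₂
  obtain ⟨K6, hK6, e6⟩ := ev6 η hη hη1 (ε / 6) hε6
  obtain ⟨KN, hKN, eN⟩ := numF η hη hη1 5
  refine ⟨η / (4 * K₂), C₃ + 5 * C₅ + 6 + 4 / η, K1 + Kb + K3 + K4 + K5 + K6 + KN,
    by positivity, ?_, by linarith, ?_⟩
  · have : 0 < 4 / η := by positivity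
    linarith
  intro X ι J _ _ _ _ s α hD hR p1 hM T hT hMT j hb hcop
  have h0 : (0 : ℝ) ≤ K1 + Kb + K3 + K4 + K5 + K6 + KN := by linarith
  have R1 : Rg K1 X (Fintype.card J) := hR.mono h0 (by linarith)
  have Rb : Rg Kb X (Fintype.card J) := hR.mono h0 (by linarith)
  have R3 : Rg K3 X (Fintype.card J) := hR.mono h0 (by linarith)
  have R4 : Rg K4 X (Fintype.card J) := hR.mono h0 (by linarith)
  have R5 : Rg K5 X (Fintype.card J) := hR.mono h0 (by linarith)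
  have R6 : Rg K6 X (Fintype.card J) := hR.mono h0 (by linarith)
  have RN : Rg KN X (Fintype.card J) := hR.mono h0 (by linarith)
  have hF := eN X _ RN
  have hMpos : 0 < s.M := by
    rw [hM]
    exact MX_pos X p1
  have hX1 : (1 : ℝ) ≤ X := by
    rcases Nat.eq_zero_or_pos X with h | h
    · subst h
      have := hF.lX
      simp at this
      linarith
    · exact_mod_cast h
  have hT2 : (X : ℝ) ^ (1 / 2 : ℝ) ≤ T :=
    (Real.rpow_le_rpow_of_exponent_le hX1 (by norm_num)).trans hT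
  have f1 := e1 X s α hD.sv hD.a0 R1 p1 hM T hT2 j
  have f2 := e2 X s α hD.sv hD.a0 Rb p1 hM T hT2 j
  have f3 := e3 X s α hD R3 T hT2 j
  have f4 := e4 X s α hD.sv hD.a0 R4 T hT2 j
  have f5 := e5 X s α hD.sv hD.a0 R5 T hT2 hMpos hMT j hb
  have f6 := e6 X s α hD.sv hD.a0 R6 p1 hM T hT hMT j hb hcop
  have hmono := mass_mono s α (NN η X) T
    (fun t => ¬ Nice (η / (4 * K₂)) (C₃ + 5 * C₅ + 6 + 4 / η) X (Fintype.card J)
      (s.b j + s.M * t))
    (fun t => (∃ q, q ∣ s.b j + s.M * t ∧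
        (∀ p, p.Prime → p ∣ q → p ≤ WX X ∧ ¬ p ∣ s.M) ∧
        ArithmeticFunction.cardFactors q = ⌈C₃ * el (Fintype.card J)⌉₊) ∨
      ((∃ p ∈ Mis s (WX X) (NN η X), p ∣ s.b j + s.M * t) ∨
      ((∃ i, (s.pr i : ℝ) ≤ w1 η K₂ X (Fintype.card J) ∧ s.pr i ∣ s.b j + s.M * t) ∨
      ((∃ i, s.pr i ^ 2 ∣ s.b j + s.M * t) ∨
      ((5 * ⌈C₅ * el (Fintype.card J)⌉₊ ≤
        (univ.filter (fun i => w1 η K₂ X (Fintype.card J) < (s.pr i : ℝ) ∧
          s.pr i ∣ s.b j + s.M * t)).card) ∨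
      (∃ p, p.Prime ∧ NN η X < p ∧ p ^ 2 ∣ s.b j + s.M * t))))))
    (by
      intro t ht1 htT hnot
      by_contra hcon
      apply hnot
      rw [not_or, not_or, not_or, not_or, not_or] at hcon
      obtain ⟨g1, g2, g3, g4, g5, g6⟩ := hcon
      refine F4_det s η C₃ C₅ K₂ hη hC₃ hC₅ hK₂ X hF (s.b j + s.M * t) ?_ ?_ ?_ g1 g2 g3 g4 g5 g6
      · have : 0 < s.M * t := Nat.mul_pos hMpos (by omega)
        omega
      · have : s.M * t ≤ s.M * T := Nat.mul_le_mul_left _ htT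
        omega
      · intro p hp hpM hpn
        have h1 : p ∣ s.b j := by
          rwa [Nat.dvd_add_left (Dvd.dvd.mul_right hpM t)] at hpn
        have h2 : p ∣ Nat.gcd (s.b j) s.M := Nat.dvd_gcd h1 hpM
        rw [hcop] at h2
        exact hp.one_lt.ne' (Nat.dvd_one.mp h2))
  refine hmono.trans ?_
  refine (mass_or s α (NN η X) T _ _).trans ?_
  refine (add_le_add f1 ((mass_or s α (NN η X) T _ _).trans (add_le_add f2
    ((mass_or s α (NN η X) T _ _).trans (add_le_add f3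
    ((mass_or s α (NN η X) T _ _).trans (add_le_add f4
    ((mass_or s α (NN η X) T _ _).trans (add_le_add f5 f6))))))))).trans (le_of_eq ?_)
  ring

end Pool.Agent.Lib.H59D
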