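import Mathlib

/-!
# Chunk N1: integers with `m` prime factors from a given set (pure Mathlib)
-/

open Finset

namespace Pool.Agent.Lib.H59D

/-- the completely multiplicative function `(3/2)^Ω(n)/n` -/
noncomputable def N1_f : ℕ →* ℝ where
  toFun n := if n = 0 then 0 else (3 / 2) ^ (ArithmeticFunction.cardFactors n) / (n : ℝ)
  map_one' := by simp
  map_mul' a b := by
    by_cases ha : a = 0
    · simp [ha]
    by_cases hb : b = 0
    · simp [hb]
    rw [if_neg ha, if_neg hb, if_neg (mul_ne_zero ha hb),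
      ArithmeticFunction.cardFactors_mul ha hb, pow_add]
    push_cast
    rw [mul_div_mul_comm]

theorem N1_f_apply {n : ℕ} (hn : n ≠ 0) :
    N1_f n = (3 / 2) ^ (ArithmeticFunction.cardFactors n) / (n : ℝ) := if_neg hn

theorem N1_f_nonneg (n : ℕ) : 0 ≤ N1_f n := by
  by_cases hn : n = 0
  · rw [show N1_f n = 0 from if_pos hn]
  · rw [N1_f_apply hn]
    positivity

theorem N1_f_prime {p : ℕ} (hp : p.Prime) : N1_f p = 3 / (2 * (p : ℝ)) := by
  rw [N1_f_apply hp.ne_zero, ArithmeticFunction.cardFactors_apply_prime hp, pow_one, div_div]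

/-- Rankin: `Σ_{q ∈ S} 1/q = (2/3)^m Σ_{q ∈ S} (3/2)^Ω(q)/q ≤ (2/3)^m ∏_{p ∈ U} Σ_j (3/(2p))^j`
(`3/(2p) ≤ 3/4 < 1`; `q ↦ (3/2)^Ω(q)/q` is completely multiplicative; see `H56G.vlow_sum_le` for the same
argument with `1/q`, `EulerProduct.summable_and_hasSum_factoredNumbers_prod_filter_prime_geometric`). -/
theorem sum_inv_Omega (U : Finset ℕ) (hU : ∀ p ∈ U, p.Prime) (m : ℕ) (S : Finset ℕ)
    (hS : ∀ q ∈ S, q ≠ 0 ∧ (∀ p, p.Prime → p ∣ q → p ∈ U) ∧
      ArithmeticFunction.cardFactors q = m) :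
    ∑ q ∈ S, 1 / (q : ℝ) ≤ (2 / 3) ^ m * ∏ p ∈ U, (1 - 3 / (2 * (p : ℝ)))⁻¹ := by
  have h1 := (EulerProduct.summable_and_hasSum_factoredNumbers_prod_filter_prime_geometric
    (f := N1_f) (by
      intro p hp
      rw [Real.norm_of_nonneg (N1_f_nonneg p), N1_f_prime hp]
      have h2 : (2 : ℝ) ≤ p := by exact_mod_cast hp.two_le
      rw [div_lt_one (by positivity)]
      linarith) U).2
  have h2 : HasSum (Set.indicator (Nat.factoredNumbers U) (fun m : ℕ => N1_f m))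
      (∏ p ∈ U with p.Prime, (1 - N1_f p)⁻¹) := by
    rw [← hasSum_subtype_iff_indicator]
    exact h1
  have h3 := sum_le_hasSum S (fun m _ => Set.indicator_nonneg
    (fun m _ => N1_f_nonneg m) m) h2
  have h4 : ∑ q ∈ S, Set.indicator (Nat.factoredNumbers U) (fun m : ℕ => N1_f m) q =
      (3 / 2) ^ m * ∑ q ∈ S, 1 / (q : ℝ) := by
    rw [Finset.mul_sum]
    apply Finset.sum_congr rfl
    intro q hq
    obtain ⟨hq0, hqU, hqm⟩ := hS q hq
    have hmem : q ∈ Nat.factoredNumbers U := by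
      rw [Nat.mem_factoredNumbers]
      refine ⟨hq0, fun p hp => ?_⟩
      exact hqU p (Nat.prime_of_mem_primeFactorsList hp) (Nat.dvd_of_mem_primeFactorsList hp)
    rw [Set.indicator_of_mem hmem, N1_f_apply hq0, hqm]
    ring
  rw [h4, Finset.filter_true_of_mem hU] at h3
  have h5 : ∏ p ∈ U, (1 - N1_f p)⁻¹ = ∏ p ∈ U, (1 - 3 / (2 * (p : ℝ)))⁻¹ :=
    Finset.prod_congr rfl fun p hp => by rw [N1_f_prime (hU p hp)]
  rw [h5] at h3
  have h6 : (2 / 3 : ℝ) ^ m * ((3 / 2) ^ m * ∑ q ∈ S, 1 / (q : ℝ)) = ∑ q ∈ S, 1 / (q : ℝ) := by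
    rw [← mul_assoc, ← mul_pow]
    norm_num
  rw [← h6]
  exact mul_le_mul_of_nonneg_left h3 (by positivity)

end Pool.Agent.Lib.H59D
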