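import Pool.Agent.Lib.H59D.D3
import Pool.Agent.Lib.H59D.N1
import Pool.Agent.Lib.H59D.MX

/-!
# Chunk F4a: many prime factors `≤ W`
-/

open Finset

namespace Pool.Agent.Lib.H59D

open Pool.Agent.Lib.H56G
open Pool.Agent.Lib.H5C (WX)

theorem F4a_le {q W : ℕ} (hq : q ≠ 0) (h : ∀ p, p.Prime → p ∣ q → p ≤ W) :
    q ≤ W ^ ArithmeticFunction.cardFactors q := by
  rw [ArithmeticFunction.cardFactors_apply]
  calc q = q.primeFactorsList.prod := (Nat.prod_primeFactorsList hq).symm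
    _ ≤ W ^ q.primeFactorsList.length := by
      apply List.prod_le_pow_card
      intro p hp
      exact h p (Nat.prime_of_mem_primeFactorsList hp) (Nat.dvd_of_mem_primeFactorsList hp)

theorem F4a_ne {q W : ℕ} (h : ∀ p, p.Prime → p ∣ q → p ≤ W) : q ≠ 0 := by
  rintro rfl
  obtain ⟨p, hp1, hp2⟩ := Nat.exists_infinite_primes (W + 1)
  have := h p hp2 (dvd_zero p)
  omega

/-- the numerical bound -/
theorem F4a_num {C ε : ℝ} (hC : 1 ≤ C) (hε : 0 < ε) {k : ℕ} (hk : 1 ≤ k) :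
    4 * C * (2 / 3 : ℝ) ^ ⌈3 * (1 + max 0 (Real.log (4 * C / ε))) * el k⌉₊ ≤ ε / k := by
  set a := max 0 (Real.log (4 * C / ε)) with ha
  have ha0 : 0 ≤ a := le_max_left _ _
  have hl := el_one_le hk
  have hk0 : (0 : ℝ) < k := by exact_mod_cast hk
  set m := ⌈3 * (1 + a) * el k⌉₊ with hm
  have hm1 : 3 * (1 + a) * el k ≤ m := Nat.le_ceil _
  have h1 : (2 / 3 : ℝ) ^ m ≤ Real.exp (-(m / 3 : ℝ)) := by
    have h2 : (2 / 3 : ℝ) ≤ Real.exp (-(1 / 3)) := by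
      have := Real.add_one_le_exp (-(1 / 3 : ℝ))
      linarith
    calc (2 / 3 : ℝ) ^ m ≤ (Real.exp (-(1 / 3))) ^ m := pow_le_pow_left₀ (by norm_num) h2 m
      _ = Real.exp (-(m / 3 : ℝ)) := by
        rw [← Real.exp_nat_mul]
        congr 1
        ring
  have h2 : Real.exp (-(m / 3 : ℝ)) ≤ Real.exp (-(el k)) * Real.exp (-a) := by
    rw [← Real.exp_add]
    apply Real.exp_le_exp.2
    nlinarith
  have h3 : Real.exp (-(el k)) ≤ 1 / k := by
    unfold el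
    have : -(1 + Real.log k) ≤ -Real.log k := by linarith
    calc Real.exp (-(1 + Real.log k)) ≤ Real.exp (-Real.log k) := Real.exp_le_exp.2 this
      _ = 1 / k := by rw [Real.exp_neg, Real.exp_log hk0, one_div]
  have h4 : 4 * C * Real.exp (-a) ≤ ε := by
    have h5 : 4 * C / ε ≤ Real.exp a := by
      calc 4 * C / ε = Real.exp (Real.log (4 * C / ε)) := (Real.exp_log (by positivity)).symm
        _ ≤ Real.exp a := Real.exp_le_exp.2 (le_max_right _ _)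
    rw [div_le_iff₀ hε] at h5
    rw [Real.exp_neg]
    have h6 : 0 < Real.exp a := Real.exp_pos a
    rw [← div_eq_mul_inv, div_le_iff₀ h6]
    linarith
  calc 4 * C * (2 / 3 : ℝ) ^ m ≤ 4 * C * (Real.exp (-(el k)) * Real.exp (-a)) :=
        mul_le_mul_of_nonneg_left (h1.trans h2) (by positivity)
    _ = (4 * C * Real.exp (-a)) * Real.exp (-(el k)) := by ring
    _ ≤ ε * (1 / k) := mul_le_mul h4 h3 (Real.exp_pos _).le hε.le
    _ = ε / k := by ring

/-- `m0 = ⌈C₃ ℓ⌉`. Union bound (`mass_exists`, `mass_mono`) over the `q ∈ [1, X^(1/4)]` with all prime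
factors in `UU X p1` and `Ω(q) = m0`: such a `q` is `≤ W^m0 ≤ X^(1/4)` (`m0 · 17 loglog X ≤ (1/4) log X` by
`NumF.kL`), it is coprime to `s.M` and no `pr i` (`> W`) divides it, so `mass_q` gives `4 (T/q) ZZ`; by
`sum_inv_Omega` and `prod_UU` the sum is `≤ 4 C₄ (2/3)^m0 T ZZ`, and
`(2/3)^(C₃ ℓ) ≤ exp (-(C₃/3) ℓ) ≤ exp (-(C₃/3 - 1)) exp (-ℓ) ≤ exp (-(C₃/3-1))/k` (`ℓ ≥ 1`,
`exp (-ℓ) ≤ 1/k`). -/
theorem ev1 : ∀ η : ℝ, 0 < η → η ≤ 1 / 1000 → ∀ ε : ℝ, 0 < ε → ∃ C₃ K : ℝ, 1 ≤ C₃ ∧ 1 ≤ K ∧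
    ∀ (X : ℕ) {ι J : Type} [Fintype ι] [DecidableEq ι] [Fintype J] [DecidableEq J]
      (s : Sys ι J) (α : ℝ), Sv η X s → 0 < α → Rg K X (Fintype.card J) → ∀ p1 : ℕ,
      s.M = MX X p1 → ∀ T : ℕ, (X : ℝ) ^ (1 / 2 : ℝ) ≤ T → ∀ j : J,
      mass s α (NN η X) T (fun t => ∃ q, q ∣ s.b j + s.M * t ∧
        (∀ p, p.Prime → p ∣ q → p ≤ WX X ∧ ¬ p ∣ s.M) ∧
        ArithmeticFunction.cardFactors q = ⌈C₃ * el (Fintype.card J)⌉₊) ≤
        ε / Fintype.card J * T * ZZ s (bg s α (NN η X)) := by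
  intro η hη hη1 ε hε
  obtain ⟨C, hC1, X0, hprod⟩ := prod_UU
  obtain ⟨K1, hK1, hmq⟩ := mass_q η hη hη1
  set C3 : ℝ := 3 * (1 + max 0 (Real.log (4 * C / ε))) with hC3
  have hC31 : 1 ≤ C3 := by
    have : 0 ≤ max 0 (Real.log (4 * C / ε)) := le_max_left _ _
    rw [hC3]
    linarith
  obtain ⟨K2, hK2, hnum⟩ := numF η hη hη1 (max (136 * C3) X0)
  refine ⟨C3, max K1 K2, hC31, hK1.trans (le_max_left _ _), ?_⟩
  intro X ι J _ _ _ _ s α hsv hα hR p1 hM T hT j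
  have hKK : 0 ≤ max K1 K2 := zero_le_one.trans (hK1.trans (le_max_left _ _))
  have hR1 := hR.mono hKK (le_max_left K1 K2)
  have hR2 := hR.mono hKK (le_max_right K1 K2)
  have hN := hnum X (Fintype.card J) hR2
  have hmass := fun q => hmq X s α hsv hα hR1 T hT j q
  clear hnum hmq
  set k := Fintype.card J with hk
  have hk1 : 1 ≤ k := hN.k1
  have hl := el_one_le hk1
  have hkR : (1 : ℝ) ≤ k := by exact_mod_cast hk1
  set m0 := ⌈C3 * el k⌉₊ with hm0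
  have hX1 : (1 : ℝ) ≤ X := by
    by_contra hc
    have h4 : Real.log X ≤ 0 := Real.log_nonpos (by positivity) (not_le.1 hc).le
    have h5 := hN.lX
    have h6 : (136 : ℝ) * C3 ≤ max (136 * C3) X0 := le_max_left _ _
    linarith
  have hX0 : X0 ≤ X := by
    have h5 := hN.lX
    have h6 : (X0 : ℝ) ≤ max (136 * C3) X0 := le_max_right _ _
    have h7 : Real.log X ≤ X := Real.log_le_self (by positivity)
    exact_mod_cast h6.trans (h5.trans h7)
  have hll : 0 ≤ Real.log (Real.log X) := by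
    have h5 := hN.llX
    have h6 : (136 : ℝ) * C3 ≤ max (136 * C3) X0 := le_max_left _ _
    linarith
  have hm0le : (m0 : ℝ) ≤ 2 * C3 * el k := by
    have h1 : (m0 : ℝ) < C3 * el k + 1 := Nat.ceil_lt_add_one (by positivity)
    have h2 : 1 ≤ C3 * el k := by nlinarith
    linarith
  have hWpow : ((WX X : ℝ)) ^ m0 ≤ (X : ℝ) ^ (1 / 4 : ℝ) := by
    have hW2 : (2 : ℝ) ≤ WX X := by exact_mod_cast hN.W_two
    have h1 : Real.log ((WX X : ℝ) ^ m0) ≤ Real.log ((X : ℝ) ^ (1 / 4 : ℝ)) := by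
      rw [Real.log_pow, Real.log_rpow (by linarith)]
      have h3 : 136 * C3 * (el k * k * Real.log (Real.log X)) ≤ Real.log X := by
        refine le_trans ?_ hN.kL
        exact mul_le_mul_of_nonneg_right (le_max_left _ _) (by positivity)
      have h4 : (m0 : ℝ) * Real.log (WX X) ≤ 2 * C3 * el k * (17 * Real.log (Real.log X)) :=
        mul_le_mul hm0le hN.lW_le (Real.log_nonneg (by linarith)) (by positivity)
      have h5 : el k * Real.log (Real.log X) ≤ el k * k * Real.log (Real.log X) := by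
        have : 0 ≤ el k * Real.log (Real.log X) := by positivity
        nlinarith
      nlinarith [mul_le_mul_of_nonneg_left h5 (by linarith : (0 : ℝ) ≤ C3)]
    exact (Real.log_le_log_iff (by positivity) (by positivity)).1 h1
  -- the union bound
  obtain ⟨S, hS⟩ : ∃ S : Finset ℕ, ∀ q, q ∈ S ↔ q ≤ WX X ^ m0 ∧
      ((∀ p, p.Prime → p ∣ q → p ≤ WX X ∧ ¬ p ∣ s.M) ∧
        ArithmeticFunction.cardFactors q = m0) := by
    classical
    refine ⟨(range (WX X ^ m0 + 1)).filter (fun q => (∀ p, p.Prime → p ∣ q → p ≤ WX X ∧ ¬ p ∣ s.M) ∧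
        ArithmeticFunction.cardFactors q = m0), fun q => ?_⟩
    rw [mem_filter, mem_range, Nat.lt_succ_iff]
  have hne : ∀ q ∈ S, q ≠ 0 := fun q hq => F4a_ne (fun p hp hpq => (((hS q).1 hq).2.1 p hp hpq).1)
  have hb1 : mass s α (NN η X) T (fun t => ∃ q, q ∣ s.b j + s.M * t ∧
        (∀ p, p.Prime → p ∣ q → p ≤ WX X ∧ ¬ p ∣ s.M) ∧
        ArithmeticFunction.cardFactors q = m0) ≤
      mass s α (NN η X) T (fun t => ∃ q ∈ S, q ∣ s.b j + s.M * t) := by
    apply mass_mono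
    rintro t - - ⟨q, hq1, hq2, hq3⟩
    refine ⟨q, (hS q).2 ⟨?_, hq2, hq3⟩, hq1⟩
    have h1 : ∀ p, p.Prime → p ∣ q → p ≤ WX X := fun p hp hpq => (hq2 p hp hpq).1
    have h2 := F4a_le (F4a_ne h1) h1
    rwa [hq3] at h2
  have hb2 := mass_exists s α (NN η X) T S (fun q t => q ∣ s.b j + s.M * t)
  have hZ : 1 ≤ ZZ s (bg s α (NN η X)) := one_le_ZZ s _
  have hb3 : ∀ q ∈ S, mass s α (NN η X) T (fun t => q ∣ s.b j + s.M * t) ≤
      4 * T * ZZ s (bg s α (NN η X)) * (1 / (q : ℝ)) := by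
    intro q hq
    obtain ⟨h1, h2, h3⟩ := (hS q).1 hq
    have hq0 := hne q hq
    have hqX : (q : ℝ) ≤ (X : ℝ) ^ (1 / 4 : ℝ) := by
      refine le_trans ?_ hWpow
      exact_mod_cast h1
    have hcop : Nat.Coprime q s.M := Nat.coprime_of_dvd fun p hp hpq hpM => (h2 p hp hpq).2 hpM
    have h4 := hmass q (Nat.pos_of_ne_zero hq0) hqX hcop
    have h5 : univ.filter (fun i => s.pr i ∣ q) = ∅ := by
      rw [filter_eq_empty_iff]
      intro i _ hi
      have := (h2 _ (s.prime i) hi).1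
      have := hsv.lo i
      omega
    rw [h5, card_empty, pow_zero, one_mul] at h4
    refine h4.trans (le_of_eq ?_)
    ring
  have hb4 := Finset.sum_le_sum hb3
  rw [← Finset.mul_sum] at hb4
  have hb5 : ∑ q ∈ S, 1 / (q : ℝ) ≤ (2 / 3) ^ m0 * C := by
    refine (sum_inv_Omega (UU X p1) (fun p hp => (mem_filter.1 hp).2.1) m0 S ?_).trans
      (mul_le_mul_of_nonneg_left (hprod X hX0 p1) (by positivity))
    intro q hq
    obtain ⟨h1, h2, h3⟩ := (hS q).1 hq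
    refine ⟨hne q hq, ?_, h3⟩
    intro p hp hpq
    have h4 := h2 p hp hpq
    unfold UU
    rw [mem_filter, mem_Icc, ← hM]
    exact ⟨⟨hp.one_lt.le, h4.1⟩, hp, h4.2⟩
  have hb6 := F4a_num hC1 hε hk1
  have hT0 : (0 : ℝ) ≤ T := Nat.cast_nonneg T
  have hTZ : 0 ≤ (T : ℝ) * ZZ s (bg s α (NN η X)) := by
    have : 0 ≤ ZZ s (bg s α (NN η X)) := by linarith
    exact mul_nonneg hT0 this
  calc mass s α (NN η X) T (fun t => ∃ q, q ∣ s.b j + s.M * t ∧
        (∀ p, p.Prime → p ∣ q → p ≤ WX X ∧ ¬ p ∣ s.M) ∧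
        ArithmeticFunction.cardFactors q = m0)
      ≤ 4 * T * ZZ s (bg s α (NN η X)) * ∑ q ∈ S, 1 / (q : ℝ) := hb1.trans (hb2.trans hb4)
    _ ≤ 4 * T * ZZ s (bg s α (NN η X)) * ((2 / 3) ^ m0 * C) := by
        apply mul_le_mul_of_nonneg_left hb5
        linarith
    _ = (4 * C * (2 / 3) ^ m0) * (T * ZZ s (bg s α (NN η X))) := by ring
    _ ≤ (ε / k) * (T * ZZ s (bg s α (NN η X))) := mul_le_mul_of_nonneg_right hb6 hTZ
    _ = _ := by ring

end Pool.Agent.Lib.H59D
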