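import Pool.Agent.Lib.H59D.Defs
import Pool.Agent.Lib.H92G.AN
import Pool.Agent.Lib.H5C.AN5

/-!
# Chunk P4: `MData` for small moduli which are prime to one exceptional prime
-/

open Finset

namespace Pool.Agent.Lib.H59D

open Pool.Agent.Lib.H5C (MData RegP PC1)

/-- `Q = ⌊X^(4η)⌋` satisfies `H5C.RegP K Q X` if `η ≤ 1/(4K)` and `X` is large. `MData.all` is
`H5C.all_sum`; `MData.one` is `H5C.principal`; `MData.low` by `H5C.good_sum` for the set
`(PC1 Q).filter (·.1 ∣ M)`: no `p` in this set is in `H5C.Bad Q X`. Indeed let `pe` be as in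
`H5C.small_cond` and `p1` a prime factor of its conductor (or `2`): if `p = pe` then `p1 ∣ p.1 ∣ M`;
otherwise a bad `p` has conductor `> exp (L/(K₁ log L)) > exp (L^(1/10)) ≥ M`, contradiction to
`p.1 ∣ M`. Copy from the proofs of `H92G.an_small` (`H92G.an_asym`) and of `H5C.mdata` (end of
`H5C/AN5.lean`, `H5C.AN5_eq_p0`). -/
theorem mdata_small : ∃ η0 : ℝ, 0 < η0 ∧ ∀ η : ℝ, 0 < η → η ≤ η0 → ∃ X0 : ℕ, ∀ X : ℕ, X0 ≤ X →
    ∃ p1 : ℕ, p1.Prime ∧ ∀ M : ℕ, 0 < M →
      (M : ℝ) ≤ Real.exp ((Real.log X) ^ (1 / 10 : ℝ)) → ¬ p1 ∣ M →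
      MData ⌊(X : ℝ) ^ (4 * η)⌋₊ X M := by
  classical
  obtain ⟨Ka, hKa, ha⟩ := H5C.all_sum
  obtain ⟨Kg, hKg, hg⟩ := H5C.good_sum
  obtain ⟨K₁, hK₁, X₁, h1⟩ := H5C.small_cond
  obtain ⟨X₂, h2⟩ := H5C.principal
  have hKpos : 0 < Ka + Kg := by linarith
  refine ⟨1 / (4 * (Ka + Kg)), by positivity, fun η hη hη0 => ?_⟩
  have hmax1 : 1 ≤ max (Ka + Kg) (1 / (8 * η)) := le_trans (by linarith) (le_max_left _ _)
  obtain ⟨L0, hasym⟩ := H92G.an_asym (max (Ka + Kg) (1 / (8 * η))) K₁ hmax1 hK₁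
  have htend : Filter.Tendsto (fun X : ℕ => Real.log X) Filter.atTop Filter.atTop :=
    Real.tendsto_log_atTop.comp tendsto_natCast_atTop_atTop
  obtain ⟨X3, hX3⟩ := Filter.eventually_atTop.mp (htend.eventually_ge_atTop L0)
  refine ⟨X₁ + X₂ + X3 + 1, fun X hX => ?_⟩
  obtain ⟨a0, a1, a2, a3, -, -, -⟩ := hasym _ (hX3 X (by omega))
  obtain ⟨pe, hpe, hcond⟩ := h1 X (by omega)
  have hXpos : (0 : ℝ) < X := by
    have : 0 < X := by omega
    exact_mod_cast this
  set L := Real.log X with hL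
  set K' := max (Ka + Kg) (1 / (8 * η)) with hK'
  have hK'0 : 0 < K' := by linarith
  have hKK' : Ka + Kg ≤ K' := le_max_left _ _
  have hηK' : 1 / (8 * η) ≤ K' := le_max_right _ _
  have hL0 : 0 < L := by linarith
  have hl0 : 0 < Real.log L := by linarith
  -- the level
  have hlow : K' * Real.log L + 1 ≤ 4 * η * L := by
    refine a2.trans ?_
    rw [div_le_iff₀ (by positivity)]
    have h3 : 1 ≤ 8 * η * K' := by
      rw [div_le_iff₀ (by positivity)] at hηK'
      linarith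
    nlinarith
  have hexp : (X : ℝ) ^ (4 * η) = Real.exp (4 * η * L) := by
    rw [Real.rpow_def_of_pos hXpos, mul_comm]
  set Q := ⌊(X : ℝ) ^ (4 * η)⌋₊ with hQ
  have hkl : 0 < K' * Real.log L := by positivity
  have hge2 : 2 ≤ (X : ℝ) ^ (4 * η) := by
    rw [hexp]
    have h3 := Real.add_one_le_exp (4 * η * L)
    linarith
  have hQle : (Q : ℝ) ≤ (X : ℝ) ^ (4 * η) := Nat.floor_le (by positivity)
  have hQge : (X : ℝ) ^ (4 * η) / 2 ≤ Q := by
    have := Nat.lt_floor_add_one ((X : ℝ) ^ (4 * η))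
    rw [← hQ] at this
    linarith
  have hQpos : (0 : ℝ) < Q := by linarith
  have hlogQ : Real.log Q ≤ 4 * η * L := by
    calc Real.log Q ≤ Real.log ((X : ℝ) ^ (4 * η)) := Real.log_le_log hQpos hQle
      _ = _ := by rw [hexp, Real.log_exp]
  have hlogQ2 : 4 * η * L - 1 ≤ Real.log Q := by
    have h4 : Real.log ((X : ℝ) ^ (4 * η) / 2) ≤ Real.log Q :=
      Real.log_le_log (by positivity) hQge
    rw [Real.log_div (by positivity) (by norm_num), hexp, Real.log_exp] at h4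
    have := Real.log_two_lt_d9
    linarith
  have hR : RegP (Ka + Kg) Q X := by
    refine ⟨hKK'.trans a1, ?_, ?_⟩
    · have h3 : (Ka + Kg) * Real.log L ≤ K' * Real.log L :=
        mul_le_mul_of_nonneg_right hKK' hl0.le
      linarith
    · calc (Ka + Kg) * Real.log Q ≤ (Ka + Kg) * (4 * η * L) :=
            mul_le_mul_of_nonneg_left hlogQ hKpos.le
        _ = (4 * (Ka + Kg) * η) * L := by ring
        _ ≤ 1 * L := by
            refine mul_le_mul_of_nonneg_right ?_ hL0.le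
            rw [le_div_iff₀ (by positivity)] at hη0
            linarith
        _ = L := one_mul L
  have hRa : RegP Ka Q X := hR.mono hKpos.le (by linarith)
  have hRg : RegP Kg Q X := hR.mono hKpos.le (by linarith)
  -- the prime `p1`
  obtain ⟨p1, hp1, hp1e⟩ : ∃ p1 : ℕ, p1.Prime ∧ (pe.1 ≠ 1 → p1 ∣ pe.1) := by
    by_cases h : pe.1 = 1
    · exact ⟨2, Nat.prime_two, fun h' => absurd h h'⟩
    · exact ⟨pe.1.minFac, Nat.minFac_prime h, fun _ => Nat.minFac_dvd _⟩
  refine ⟨p1, hp1, fun M hM hMle hMp => ⟨ha Q X hRa, ?_, h2 X (by omega)⟩⟩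
  apply hg Q X hRg _ (Finset.filter_subset _ _)
  intro p hp hbad
  obtain ⟨hp1', hpM⟩ := Finset.mem_filter.1 hp
  by_cases hpp : p = pe
  · subst hpp
    by_cases hone : p.1 = 1
    · have h5 : p = H68T.p0 := H5C.AN5_eq_p0 hone
      have h6 : p ≠ H68T.p0 := by
        unfold PC1 at hp1'
        exact (Finset.mem_filter.1 hp1').2
      exact h6 h5
    · exact hMp ((hp1e hone).trans hpM)
  · have h5 := hcond Q p hbad hpp
    have h6 : (p.1 : ℝ) ≤ M := by
      exact_mod_cast Nat.le_of_dvd hM hpM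
    have h7 : Real.exp (L ^ (1 / 10 : ℝ)) < Real.exp (L / (K₁ * Real.log L)) :=
      Real.exp_lt_exp.mpr a3
    linarith

end Pool.Agent.Lib.H59D
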