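import Pool.Agent.Lib.H59D.P3
import Pool.Agent.Lib.H59D.MX
import Pool.Agent.Lib.H59D.W6a
import Pool.Agent.Lib.H59D.W5
import Pool.Agent.Lib.H59D.W7

/-!
# Chunk P5: the mass of the `t` for which the form `j` is a prime
-/

open Finset

namespace Pool.Agent.Lib.H59D

open Pool.Agent.Lib.H56G
open Pool.Agent.Lib.H5C (MData WX)

section

variable {ι J : Type} [Fintype ι] [DecidableEq ι] [Fintype J] [DecidableEq J]

/-- the normalised restriction -/
noncomputable def P5_c (s : Sys ι J) (α D : ℝ) (j : J) (κ : ι → Option J) : ℝ :=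
  if κ ∈ noJ j then cp j (cw s α D) κ / (1 + th s α D) else 0

theorem P5_c_bd (s : Sys ι J) {α D : ℝ} (hα : 0 ≤ α) (hD : 1 < D) (j : J) (κ : ι → Option J)
    (hκ : κ ∈ noJ j) : 0 ≤ P5_c s α D j κ ∧ P5_c s α D j κ ≤ cc s (bg s α D) D κ := by
  obtain ⟨h1, h2⟩ := cp_le s hα hD j κ hκ
  have hθ : 0 < 1 + th s α D := by
    have := th_nonneg s hα D
    linarith
  unfold P5_c
  rw [if_pos hκ]
  constructor
  · positivity
  · rw [div_le_iff₀ hθ, mul_comm]
    exact h2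

theorem P5_c_supp (s : Sys ι J) {α D : ℝ} (hα : 0 ≤ α) (hD : 1 < D) (j : J) (κ : ι → Option J)
    (h : P5_c s α D j κ ≠ 0) : s.r κ ≤ D := by
  by_contra hcon
  have hκ : κ ∈ noJ j := by
    by_contra hκ
    apply h
    unfold P5_c
    rw [if_neg hκ]
  obtain ⟨h1, h2⟩ := P5_c_bd s hα hD j κ hκ
  have h3 : cc s (bg s α D) D κ = 0 := by
    unfold cc
    rw [if_neg hcon]
  rw [h3] at h2
  exact h (le_antisymm h2 h1)

/-- The main sum. -/
theorem P5_sum (s : Sys ι J) {α D : ℝ} (hα : 0 ≤ α) (hD : 1 < D) (W : ℕ) (hW : 1 ≤ W)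
    (hpr : ∀ i, W < s.pr i) (hsup : ∀ κ, wt s (bg s α D) κ ≠ 0 → 2 * (supp κ).card ≤ W) (j : J) :
    (1 / 64) * ∑ κ ∈ (noJ j).filter (fun κ => ¬ √D < s.r κ), wt s (bg s α D) κ ≤
      ∑ κ ∈ noJ j, (P5_c s α D j κ) ^ 2 * s.ph κ := by
  have hph : ∀ κ : ι → Option J, 0 ≤ s.ph κ := fun κ => zero_le_one.trans (one_le_phi s _)
  have h1 : ∑ κ ∈ (noJ j).filter (fun κ => ¬ √D < s.r κ), (P5_c s α D j κ) ^ 2 * s.ph κ ≤
      ∑ κ ∈ noJ j, (P5_c s α D j κ) ^ 2 * s.ph κ := by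
    apply sum_le_sum_of_subset_of_nonneg (filter_subset _ _)
    intro κ _ _
    exact mul_nonneg (sq_nonneg _) (hph κ)
  refine le_trans ?_ h1
  rw [mul_sum]
  refine sum_le_sum fun κ hκ => ?_
  rw [mem_filter, not_lt] at hκ
  obtain ⟨hκ1, hκ2⟩ := hκ
  by_cases h0 : wt s (bg s α D) κ = 0
  · rw [h0, mul_zero]
    exact mul_nonneg (sq_nonneg _) (hph κ)
  · have hrD : s.r κ ≤ D := by
      refine hκ2.trans ?_
      rw [Real.sqrt_le_left (by linarith)]
      nlinarith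
    have hθ : 0 < 1 + th s α D := by
      have := th_nonneg s hα D
      linarith
    have h2 := le_cp s hα hD W hW hpr j κ hκ1 (hsup κ h0) hκ2
    have h3 : cc s (bg s α D) D κ / 8 ≤ P5_c s α D j κ := by
      unfold P5_c
      rw [if_pos hκ1, le_div_iff₀ hθ]
      linarith
    have h4 := cc_bg_nonneg s hα D κ
    rw [← cc_sq_mul_ph s (bg s α D) D κ hrD]
    calc 1 / 64 * (cc s (bg s α D) D κ ^ 2 * s.ph κ) = (cc s (bg s α D) D κ / 8) ^ 2 * s.ph κ := by
          ring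
      _ ≤ (P5_c s α D j κ) ^ 2 * s.ph κ :=
          mul_le_mul_of_nonneg_right (pow_le_pow_left₀ (by positivity) h3 2) (hph κ)

theorem P5_noJ (s : Sys ι J) {α D : ℝ} (hα : 0 ≤ α) (hD : 1 < D) (W : ℕ) (hW : 1 ≤ W)
    (hpr : ∀ i, W < s.pr i) (hsup : ∀ κ, wt s (bg s α D) κ ≠ 0 → 2 * (supp κ).card ≤ W) (j : J)
    (htail : ∑ κ ∈ univ.filter (fun κ : ι → Option J => √D < s.r κ), wt s (bg s α D) κ ≤
      ZZ s (bg s α D) / 10) :
    4 / 5 * ZZ s (bg s α D) / (1 + Gm s α D) ≤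
      ∑ κ ∈ (noJ j).filter (fun κ => ¬ √D < s.r κ), wt s (bg s α D) κ := by
  have hG : 0 < 1 + Gm s α D := by
    have := Gm_nonneg s α D
    linarith
  have h1 := Pool.Agent.Lib.H5C.sum_noJ_wt s (bg s α D) j
  have h2 := noJ_ge s (bg s α D) W hW hpr (fun A i hi => vv_erase s hα hD.le A i hi) hsup j √D
  change ZZ s (bg s α D) ≤ (1 + Gm s α D) * _ at h1
  change (1 + Gm s α D) / 2 * _ ≤ _ at h2
  have h3 := sum_filter_add_sum_filter_not (noJ j) (fun κ : ι → Option J => √D < s.r κ)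
    (fun κ => wt s (bg s α D) κ)
  rw [div_le_iff₀ hG]
  have h4 := h2.trans htail
  rw [← h3] at h1
  nlinarith

theorem P5_count (s : Sys ι J) [NeZero s.M] {α D : ℝ} (hα : 0 ≤ α) (X T : ℕ) (hX : 1 ≤ X)
    (hpr : ∀ i, (s.pr i : ℝ) ≤ X / 8) (j : J)
    (hbX : ((s.b j + s.M : ℕ) : ℝ) ≤ X / 8) (hT : 60 * X ≤ s.M * T) :
    (1 + th s α D) ^ 2 * ((X : ℝ) / (8 * Real.log ((60 * X : ℕ) : ℝ)) *
      ∑ P ∈ (Icc 1 (60 * X)).filter (fun P => P ≡ s.b j [MOD s.M]),
        Pool.Agent.Lib.H68T.lp (P : ℤ) * Pool.Agent.Lib.H68T.v X P / P *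
          (Pool.Agent.Lib.H5C.Lx s j (P5_c s α D j) P) ^ 2) ≤
      mass s α D T (fun t => (s.b j + s.M * t).Prime) := by
  classical
  have hθ : 0 < 1 + th s α D := by
    have := th_nonneg s hα D
    linarith
  have h1 := Pool.Agent.Lib.H5C.count_ge s X T hX hpr j hbX hT
    (fun κ => cw s α D κ / (1 + th s α D))
  have h2 : ∀ P : ℕ, Pool.Agent.Lib.H5C.Lx s j (cp j (fun κ => cw s α D κ / (1 + th s α D))) P =
      Pool.Agent.Lib.H5C.Lx s j (P5_c s α D j) P := by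
    intro P
    unfold Pool.Agent.Lib.H5C.Lx
    refine sum_congr rfl fun κ hκ => ?_
    congr 1
    unfold P5_c
    rw [if_pos hκ]
    unfold cp
    rw [sum_div]
  simp only [h2] at h1
  have h3 : ∑ t ∈ (Icc 1 T).filter (fun t => (s.b j + s.M * t).Prime),
      (∑ κ, cw s α D κ / (1 + th s α D) * s.U κ t) ^ 2 =
      mass s α D T (fun t => (s.b j + s.M * t).Prime) / (1 + th s α D) ^ 2 := by
    unfold mass
    rw [sum_div]
    refine sum_congr ?_ fun t _ => ?_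
    · ext t
      simp only [mem_filter]
    · unfold Lf
      rw [← div_pow, sum_div]
      congr 1
      refine sum_congr rfl fun κ _ => ?_
      ring
  rw [h3, le_div_iff₀ (by positivity)] at h1
  rw [mul_comm]
  exact h1

end

/-- Proof. Let `D = N`, `θ = th`, `bb = bg s α N`, `c' = cp j (cw s α N)/(1 + θ)` on `noJ j` (and `0`
elsewhere), so `|c'| ≤ cc` (`cp_le`). `P3.prog_ge` with `W = WX X`, `Q = ⌊X^(4η)⌋` (`M N² ≤ X^(3η) ≤ Q`;
`9k ≤ W^(1/8)` from `W ≥ (log X)^16`, `k ℓ loglog X ≤ log X/K`; `RR ≤ 3/2` is `NumF.RR`), and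
`H5C.count_ge` (with `c = cw/(1+θ)`; `Lx` of `cp j c` is `Lx` of `c'`), give
`mass{form j prime} ≥ (1+θ)² X/(8 log (60X) φ(M)) (1/5 Σ_{noJ j} c'² ph - ZZ/(log X)^4)`.
By `le_cp`: `Σ_{noJ j} c'² ph ≥ (1/64) Σ_{κ ∈ noJ j, r κ ≤ √N} wt κ` (`cc² ph = wt`, `H56G.cc_sq_mul_ph`;
`supp_small`), and
`Σ_{noJ j, r ≤ √N} wt = Σ_{noJ j} wt - Σ_{noJ j, r > √N} wt ≥ ZZ/(1+Gm) - (2/(1+Gm)) ZZ/10`
(`H5C.sum_noJ_wt`, `W5.noJ_ge`, `Data.tail`) `≥ (4/5) ZZ/(1+Gm)`. As
`1 + Gm ≤ 2C/(α w) ≤ 2C log N ≤ (log X)²` (`w = log W`, `αw ≤ 1`, `α log N ≥ 1`), the term `ZZ/(log X)^4` is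
negligible. Finally `(1+θ)²/(1+Gm) ≥ θ²αw/(2C) ≥ (ℓ/(Cαw))² αw/(2C) = ℓ²/(2C³ αw)
≥ ℓ² log N/(2C⁴ ℓ k w) ≥ c' η ℓ log X/(k loglog X)` (`ahi`, `lW_le`, `lN_ge`) and
`log (60X) ≤ 2 log X`. -/
theorem prime_mass : ∀ η : ℝ, 0 < η → η ≤ 1 / 1000 → ∀ C : ℝ, ∃ c K : ℝ, 0 < c ∧ 1 ≤ K ∧
    ∀ (X : ℕ) {ι J : Type} [Fintype ι] [DecidableEq ι] [Fintype J] [DecidableEq J]
      (s : Sys ι J) [NeZero s.M] (α : ℝ), Data η C X s α → Rg K X (Fintype.card J) →
    MData ⌊(X : ℝ) ^ (4 * η)⌋₊ X s.M → (s.M : ℝ) ≤ (X : ℝ) ^ η →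
    (∀ p, p.Prime → p ∣ s.M → (p : ℝ) ≤ X / 8) →
    ∀ (j : J) (T : ℕ), Nat.Coprime (s.b j) s.M → ((s.b j + s.M : ℕ) : ℝ) ≤ X / 8 →
      60 * X ≤ s.M * T →
      c * (X / (s.M.totient : ℝ)) *
          (el (Fintype.card J) / (Fintype.card J * Real.log (Real.log X))) *
          ZZ s (bg s α (NN η X)) ≤
        mass s α (NN η X) T (fun t => (s.b j + s.M * t).Prime) := by
  intro η hη hη1 C₀
  set C : ℝ := max C₀ 1 with hC
  have hC1 : 1 ≤ C := le_max_right _ _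
  have hCC : C₀ ≤ C := le_max_left _ _
  obtain ⟨X₀, hprog⟩ := prog_ge
  set B : ℝ := max (max X₀ 60) (800 * (1 + C)) with hB
  have hB1 : (X₀ : ℝ) ≤ B := (le_max_left _ _).trans (le_max_left _ _)
  have hB2 : 60 ≤ B := (le_max_right _ _).trans (le_max_left _ _)
  have hB3 : 800 * (1 + C) ≤ B := le_max_right _ _
  obtain ⟨K₁, hK₁, hnum⟩ := numF η hη hη1 B
  obtain ⟨K₂, hK₂, hsupp⟩ := supp_small η hη hη1
  refine ⟨η / (12800 * (34 * (C ^ 2 * (C * (1 + C))))), max K₁ K₂, by positivity,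
    hK₁.trans (le_max_left _ _), ?_⟩
  intro X ι J _ _ _ _ s _ α hdata hRg hMD hMη hMp j T hcop hbX hT
  have hR1 : Rg K₁ X (Fintype.card J) := hRg.mono (by positivity) (le_max_left _ _)
  have hR2 : Rg K₂ X (Fintype.card J) := hRg.mono (by positivity) (le_max_right _ _)
  have nf := hnum X _ hR1
  have hsup := hsupp X s α hR2
  set k : ℕ := Fintype.card J with hk
  set N : ℕ := NN η X with hN
  set W : ℕ := WX X with hW
  set LX : ℝ := Real.log X with hLX
  set ll : ℝ := Real.log LX with hll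
  have hLX60 : 60 ≤ LX := hB2.trans nf.lX
  have hll60 : 60 ≤ ll := hB2.trans nf.llX
  have hX0 : (0 : ℝ) < X := by
    by_contra h
    have h1 : (X : ℝ) = 0 := le_antisymm (not_lt.1 h) (Nat.cast_nonneg _)
    rw [hLX, h1, Real.log_zero] at hLX60
    linarith
  have hXL : LX ≤ X := by
    have := Real.log_le_sub_one_of_pos hX0
    linarith
  have hX60 : (60 : ℝ) ≤ X := hLX60.trans hXL
  have hX1 : (1 : ℝ) ≤ X := by linarith
  have hXX₀ : X₀ ≤ X := by
    have h1 : (X₀ : ℝ) ≤ X := hB1.trans (nf.lX.trans hXL)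
    exact_mod_cast h1
  have hXn : 1 ≤ X := by exact_mod_cast hX1
  have hNB : B ≤ (N : ℝ) := nf.N_B
  have hN60 : (60 : ℝ) ≤ N := hB2.trans hNB
  have hN1 : (1 : ℝ) < N := by linarith
  have hα0 : 0 ≤ α := hdata.a0.le
  have hNη : (N : ℝ) ≤ (X : ℝ) ^ η := nf.N_le
  have hk1 : (1 : ℝ) ≤ k := by exact_mod_cast nf.k1
  have hk0 : (0 : ℝ) < k := by linarith
  have hW1 : 1 ≤ W := by
    have := nf.W_two
    omega
  have hW0 : (0 : ℝ) < W := by exact_mod_cast (by omega : 0 < W)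
  -- the level
  have hXηpos : 0 < (X : ℝ) ^ η := Real.rpow_pos_of_pos hX0 _
  have hlev : (s.M : ℝ) * ((N : ℝ) * N) ≤ (⌊(X : ℝ) ^ (4 * η)⌋₊ : ℕ) := by
    have h1 : (s.M : ℝ) * ((N : ℝ) * N) ≤ (X : ℝ) ^ η * ((X : ℝ) ^ η * (X : ℝ) ^ η) :=
      mul_le_mul hMη (mul_le_mul hNη hNη (by positivity) (by positivity)) (by positivity)
        (by positivity)
    set y : ℝ := (X : ℝ) ^ η with hy
    have h2 : (X : ℝ) ^ (4 * η) = y ^ 4 := by
      rw [hy, ← Real.rpow_natCast, ← Real.rpow_mul hX0.le]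
      congr 1
      push_cast
      ring
    have h3 : 60 ≤ y := hN60.trans hNη
    have h4 : y ^ 4 < (⌊(X : ℝ) ^ (4 * η)⌋₊ : ℕ) + 1 := by
      rw [← h2]
      exact Nat.lt_floor_add_one _
    have h5 : y * (y * y) + 1 ≤ y ^ 4 := by
      have h6 : 1 ≤ y * (y * y) := by nlinarith [mul_self_nonneg y]
      have h7 : y ^ 4 = y * (y * (y * y)) := by ring
      rw [h7]
      nlinarith
    linarith
  have hQ : ((⌊(X : ℝ) ^ (4 * η)⌋₊ : ℕ) : ℝ) ≤ (X : ℝ) ^ (1 / 12 : ℝ) := by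
    refine (Nat.floor_le (by positivity)).trans ?_
    exact Real.rpow_le_rpow_of_exponent_le hX1 (by linarith)
  have hprX : ∀ i, (s.pr i : ℝ) ≤ X / 8 := by
    intro i
    have h1 : (s.pr i : ℝ) ≤ N := by exact_mod_cast hdata.sv.hi i
    have h2 : (N : ℝ) ≤ (N : ℝ) ^ 50 := le_self_pow₀ hN1.le (by norm_num)
    have h3 := nf.N_pow
    have h4 : (X : ℝ) ^ (1 / 8 : ℝ) ≤ X := by
      have := Real.rpow_le_rpow_of_exponent_le hX1 (by norm_num : (1 / 8 : ℝ) ≤ 1)
      rwa [Real.rpow_one] at this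
    have h5 : 60 * (N : ℝ) ≤ B * (N : ℝ) ^ 50 :=
      mul_le_mul hB2 h2 (by positivity) (by linarith)
    have h6 : (0 : ℝ) ≤ N := by positivity
    linarith
  have hW8 : 9 * (k : ℝ) ≤ (W : ℝ) ^ (1 / 8 : ℝ) := by
    have h1 : LX ^ 2 ≤ (W : ℝ) ^ (1 / 8 : ℝ) := by
      have h2 : (LX ^ 16) ^ (1 / 8 : ℝ) ≤ (W : ℝ) ^ (1 / 8 : ℝ) :=
        Real.rpow_le_rpow (by positivity) nf.W_ge (by norm_num)
      have h3 : (LX ^ 16) ^ (1 / 8 : ℝ) = LX ^ 2 := by
        rw [← Real.rpow_natCast, ← Real.rpow_mul (by linarith)]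
        norm_num
      rwa [h3] at h2
    have h4 := nf.k_le
    have h5 : 9 * (k : ℝ) ≤ LX ^ 2 := by nlinarith
    linarith
  -- the progression
  have hpg := hprog X hXX₀ _ hQ s hMD hMp hprX (bg s α N)
    (fun A i hi => vv_erase s hα0 hN1.le A i hi) W N nf.W_two hdata.sv.lo nf.kW hN1.le hlev hW8
    nf.RR nf.W_ge j hcop (P5_c s α N j) (fun κ h => P5_c_supp s hα0 hN1 j κ h)
    (fun κ hκ => by
      obtain ⟨h1, h2⟩ := P5_c_bd s hα0 hN1 j κ hκ
      rw [abs_of_nonneg h1, abs_of_nonneg (h1.trans h2)]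
      exact h2)
  have hct := P5_count s hα0 (D := N) X T hXn hprX j hbX hT
  have hms := P5_sum s hα0 hN1 W hW1 hdata.sv.lo hsup j
  have hnj := P5_noJ s hα0 hN1 W hW1 hdata.sv.lo hsup j hdata.tail
  set θ : ℝ := th s α N with hθ
  set Γ : ℝ := Gm s α N with hΓ
  set Z : ℝ := ZZ s (bg s α N) with hZ
  have hZ1 : 1 ≤ Z := one_le_ZZ _ _
  have hθ0 : 0 ≤ θ := th_nonneg s hα0 _
  have hΓ0 : 0 ≤ Γ := Gm_nonneg s α _
  have hα := hdata.a0
  set lw : ℝ := Real.log W with hlw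
  have hlw1 : 1 ≤ lw := by
    have := nf.lW_ge
    linarith
  have hlw2 : lw ≤ 17 * ll := nf.lW_le
  have haw0 : 0 < α * lw := by positivity
  -- size of `1 + Γ`
  have hG1 : α * lw * (1 + Γ) ≤ 1 + C := by
    have h1 := hdata.aw
    have h2 := hdata.ghi
    have h3 : α * lw * Γ ≤ C₀ := h2
    have h4 : α * lw ≤ 1 := h1
    nlinarith
  have hel : 1 ≤ el k := el_one_le nf.k1
  have hlN0 : 0 < Real.log N := Real.log_pos hN1
  have hlNX : Real.log N ≤ LX := by
    have h1 := nf.lN_le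
    have h2 : η * LX ≤ 1 * LX := mul_le_mul_of_nonneg_right (by linarith) (by linarith)
    linarith
  have hG2 : 800 * (1 + Γ) ≤ LX ^ 4 := by
    have h1 : 1 ≤ α * Real.log N := by
      have h2 := hdata.alo
      have h3 : 1 ≤ el k * k := one_le_mul_of_one_le_of_one_le hel hk1
      exact h3.trans h2
    have h4 : 1 + Γ ≤ (1 + C) * LX := by
      have h5 : 1 + Γ ≤ (α * Real.log N) * (lw * (1 + Γ)) := by
        have h6 : 1 + Γ ≤ lw * (1 + Γ) := le_mul_of_one_le_left (by linarith) hlw1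
        have h7 : lw * (1 + Γ) ≤ (α * Real.log N) * (lw * (1 + Γ)) :=
          le_mul_of_one_le_left (by positivity) h1
        linarith
      have h8 : (α * Real.log N) * (lw * (1 + Γ)) = (α * lw * (1 + Γ)) * Real.log N := by ring
      rw [h8] at h5
      refine h5.trans ?_
      exact mul_le_mul hG1 hlNX hlN0.le (by linarith)
    have h9 : 800 * (1 + C) ≤ LX := hB3.trans nf.lX
    have h10 : 800 * (1 + Γ) ≤ LX * LX := by nlinarith
    have h11 : LX * LX ≤ LX ^ 4 := by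
      have h12 : LX ^ 4 = (LX * LX) * (LX * LX) := by ring
      rw [h12]
      have h13 : 1 ≤ LX * LX := by nlinarith
      exact le_mul_of_one_le_left (by positivity) h13
    linarith
  -- the main term
  have hmain : Z / (800 * (1 + Γ)) ≤ 1 / 5 * ∑ κ ∈ noJ j, (P5_c s α N j κ) ^ 2 * s.ph κ -
      Z * (LX ^ 4)⁻¹ := by
    have h1 : (1 / 64) * (4 / 5 * Z / (1 + Γ)) ≤ ∑ κ ∈ noJ j, (P5_c s α N j κ) ^ 2 * s.ph κ :=
      (mul_le_mul_of_nonneg_left hnj (by norm_num)).trans hms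
    have h2 : Z * (LX ^ 4)⁻¹ ≤ Z / (800 * (1 + Γ)) := by
      rw [div_eq_mul_inv]
      exact mul_le_mul_of_nonneg_left (inv_anti₀ (by positivity) hG2) (by linarith)
    have h3 : 1 / 5 * ((1 / 64) * (4 / 5 * Z / (1 + Γ))) = 2 * (Z / (800 * (1 + Γ))) := by
      field_simp
      norm_num
    linarith
  have hφ : (0 : ℝ) < s.M.totient := by
    exact_mod_cast Nat.totient_pos.2 (Nat.pos_of_ne_zero (NeZero.ne s.M))
  have h60 : Real.log ((60 * X : ℕ) : ℝ) ≤ 2 * LX := by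
    push_cast
    rw [Real.log_mul (by norm_num) hX0.ne']
    have := Real.log_le_log (by norm_num) hX60
    linarith
  have h60pos : 0 < Real.log ((60 * X : ℕ) : ℝ) := by
    apply Real.log_pos
    push_cast
    linarith
  have hfin1 : (1 + θ) ^ 2 * ((X : ℝ) / (16 * LX) * (1 / (s.M.totient : ℝ) *
      (Z / (800 * (1 + Γ))))) ≤ mass s α N T (fun t => (s.b j + s.M * t).Prime) := by
    refine le_trans ?_ hct
    apply mul_le_mul_of_nonneg_left _ (by positivity)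
    apply mul_le_mul _ _ (by positivity) (by positivity)
    · apply div_le_div_of_nonneg_left hX0.le (by positivity)
      linarith
    · refine le_trans ?_ hpg
      exact mul_le_mul_of_nonneg_left hmain (by positivity)
  refine le_trans ?_ hfin1
  -- comparison of the constants
  have hkey : el k * (η * LX) ≤ (34 * (C ^ 2 * (C * (1 + C))) * (k * ll)) * ((1 + θ) ^ 2 / (1 + Γ)) := by
    rw [mul_div_assoc', le_div_iff₀ (by linarith)]
    have h1 : el k ≤ C * (α * lw * θ) := by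
      have h2 : el k ≤ C₀ * (α * lw * θ) := hdata.tlo
      exact h2.trans (mul_le_mul_of_nonneg_right hCC (by positivity))
    have h3 : α * Real.log N ≤ C * (el k * k) := by
      have h4 : α * Real.log N ≤ C₀ * (el k * k) := hdata.ahi
      exact h4.trans (mul_le_mul_of_nonneg_right hCC (by positivity))
    have h5 : η * LX ≤ 2 * Real.log N := by
      have := nf.lN_ge
      have h6 : η / 2 * LX ≤ Real.log N := this
      linarith
    have hel0 : 0 < el k := by linarith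
    -- multiply by `α lw`
    have h7 : el k * (η * LX) * (1 + Γ) * (α * lw) ≤ el k * (2 * Real.log N) * (1 + C) := by
      calc el k * (η * LX) * (1 + Γ) * (α * lw) = (el k * (η * LX)) * (α * lw * (1 + Γ)) := by ring
        _ ≤ (el k * (2 * Real.log N)) * (1 + C) := by
            apply mul_le_mul _ hG1 (by positivity) (by positivity)
            exact mul_le_mul_of_nonneg_left h5 hel0.le
    have h8 : el k * (2 * Real.log N) * (1 + C) * (α * el k) ≤
        (2 * (1 + C) * C * k) * (el k * el k * el k) := by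
      calc el k * (2 * Real.log N) * (1 + C) * (α * el k) =
            (2 * (1 + C) * (el k * el k)) * (α * Real.log N) := by ring
        _ ≤ (2 * (1 + C) * (el k * el k)) * (C * (el k * k)) :=
            mul_le_mul_of_nonneg_left h3 (by positivity)
        _ = _ := by ring
    have h9 : el k * el k ≤ (C * (α * lw * θ)) * (C * (α * lw * θ)) :=
      mul_le_mul h1 h1 hel0.le (by positivity)
    have h10 : θ * θ ≤ (1 + θ) ^ 2 := by nlinarith
    have h11 : el k * (η * LX) * (1 + Γ) * (α * lw) * (α * el k) ≤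
        (34 * (C ^ 2 * (C * (1 + C))) * (k * ll) * (1 + θ) ^ 2) * (α * lw) * (α * el k) := by
      calc el k * (η * LX) * (1 + Γ) * (α * lw) * (α * el k) ≤
            el k * (2 * Real.log N) * (1 + C) * (α * el k) :=
            mul_le_mul_of_nonneg_right h7 (by positivity)
        _ ≤ (2 * (1 + C) * C * k) * (el k * el k * el k) := h8
        _ = (2 * (1 + C) * C * k * el k) * (el k * el k) := by ring
        _ ≤ (2 * (1 + C) * C * k * el k) * ((C * (α * lw * θ)) * (C * (α * lw * θ))) :=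
            mul_le_mul_of_nonneg_left h9 (by positivity)
        _ = (2 * (1 + C) * C ^ 3 * k * (α * lw) * (α * el k)) * lw * (θ * θ) := by ring
        _ ≤ (2 * (1 + C) * C ^ 3 * k * (α * lw) * (α * el k)) * (17 * ll) * (1 + θ) ^ 2 := by
            apply mul_le_mul _ h10 (by positivity) (by positivity)
            exact mul_le_mul_of_nonneg_left hlw2 (by positivity)
        _ = _ := by ring
    exact le_of_mul_le_mul_right (le_of_mul_le_mul_right h11 (by positivity)) haw0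
  have hll0 : 0 < ll := by linarith
  have hcc : 0 < 34 * (C ^ 2 * (C * (1 + C))) := by positivity
  have hX2 : 0 ≤ (X : ℝ) / (s.M.totient : ℝ) * Z / (12800 * LX) := by positivity
  have h12 : el k * η * LX / (34 * (C ^ 2 * (C * (1 + C))) * (k * ll)) ≤ (1 + θ) ^ 2 / (1 + Γ) := by
    rw [div_le_iff₀ (by positivity)]
    calc el k * η * LX = el k * (η * LX) := by ring
      _ ≤ _ := hkey
      _ = _ := by ring
  calc η / (12800 * (34 * (C ^ 2 * (C * (1 + C))))) * ((X : ℝ) / (s.M.totient : ℝ)) *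
        (el k / (k * ll)) * Z =
      ((X : ℝ) / (s.M.totient : ℝ) * Z / (12800 * LX)) *
        (el k * η * LX / (34 * (C ^ 2 * (C * (1 + C))) * (k * ll))) := by
        field_simp
    _ ≤ ((X : ℝ) / (s.M.totient : ℝ) * Z / (12800 * LX)) * ((1 + θ) ^ 2 / (1 + Γ)) :=
        mul_le_mul_of_nonneg_left h12 hX2
    _ = _ := by
        field_simp
        norm_num

end Pool.Agent.Lib.H59D
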