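import Pool.Agent.Lib.H59D.U2
import Pool.Agent.Lib.H5C.TH3

/-!
# Chunk U3: two forms without sieve primes
-/

open Finset

namespace Pool.Agent.Lib.H59D

open Pool.Agent.Lib.H56G
open Pool.Agent.Lib.H5C (WX cr)

/-- `H5C.pair_maj` for `c = cw/(1+θ)²` (`|cp j2 (cr j1 c)| ≤ cc ≤ 1` by `cp_cr_le`; `cp j2 (cr j1 ·)` is
linear), `D1 = D2 = N`, `V0 = log N/(3000 w)`, `K = 5/4`; multiply by `(1+θ)⁴`:
`mass ≤ T ((5/4) 3000 w/log N)² Σ_{noJ j2} (cp j2 (cr j1 cw))² ph + 18 (1+θ)⁴ N^24`. By `cp_cr_le` and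
`W5.noJ2_ge`: `Σ ≤ (1+θ)⁴ Σ_{noJ j1 ∩ noJ j2} wt ≤ (1+θ)⁴ 4 ZZ/(1+Gm)²`. Estimate
`(w/log N)(1+θ)²/(1+Gm) ≤ C' ℓ/k` as in `one_mass`; error: `N^24 (log X)^20 ≤ X^(1/4)`. -/
theorem two_mass : ∀ η : ℝ, 0 < η → η ≤ 1 / 1000 → ∀ C : ℝ, ∃ C' K : ℝ, 1 ≤ C' ∧ 1 ≤ K ∧
    ∀ (X : ℕ) {ι J : Type} [Fintype ι] [DecidableEq ι] [Fintype J] [DecidableEq J]
      (s : Sys ι J) (α : ℝ), Data η C X s α → Rg K X (Fintype.card J) → ∀ T : ℕ,
      (X : ℝ) ^ (1 / 2 : ℝ) ≤ T → ∀ j1 j2 : J, j1 ≠ j2 →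
      mass s α (NN η X) T (fun t => (∀ i, ¬ s.pr i ∣ s.b j1 + s.M * t) ∧
        ∀ i, ¬ s.pr i ∣ s.b j2 + s.M * t) ≤
        C' * (el (Fintype.card J) / Fintype.card J) ^ 2 * T * ZZ s (bg s α (NN η X)) := by
  intro η h0 h1 C
  obtain ⟨K1, hK1, hnum⟩ := numF η h0 h1 1000
  obtain ⟨K2, hK2, hps⟩ := ps_le_ph η h0 h1
  obtain ⟨K3, hK3, hV0⟩ := V0_le η h0 h1
  obtain ⟨K4, hK4, hest⟩ := U2_est η h0 h1 C
  obtain ⟨K5, hK5, hsupp⟩ := supp_small η h0 h1
  refine ⟨(15000 * |C| ^ 3) ^ 2 * 4 + 1, K1 + K2 + K3 + K4 + K5, ?_, by linarith, ?_⟩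
  · have : 0 ≤ (15000 * |C| ^ 3) ^ 2 := by positivity
    linarith
  intro X ι J _ _ _ _ s α hd hR T hT j1 j2 hj
  have hR1 : Rg K1 X (Fintype.card J) := hR.mono (by linarith) (by linarith)
  have hR2 : Rg K2 X (Fintype.card J) := hR.mono (by linarith) (by linarith)
  have hR3 : Rg K3 X (Fintype.card J) := hR.mono (by linarith) (by linarith)
  have hR4 : Rg K4 X (Fintype.card J) := hR.mono (by linarith) (by linarith)
  have hR5 : Rg K5 X (Fintype.card J) := hR.mono (by linarith) (by linarith)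
  have hn := hnum X _ hR1
  have hps := hps X s hd.sv hR2
  obtain ⟨hV1, hV⟩ := hV0 X s hd.sv hR3
  obtain ⟨hC1, hmain, hθX, hlX⟩ := hest X s α hd hR4
  have hsupp := hsupp X s α hR5
  have hCabs : |C| = C := abs_of_nonneg (by linarith)
  rw [hCabs]
  have hN2 : (1000 : ℝ) ≤ NN η X := hn.N_B
  have hN : (1 : ℝ) ≤ NN η X := by linarith
  have hN1 : (1 : ℝ) < NN η X := by linarith
  have hW : 1 ≤ WX X := by
    have := hn.W_two
    omega
  have hα := hd.a0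
  have hs := hd.sv
  have hX1 : (1 : ℝ) ≤ X := by
    by_contra hcon
    have hX0 : X = 0 := by
      have : X < 1 := by exact_mod_cast (not_le.mp hcon)
      omega
    have h5 := hn.lX
    rw [hX0] at h5
    norm_num at h5
  have hL1 : (1000 : ℝ) ≤ Real.log X := hn.lX
  set D : ℝ := (NN η X : ℝ) with hD
  set θ := th s α D with hθ
  set G := Gm s α D with hG
  set ρ : ℝ := el (Fintype.card J) / Fintype.card J with hρ
  have hθ0 : 0 ≤ θ := th_nonneg s hα.le _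
  have hG0 : 0 ≤ G := Gm_nonneg s _ _
  have hq : 0 < 1 + θ := by linarith
  have hqq : 0 < (1 + θ) ^ 2 := by positivity
  set c : (ι → Option J) → ℝ := fun κ => cw s α D κ / (1 + θ) ^ 2 with hc
  have hcr : ∀ κ, c κ ≠ 0 → s.r κ ≤ D := by
    intro κ h
    apply cw_ne_zero s hN1 κ
    intro h2
    apply h
    show cw s α D κ / (1 + θ) ^ 2 = 0
    rw [h2, zero_div]
  have hcrc : ∀ κ, cr j1 c κ = cr j1 (cw s α D) κ / (1 + θ) ^ 2 := by
    intro κ
    unfold cr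
    split_ifs with h
    · unfold cp
      rw [Finset.sum_div]
    · rw [zero_div]
  have hcpc : ∀ κ, cp j2 (cr j1 c) κ = cp j2 (cr j1 (cw s α D)) κ / (1 + θ) ^ 2 := by
    intro κ
    unfold cp
    rw [Finset.sum_div]
    exact Finset.sum_congr rfl fun A _ => hcrc _
  have hcp1 : ∀ κ ∈ noJ j2, |cp j2 (cr j1 c) κ| ≤
      if κ ∈ noJ j1 then cc s (bg s α D) D κ else 0 := by
    intro κ hκ
    obtain ⟨h2, h3⟩ := cp_cr_le s hα.le hN1 j1 j2 hj κ hκ
    rw [hcpc, abs_of_nonneg (by positivity), div_le_iff₀ hqq]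
    refine h3.trans ?_
    split_ifs with h
    · linarith
    · linarith
  have hcp : ∀ κ ∈ noJ j2, |cp j2 (cr j1 c) κ| ≤ 1 := by
    intro κ hκ
    refine (hcp1 κ hκ).trans ?_
    split_ifs with h
    · exact cc_bg_le_one s hα.le hN κ
    · exact zero_le_one
  have hDD : D ≤ D * D := by nlinarith
  have hmaj := Pool.Agent.Lib.H5C.pair_maj s (WX X) hW hs.lo hn.kW c D D
    (Real.log D / (3000 * Real.log (WX X))) (5 / 4)
    hN hN hV1 (by norm_num) j1 j2 hj hcr hcp hV (fun κ h => hps κ h) T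
  -- the left side
  have hmass : mass s α D T (fun t => (∀ i, ¬ s.pr i ∣ s.b j1 + s.M * t) ∧
        ∀ i, ¬ s.pr i ∣ s.b j2 + s.M * t) = (1 + θ) ^ 4 *
      ∑ t ∈ (Icc 1 T).filter (fun t => (∀ i, ¬ s.pr i ∣ s.b j1 + s.M * t) ∧
        ∀ i, ¬ s.pr i ∣ s.b j2 + s.M * t),
        (∑ κ, c κ * s.U κ t) ^ 2 := by
    unfold mass Lf
    rw [Finset.mul_sum]
    refine Finset.sum_congr ?_ fun t _ => ?_
    · ext t
      simp
    · have h2 : ∑ κ, c κ * s.U κ t = (∑ κ, cw s α D κ * s.U κ t) / (1 + θ) ^ 2 := by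
        rw [Finset.sum_div]
        refine Finset.sum_congr rfl fun κ _ => ?_
        show cw s α D κ / (1 + θ) ^ 2 * s.U κ t = _
        ring
      rw [h2]
      field_simp
  -- the sum of the squares
  have hZ := one_le_ZZ s (bg s α D)
  have hsq : ∑ κ ∈ noJ j2, (cp j2 (cr j1 c) κ) ^ 2 * s.ph κ ≤
      4 * ZZ s (bg s α D) / (1 + G) ^ 2 := by
    have h2 : ∑ κ ∈ noJ j2, (cp j2 (cr j1 c) κ) ^ 2 * s.ph κ ≤
        ∑ κ ∈ (noJ j1).filter (fun κ => κ ∈ noJ j2), wt s (bg s α D) κ := by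
      have h3 : ∑ κ ∈ noJ j2, (cp j2 (cr j1 c) κ) ^ 2 * s.ph κ ≤
          ∑ κ ∈ noJ j2, if κ ∈ noJ j1 then wt s (bg s α D) κ else 0 := by
        refine Finset.sum_le_sum fun κ hκ => ?_
        have hph : (0 : ℝ) ≤ s.ph κ := zero_le_one.trans (one_le_phi s (supp κ))
        have h4 := hcp1 κ hκ
        by_cases hj1 : κ ∈ noJ j1
        · rw [if_pos hj1] at h4 ⊢
          have h3 : (cp j2 (cr j1 c) κ) ^ 2 ≤ (cc s (bg s α D) D κ) ^ 2 := by
            rw [← sq_abs (cp j2 (cr j1 c) κ)]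
            exact pow_le_pow_left₀ (abs_nonneg _) h4 2
          refine (mul_le_mul_of_nonneg_right h3 hph).trans ?_
          by_cases hr : s.r κ ≤ D
          · rw [cc_sq_mul_ph s _ D κ hr]
          · have h4 : cc s (bg s α D) D κ = 0 := if_neg hr
            rw [h4]
            have := wt_nonneg s (bg s α D) κ
            nlinarith
        · rw [if_neg hj1] at h4 ⊢
          have h5 : cp j2 (cr j1 c) κ = 0 := abs_eq_zero.1 (le_antisymm h4 (abs_nonneg _))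
          rw [h5]
          norm_num
      refine h3.trans (le_of_eq ?_)
      rw [← Finset.sum_filter]
      refine Finset.sum_congr ?_ fun _ _ => rfl
      ext κ
      simp only [Finset.mem_filter]
      tauto
    have h3 := noJ2_ge s (bg s α D) (WX X) hW hs.lo (fun A i hi => vv_erase s hα.le hN A i hi)
      hsupp j1 j2 hj
    have h6 : ((1 + G) / 2) ^ 2 * ∑ κ ∈ (noJ j1).filter (fun κ => κ ∈ noJ j2),
      wt s (bg s α D) κ ≤ ZZ s (bg s α D) := h3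
    refine h2.trans ?_
    rw [le_div_iff₀ (by positivity)]
    have h7 : ((1 + G) / 2) ^ 2 = (1 + G) ^ 2 / 4 := by ring
    rw [h7] at h6
    linarith
  have hT0 : (0 : ℝ) ≤ T := Nat.cast_nonneg T
  have hlW : 0 < Real.log (WX X) := by
    have := hn.lW_ge
    have := hn.llX
    linarith
  have hlN : 0 < Real.log D := by
    have := hn.lN_B
    linarith
  rw [hmass]
  have hq2 : 0 ≤ (1 + θ) ^ 4 := by positivity
  refine (mul_le_mul_of_nonneg_left hmaj hq2).trans ?_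
  rw [mul_add]
  have e1 : (1 + θ) ^ 4 * (T * (5 / 4 / (Real.log D / (3000 * Real.log (WX X)))) ^ 2 *
      ∑ κ ∈ noJ j2, (cp j2 (cr j1 c) κ) ^ 2 * s.ph κ) ≤
      (15000 * C ^ 3) ^ 2 * 4 * ρ ^ 2 * T * ZZ s (bg s α D) := by
    have h2 : (1 + θ) ^ 4 * (T * (5 / 4 / (Real.log D / (3000 * Real.log (WX X)))) ^ 2 *
        ∑ κ ∈ noJ j2, (cp j2 (cr j1 c) κ) ^ 2 * s.ph κ) ≤
        (1 + θ) ^ 4 * (T * (5 / 4 / (Real.log D / (3000 * Real.log (WX X)))) ^ 2 *
          (4 * ZZ s (bg s α D) / (1 + G) ^ 2)) := by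
      refine mul_le_mul_of_nonneg_left (mul_le_mul_of_nonneg_left hsq ?_) hq2
      positivity
    refine h2.trans ?_
    have h3 : (1 + θ) ^ 4 * (T * (5 / 4 / (Real.log D / (3000 * Real.log (WX X)))) ^ 2 *
          (4 * ZZ s (bg s α D) / (1 + G) ^ 2)) = 3750 ^ 2 * 4 * T * ZZ s (bg s α D) *
          (Real.log (WX X) / Real.log D * ((1 + θ) ^ 2 / (1 + G))) ^ 2 := by
      field_simp
      ring
    rw [h3]
    have h5 : (Real.log (WX X) / Real.log D * ((1 + θ) ^ 2 / (1 + G))) ^ 2 ≤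
        (4 * C ^ 3 * ρ) ^ 2 := pow_le_pow_left₀ (by positivity) hmain 2
    have h4 : 3750 ^ 2 * 4 * T * ZZ s (bg s α D) *
          (Real.log (WX X) / Real.log D * ((1 + θ) ^ 2 / (1 + G))) ^ 2 ≤
        3750 ^ 2 * 4 * T * ZZ s (bg s α D) * (4 * C ^ 3 * ρ) ^ 2 :=
      mul_le_mul_of_nonneg_left h5 (by positivity)
    refine h4.trans (le_of_eq ?_)
    ring
  have e2 : (1 + θ) ^ 4 * (18 * (D * D * D) ^ 8) ≤ ρ ^ 2 * T * ZZ s (bg s α D) := by
    have hρ0 : 0 < ρ := lt_of_lt_of_le (by positivity) hlX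
    have h2 : (1 + θ) ^ 4 ≤ ((Real.log X) ^ 3) ^ 4 := pow_le_pow_left₀ hq.le hθX 4
    have h3 : (D * D * D) ^ 8 ≤ D ^ 50 := by
      have : (D * D * D) ^ 8 = D ^ 24 := by ring
      rw [this]
      exact pow_le_pow_right₀ hN (by norm_num)
    have h4 : (1 + θ) ^ 4 * (18 * (D * D * D) ^ 8) * (Real.log X) ^ 2 ≤ T := by
      have h5 := hn.N_pow
      have h6 := hn.logpow
      have h7 : (X : ℝ) ^ (η / 2) ≤ (X : ℝ) ^ (1 / 8 : ℝ) :=
        Real.rpow_le_rpow_of_exponent_le hX1 (by linarith)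
      have h8 : (X : ℝ) ^ (1 / 8 : ℝ) * (X : ℝ) ^ (1 / 8 : ℝ) ≤ (X : ℝ) ^ (1 / 2 : ℝ) := by
        rw [← Real.rpow_add (by linarith)]
        exact Real.rpow_le_rpow_of_exponent_le hX1 (by norm_num)
      have h9 : (Real.log X) ^ 14 ≤ (Real.log X) ^ 100 :=
        pow_le_pow_right₀ (by linarith) (by norm_num)
      have h10 : (0 : ℝ) ≤ (Real.log X) ^ 100 := by positivity
      have h11 : (0 : ℝ) ≤ D ^ 50 := by positivity
      calc (1 + θ) ^ 4 * (18 * (D * D * D) ^ 8) * (Real.log X) ^ 2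
          ≤ ((Real.log X) ^ 3) ^ 4 * (18 * D ^ 50) * (Real.log X) ^ 2 := by
            refine mul_le_mul_of_nonneg_right ?_ (by positivity)
            exact mul_le_mul h2 (by linarith) (by positivity) (by positivity)
        _ = (Real.log X) ^ 14 * (18 * D ^ 50) := by ring
        _ ≤ (1000 * (Real.log X) ^ 100) * (1000 * D ^ 50) :=
            mul_le_mul (by linarith) (by linarith) (by positivity) (by positivity)
        _ ≤ (X : ℝ) ^ (1 / 8 : ℝ) * (X : ℝ) ^ (1 / 8 : ℝ) :=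
            mul_le_mul (h6.trans h7) h5 (by positivity) (by positivity)
        _ ≤ T := h8.trans hT
    have h5 : (1 + θ) ^ 4 * (18 * (D * D * D) ^ 8) ≤ ρ ^ 2 * T := by
      have h6 : (1 + θ) ^ 4 * (18 * (D * D * D) ^ 8) ≤ T / (Real.log X) ^ 2 := by
        rw [le_div_iff₀ (by positivity)]
        exact h4
      refine h6.trans ?_
      have h7 : (T : ℝ) / (Real.log X) ^ 2 = (1 / Real.log X) ^ 2 * T := by
        field_simp
      rw [h7]
      exact mul_le_mul_of_nonneg_right (pow_le_pow_left₀ (by positivity) hlX 2) hT0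
    refine h5.trans (le_mul_of_one_le_right (by positivity) hZ)
  have e3 : ((15000 * C ^ 3) ^ 2 * 4 + 1) * ρ ^ 2 * T * ZZ s (bg s α D) =
      (15000 * C ^ 3) ^ 2 * 4 * ρ ^ 2 * T * ZZ s (bg s α D) +
        ρ ^ 2 * T * ZZ s (bg s α D) := by ring
  rw [e3]
  exact add_le_add e1 e2

end Pool.Agent.Lib.H59D
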