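import Pool.Agent.Lib.H59D.W1

/-!
# Chunk W3: upper bounds for the sums with the profile `h`
-/

open Finset

namespace Pool.Agent.Lib.H59D

open Pool.Agent.Lib.H56G

theorem W3_pt (x : ℝ) (hx : 0 ≤ x) (M : ℕ) (hM : x ≤ 2 ^ M) (e : ℕ) :
    1 / (1 + x) ^ e ≤ 2 ^ e * ∑ m ∈ range (M + 1), (1 / 2 ^ m : ℝ) ^ e *
      (if x ≤ 2 ^ m then 1 else 0) := by
  classical
  have hex : ∃ m : ℕ, x ≤ 2 ^ m := ⟨M, hM⟩
  obtain ⟨m, hm1, hm2, hm3⟩ : ∃ m : ℕ, x ≤ 2 ^ m ∧ m ≤ M ∧ (2 : ℝ) ^ m ≤ 2 * (1 + x) := by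
    refine ⟨Nat.find hex, Nat.find_spec hex, Nat.find_min' hex hM, ?_⟩
    rcases Nat.eq_zero_or_pos (Nat.find hex) with h | h
    · rw [h]
      norm_num
      linarith
    · obtain ⟨k, hk⟩ := Nat.exists_eq_succ_of_ne_zero h.ne'
      have h2 := Nat.find_min hex (m := k) (by omega)
      rw [hk, pow_succ]
      push Not at h2
      linarith
  have h1 : 1 / (1 + x) ≤ 2 * (1 / 2 ^ m) := by
    rw [mul_one_div, div_le_div_iff₀ (by linarith) (by positivity)]
    linarith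
  have h2 : 1 / (1 + x) ^ e ≤ 2 ^ e * (1 / 2 ^ m : ℝ) ^ e := by
    rw [← mul_pow, ← one_div_pow]
    exact pow_le_pow_left₀ (by positivity) h1 e
  refine h2.trans (mul_le_mul_of_nonneg_left ?_ (by positivity))
  have h3 : (1 / 2 ^ m : ℝ) ^ e = (1 / 2 ^ m : ℝ) ^ e * (if x ≤ 2 ^ m then 1 else 0) := by
    rw [if_pos hm1, mul_one]
  rw [h3]
  refine Finset.single_le_sum (f := fun m : ℕ => (1 / 2 ^ m : ℝ) ^ e *
      (if x ≤ 2 ^ m then 1 else 0)) ?_ (Finset.mem_range.2 (by omega))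
  intro i _
  split_ifs <;> positivity

theorem W3_sum {β : Type} (S : Finset β) (w u : β → ℝ) (hw : ∀ b ∈ S, 0 ≤ w b)
    (hu : ∀ b ∈ S, 0 ≤ u b) (K α : ℝ) (hα : 0 < α)
    (hV : ∀ v, 0 ≤ v → ∑ b ∈ S.filter (fun b => u b ≤ v), w b ≤ K * v) (M : ℕ)
    (hM : ∀ b ∈ S, α * u b ≤ 2 ^ M) (e : ℕ) :
    ∑ b ∈ S, w b / (1 + α * u b) ^ e ≤
      2 ^ e * ∑ m ∈ range (M + 1), (1 / 2 ^ m : ℝ) ^ e * (K * (2 ^ m / α)) := by
  have h1 : ∀ b ∈ S, w b / (1 + α * u b) ^ e ≤ 2 ^ e * ∑ m ∈ range (M + 1),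
      (1 / 2 ^ m : ℝ) ^ e * (if u b ≤ 2 ^ m / α then w b else 0) := by
    intro b hb
    have h2 := W3_pt (α * u b) (mul_nonneg hα.le (hu b hb)) M (hM b hb) e
    have h3 := mul_le_mul_of_nonneg_left h2 (hw b hb)
    rw [mul_one_div] at h3
    refine h3.trans (le_of_eq ?_)
    rw [mul_left_comm, Finset.mul_sum]
    congr 1
    refine Finset.sum_congr rfl fun m _ => ?_
    have h4 : (α * u b ≤ 2 ^ m) ↔ (u b ≤ 2 ^ m / α) := by
      rw [le_div_iff₀ hα, mul_comm]
    by_cases h5 : u b ≤ 2 ^ m / α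
    · rw [if_pos h5, if_pos (h4.2 h5)]
      ring
    · rw [if_neg h5, if_neg (fun h => h5 (h4.1 h))]
      ring
  refine (Finset.sum_le_sum h1).trans ?_
  rw [← Finset.mul_sum, Finset.sum_comm]
  refine mul_le_mul_of_nonneg_left (Finset.sum_le_sum fun m _ => ?_) (by positivity)
  rw [← Finset.mul_sum, ← Finset.sum_filter]
  exact mul_le_mul_of_nonneg_left (hV _ (by positivity)) (by positivity)

theorem W3_M (y : ℝ) (hy : 0 ≤ y) : ∃ M : ℕ, y ≤ 2 ^ M ∧ (M : ℝ) + 1 ≤ 2 * (1 + Real.log (1 + y)) := by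
  have h0 : 0 ≤ Real.log (1 + y) := Real.log_nonneg (by linarith)
  have hl2 : 0.6931471803 < Real.log 2 := Real.log_two_gt_d9
  set t := Real.log (1 + y) / Real.log 2 with ht
  have ht0 : 0 ≤ t := by positivity
  refine ⟨⌈t⌉₊, ?_, ?_⟩
  · have h1 : Real.log (1 + y) ≤ (⌈t⌉₊ : ℝ) * Real.log 2 := by
      have h2 := Nat.le_ceil t
      rw [ht, div_le_iff₀ (by linarith)] at h2
      exact h2
    have h2 : 1 + y ≤ (2 : ℝ) ^ (⌈t⌉₊ : ℕ) := by
      rw [← Real.log_le_log_iff (by linarith) (by positivity), Real.log_pow]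
      exact h1
    linarith
  · have h1 := Nat.ceil_lt_add_one ht0
    have h2 : t ≤ 2 * Real.log (1 + y) := by
      rw [ht, div_le_iff₀ (by linarith)]
      nlinarith
    linarith

theorem W3_geom (M : ℕ) : ∑ m ∈ range (M + 1), (1 / 2 ^ m : ℝ) ≤ 2 := by
  have h : ∀ M : ℕ, ∑ m ∈ range (M + 1), (1 / 2 ^ m : ℝ) = 2 - 1 / 2 ^ M := by
    intro M
    induction M with
    | zero => norm_num
    | succ n ih =>
      rw [Finset.sum_range_succ, ih, pow_succ]
      field_simp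
      ring
  rw [h M]
  have : (0 : ℝ) < 1 / 2 ^ M := by positivity
  linarith

/-- `Z = log D/4`. Proof. Dyadic blocks. Let `f : ℝ → ℝ` be one of `1/(1+αu)`, `1/(1+αu)²`,
`u/(1+αu)²`. Split the sets `A ≠ ∅` with `u = log ρ(A) ≤ Z` into the block `α u ≤ 1` and the blocks
`2^(m-1) < α u ≤ 2^m`, `1 ≤ m`, `2^(m-1) < α Z`; with `Vup` a block has total weight
`Σ 1/φ(A) ≤ C 2^m/(α log W)`. On the block `m ≥ 1`: `1/(1+αu) ≤ 2^(1-m)`, so it contributes
`≤ 2C/(α log W)` to the first sum; `≤ 4C 2^(-m)/(α log W)` to the second; `≤ (2^m/α) 2^(2-2m) C 2^m/(α log W)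
= 4C/(α² log W)` to the third. The block `αu ≤ 1` contributes `≤ C/(α log W)`, resp. `C/(α² log W)`.
The number of blocks is `≤ 1 + log₂(1 + αZ) ≤ 3 (1 + log (1 + αZ))`. And `ga A = 0` unless
`log ρ(A) ≤ Z` (`ga_eq_zero`; if `D = 1` then all `ga A`, `A ≠ ∅`, satisfy `hh α 0 u = 1/(1+αu)`!
therefore `1 < D`), `ga A ≤ 1/(φ(A)(1+αu))`, `vv (bg) A = ga² φ ≤ 1/(φ (1+αu)²)` (`hh_le`). -/
theorem sums_up : ∃ C : ℝ, 1 ≤ C ∧ ∀ {ι J : Type} [Fintype ι] [DecidableEq ι] [Fintype J]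
    [DecidableEq J] (s : Sys ι J) (W : ℕ), 2 ≤ W → (∀ i, W < s.pr i) → ∀ α D : ℝ, 0 < α →
    1 < D →
    th s α D ≤ C * ((1 + Real.log (1 + α * (Real.log D / 4))) / (α * Real.log W)) ∧
    Gm s α D ≤ C / (α * Real.log W) ∧
    Gt s α D ≤ C / (α * Real.log W) ∧
    ∑ A ∈ univ.filter (fun A : Finset ι => A ≠ ∅), vv s (bg s α D) A * Real.log (s.rho A) ≤
      C * ((1 + Real.log (1 + α * (Real.log D / 4))) / (α ^ 2 * Real.log W)) := by
  obtain ⟨C, hC1, hC⟩ := Vup
  refine ⟨8 * C, by linarith, ?_⟩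
  intro ι J _ _ _ _ s W hW hpr α D hα hD
  set Z := Real.log D / 4 with hZ
  have hZ0 : 0 < Z := by
    have := Real.log_pos hD
    positivity
  have hWp : (2 : ℝ) ≤ (W : ℝ) := by exact_mod_cast hW
  have hL : 0 < Real.log W := Real.log_pos (by linarith)
  set S := univ.filter (fun A : Finset ι => A ≠ ∅ ∧ Real.log (s.rho A) ≤ Z) with hS
  set K := C / Real.log W with hK
  have hK0 : 0 < K := by positivity
  have hph : ∀ A : Finset ι, 0 < s.phi A := fun A => lt_of_lt_of_le zero_lt_one (one_le_phi s A)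
  have hV : ∀ v, 0 ≤ v → ∑ A ∈ S.filter (fun A => Real.log (s.rho A) ≤ v), 1 / s.phi A ≤
      K * v := by
    intro v hv
    have h1 := hC s W hW hpr v hv
    have h2 : C * (v / Real.log W) = K * v := by rw [hK]; ring
    rw [h2] at h1
    refine le_trans ?_ h1
    refine Finset.sum_le_sum_of_subset_of_nonneg ?_ fun A _ _ => (one_div_pos.2 (hph A)).le
    intro A hA
    rw [mem_filter, hS, mem_filter] at hA
    exact mem_filter.2 ⟨mem_univ _, hA.1.2.1, hA.2⟩
  obtain ⟨M, hM1, hM2⟩ := W3_M (α * Z) (by positivity)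
  have hlog0 : 0 ≤ Real.log (1 + α * Z) := Real.log_nonneg (by nlinarith)
  have hMb : ∀ A ∈ S, α * Real.log (s.rho A) ≤ 2 ^ M := by
    intro A hA
    rw [hS, mem_filter] at hA
    exact (mul_le_mul_of_nonneg_left hA.2.2 hα.le).trans hM1
  have hsum := W3_sum S (fun A => 1 / s.phi A) (fun A => Real.log (s.rho A))
    (fun A _ => (one_div_pos.2 (hph A)).le) (fun A _ => log_rho_nonneg s A) K α hα hV M hMb
  -- the two sums
  have hone : ∑ A ∈ S, 1 / s.phi A / (1 + α * Real.log (s.rho A)) ≤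
      4 * C * ((1 + Real.log (1 + α * Z)) / (α * Real.log W)) := by
    have h1 := hsum 1
    simp only [pow_one] at h1
    refine h1.trans ?_
    have h2 : ∀ m ∈ range (M + 1), (1 / 2 ^ m : ℝ) * (K * (2 ^ m / α)) = K / α := by
      intro m _
      field_simp
    rw [Finset.sum_congr rfl h2, Finset.sum_const, card_range, nsmul_eq_mul]
    push_cast
    have h3 : (4 * C * ((1 + Real.log (1 + α * Z)) / (α * Real.log W))) =
        2 * ((2 * (1 + Real.log (1 + α * Z))) * (K / α)) := by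
      rw [hK]
      field_simp
      ring
    rw [h3]
    have h4 : 0 ≤ K / α := by positivity
    exact mul_le_mul_of_nonneg_left (mul_le_mul_of_nonneg_right hM2 h4) (by norm_num)
  have htwo : ∑ A ∈ S, 1 / s.phi A / (1 + α * Real.log (s.rho A)) ^ 2 ≤
      8 * C / (α * Real.log W) := by
    refine (hsum 2).trans ?_
    have h2 : ∀ m ∈ range (M + 1), (1 / 2 ^ m : ℝ) ^ 2 * (K * (2 ^ m / α)) =
        K / α * (1 / 2 ^ m) := by
      intro m _
      field_simp
    rw [Finset.sum_congr rfl h2, ← Finset.mul_sum]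
    have h3 := W3_geom M
    have h4 : 0 ≤ K / α := by positivity
    have h5 : 8 * C / (α * Real.log W) = 2 ^ 2 * (K / α * 2) := by
      rw [hK]
      field_simp
      ring
    rw [h5]
    exact mul_le_mul_of_nonneg_left (mul_le_mul_of_nonneg_left h3 h4) (by norm_num)
  -- restriction to S
  have hrestr : ∀ F : Finset ι → ℝ, (∀ A, Z ≤ Real.log (s.rho A) → F A = 0) →
      ∑ A ∈ univ.filter (fun A : Finset ι => A ≠ ∅), F A = ∑ A ∈ S, F A := by
    intro F hF
    symm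
    refine Finset.sum_subset ?_ ?_
    · intro A hA
      rw [hS, mem_filter] at hA
      exact mem_filter.2 ⟨mem_univ _, hA.2.1⟩
    · intro A hA hA2
      rw [mem_filter] at hA
      refine hF A ?_
      by_contra hc
      exact hA2 (mem_filter.2 ⟨mem_univ _, hA.2, (not_le.1 hc).le⟩)
  have hhle : ∀ A : Finset ι, hh α Z (Real.log (s.rho A)) ≤ 1 / (1 + α * Real.log (s.rho A)) :=
    fun A => hh_le hα.le hZ0.le (log_rho_nonneg s A)
  have hhnn : ∀ A : Finset ι, 0 ≤ hh α Z (Real.log (s.rho A)) :=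
    fun A => hh_nonneg hα.le (log_rho_nonneg s A)
  have hdpos : ∀ A : Finset ι, 0 < 1 + α * Real.log (s.rho A) := by
    intro A
    have := mul_nonneg hα.le (log_rho_nonneg s A)
    linarith
  have hga : ∀ A : Finset ι, ga s α D A ≤ 1 / s.phi A / (1 + α * Real.log (s.rho A)) := by
    intro A
    unfold ga
    rw [div_right_comm]
    exact div_le_div_of_nonneg_right (hhle A) (hph A).le
  have hvv : ∀ A : Finset ι, vv s (bg s α D) A ≤
      1 / s.phi A / (1 + α * Real.log (s.rho A)) ^ 2 := by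
    intro A
    rw [vv_bg]
    unfold ga
    have h1 : (hh α Z (Real.log (s.rho A)) / s.phi A) ^ 2 * s.phi A =
        hh α Z (Real.log (s.rho A)) ^ 2 / s.phi A := by
      have := (hph A).ne'
      field_simp
    rw [← hZ, h1, div_right_comm]
    refine div_le_div_of_nonneg_right ?_ (hph A).le
    rw [← one_div_pow]
    exact pow_le_pow_left₀ (hhnn A) (hhle A) 2
  have hga0 : ∀ A : Finset ι, Z ≤ Real.log (s.rho A) → ga s α D A = 0 :=
    fun A hA => ga_eq_zero s hD A hA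
  have hvv0 : ∀ A : Finset ι, Z ≤ Real.log (s.rho A) → vv s (bg s α D) A = 0 := by
    intro A hA
    rw [vv_bg, hga0 A hA]
    ring
  refine ⟨?_, ?_, ?_, ?_⟩
  · unfold th
    rw [hrestr _ hga0]
    refine (Finset.sum_le_sum fun A _ => hga A).trans (hone.trans ?_)
    refine mul_le_mul_of_nonneg_right (by linarith) (by positivity)
  · unfold Gm
    rw [hrestr _ hvv0]
    exact (Finset.sum_le_sum fun A _ => hvv A).trans htwo
  · unfold Gt
    rw [← hZ, ← hS]
    refine le_trans (le_of_eq (Finset.sum_congr rfl fun A _ => ?_)) htwo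
    rw [div_div]
  · rw [hrestr (fun A => vv s (bg s α D) A * Real.log (s.rho A)) (fun A hA => by
      simp only [hvv0 A hA, zero_mul])]
    have h1 : ∀ A ∈ S, vv s (bg s α D) A * Real.log (s.rho A) ≤
        1 / α * (1 / s.phi A / (1 + α * Real.log (s.rho A))) := by
      intro A _
      refine (mul_le_mul_of_nonneg_right (hvv A) (log_rho_nonneg s A)).trans ?_
      have h2 := hdpos A
      have h3 := hph A
      have h4 := log_rho_nonneg s A
      have h5 : 1 / s.phi A / (1 + α * Real.log (s.rho A)) ^ 2 * Real.log (s.rho A) =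
          1 / α * (1 / s.phi A / (1 + α * Real.log (s.rho A))) *
            (α * Real.log (s.rho A) / (1 + α * Real.log (s.rho A))) := by
        field_simp
      rw [h5]
      refine mul_le_of_le_one_right (by positivity) ?_
      rw [div_le_one h2]
      linarith
    refine (Finset.sum_le_sum h1).trans ?_
    rw [← Finset.mul_sum]
    refine (mul_le_mul_of_nonneg_left hone (by positivity)).trans ?_
    have h6 : 1 / α * (4 * C * ((1 + Real.log (1 + α * Z)) / (α * Real.log W))) =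
        4 * C * ((1 + Real.log (1 + α * Z)) / (α ^ 2 * Real.log W)) := by
      field_simp
    rw [h6]
    refine mul_le_mul_of_nonneg_right (by linarith) (by positivity)

end Pool.Agent.Lib.H59D
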