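import Pool.Agent.Lib.H59D.Defs
import Pool.Agent.Lib.H56G.Vlow
import Pool.Agent.Lib.H56G.Vvge

/-!
# Chunk W2: lower bound for `Σ_{log ρ(A) ≤ v} 1/φ(A)` (some primes may be missing)
-/

open Finset

namespace Pool.Agent.Lib.H59D

open Pool.Agent.Lib.H56G

variable {ι J : Type} [Fintype ι] [DecidableEq ι] [Fintype J] [DecidableEq J]


omit [DecidableEq ι] [Fintype J] [DecidableEq J] in
/-- the missing primes contribute a bounded factor -/
theorem W2_mis (s : Sys ι J) (W N : ℕ) (hW : 2 ≤ W) (hmis : 2 * (Mis s W N).card ≤ W) :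
    ∏ p ∈ Mis s W N, (1 - 1 / (p : ℝ))⁻¹ ≤ 3 := by
  have hWp : (2 : ℝ) ≤ (W : ℝ) := by exact_mod_cast hW
  have h1 : ∀ p ∈ Mis s W N, (1 - 1 / (p : ℝ))⁻¹ ≤ Real.exp (1 / (W : ℝ)) := by
    intro p hp
    have hp1 := (Finset.mem_filter.1 hp).1
    rw [Finset.mem_Ioc] at hp1
    have hp2 : ((W + 1 : ℕ) : ℝ) ≤ (p : ℝ) := by exact_mod_cast hp1.1
    push_cast at hp2
    have h2 : (1 - 1 / (p : ℝ))⁻¹ = 1 + 1 / ((p : ℝ) - 1) := by
      have h3 : (p : ℝ) - 1 ≠ 0 := by linarith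
      have h4 : (p : ℝ) ≠ 0 := by linarith
      field_simp
      ring
    rw [h2]
    have h5 : 1 / ((p : ℝ) - 1) ≤ 1 / (W : ℝ) :=
      one_div_le_one_div_of_le (by linarith) (by linarith)
    have h6 := Real.add_one_le_exp (1 / (W : ℝ))
    linarith
  have h7 : ∀ p ∈ Mis s W N, 0 ≤ (1 - 1 / (p : ℝ))⁻¹ := by
    intro p hp
    have hp1 := (Finset.mem_filter.1 hp).1
    rw [Finset.mem_Ioc] at hp1
    have hp2 : ((W + 1 : ℕ) : ℝ) ≤ (p : ℝ) := by exact_mod_cast hp1.1
    push_cast at hp2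
    rw [inv_nonneg, sub_nonneg, div_le_one (by linarith)]
    linarith
  refine (Finset.prod_le_prod h7 h1).trans ?_
  rw [Finset.prod_const, ← Real.exp_nat_mul]
  have h8 : ((Mis s W N).card : ℝ) * (1 / (W : ℝ)) ≤ 1 := by
    rw [mul_one_div, div_le_one (by linarith)]
    have : ((2 * (Mis s W N).card : ℕ) : ℝ) ≤ (W : ℝ) := by exact_mod_cast hmis
    push_cast at this
    have h9 : (0 : ℝ) ≤ ((Mis s W N).card : ℝ) := Nat.cast_nonneg _
    linarith
  have h9 : Real.exp (((Mis s W N).card : ℝ) * (1 / (W : ℝ))) ≤ Real.exp 1 :=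
    Real.exp_le_exp.2 h8
  have h10 := Real.exp_one_lt_d9
  linarith

theorem W2_low (s : Sys ι J) (W N : ℕ) (hW : 2 ≤ W) (hpr : ∀ i, W < s.pr i)
    (hmis : 2 * (Mis s W N).card ≤ W) (D : ℝ) (hD1 : 1 ≤ D)
    (hDN : D ≤ N) :
    Real.log D ≤ 1500 * Real.log W *
      ∑ A ∈ univ.filter (fun A : Finset ι => s.rho A ≤ D), 1 / s.phi A := by
  classical
  set P : ℝ := ∏ p ∈ Sieve.primesUpTo W, (1 - 1 / (p : ℝ))⁻¹ with hP
  have hPle : P ≤ 500 * Real.log W := Helper57.prod_one_sub_inv_inv_le W hW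
  have hP0 : 0 ≤ P := by
    rw [hP]
    refine Finset.prod_nonneg fun p hp => ?_
    have := (Sieve.mem_primesUpTo.1 hp).1.two_le
    have h2 : (2 : ℝ) ≤ p := by exact_mod_cast this
    rw [inv_nonneg, sub_nonneg, div_le_one (by linarith)]
    linarith
  have hphi_pos : ∀ A : Finset ι, 0 < s.phi A := by
    intro A
    unfold Sys.phi
    apply Finset.prod_pos
    intro i _
    have : (1 : ℝ) < s.pr i := by exact_mod_cast (s.prime i).one_lt
    linarith
  -- the natural number product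
  let R : Finset ι → ℕ := fun A => ∏ i ∈ A, s.pr i
  have hR : ∀ A, ((R A : ℕ) : ℝ) = s.rho A := by
    intro A
    simp only [R, Sys.rho]
    push_cast
    rfl
  have hRpos : ∀ A, 0 < R A := fun A => Finset.prod_pos (fun i _ => (s.prime i).pos)
  let T : ℕ → Finset ι := fun n => univ.filter (fun i => s.pr i ∣ n)
  have hRdvd : ∀ n, R (T n) ∣ n := by
    intro n
    have h1 : R (T n) = ∏ p ∈ (T n).image s.pr, p := by
      rw [Finset.prod_image (fun a _ b _ h => s.inj h)]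
    rw [h1]
    apply Finset.prod_primes_dvd
    · intro p hp
      obtain ⟨i, _, rfl⟩ := Finset.mem_image.1 hp
      exact (s.prime i).prime
    · intro p hp
      obtain ⟨i, hi, rfl⟩ := Finset.mem_image.1 hp
      exact (Finset.mem_filter.1 hi).2
  -- the inner sum
  have hinner : ∀ A : Finset ι,
      ∑ n ∈ (Icc 1 ⌊D⌋₊).filter (fun n => T n = A), ((n : ℕ) : ℝ)⁻¹ ≤
        3 * P * (1 / s.phi A) := by
    intro A
    set F := (Icc 1 ⌊D⌋₊).filter (fun n => T n = A) with hF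
    set S : Finset ℕ := (Sieve.primesUpTo W ∪ A.image s.pr) ∪ Mis s W N with hS
    have hSprime : ∀ p ∈ S, p.Prime := by
      intro p hp
      rcases Finset.mem_union.1 hp with h | h
      · rcases Finset.mem_union.1 h with h | h
        · exact (Sieve.mem_primesUpTo.1 h).1
        · obtain ⟨i, _, rfl⟩ := Finset.mem_image.1 h
          exact s.prime i
      · exact (Finset.mem_filter.1 h).2.1
    have hFd : ∀ n ∈ F, R A ∣ n := by
      intro n hn
      have h1 := (Finset.mem_filter.1 hn).2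
      rw [← h1]
      exact hRdvd n
    have hinj : Set.InjOn (fun n => n / R A) (F : Set ℕ) := by
      intro a ha b hb hab
      have h1 := Nat.div_mul_cancel (hFd a ha)
      have h2 := Nat.div_mul_cancel (hFd b hb)
      simp only at hab
      rw [← h1, ← h2, hab]
    have hsum : ∑ n ∈ F, ((n : ℕ) : ℝ)⁻¹ =
        (s.rho A)⁻¹ * ∑ m ∈ F.image (fun n => n / R A), ((m : ℕ) : ℝ)⁻¹ := by
      rw [Finset.sum_image hinj, Finset.mul_sum]
      apply Finset.sum_congr rfl
      intro n hn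
      rw [← hR, ← mul_inv]
      congr 1
      rw [← Nat.cast_mul, Nat.mul_div_cancel' (hFd n hn)]
    have hfac : ∀ m ∈ F.image (fun n => n / R A), m ∈ Nat.factoredNumbers S := by
      intro m hm
      obtain ⟨n, hn, rfl⟩ := Finset.mem_image.1 hm
      have hn1 := (Finset.mem_filter.1 hn).1
      rw [Finset.mem_Icc] at hn1
      have hn0 : n ≠ 0 := by omega
      rw [Nat.mem_factoredNumbers']
      intro p hp hpn
      have hpn' : p ∣ n := hpn.trans (Nat.div_dvd_of_dvd (hFd n hn))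
      have hple : p ≤ ⌊D⌋₊ := (Nat.le_of_dvd (by omega) hpn').trans hn1.2
      have hpN : p ≤ N := by
        have h1 : (⌊D⌋₊ : ℝ) ≤ D := Nat.floor_le (by linarith)
        have h2 : (p : ℝ) ≤ N := by
          calc (p : ℝ) ≤ (⌊D⌋₊ : ℝ) := by exact_mod_cast hple
            _ ≤ D := h1
            _ ≤ N := hDN
        exact_mod_cast h2
      rw [hS, Finset.mem_union, Finset.mem_union]
      by_cases hpW : p ≤ W
      · left
        left
        exact Sieve.mem_primesUpTo.2 ⟨hp, hpW⟩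
      · by_cases hex : ∃ i, s.pr i = p
        · left
          right
          obtain ⟨i, hi⟩ := hex
          rw [Finset.mem_image]
          refine ⟨i, ?_, hi⟩
          rw [← (Finset.mem_filter.1 hn).2]
          exact Finset.mem_filter.2 ⟨Finset.mem_univ _, by rw [hi]; exact hpn'⟩
        · right
          push Not at hex
          exact Finset.mem_filter.2 ⟨Finset.mem_Ioc.2 ⟨by omega, hpN⟩, hp, hex⟩
    rw [hsum]
    have hle := vlow_sum_le S hSprime _ hfac
    have hdisj : Disjoint (Sieve.primesUpTo W) (A.image s.pr) := by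
      rw [Finset.disjoint_left]
      intro p hp hp'
      obtain ⟨i, _, rfl⟩ := Finset.mem_image.1 hp'
      have h1 := (Sieve.mem_primesUpTo.1 hp).2
      have h2 := hpr i
      omega
    have hdisj2 : Disjoint (Sieve.primesUpTo W ∪ A.image s.pr) (Mis s W N) := by
      rw [Finset.disjoint_left]
      intro p hp hp'
      have h3 := Finset.mem_filter.1 hp'
      rw [Finset.mem_Ioc] at h3
      rcases Finset.mem_union.1 hp with h | h
      · have h1 := (Sieve.mem_primesUpTo.1 h).2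
        omega
      · obtain ⟨i, _, hi⟩ := Finset.mem_image.1 h
        exact h3.2.2 i hi
    rw [hS, Finset.prod_union hdisj2, Finset.prod_union hdisj,
      Finset.prod_image (fun a _ b _ h => s.inj h)] at hle
    have hrpos : 0 < s.rho A := by rw [← hR]; exact_mod_cast hRpos A
    have hkey : (s.rho A)⁻¹ * ∏ i ∈ A, (1 - 1 / ((s.pr i : ℕ) : ℝ))⁻¹ = 1 / s.phi A := by
      unfold Sys.rho Sys.phi
      rw [← Finset.prod_inv_distrib, ← Finset.prod_mul_distrib, one_div,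
        ← Finset.prod_inv_distrib]
      apply Finset.prod_congr rfl
      intro i _
      have h1 : (1 : ℝ) < s.pr i := by exact_mod_cast (s.prime i).one_lt
      have h2 : ((s.pr i : ℕ) : ℝ) ≠ 0 := by linarith
      rw [← mul_inv]
      congr 1
      field_simp
    have hk2 : 0 ≤ P * (1 / s.phi A) := mul_nonneg hP0 (one_div_pos.2 (hphi_pos A)).le
    calc (s.rho A)⁻¹ * ∑ m ∈ F.image (fun n => n / R A), ((m : ℕ) : ℝ)⁻¹
        ≤ (s.rho A)⁻¹ * ((P * ∏ i ∈ A, (1 - 1 / ((s.pr i : ℕ) : ℝ))⁻¹) *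
            ∏ p ∈ Mis s W N, (1 - 1 / (p : ℝ))⁻¹) :=
          mul_le_mul_of_nonneg_left hle (inv_pos.2 hrpos).le
      _ = (P * ((s.rho A)⁻¹ * ∏ i ∈ A, (1 - 1 / ((s.pr i : ℕ) : ℝ))⁻¹)) *
            ∏ p ∈ Mis s W N, (1 - 1 / (p : ℝ))⁻¹ := by ring
      _ = (P * (1 / s.phi A)) * ∏ p ∈ Mis s W N, (1 - 1 / (p : ℝ))⁻¹ := by rw [hkey]
      _ ≤ (P * (1 / s.phi A)) * 3 :=
          mul_le_mul_of_nonneg_left (W2_mis s W N hW hmis) hk2
      _ = 3 * P * (1 / s.phi A) := by ring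
  -- harmonic sum
  have hharm : Real.log D ≤ ∑ n ∈ Icc 1 ⌊D⌋₊, ((n : ℕ) : ℝ)⁻¹ := by
    have h1 := log_le_harmonic_floor D (by linarith)
    refine h1.trans (le_of_eq ?_)
    rw [harmonic_eq_sum_Icc]
    push_cast
    rfl
  have hfib : ∑ n ∈ Icc 1 ⌊D⌋₊, ((n : ℕ) : ℝ)⁻¹ =
      ∑ A ∈ univ.filter (fun A : Finset ι => s.rho A ≤ D),
        ∑ n ∈ (Icc 1 ⌊D⌋₊).filter (fun n => T n = A), ((n : ℕ) : ℝ)⁻¹ := by
    rw [Finset.sum_fiberwise_of_maps_to]
    intro n hn
    rw [Finset.mem_filter]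
    refine ⟨Finset.mem_univ _, ?_⟩
    rw [Finset.mem_Icc] at hn
    rw [← hR]
    have h1 : R (T n) ≤ n := Nat.le_of_dvd (by omega) (hRdvd n)
    calc ((R (T n) : ℕ) : ℝ) ≤ (n : ℝ) := by exact_mod_cast h1
      _ ≤ (⌊D⌋₊ : ℝ) := by exact_mod_cast hn.2
      _ ≤ D := Nat.floor_le (by linarith)
  calc Real.log D ≤ ∑ n ∈ Icc 1 ⌊D⌋₊, ((n : ℕ) : ℝ)⁻¹ := hharm
    _ = ∑ A ∈ univ.filter (fun A : Finset ι => s.rho A ≤ D),
        ∑ n ∈ (Icc 1 ⌊D⌋₊).filter (fun n => T n = A), ((n : ℕ) : ℝ)⁻¹ := hfib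
    _ ≤ ∑ A ∈ univ.filter (fun A : Finset ι => s.rho A ≤ D), 3 * P * (1 / s.phi A) :=
        Finset.sum_le_sum (fun A _ => hinner A)
    _ = 3 * P * ∑ A ∈ univ.filter (fun A : Finset ι => s.rho A ≤ D), 1 / s.phi A := by
        rw [Finset.mul_sum]
    _ ≤ 1500 * Real.log W *
        ∑ A ∈ univ.filter (fun A : Finset ι => s.rho A ≤ D), 1 / s.phi A := by
        apply mul_le_mul_of_nonneg_right (by linarith)
        apply Finset.sum_nonneg
        intro A _
        exact (one_div_pos.2 (hphi_pos A)).le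

/-- Adapt the proof of `H56G.vlow`: with `D = exp v ≤ N`, for `n ≤ D` let `A(n)` be the set of the `i`
with `pr i ∣ n`; `ρ(A(n)) ≤ n ≤ D`. For fixed `A` the sum of `1/n` over the `n ≤ D` with `A(n) = A` is
at most `(1/φ(A)) ∏_{p ≤ W} (1 - 1/p)⁻¹ ∏_{p ∈ Mis s W N} (1 - 1/p)⁻¹` (the primes dividing `n` are
`≤ W`, or sieve primes, or in `Mis`), where `∏_{p ≤ W} ≤ 500 log W` and
`∏_{Mis} (1 + 1/(p-1)) ≤ (1 + 1/W)^(#Mis) ≤ exp (1/2) ≤ 3`. Sum over `A`:
`v = log D ≤ Σ_{n ≤ D} 1/n ≤ 1500 log W Σ_A 1/φ(A)`. -/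
theorem Vlo (s : Sys ι J) (W N : ℕ) (hW : 2 ≤ W) (hpr : ∀ i, W < s.pr i)
    (hmis : 2 * (Mis s W N).card ≤ W) (v : ℝ) (hv0 : 0 ≤ v) (hv : v ≤ Real.log N) :
    v ≤ 1500 * Real.log W *
      ∑ A ∈ univ.filter (fun A : Finset ι => Real.log (s.rho A) ≤ v), 1 / s.phi A := by
  have hlogW : 0 ≤ Real.log W := Real.log_natCast_nonneg W
  have hsum0 : 0 ≤ ∑ A ∈ univ.filter (fun A : Finset ι => Real.log (s.rho A) ≤ v), 1 / s.phi A :=
    Finset.sum_nonneg fun A _ => div_nonneg zero_le_one (zero_le_one.trans (one_le_phi s A))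
  rcases hv0.eq_or_lt with h0 | h0
  · rw [← h0] at hsum0 ⊢
    positivity
  · have hN : (1 : ℝ) < N := by
      by_contra hc
      push Not at hc
      have h1 : N = 0 ∨ N = 1 := by
        have : N ≤ 1 := by exact_mod_cast hc
        omega
      rcases h1 with h1 | h1
      · rw [h1] at hv
        simp at hv
        linarith
      · rw [h1] at hv
        simp at hv
        linarith
    have h1 := W2_low s W N hW hpr hmis (Real.exp v) (Real.one_le_exp hv0)
      ((Real.exp_le_exp.2 hv).trans (le_of_eq (Real.exp_log (by linarith))))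
    rw [Real.log_exp] at h1
    refine h1.trans (le_of_eq ?_)
    have h2 : (univ.filter fun A : Finset ι => s.rho A ≤ Real.exp v) =
        univ.filter fun A : Finset ι => Real.log (s.rho A) ≤ v := by
      ext A
      simp only [mem_filter, mem_univ, true_and]
      rw [Real.log_le_iff_le_exp (lt_of_lt_of_le zero_lt_one (one_le_rho s A))]
    rw [h2]

/-- From `Vlo` (`v = log D2`) and `H56G.VV_ge`. -/
theorem VVlo (s : Sys ι J) (W N : ℕ) (hW : 2 ≤ W) (hpr : ∀ i, W < s.pr i)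
    (hmis : 2 * (Mis s W N).card ≤ W) (D2 : ℝ) (h1 : 1 ≤ D2) (h2 : D2 ≤ N) (κ : ι → Option J)
    (hκ : 2 * (supp κ).card ≤ W) :
    Real.log D2 / (3000 * Real.log W) ≤ s.VV D2 κ := by
  have h3 := W2_low s W N hW hpr hmis D2 h1 h2
  have h4 := VV_ge s W (by omega) hpr D2 κ
  have hWp : (2 : ℝ) ≤ (W : ℝ) := by exact_mod_cast hW
  have hlogW : 0 < Real.log W := Real.log_pos (by linarith)
  set S := ∑ A ∈ univ.filter (fun A : Finset ι => s.rho A ≤ D2), 1 / s.phi A with hS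
  have hS0 : 0 ≤ S :=
    Finset.sum_nonneg fun A _ => div_nonneg zero_le_one (zero_le_one.trans (one_le_phi s A))
  have h5 : ((supp κ).card : ℝ) / W ≤ 1 / 2 := by
    rw [div_le_div_iff₀ (by linarith) (by norm_num)]
    have : ((2 * (supp κ).card : ℕ) : ℝ) ≤ (W : ℝ) := by exact_mod_cast hκ
    push_cast at this
    linarith
  have h6 : 1 / 2 * S ≤ (1 - ((supp κ).card : ℝ) / W) * S :=
    mul_le_mul_of_nonneg_right (by linarith) hS0
  refine le_trans ?_ (h6.trans h4)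
  rw [div_le_iff₀ (by positivity)]
  calc Real.log D2 ≤ 1500 * Real.log W * S := h3
    _ = 1 / 2 * S * (3000 * Real.log W) := by ring

end Pool.Agent.Lib.H59D
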