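import Pool.Agent.Lib.H59D.W1
import Pool.Agent.Lib.H59D.W2

/-!
# Chunk W4: lower bounds for the sums with the profile `h`
-/

open Finset

namespace Pool.Agent.Lib.H59D

open Pool.Agent.Lib.H56G

/-- One block `v < log ρ(A) ≤ B v`. -/
theorem W4_block {ι J : Type} [Fintype ι] [DecidableEq ι] [Fintype J] [DecidableEq J]
    (s : Sys ι J) (W N : ℕ) (hW : 2 ≤ W) (hpr : ∀ i, W < s.pr i)
    (hmis : 2 * (Mis s W N).card ≤ W) (C : ℝ) (hC : 1 ≤ C)
    (hup : ∀ v : ℝ, 0 ≤ v →
      ∑ A ∈ univ.filter (fun A : Finset ι => A ≠ ∅ ∧ Real.log (s.rho A) ≤ v), 1 / s.phi A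
        ≤ C * (v / Real.log W)) (v : ℝ) (hv : Real.log W ≤ v)
    (hvN : 1500 * (C + 2) * v ≤ Real.log N) :
    v / Real.log W ≤ ∑ A ∈ univ.filter (fun A : Finset ι => v < Real.log (s.rho A) ∧
      Real.log (s.rho A) ≤ 1500 * (C + 2) * v), 1 / s.phi A := by
  classical
  have hw : 0 < Real.log W := Real.log_pos (by exact_mod_cast hW)
  have hv0 : 0 < v := lt_of_lt_of_le hw hv
  have hBv : v ≤ 1500 * (C + 2) * v := by nlinarith
  have hBv0 : 0 ≤ 1500 * (C + 2) * v := by positivity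
  have h1 := Vlo s W N hW hpr hmis (1500 * (C + 2) * v) hBv0 hvN
  have h2 : univ.filter (fun A : Finset ι => Real.log (s.rho A) ≤ 1500 * (C + 2) * v) =
      insert ∅ (univ.filter (fun A : Finset ι => A ≠ ∅ ∧ Real.log (s.rho A) ≤ v) ∪
        univ.filter (fun A : Finset ι => v < Real.log (s.rho A) ∧
          Real.log (s.rho A) ≤ 1500 * (C + 2) * v)) := by
    ext A
    simp only [mem_filter, mem_univ, true_and, mem_insert, mem_union]
    constructor
    · intro h
      by_cases hA : A = ∅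
      · exact Or.inl hA
      · rcases le_or_gt (Real.log (s.rho A)) v with h' | h'
        · exact Or.inr (Or.inl ⟨hA, h'⟩)
        · exact Or.inr (Or.inr ⟨h', h⟩)
    · rintro (h | h | h)
      · rw [h]
        simpa [Sys.rho] using hBv0
      · exact h.2.trans hBv
      · exact h.2
  have hdisj : Disjoint (univ.filter (fun A : Finset ι => A ≠ ∅ ∧ Real.log (s.rho A) ≤ v))
      (univ.filter (fun A : Finset ι => v < Real.log (s.rho A) ∧
          Real.log (s.rho A) ≤ 1500 * (C + 2) * v)) := by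
    rw [Finset.disjoint_left]
    intro A hA hA'
    rw [mem_filter] at hA hA'
    linarith [hA.2.2, hA'.2.1]
  have hnot : (∅ : Finset ι) ∉ univ.filter (fun A : Finset ι => A ≠ ∅ ∧ Real.log (s.rho A) ≤ v) ∪
        univ.filter (fun A : Finset ι => v < Real.log (s.rho A) ∧
          Real.log (s.rho A) ≤ 1500 * (C + 2) * v) := by
    rw [mem_union, mem_filter, mem_filter]
    rintro (h | h)
    · exact h.2.1 rfl
    · have h3 := h.2.1
      simp [Sys.rho] at h3
      linarith
  rw [h2, Finset.sum_insert hnot, Finset.sum_union hdisj] at h1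
  have h4 := hup v hv0.le
  set Blk := ∑ A ∈ univ.filter (fun A : Finset ι => v < Real.log (s.rho A) ∧
      Real.log (s.rho A) ≤ 1500 * (C + 2) * v), 1 / s.phi A with hBlk
  set S := ∑ A ∈ univ.filter (fun A : Finset ι => A ≠ ∅ ∧ Real.log (s.rho A) ≤ v), 1 / s.phi A
    with hS
  have h5 : (1 : ℝ) / s.phi (∅ : Finset ι) = 1 := by simp [Sys.phi]
  rw [h5] at h1
  have h6 : Real.log W * S ≤ C * v := by
    have h7 := mul_le_mul_of_nonneg_left h4 hw.le
    have h8 : Real.log W * (C * (v / Real.log W)) = C * v := by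
      field_simp
    linarith
  rw [div_le_iff₀ hw]
  nlinarith

theorem W4_hh {α Z u y : ℝ} (hα : 0 < α) (hZ : 0 < Z) (hu : 0 ≤ u) (huZ : u ≤ Z / 2)
    (hy : 1 ≤ y) (huy : α * u ≤ y) : 1 / (4 * y) ≤ hh α Z u := by
  unfold hh
  have h1 : (1 : ℝ) / 2 ≤ max 0 (1 - u / Z) := by
    refine le_trans ?_ (le_max_right _ _)
    have h2 : u / Z ≤ 1 / 2 := by
      rw [div_le_iff₀ hZ]
      linarith
    linarith
  have h3 : 0 < 1 + α * u := by positivity
  rw [div_le_div_iff₀ (by positivity) h3]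
  nlinarith

/-- the sum of `ga` over a block -/
theorem W4_ga {ι J : Type} [Fintype ι] [DecidableEq ι] [Fintype J] [DecidableEq J]
    (s : Sys ι J) (α D v y : ℝ) (hα : 0 < α) (hD : 1 < D) (B : ℝ) (hy : 1 ≤ y) (hv : 0 ≤ v)
    (hvy : α * (B * v) ≤ y) (hvZ : B * v ≤ Real.log D / 4 / 2) (L : ℝ)
    (hL : L ≤ ∑ A ∈ univ.filter (fun A : Finset ι => v < Real.log (s.rho A) ∧
      Real.log (s.rho A) ≤ B * v), 1 / s.phi A) :
    1 / (4 * y) * L ≤ ∑ A ∈ univ.filter (fun A : Finset ι => v < Real.log (s.rho A) ∧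
      Real.log (s.rho A) ≤ B * v), ga s α D A := by
  have hZ : 0 < Real.log D / 4 := by
    have := Real.log_pos hD
    positivity
  have h1 : 1 / (4 * y) * L ≤ 1 / (4 * y) *
      ∑ A ∈ univ.filter (fun A : Finset ι => v < Real.log (s.rho A) ∧
      Real.log (s.rho A) ≤ B * v), 1 / s.phi A :=
    mul_le_mul_of_nonneg_left hL (by positivity)
  refine h1.trans ?_
  rw [Finset.mul_sum]
  refine Finset.sum_le_sum fun A hA => ?_
  rw [mem_filter] at hA
  obtain ⟨_, hA1, hA2⟩ := hA
  have h2 : α * Real.log (s.rho A) ≤ y := (mul_le_mul_of_nonneg_left hA2 hα.le).trans hvy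
  have h3 := W4_hh hα hZ (log_rho_nonneg s A) (hA2.trans hvZ) hy h2
  have h4 := one_le_phi s A
  unfold ga
  calc 1 / (4 * y) * (1 / s.phi A) = (1 / (4 * y)) / s.phi A := by ring
    _ ≤ _ := div_le_div_of_nonneg_right h3 (by linarith)

/-- the sum of the squares over a block -/
theorem W4_vv {ι J : Type} [Fintype ι] [DecidableEq ι] [Fintype J] [DecidableEq J]
    (s : Sys ι J) (α D v y : ℝ) (hα : 0 < α) (hD : 1 < D) (B : ℝ) (hy : 1 ≤ y) (hv : 0 ≤ v)
    (hvy : α * (B * v) ≤ y) (hvZ : B * v ≤ Real.log D / 4 / 2) (L : ℝ)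
    (hL : L ≤ ∑ A ∈ univ.filter (fun A : Finset ι => v < Real.log (s.rho A) ∧
      Real.log (s.rho A) ≤ B * v), 1 / s.phi A) :
    (1 / (4 * y)) ^ 2 * L ≤ ∑ A ∈ univ.filter (fun A : Finset ι => v < Real.log (s.rho A) ∧
      Real.log (s.rho A) ≤ B * v), vv s (bg s α D) A := by
  have hZ : 0 < Real.log D / 4 := by
    have := Real.log_pos hD
    positivity
  have h1 : (1 / (4 * y)) ^ 2 * L ≤ (1 / (4 * y)) ^ 2 *
      ∑ A ∈ univ.filter (fun A : Finset ι => v < Real.log (s.rho A) ∧
      Real.log (s.rho A) ≤ B * v), 1 / s.phi A :=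
    mul_le_mul_of_nonneg_left hL (by positivity)
  refine h1.trans ?_
  rw [Finset.mul_sum]
  refine Finset.sum_le_sum fun A hA => ?_
  rw [mem_filter] at hA
  obtain ⟨_, hA1, hA2⟩ := hA
  have h2 : α * Real.log (s.rho A) ≤ y := (mul_le_mul_of_nonneg_left hA2 hα.le).trans hvy
  have h3 := W4_hh hα hZ (log_rho_nonneg s A) (hA2.trans hvZ) hy h2
  have h4 := one_le_phi s A
  have h4' : 0 < s.phi A := by linarith
  rw [vv_bg]
  unfold ga
  have h5 : (1 / (4 * y)) ^ 2 ≤ (hh α (Real.log D / 4) (Real.log (s.rho A))) ^ 2 :=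
    pow_le_pow_left₀ (by positivity) h3 2
  calc (1 / (4 * y)) ^ 2 * (1 / s.phi A)
      ≤ (hh α (Real.log D / 4) (Real.log (s.rho A))) ^ 2 * (1 / s.phi A) :=
        mul_le_mul_of_nonneg_right h5 (by positivity)
    _ = _ := by field_simp

/-- many blocks -/
theorem W4_blocks {ι J : Type} [Fintype ι] [DecidableEq ι] [Fintype J] [DecidableEq J]
    (s : Sys ι J) (α D w B : ℝ) (hα : 0 < α) (hD : 1 < D) (hB : 1 ≤ B) (hw : 0 < w)
    (hblk : ∀ v : ℝ, 1 / α ≤ v → B * v ≤ Real.log D / 4 / 2 →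
      v / w ≤ ∑ A ∈ univ.filter (fun A : Finset ι => v < Real.log (s.rho A) ∧
        Real.log (s.rho A) ≤ B * v), 1 / s.phi A) (M : ℕ)
    (hM : B ^ M / α ≤ Real.log D / 4 / 2) :
    (M : ℝ) * (1 / (4 * B * (α * w))) ≤ ∑ A ∈ univ.filter (fun A : Finset ι =>
      1 / α < Real.log (s.rho A) ∧ Real.log (s.rho A) ≤ B ^ M / α), ga s α D A := by
  induction M with
  | zero =>
    simp only [Nat.cast_zero, zero_mul]
    exact Finset.sum_nonneg fun A _ => ga_nonneg s hα.le D A
  | succ M ih =>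
    have hBM : (1 : ℝ) ≤ B ^ M := one_le_pow₀ hB
    have hstep : B ^ M / α ≤ B ^ (M + 1) / α := by
      apply div_le_div_of_nonneg_right _ hα.le
      rw [pow_succ]
      nlinarith
    have h1 := ih (hstep.trans hM)
    have h2 : univ.filter (fun A : Finset ι =>
        1 / α < Real.log (s.rho A) ∧ Real.log (s.rho A) ≤ B ^ (M + 1) / α) =
        univ.filter (fun A : Finset ι =>
        1 / α < Real.log (s.rho A) ∧ Real.log (s.rho A) ≤ B ^ M / α) ∪
        univ.filter (fun A : Finset ι => B ^ M / α < Real.log (s.rho A) ∧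
        Real.log (s.rho A) ≤ B * (B ^ M / α)) := by
      have hBB : B * (B ^ M / α) = B ^ (M + 1) / α := by
        rw [pow_succ]
        ring
      have h1M : 1 / α ≤ B ^ M / α := div_le_div_of_nonneg_right hBM hα.le
      ext A
      simp only [mem_filter, mem_univ, true_and, mem_union, hBB]
      constructor
      · rintro ⟨g1, g2⟩
        rcases le_or_gt (Real.log (s.rho A)) (B ^ M / α) with h' | h'
        · exact Or.inl ⟨g1, h'⟩
        · exact Or.inr ⟨h', g2⟩
      · rintro (⟨g1, g2⟩ | ⟨g1, g2⟩)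
        · exact ⟨g1, g2.trans hstep⟩
        · exact ⟨lt_of_le_of_lt h1M g1, g2⟩
    have hdisj : Disjoint (univ.filter (fun A : Finset ι =>
        1 / α < Real.log (s.rho A) ∧ Real.log (s.rho A) ≤ B ^ M / α))
        (univ.filter (fun A : Finset ι => B ^ M / α < Real.log (s.rho A) ∧
        Real.log (s.rho A) ≤ B * (B ^ M / α))) := by
      rw [Finset.disjoint_left]
      intro A hA hA'
      rw [mem_filter] at hA hA'
      linarith [hA.2.2, hA'.2.1]
    rw [h2, Finset.sum_union hdisj]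
    have hBB : B * (B ^ M / α) = B ^ (M + 1) / α := by
      rw [pow_succ]
      ring
    have h1M : 1 / α ≤ B ^ M / α := div_le_div_of_nonneg_right hBM hα.le
    have h3 := hblk (B ^ M / α) h1M (by rw [hBB]; exact hM)
    have h4 := W4_ga s α D (B ^ M / α) (B ^ (M + 1)) hα hD B (one_le_pow₀ hB) (by positivity)
      (by rw [hBB]; apply le_of_eq; field_simp) (by rw [hBB]; exact hM) _ h3
    have h5 : 1 / (4 * B ^ (M + 1)) * (B ^ M / α / w) = 1 / (4 * B * (α * w)) := by
      have hB0 : B ≠ 0 := by positivity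
      have hBM0 : B ^ M ≠ 0 := by positivity
      rw [pow_succ]
      field_simp
    rw [h5] at h4
    push_cast
    linarith

/-- `Z = log D/4`. Let `V(v) = Σ_{log ρ(A) ≤ v} 1/φ(A)` (with `A = ∅`), `w = log W`.
`v/(1500 w) ≤ V(v) ≤ 1 + C₁ v/w` for `0 ≤ v ≤ log N` (`Vlo`, `Vup`). Let `B = 1500 (C₁ + 2) + 2`
(a natural number), so that `V(Bv) - V(v) ≥ (B/1500 - C₁) v/w - 1 ≥ v/w` for `v ≥ w`, `Bv ≤ log N`.

`Gm`: with `v = 1/α ≥ w`, `B v ≤ Z/2` (as `αZ ≥ K ≥ 2B`): the sets with `1/α < u ≤ B/α`, `u = log ρ(A)`,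
have `h(u) ≥ (1/2)/(1 + B)` and `Σ 1/φ(A) ≥ 1/(αw)`; `vv (bg) A = h(u)²/φ(A)`. So
`Gm ≥ 1/(4 (1+B)² α w)`.

`th`: for every `m ∈ ℕ` with `B^(m+1)/α ≤ Z/2`: the sets with `B^m/α < u ≤ B^(m+1)/α` are nonempty sets
with `h(u) ≥ (1/2)/(1 + B^(m+1)) ≥ 1/(4 B^(m+1))`, and `Σ 1/φ(A) ≥ B^m/(αw)`; contribution
`≥ 1/(4B αw)`. These blocks are disjoint, their number is `≥ log (αZ/2)/log B - 1 ≥ c log (1 + αZ)`
for `αZ ≥ K`; and `log(1+αZ) ≥ (1 + log (1+αZ))/2`. -/
theorem sums_lo : ∃ c K : ℝ, 0 < c ∧ 1 ≤ K ∧ ∀ {ι J : Type} [Fintype ι] [DecidableEq ι]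
    [Fintype J] [DecidableEq J] (s : Sys ι J) (W N : ℕ), 2 ≤ W → (∀ i, W < s.pr i) →
    2 * (Mis s W N).card ≤ W → ∀ α D : ℝ, 0 < α → α * Real.log W ≤ 1 → 1 < D → D ≤ N →
    K ≤ α * (Real.log D / 4) →
    c / (α * Real.log W) ≤ Gm s α D ∧
    c * ((1 + Real.log (1 + α * (Real.log D / 4))) / (α * Real.log W)) ≤ th s α D := by
  obtain ⟨C, hC, hup⟩ := Vup
  set B : ℝ := 1500 * (C + 2) with hB
  have hB1 : 4500 ≤ B := by rw [hB]; linarith
  refine ⟨1 / (16 * B ^ 2), 2 * B, by positivity, by linarith, ?_⟩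
  intro ι J _ _ _ _ s W N hW hpr hmis α D hα hαw hD hDN hK
  have hw : 0 < Real.log W := Real.log_pos (by exact_mod_cast hW)
  have hlogD : 0 < Real.log D := Real.log_pos hD
  have hlogN : Real.log D ≤ Real.log N := Real.log_le_log (by linarith) hDN
  have hblk : ∀ v : ℝ, 1 / α ≤ v → B * v ≤ Real.log D / 4 / 2 →
      v / Real.log W ≤ ∑ A ∈ univ.filter (fun A : Finset ι => v < Real.log (s.rho A) ∧
        Real.log (s.rho A) ≤ B * v), 1 / s.phi A := by
    intro v hv1 hv2
    have hwv : Real.log W ≤ v := by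
      refine le_trans ?_ hv1
      rw [le_div_iff₀ hα]
      linarith
    exact W4_block s W N hW hpr hmis C hC (fun v hv => hup s W hW hpr v hv) v hwv
      (hv2.trans (by linarith))
  have hx : 1 / α * B ≤ Real.log D / 4 / 2 := by
    rw [div_mul_eq_mul_div, div_le_iff₀ hα]
    linarith
  constructor
  · have h1 := hblk (1 / α) le_rfl (by linarith)
    have h2 := W4_vv s α D (1 / α) B hα hD B (by linarith) (by positivity)
      (by apply le_of_eq; field_simp) (by linarith) _ h1
    have h3 : (1 / (4 * B)) ^ 2 * (1 / α / Real.log W) = 1 / (16 * B ^ 2) / (α * Real.log W) := by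
      field_simp
      norm_num
    rw [h3] at h2
    refine h2.trans ?_
    unfold Gm
    refine Finset.sum_le_sum_of_subset_of_nonneg ?_ fun A _ _ => vv_nonneg s _ A
    intro A hA
    rw [mem_filter] at hA ⊢
    refine ⟨mem_univ A, ?_⟩
    rintro rfl
    have h4 := hA.2.1
    have h5 : 0 < 1 / α := by positivity
    simp [Sys.rho] at h4
    linarith [inv_pos.2 hα]
  · set x : ℝ := α * (Real.log D / 4) with hxdef
    have hx0 : 9000 ≤ x := by linarith
    set M : ℕ := ⌊Real.log (x / 2) / Real.log B⌋₊ with hM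
    have hlogB : 0 < Real.log B := Real.log_pos (by linarith)
    have hlogx : Real.log B ≤ Real.log (x / 2) := Real.log_le_log (by linarith) (by linarith)
    have hq : 1 ≤ Real.log (x / 2) / Real.log B := by
      rw [le_div_iff₀ hlogB]
      linarith
    have hM1 : (M : ℝ) ≤ Real.log (x / 2) / Real.log B := Nat.floor_le (by linarith)
    have hM2 : Real.log (x / 2) / Real.log B < M + 1 := Nat.lt_floor_add_one _
    have hM3 : 1 ≤ M := by
      rw [hM, Nat.one_le_floor_iff]
      exact hq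
    have hM3' : (1 : ℝ) ≤ M := by exact_mod_cast hM3
    have hBM : B ^ M ≤ x / 2 := by
      have h1 : (M : ℝ) * Real.log B ≤ Real.log (x / 2) := by
        rw [← le_div_iff₀ hlogB]
        exact hM1
      rw [← Real.log_pow] at h1
      exact (Real.log_le_log_iff (by positivity) (by positivity)).1 h1
    have hBMα : B ^ M / α ≤ Real.log D / 4 / 2 := by
      rw [div_le_iff₀ hα]
      rw [hxdef] at hBM
      linarith
    have h1 := W4_blocks s α D (Real.log W) B hα hD (by linarith) hw hblk M hBMα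
    have h2 : ∑ A ∈ univ.filter (fun A : Finset ι =>
      1 / α < Real.log (s.rho A) ∧ Real.log (s.rho A) ≤ B ^ M / α), ga s α D A ≤ th s α D := by
      unfold th
      refine Finset.sum_le_sum_of_subset_of_nonneg ?_ fun A _ _ => ga_nonneg s hα.le D A
      intro A hA
      rw [mem_filter] at hA ⊢
      refine ⟨mem_univ A, ?_⟩
      rintro rfl
      have h4 := hA.2.1
      simp [Sys.rho] at h4
      linarith [inv_pos.2 hα]
    refine le_trans ?_ (h1.trans h2)
    have h3 : 1 + Real.log (1 + x) ≤ 2 * Real.log (x / 2) := by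
      have e1 : (1 : ℝ) ≤ Real.log 3 := by
        rw [Real.le_log_iff_exp_le (by norm_num)]
        linarith [Real.exp_one_lt_d9]
      have e2 : Real.log 3 + Real.log (1 + x) = Real.log (3 * (1 + x)) :=
        (Real.log_mul (by norm_num) (by positivity)).symm
      have e3 : 2 * Real.log (x / 2) = Real.log ((x / 2) ^ 2) := by
        rw [Real.log_pow]
        norm_num
      have e4 : Real.log (3 * (1 + x)) ≤ Real.log ((x / 2) ^ 2) :=
        Real.log_le_log (by positivity) (by nlinarith)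
      linarith
    have h4 : Real.log (x / 2) ≤ 2 * M * Real.log B := by
      have h5 : Real.log (x / 2) < (M + 1) * Real.log B := by
        rw [← div_lt_iff₀ hlogB]
        exact hM2
      nlinarith
    have h6 : Real.log B ≤ B := by
      have := Real.log_le_sub_one_of_pos (show 0 < B by linarith)
      linarith
    have h7 : 1 + Real.log (1 + x) ≤ 4 * M * B := by
      have h8 : (M : ℝ) * Real.log B ≤ M * B := mul_le_mul_of_nonneg_left h6 (by positivity)
      linarith
    have haw : 0 < α * Real.log W := by positivity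
    calc 1 / (16 * B ^ 2) * ((1 + Real.log (1 + x)) / (α * Real.log W))
        ≤ 1 / (16 * B ^ 2) * ((4 * M * B) / (α * Real.log W)) := by
          apply mul_le_mul_of_nonneg_left _ (by positivity)
          exact div_le_div_of_nonneg_right h7 haw.le
      _ = M * (1 / (4 * B * (α * Real.log W))) := by
          have hB0 : B ≠ 0 := by positivity
          have hα0 : α ≠ 0 := hα.ne'
          have hw0 : Real.log W ≠ 0 := hw.ne'
          field_simp
          norm_num

end Pool.Agent.Lib.H59D
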