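import Pool.Agent.Lib.H59D.W6a
import Pool.Agent.Lib.H59D.W3
import Pool.Agent.Lib.H59D.W4
import Pool.Agent.Lib.H59D.W5

/-!
# Chunk W6: the data exist
-/

open Finset

namespace Pool.Agent.Lib.H59D

open Pool.Agent.Lib.H56G
open Pool.Agent.Lib.H5C (WX)

theorem W6_log {t : ℝ} (ht : 0 ≤ t) : Real.log (1 + t ^ 2) ≤ 2 * t := by
  have h1 : Real.log (1 + t ^ 2) ≤ Real.log ((1 + t) ^ 2) := by
    apply Real.log_le_log (by positivity)
    nlinarith
  have h2 : Real.log ((1 + t) ^ 2) = 2 * Real.log (1 + t) := by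
    rw [Real.log_pow]
    norm_num
  have h3 : Real.log (1 + t) ≤ (1 + t) - 1 := Real.log_le_sub_one_of_pos (by linarith)
  linarith

/-- The logarithm `1 + log (1 + K₁ ℓ k/4)` compared with `ℓ`. -/
theorem W6_ell {K₁ : ℝ} (hK : 4 ≤ K₁) {k : ℕ} (hk : 1 ≤ k) :
    el k ≤ 1 + Real.log (1 + K₁ * (el k * k) / 4) ∧
      1 + Real.log (1 + K₁ * (el k * k) / 4) ≤ (2 + Real.log (1 + K₁)) * el k := by
  have hl := el_one_le hk
  have hlk := el_le hk
  have hk1 : (1 : ℝ) ≤ k := by exact_mod_cast hk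
  have hlogk : 0 ≤ Real.log k := Real.log_nonneg hk1
  have hLam : 0 ≤ Real.log (1 + K₁) := Real.log_nonneg (by linarith)
  constructor
  · have h1 : Real.log k ≤ Real.log (1 + K₁ * (el k * k) / 4) := by
      apply Real.log_le_log (by linarith)
      have h2 : (k : ℝ) ≤ el k * k := by nlinarith
      have h3 : 0 ≤ el k * k := by positivity
      nlinarith
    have h4 : el k = 1 + Real.log k := rfl
    rw [h4] at h1 ⊢
    linarith
  · have h1 : Real.log (1 + K₁ * (el k * k) / 4) ≤ Real.log ((1 + K₁) * (k : ℝ) ^ 2) := by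
      apply Real.log_le_log (by positivity)
      have h2 : el k * k ≤ (k : ℝ) ^ 2 := by nlinarith
      have h3 : K₁ * (el k * k) ≤ K₁ * (k : ℝ) ^ 2 := mul_le_mul_of_nonneg_left h2 (by linarith)
      have h4 : (1 : ℝ) ≤ (k : ℝ) ^ 2 := one_le_pow₀ hk1
      have h5 : 0 ≤ K₁ * (k : ℝ) ^ 2 := by positivity
      nlinarith
    have h2 : Real.log ((1 + K₁) * (k : ℝ) ^ 2) = Real.log (1 + K₁) + 2 * Real.log k := by
      rw [Real.log_mul (by positivity) (by positivity), Real.log_pow]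
      norm_num
    have h4 : el k = 1 + Real.log k := rfl
    have h5 : 0 ≤ Real.log (1 + K₁) * Real.log k := mul_nonneg hLam hlogk
    rw [h2] at h1
    rw [h4] at h1 ⊢
    nlinarith

theorem W6_alg {a w LN Cup c lam k e Z : ℝ} (ha : 0 < a) (hw : 0 < w) (hLN : 0 < LN)
    (hc : 0 < c) :
    2 / LN * (k * (2 * (a * w) / c * (Cup * (lam * e) / (a ^ 2 * w)) * Z)) =
      (40 * Cup / c * lam) * (e * k) / (10 * (a * LN)) * Z := by
  field_simp
  ring

/-- `α = K₁ ℓ k/log N` for a large absolute constant `K₁`; `D = N`, `Z = log N/4`, `w = log W`.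
`alo`, `ahi` are clear; `α w ≤ 1` from the regime (`NumF.kL`, `lN_ge`, `lW_le`). `αZ = K₁ ℓ k/4` is at
least the constant of `sums_lo` and `k ≤ 1 + αZ ≤ (1 + K₁) k²` (`el_le`), so
`ℓ ≤ 1 + log (1+αZ) ≤ (3 + log (1+K₁)) ℓ`; now `tlo, thi, glo, ghi, gt` follow from `sums_lo`,
`sums_up` (`2 #Mis ≤ 2 (log X)³ ≤ W`). Tail: by Markov's inequality and `mean_log` (`vv_erase`,
`supp_small`)
`Σ_{r κ > √N} wt ≤ (2/log N) Σ wt log r κ ≤ (2/log N) k (2/Gm) C (1 + log (1+αZ))/(α² w) ZZ
≤ (4C/c) k (1 + log(1+αZ))/(α log N) ZZ = (4C/c) (1 + log(1+αZ))/(K₁ ℓ) ZZ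
≤ (4C/c) (3 + log (1+K₁))/K₁ ZZ ≤ ZZ/10` for `K₁` large. -/
theorem exists_data : ∀ η : ℝ, 0 < η → η ≤ 1 / 1000 → ∃ C K : ℝ, 1 ≤ C ∧ 1 ≤ K ∧
    ∀ (X : ℕ) {ι J : Type} [Fintype ι] [DecidableEq ι] [Fintype J] [DecidableEq J]
      (s : Sys ι J), Sv η X s → Rg K X (Fintype.card J) → ∃ α : ℝ, Data η C X s α := by
  intro η hη hη2
  obtain ⟨c, Klo, hc, hKlo, hlo⟩ := sums_lo
  obtain ⟨Cup, hCup, hup⟩ := sums_up
  obtain ⟨Ks, hKs, hsup⟩ := supp_small η hη hη2
  -- the constant `K₁ = t²`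
  obtain ⟨M, hM⟩ : ∃ M : ℝ, M = 40 * Cup / c := ⟨_, rfl⟩
  have hM0 : 0 < M := by rw [hM]; positivity
  obtain ⟨t, ht⟩ : ∃ t : ℝ, t = 2 * M + 2 + 4 * Klo := ⟨_, rfl⟩
  have ht6 : 6 ≤ t := by rw [ht]; linarith
  obtain ⟨K₁, hK₁⟩ : ∃ K₁ : ℝ, K₁ = t ^ 2 := ⟨_, rfl⟩
  have htt : t * 1 ≤ t * t := mul_le_mul_of_nonneg_left (by linarith) (by linarith)
  have hK₁4 : 4 ≤ K₁ := by rw [hK₁, pow_two]; linarith
  have hK₁lo : 4 * Klo ≤ K₁ := by rw [hK₁, pow_two]; linarith
  have hLam0 : 0 ≤ Real.log (1 + K₁) := Real.log_nonneg (by linarith)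
  have hLam : Real.log (1 + K₁) ≤ 2 * t := by
    rw [hK₁]
    exact W6_log (by linarith)
  have hMK : M * (2 + Real.log (1 + K₁)) ≤ K₁ := by
    have h1 : M * (2 + Real.log (1 + K₁)) ≤ M * (2 + 2 * t) :=
      mul_le_mul_of_nonneg_left (by linarith) hM0.le
    have h2 : M * (2 + 2 * t) ≤ t ^ 2 := by
      have h3 : t * (t - 2 * M) = t * (2 + 4 * Klo) := by
        rw [ht]
        ring
      nlinarith
    rw [hK₁] at h1 ⊢
    linarith
  obtain ⟨Kn, hKn, hnum⟩ := numF η hη hη2 (34 * K₁ / η + 10)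
  obtain ⟨C, hC⟩ : ∃ C : ℝ, C = Cup * (2 + Real.log (1 + K₁)) + 1 / c + K₁ := ⟨_, rfl⟩
  have hc' : 0 < 1 / c := by positivity
  have hCup2 : Cup ≤ Cup * (2 + Real.log (1 + K₁)) :=
    le_mul_of_one_le_right (by linarith) (by linarith)
  have hC1 : Cup * (2 + Real.log (1 + K₁)) ≤ C := by rw [hC]; linarith
  have hC2 : 1 / c ≤ C := by rw [hC]; linarith
  have hC3 : K₁ ≤ C := by rw [hC]; linarith
  have hC4 : Cup ≤ C := hCup2.trans hC1
  refine ⟨C, max Kn Ks, by linarith, le_trans hKn (le_max_left _ _), ?_⟩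
  intro X ι J _ _ _ _ s hs hR
  have hRn : Rg Kn X (Fintype.card J) := hR.mono (by positivity) (le_max_left _ _)
  have hRs : Rg Ks X (Fintype.card J) := hR.mono (by positivity) (le_max_right _ _)
  have hN := hnum X (Fintype.card J) hRn
  obtain ⟨k, hk⟩ : ∃ k : ℕ, k = Fintype.card J := ⟨_, rfl⟩
  rw [← hk] at hN
  have hk1 := hN.k1
  have hkr : (1 : ℝ) ≤ k := by exact_mod_cast hk1
  have hl := el_one_le hk1
  have hlk0 : 0 < el k * k := by positivity
  have hlk1 : 1 ≤ el k * k := one_le_mul_of_one_le_of_one_le hl hkr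
  have hB0 : 0 < 34 * K₁ / η := by positivity
  have hLN : 34 * K₁ / η + 10 ≤ Real.log (NN η X) := hN.lN_B
  have hLN0 : 0 < Real.log (NN η X) := by linarith
  have hN1 : (1 : ℝ) < NN η X := by
    have := hN.N_B
    linarith
  have hW2 := hN.W_two
  have hW2r : (2 : ℝ) ≤ WX X := by exact_mod_cast hW2
  have hw0 : 0 < Real.log (WX X) := Real.log_pos (by linarith)
  obtain ⟨α, hα⟩ : ∃ α : ℝ, α = K₁ * (el k * k) / Real.log (NN η X) := ⟨_, rfl⟩
  have hα0 : 0 < α := by rw [hα]; positivity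
  have hαN : α * Real.log (NN η X) = K₁ * (el k * k) := by
    rw [hα]
    field_simp
  have hαw : α * Real.log (WX X) ≤ 1 := by
    have h1 := hN.kL
    have h2 := hN.lW_le
    have h3 := hN.lN_ge
    have h4 : 10 ≤ Real.log (Real.log X) := by
      have := hN.llX
      linarith
    rw [hα, div_mul_eq_mul_div, div_le_one hLN0]
    refine le_trans ?_ h3
    have h5 : K₁ * (el k * k) * Real.log (WX X) ≤
        K₁ * (el k * k) * (17 * Real.log (Real.log X)) :=
      mul_le_mul_of_nonneg_left h2 (by positivity)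
    refine h5.trans ?_
    have h6 : 34 * K₁ / η * (el k * k * Real.log (Real.log X)) ≤ Real.log X := by
      have h7 : 0 ≤ el k * k * Real.log (Real.log X) :=
        mul_nonneg hlk0.le (by linarith)
      exact (mul_le_mul_of_nonneg_right (by linarith) h7).trans h1
    have h8 : K₁ * (el k * k) * (17 * Real.log (Real.log X)) =
        η / 2 * (34 * K₁ / η * (el k * k * Real.log (Real.log X))) := by
      field_simp
      ring
    rw [h8]
    exact mul_le_mul_of_nonneg_left h6 (by positivity)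
  have hαZ : α * (Real.log (NN η X) / 4) = K₁ * (el k * k) / 4 := by
    rw [← hαN]
    ring
  have hMis : 2 * (Mis s (WX X) (NN η X)).card ≤ WX X := by
    have h1 := hs.mis
    have h2 := hN.W_ge
    have h3 : 10 ≤ Real.log X := by
      have := hN.lX
      linarith
    have h4 : 2 * (Real.log X) ^ 3 ≤ (Real.log X) ^ 16 := by
      have h5 : (Real.log X) ^ 3 * 2 ≤ (Real.log X) ^ 3 * (Real.log X) ^ 13 := by
        refine mul_le_mul_of_nonneg_left ?_ (by positivity)
        have h6 : Real.log X ^ 1 ≤ Real.log X ^ 13 :=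
          pow_le_pow_right₀ (by linarith) (by norm_num)
        linarith
      calc 2 * (Real.log X) ^ 3 = (Real.log X) ^ 3 * 2 := by ring
        _ ≤ _ := h5
        _ = (Real.log X) ^ 16 := by ring
    have h7 : (2 : ℝ) * (Mis s (WX X) (NN η X)).card ≤ WX X := by linarith
    exact_mod_cast h7
  have hKZ : Klo ≤ α * (Real.log (NN η X) / 4) := by
    rw [hαZ]
    have h1 : K₁ * 1 ≤ K₁ * (el k * k) := mul_le_mul_of_nonneg_left hlk1 (by linarith)
    linarith
  obtain ⟨hG, hT⟩ := hlo s (WX X) (NN η X) hW2 hs.lo hMis α (NN η X) hα0 hαw hN1 le_rfl hKZ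
  obtain ⟨hT2, hG2, hGt2, hS2⟩ := hup s (WX X) hW2 hs.lo α (NN η X) hα0 hN1
  rw [hαZ] at hT hT2 hS2
  obtain ⟨he1, he2⟩ := W6_ell hK₁4 hk1
  set Λ := 1 + Real.log (1 + K₁ * (el k * k) / 4) with hΛ
  have hαw0 : 0 < α * Real.log (WX X) := by positivity
  have hGlo : c ≤ α * Real.log (WX X) * Gm s α (NN η X) := by
    rw [div_le_iff₀ hαw0] at hG
    linarith
  have hGhi : α * Real.log (WX X) * Gm s α (NN η X) ≤ Cup := by
    rw [le_div_iff₀ hαw0] at hG2
    linarith
  have hGthi : α * Real.log (WX X) * Gt s α (NN η X) ≤ Cup := by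
    rw [le_div_iff₀ hαw0] at hGt2
    linarith
  have hTlo : c * Λ ≤ α * Real.log (WX X) * th s α (NN η X) := by
    rw [← mul_div_assoc, div_le_iff₀ hαw0] at hT
    linarith
  have hThi : α * Real.log (WX X) * th s α (NN η X) ≤ Cup * Λ := by
    rw [← mul_div_assoc, le_div_iff₀ hαw0] at hT2
    linarith
  have hCc : 1 ≤ C * c := by
    have := mul_le_mul_of_nonneg_right hC2 hc.le
    rwa [one_div, inv_mul_cancel₀ hc.ne'] at this
  have hC0 : 0 < C := by linarith
  refine ⟨α, ?_⟩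
  refine
    { sv := hs
      a0 := hα0
      alo := ?_
      ahi := ?_
      aw := hαw
      tlo := ?_
      thi := ?_
      glo := ?_
      ghi := hGhi.trans hC4
      gt := hGthi.trans hC4
      tail := ?_ }
  · rw [← hk, hαN]
    exact le_mul_of_one_le_left hlk0.le (by linarith)
  · rw [← hk, hαN]
    exact mul_le_mul_of_nonneg_right hC3 hlk0.le
  · rw [← hk]
    have h1 : el k ≤ Λ := he1
    have h2 : Λ ≤ C * c * Λ := le_mul_of_one_le_left (by linarith) hCc
    have h3 : C * (c * Λ) ≤ C * (α * Real.log (WX X) * th s α (NN η X)) :=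
      mul_le_mul_of_nonneg_left hTlo hC0.le
    linarith
  · rw [← hk]
    refine hThi.trans ?_
    have h1 : Cup * Λ ≤ Cup * ((2 + Real.log (1 + K₁)) * el k) :=
      mul_le_mul_of_nonneg_left he2 (by linarith)
    have h2 : Cup * (2 + Real.log (1 + K₁)) * el k ≤ C * el k :=
      mul_le_mul_of_nonneg_right hC1 (by linarith)
    linarith
  · have h3 : C * c ≤ C * (α * Real.log (WX X) * Gm s α (NN η X)) :=
      mul_le_mul_of_nonneg_left hGlo hC0.le
    linarith
  · -- the tail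
    have hWone : 1 ≤ WX X := by omega
    have hmean := mean_log s (bg s α (NN η X)) (WX X) hWone hs.lo
      (fun A i hi => vv_erase s hα0.le hN1.le A i hi) (hsup X s α hRs)
    rw [← hk] at hmean
    have hGm : ∑ A ∈ univ.filter (fun A : Finset ι => A ≠ ∅), vv s (bg s α (NN η X)) A =
        Gm s α (NN η X) := rfl
    rw [hGm] at hmean
    have hZZ : 0 ≤ ZZ s (bg s α (NN η X)) :=
      Finset.sum_nonneg fun κ _ => wt_nonneg s _ κ
    have hGpos : 0 ≤ Gm s α (NN η X) := Gm_nonneg s α _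
    set S := ∑ A ∈ univ.filter (fun A : Finset ι => A ≠ ∅),
      vv s (bg s α (NN η X)) A * Real.log (s.rho A) with hSdef
    have hS0 : 0 ≤ S := Finset.sum_nonneg fun A _ =>
      mul_nonneg (vv_nonneg s _ A) (log_rho_nonneg s A)
    have hmark : ∑ κ ∈ univ.filter (fun κ : ι → Option J => √(NN η X : ℝ) < s.r κ),
        wt s (bg s α (NN η X)) κ ≤ 2 / Real.log (NN η X) *
          ∑ κ : ι → Option J, wt s (bg s α (NN η X)) κ * Real.log (s.r κ) := by
      rw [Finset.mul_sum, Finset.sum_filter]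
      refine Finset.sum_le_sum fun κ _ => ?_
      have hw := wt_nonneg s (bg s α (NN η X)) κ
      have hr : 0 ≤ Real.log (s.r κ) := Real.log_nonneg (one_le_r s κ)
      split_ifs with h
      · have h1 : Real.log (NN η X) / 2 ≤ Real.log (s.r κ) := by
          have h2 : Real.log (√(NN η X : ℝ)) = Real.log (NN η X) / 2 :=
            Real.log_sqrt (by linarith)
          rw [← h2]
          exact Real.log_le_log (Real.sqrt_pos.2 (by linarith)) h.le
        have h3 : 1 ≤ 2 / Real.log (NN η X) * Real.log (s.r κ) := by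
          rw [div_mul_eq_mul_div, le_div_iff₀ hLN0]
          linarith
        calc wt s (bg s α (NN η X)) κ = wt s (bg s α (NN η X)) κ * 1 := (mul_one _).symm
          _ ≤ wt s (bg s α (NN η X)) κ * (2 / Real.log (NN η X) * Real.log (s.r κ)) :=
            mul_le_mul_of_nonneg_left h3 hw
          _ = _ := by ring
      · positivity
    refine hmark.trans ((mul_le_mul_of_nonneg_left hmean (by positivity)).trans ?_)
    have hG1 : 2 / (1 + Gm s α (NN η X)) ≤ 2 * (α * Real.log (WX X)) / c := by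
      rw [div_le_div_iff₀ (by linarith) hc]
      have h1 : 2 * (α * Real.log (WX X)) * (1 + Gm s α (NN η X)) =
          2 * (α * Real.log (WX X)) + 2 * (α * Real.log (WX X) * Gm s α (NN η X)) := by ring
      rw [h1]
      linarith
    have hSle : S ≤ Cup * ((2 + Real.log (1 + K₁)) * el k) / (α ^ 2 * Real.log (WX X)) := by
      refine hS2.trans ?_
      rw [mul_div_assoc]
      refine mul_le_mul_of_nonneg_left ?_ (by linarith)
      exact div_le_div_of_nonneg_right he2 (by positivity)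
    have h1 : 2 / (1 + Gm s α (NN η X)) * S ≤ 2 * (α * Real.log (WX X)) / c *
        (Cup * ((2 + Real.log (1 + K₁)) * el k) / (α ^ 2 * Real.log (WX X))) :=
      mul_le_mul hG1 hSle hS0 (by positivity)
    have h2 : 2 / Real.log (NN η X) * (k * (2 / (1 + Gm s α (NN η X)) * S *
        ZZ s (bg s α (NN η X)))) ≤ 2 / Real.log (NN η X) * (k * (2 * (α * Real.log (WX X)) / c *
        (Cup * ((2 + Real.log (1 + K₁)) * el k) / (α ^ 2 * Real.log (WX X))) *
        ZZ s (bg s α (NN η X)))) := by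
      refine mul_le_mul_of_nonneg_left (mul_le_mul_of_nonneg_left
        (mul_le_mul_of_nonneg_right h1 hZZ) (by positivity)) (by positivity)
    refine h2.trans ?_
    have h3 : 2 / Real.log (NN η X) * (k * (2 * (α * Real.log (WX X)) / c *
        (Cup * ((2 + Real.log (1 + K₁)) * el k) / (α ^ 2 * Real.log (WX X))) *
        ZZ s (bg s α (NN η X)))) =
        (M * (2 + Real.log (1 + K₁))) * (el k * k) / (10 * (α * Real.log (NN η X))) *
          ZZ s (bg s α (NN η X)) := by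
      rw [hM]
      exact W6_alg hα0 hw0 hLN0 hc
    rw [h3, hαN]
    have h4 : (M * (2 + Real.log (1 + K₁))) * (el k * k) / (10 * (K₁ * (el k * k))) ≤ 1 / 10 := by
      rw [div_le_div_iff₀ (by positivity) (by norm_num)]
      have h6 := mul_le_mul_of_nonneg_right hMK hlk0.le
      linarith
    have h5 := mul_le_mul_of_nonneg_right h4 hZZ
    linarith

end Pool.Agent.Lib.H59D
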