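import Pool.Agent.Lib.H59D.F1
import Pool.Agent.Lib.H59D.F3
import Pool.Agent.Lib.H59D.F4
import Pool.Agent.Lib.H59D.P4
import Pool.Agent.Lib.H59D.P5
import Pool.Agent.Lib.H59D.U3
import Pool.Agent.Lib.H59D.W6

/-!
# Chunk F5: final assembly
-/

open Finset

namespace Pool.Agent.Lib.H59D

open Pool.Agent.Lib.H56G
open Pool.Agent.Lib.H5C (WX MData)

theorem F5_X_ge {K : ℝ} {X k : ℕ} (h : Rg K X k) (hK : 1 ≤ K) : K ≤ X := by
  have h1 : 1 ≤ Real.log (Real.log X) := hK.trans h.2.1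
  have hL : 0 < Real.log X := by
    by_contra hc
    have h3 : (0:ℝ) ≤ Real.log X := Real.log_natCast_nonneg X
    have h4 : Real.log (X:ℝ) = 0 := le_antisymm (not_lt.mp hc) h3
    rw [h4] at h1
    simp at h1
    linarith
  have h2 : Real.log (Real.log X) ≤ Real.log X := (Real.log_le_sub_one_of_pos hL).trans (by linarith)
  have hX : (0:ℝ) < X := by
    rcases Nat.eq_zero_or_pos X with h0 | h0
    · rw [h0] at hL; simp at hL
    · exact_mod_cast h0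
  have h3 : Real.log X ≤ X := (Real.log_le_sub_one_of_pos hX).trans (by linarith)
  linarith [h.2.1]

/-- The forms which are `≤ N`. -/
theorem F5_small : ∀ η : ℝ, 0 < η → η ≤ 1 / 1000 → ∃ K : ℝ, 1 ≤ K ∧
    ∀ (X : ℕ) {ι J : Type} [Fintype ι] [DecidableEq ι] [Fintype J] [DecidableEq J]
      (s : Sys ι J) (α : ℝ), Sv η X s → 0 < α → Rg K X (Fintype.card J) → 0 < s.M →
      ∀ (T : ℕ) (j : J), mass s α (NN η X) T (fun t => s.b j + s.M * t ≤ NN η X) ≤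
        9 * (NN η X : ℝ) ^ 7 := by
  intro η hη hη1
  obtain ⟨K, hK, h⟩ := Lf_sq_le η hη hη1
  refine ⟨K, hK, fun X ι J _ _ _ _ s α hsv hα hR hM T j => ?_⟩
  classical
  have hb := h X s α hsv hα hR
  unfold mass
  have h1 : ∑ t ∈ Icc 1 (NN η X), (Lf s α (NN η X) t) ^ 2 ≤ 9 * (NN η X : ℝ) ^ 7 := by
    calc ∑ t ∈ Icc 1 (NN η X), (Lf s α (NN η X) t) ^ 2
        ≤ ∑ t ∈ Icc 1 (NN η X), 9 * (NN η X : ℝ) ^ 6 := Finset.sum_le_sum fun t _ => hb t
      _ = 9 * (NN η X : ℝ) ^ 7 := by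
          rw [Finset.sum_const, Nat.card_Icc, nsmul_eq_mul]
          simp only [Nat.add_sub_cancel]
          ring
  refine le_trans (Finset.sum_le_sum_of_subset_of_nonneg ?_ fun t _ _ => sq_nonneg _) h1
  intro t ht
  simp only [mem_filter, mem_Icc] at ht ⊢
  refine ⟨ht.1.1, ?_⟩
  have h1 : t ≤ s.M * t := Nat.le_mul_of_pos_left t hM
  omega

/-- Lower bound for the primes larger than all sieve primes. -/
theorem F5_prime {ι J : Type} [Fintype ι] [DecidableEq ι] [Fintype J] [DecidableEq J]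
    (s : Sys ι J) (α : ℝ) (N X M T : ℕ) (hi : ∀ i, s.pr i ≤ N) (hMpos : 0 < M)
    (Zz cp ct l k ll : ℝ) (hcp : 0 < cp) (hct : 0 < ct) (hl : 1 ≤ l) (hk : 0 < k) (hll : 0 < ll)
    (hZ1 : 1 ≤ Zz) (hTpos : (0 : ℝ) < T) (hT2 : (M : ℝ) * T ≤ 61 * X)
    (htt : ct * ll * (M.totient : ℝ) ≤ M) (j : J)
    (h1 : cp * (X / (M.totient : ℝ)) * (l / (k * ll)) * Zz ≤
      mass s α N T (fun t => (s.b j + s.M * t).Prime))
    (h2 : mass s α N T (fun t => s.b j + s.M * t ≤ N) ≤ 9 * (N : ℝ) ^ 7)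
    (h8 : 9 * (N : ℝ) ^ 7 ≤ cp * ct / 200 * l / k * (T * Zz)) :
    cp * ct / 200 * l / k * (T * Zz) ≤ mass s α N T
      (fun t => (s.b j + s.M * t).Prime ∧ ∀ i, s.pr i < s.b j + s.M * t) := by
  have h3 : mass s α N T (fun t => (s.b j + s.M * t).Prime) ≤
      mass s α N T
        (fun t => (s.b j + s.M * t).Prime ∧ ∀ i, s.pr i < s.b j + s.M * t) +
      mass s α N T (fun t => s.b j + s.M * t ≤ N) := by
    refine le_trans (mass_mono s α _ T _ _ ?_) (mass_or s α _ T _ _)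
    intro t _ _ ht
    by_cases h : s.b j + s.M * t ≤ N
    · exact Or.inr h
    · refine Or.inl ⟨ht, fun i => ?_⟩
      have := hi i
      omega
  have hphi : (0:ℝ) < M.totient := by exact_mod_cast Nat.totient_pos.mpr hMpos
  have h5 : ct * ll * (T / 61) ≤ X / (M.totient : ℝ) := by
    rw [le_div_iff₀ hphi]
    have h6 : ct * ll * (T / 61) * M.totient = (ct * ll * M.totient) * (T / 61) := by ring
    rw [h6]
    have h7 : (ct * ll * M.totient) * (T / 61) ≤ M * (T / 61) :=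
      mul_le_mul_of_nonneg_right htt (by positivity)
    linarith
  have h6 : cp * ct * (T / 61) * (l / k) * Zz ≤
      cp * (X / (M.totient : ℝ)) * (l / (k * ll)) * Zz := by
    have h7 : cp * ct * (T / 61) * (l / k) * Zz =
        cp * (ct * ll * (T / 61)) * (l / (k * ll)) * Zz := by
      field_simp
    rw [h7]
    have h9 : 0 ≤ l / (k * ll) := by positivity
    have h10 := mul_le_mul_of_nonneg_left h5 hcp.le
    exact mul_le_mul_of_nonneg_right (mul_le_mul_of_nonneg_right h10 h9) (by linarith)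
  have h12 : 2 * (cp * ct / 200 * l / k * (T * Zz)) ≤ cp * ct * (T / 61) * (l / k) * Zz := by
    have h13 : 2 * (cp * ct / 200 * l / k * (T * Zz)) =
        (cp * ct * (l / k) * Zz) * (T / 100) := by ring
    have h14 : cp * ct * (T / 61) * (l / k) * Zz = (cp * ct * (l / k) * Zz) * (T / 61) := by ring
    rw [h13, h14]
    refine mul_le_mul_of_nonneg_left ?_ (by positivity)
    exact div_le_div_of_nonneg_left hTpos.le (by norm_num) (by norm_num)
  linarith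

/-- Numbers. -/
theorem F5_num (δ0 cu Cv l k A : ℝ) (hcu : 0 < cu) (hCv : 1 ≤ Cv) (hl : 1 ≤ l) (hk : 0 < k)
    (hA : 0 ≤ A) (hδ : δ0 = cu ^ 2 / (8 * Cv ^ 2)) :
    δ0 * A ≤ ((k * (cu * l / k)) ^ 2 /
      (4 * (k * (Cv * l / k) + k ^ 2 * (Cv * l / k) ^ 2))) * A := by
  refine mul_le_mul_of_nonneg_right ?_ hA
  have e1 : k * (cu * l / k) = cu * l := by field_simp
  have e2 : k * (Cv * l / k) + k ^ 2 * (Cv * l / k) ^ 2 = Cv * l + (Cv * l) ^ 2 := by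
    field_simp
  have hCv0 : 0 < Cv := by linarith
  have hl0 : 0 < l := by linarith
  rw [e1, e2, hδ, div_le_div_iff₀ (by positivity) (by positivity)]
  have h1 : Cv * l ≤ (Cv * l) ^ 2 := by
    have : 1 ≤ Cv * l := by nlinarith
    nlinarith
  have h2 : 4 * (Cv * l + (Cv * l) ^ 2) ≤ 8 * (Cv * l) ^ 2 := by linarith
  calc cu ^ 2 * (4 * (Cv * l + (Cv * l) ^ 2)) ≤ cu ^ 2 * (8 * (Cv * l) ^ 2) :=
        mul_le_mul_of_nonneg_left h2 (by positivity)
    _ = (cu * l) ^ 2 * (8 * Cv ^ 2) := by ring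

/-- Subtract the bad events. -/
theorem F5_good {ι J : Type} [Fintype ι] [DecidableEq ι] [Fintype J] [DecidableEq J]
    (s : Sys ι J) (α D : ℝ) (T : ℕ) (P : ℕ → Prop) (Q : J → ℕ → Prop) (δ A k : ℝ) (hk : 0 < k)
    (hJ : (Fintype.card J : ℝ) = k)
    (h1 : δ * A ≤ mass s α D T P)
    (h2 : ∀ j, mass s α D T (fun t => ¬ Q j t) ≤ δ / 2 / k * A) :
    δ / 2 * A ≤ mass s α D T (fun t => P t ∧ ∀ j, Q j t) := by
  have hbad : mass s α D T (fun t => ∃ j ∈ (univ : Finset J), ¬ Q j t) ≤ δ / 2 * A := by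
    refine (mass_exists s α D T univ _).trans ?_
    calc ∑ j : J, mass s α D T (fun t => ¬ Q j t)
        ≤ ∑ _j : J, δ / 2 / k * A := Finset.sum_le_sum fun j _ => h2 j
      _ = δ / 2 * A := by
          rw [Finset.sum_const, card_univ, nsmul_eq_mul, hJ]
          calc k * (δ / 2 / k * A) = δ / 2 * A * (k / k) := by ring
            _ = δ / 2 * A := by rw [div_self hk.ne', mul_one]
  have h3 : mass s α D T P ≤ mass s α D T (fun t => P t ∧ ∀ j, Q j t) +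
      mass s α D T (fun t => ∃ j ∈ (univ : Finset J), ¬ Q j t) := by
    refine le_trans (mass_mono s α _ T _ _ ?_) (mass_or s α _ T _ _)
    intro t _ _ ht
    by_cases h : ∀ j, Q j t
    · exact Or.inl ⟨ht, h⟩
    · push Not at h
      obtain ⟨j, hj⟩ := h
      exact Or.inr ⟨j, mem_univ _, hj⟩
  linarith

open Classical in
/-- From the mass to the number of integers. -/
theorem F5_count {ι : Type} [Fintype ι] [DecidableEq ι] (A : Finset ℕ)
    (s : Sys ι {a // a ∈ A}) (α : ℝ) (N X M T b0 : ℕ) (hMpos : 0 < M)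
    (hsM : s.M = M) (hsb : ∀ a, s.b a = b0 + a.1) (hb0 : b0 < M) (hMX : M ≤ X)
    (hT2 : M * T ≤ 61 * X) (hLf : ∀ t, (Lf s α N t) ^ 2 ≤ 9 * (N : ℝ) ^ 6) (y : ℝ)
    (Q : ℕ → Prop) :
    mass s α N T (fun t => y ≤
      ((univ.filter (fun j : {a // a ∈ A} => (s.b j + s.M * t).Prime)).card : ℝ) ∧
      ∀ j : {a // a ∈ A}, Q (s.b j + s.M * t)) ≤
      (((Icc 1 (62 * X)).filter (fun n =>
        y ≤ ((A.filter (fun a => Nat.Prime (n + a))).card : ℝ) ∧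
        ∀ a ∈ A, Q (n + a))).card : ℝ) * (9 * (N : ℝ) ^ 6) := by
  set G : ℕ → Prop := fun t => y ≤
      ((univ.filter (fun j : {a // a ∈ A} => (s.b j + s.M * t).Prime)).card : ℝ) ∧
      ∀ j : {a // a ∈ A}, Q (s.b j + s.M * t) with hG
  have hcount : mass s α N T G ≤ (((Icc 1 T).filter G).card : ℝ) * (9 * (N : ℝ) ^ 6) := by
    unfold mass
    refine (Finset.sum_le_card_nsmul _ _ (9 * (N : ℝ) ^ 6) fun t _ => hLf t).trans ?_
    rw [nsmul_eq_mul]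
    apply le_of_eq
    congr!
  refine hcount.trans (mul_le_mul_of_nonneg_right ?_ (by positivity))
  have hinj : ((Icc 1 T).filter G).card ≤ ((Icc 1 (62 * X)).filter (fun n =>
      y ≤ ((A.filter (fun a => Nat.Prime (n + a))).card : ℝ) ∧
      ∀ a ∈ A, Q (n + a))).card := by
    refine Finset.card_le_card_of_injOn (fun t => b0 + M * t) ?_ ?_
    · intro t ht
      rw [mem_coe, mem_filter, mem_Icc] at ht
      obtain ⟨⟨ht1, ht2⟩, hg1, hg2⟩ := ht
      simp only [mem_coe, mem_filter, mem_Icc]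
      have hform : ∀ j : {a // a ∈ A}, s.b j + s.M * t = b0 + M * t + j.1 := by
        intro j
        rw [hsb, hsM]
        ring
      refine ⟨⟨?_, ?_⟩, ?_, ?_⟩
      · have : 1 ≤ M * t := Nat.one_le_iff_ne_zero.mpr (by positivity)
        omega
      · have : M * t ≤ M * T := Nat.mul_le_mul_left M ht2
        omega
      · refine hg1.trans ?_
        have : (univ.filter (fun j : {a // a ∈ A} => (s.b j + s.M * t).Prime)).card ≤
            (A.filter (fun a => Nat.Prime (b0 + M * t + a))).card := by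
          refine Finset.card_le_card_of_injOn (fun j => j.1) ?_ ?_
          · intro j hj
            simp only [coe_filter, Set.mem_ofPred_eq, mem_univ, true_and] at hj ⊢
            refine ⟨j.2, ?_⟩
            rw [← hform]
            exact hj
          · intro j1 _ j2 _ h
            exact Subtype.ext h
        exact_mod_cast this
      · intro a ha
        rw [← hform ⟨a, ha⟩]
        exact hg2 _
    · intro t1 _ t2 _ h
      simp only at h
      have : M * t1 = M * t2 := by omega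
      exact Nat.eq_of_mul_eq_mul_left hMpos this
  exact_mod_cast hinj

/-- Sizes. -/
theorem F5_T (η : ℝ) (hη : 0 < η) (hη1 : η ≤ 1 / 1000) (X k M : ℕ) (B : ℝ) (hB : 1000 ≤ B)
    (hF : NumF η B X k) (hM : (M : ℝ) ≤ (X : ℝ) ^ η) (hMpos : 0 < M) :
    1 ≤ X ∧ (1 : ℝ) ≤ NN η X ∧ (M : ℝ) ≤ X / 32 ∧
    60 * X ≤ M * (60 * X / M + 1) ∧ M * (60 * X / M + 1) ≤ 61 * X ∧
    60 * (X : ℝ) ^ (1 - η) ≤ ((60 * X / M + 1 : ℕ) : ℝ) ∧
    (X : ℝ) ^ (3 / 4 : ℝ) ≤ ((60 * X / M + 1 : ℕ) : ℝ) ∧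
    B * ((NN η X : ℝ) ^ 7 * k) ≤ (X : ℝ) ^ (3 / 4 : ℝ) := by
  have hX1' : 1 ≤ X := by
    rcases Nat.eq_zero_or_pos X with h | h
    · have h1 := hF.lX
      rw [h] at h1
      simp at h1
      linarith
    · exact h
  have hX1 : (1:ℝ) ≤ X := by exact_mod_cast hX1'
  have hXpos : (0:ℝ) < X := by linarith
  have hXpow : ∀ a b : ℝ, a ≤ b → (X:ℝ) ^ a ≤ (X:ℝ) ^ b := fun a b h =>
    Real.rpow_le_rpow_of_exponent_le hX1 h
  have hN1 : (1:ℝ) ≤ NN η X := by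
    have := hF.N_B
    linarith
  have hN50 := hF.N_pow
  have hXeta : (X:ℝ) ^ η ≤ X / 32 := by
    have h1 : (X:ℝ) ^ η ≤ (X:ℝ) ^ (1/2:ℝ) := hXpow _ _ (by linarith)
    have h2 : (X:ℝ) ^ (1/2:ℝ) * (X:ℝ) ^ (1/2:ℝ) = X := by
      rw [← Real.rpow_add hXpos]; norm_num
    have h3 : (1000 : ℝ) ≤ (X:ℝ) ^ (1/8:ℝ) := by
      have h4 : (1:ℝ) ≤ (NN η X : ℝ) ^ 50 := one_le_pow₀ hN1
      nlinarith
    have h4 : (X:ℝ) ^ (1/8:ℝ) ≤ (X:ℝ) ^ (1/2:ℝ) := hXpow _ _ (by norm_num)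
    nlinarith
  have hMX32 : (M:ℝ) ≤ X / 32 := hM.trans hXeta
  have hMX' : M ≤ X := by
    have : (M:ℝ) ≤ X := by linarith
    exact_mod_cast this
  have hT1 : 60 * X ≤ M * (60 * X / M + 1) := by
    have h1 := Nat.div_add_mod (60 * X) M
    have h2 := Nat.mod_lt (60 * X) hMpos
    rw [mul_add, mul_one]
    omega
  have hT2 : M * (60 * X / M + 1) ≤ 61 * X := by
    have h1 := Nat.mul_div_le (60 * X) M
    rw [mul_add, mul_one]
    omega
  have hTlow : 60 * (X : ℝ) ^ (1 - η) ≤ ((60 * X / M + 1 : ℕ) : ℝ) := by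
    have hT1r : 60 * (X:ℝ) ≤ M * ((60 * X / M + 1 : ℕ) : ℝ) := by exact_mod_cast hT1
    have h1 : (X:ℝ) ^ (1 - η) * (X:ℝ) ^ η = X := by
      rw [← Real.rpow_add hXpos]; norm_num
    have h2 : (M:ℝ) * ((60 * X / M + 1 : ℕ) : ℝ) ≤ (X:ℝ) ^ η * ((60 * X / M + 1 : ℕ) : ℝ) :=
      mul_le_mul_of_nonneg_right hM (Nat.cast_nonneg _)
    have h3 : 0 < (X:ℝ) ^ η := Real.rpow_pos_of_pos hXpos _
    have h4 : (60 * (X:ℝ) ^ (1 - η)) * (X:ℝ) ^ η ≤ ((60 * X / M + 1 : ℕ) : ℝ) * (X:ℝ) ^ η := by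
      calc (60 * (X:ℝ) ^ (1 - η)) * (X:ℝ) ^ η = 60 * X := by rw [mul_assoc, h1]
        _ ≤ (X:ℝ) ^ η * ((60 * X / M + 1 : ℕ) : ℝ) := hT1r.trans h2
        _ = _ := mul_comm _ _
    exact le_of_mul_le_mul_right h4 h3
  refine ⟨hX1', hN1, hMX32, hT1, hT2, hTlow, ?_, ?_⟩
  · have h1 : (X:ℝ) ^ (3 / 4 : ℝ) ≤ (X:ℝ) ^ (1 - η) := hXpow _ _ (by linarith)
    have h2 : 0 ≤ (X:ℝ) ^ (1 - η) := Real.rpow_nonneg hXpos.le _
    linarith
  · have hk2 : (k:ℝ) ≤ NN η X := by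
      have q1 := hF.kW
      have q2 := hF.WN
      exact_mod_cast q1.trans q2
    have hN0 : (0:ℝ) ≤ NN η X := by linarith
    have q3 : (NN η X : ℝ) ^ 7 * k ≤ (NN η X : ℝ) ^ 50 := by
      calc (NN η X : ℝ) ^ 7 * k ≤ (NN η X : ℝ) ^ 7 * NN η X :=
            mul_le_mul_of_nonneg_left hk2 (by positivity)
        _ = (NN η X : ℝ) ^ 8 := by ring
        _ ≤ (NN η X : ℝ) ^ 50 := pow_le_pow_right₀ hN1 (by norm_num)
    have q6 : (X:ℝ) ^ (1 / 8 : ℝ) ≤ (X:ℝ) ^ (3 / 4 : ℝ) := hXpow _ _ (by norm_num)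
    calc B * ((NN η X : ℝ) ^ 7 * k) ≤ B * (NN η X : ℝ) ^ 50 :=
          mul_le_mul_of_nonneg_left q3 (by linarith)
      _ ≤ _ := hN50.trans q6

/-- The final count. -/
theorem F5_fin (η δ : ℝ) (X N T : ℕ) (hX : 1 ≤ X) (hN : (N : ℝ) ≤ (X : ℝ) ^ η) (Zz c : ℝ)
    (hZ : 1 ≤ Zz) (hδ : 0 < δ) (hc : 0 ≤ c) (hT : 60 * (X : ℝ) ^ (1 - η) ≤ T)
    (h : δ / 2 * (T * Zz) ≤ c * (9 * (N : ℝ) ^ 6)) : δ * (X : ℝ) ^ (1 - 7 * η) ≤ c := by
  have hXpos : (0:ℝ) < X := by exact_mod_cast hX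
  have hN6 : (N : ℝ) ^ 6 ≤ (X:ℝ) ^ (6 * η) := by
    calc (N : ℝ) ^ 6 ≤ ((X:ℝ) ^ η) ^ 6 := pow_le_pow_left₀ (Nat.cast_nonneg _) hN 6
      _ = (X:ℝ) ^ (6 * η) := by
          rw [← Real.rpow_natCast, ← Real.rpow_mul hXpos.le]
          congr 1
          push_cast
          ring
  have hT0 : (0:ℝ) ≤ T := Nat.cast_nonneg _
  have hchain : δ / 2 * T ≤ c * (9 * (X:ℝ) ^ (6 * η)) := by
    calc δ / 2 * T ≤ δ / 2 * (T * Zz) := by
          apply mul_le_mul_of_nonneg_left _ (by positivity)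
          exact le_mul_of_one_le_right hT0 hZ
      _ ≤ c * (9 * (N : ℝ) ^ 6) := h
      _ ≤ _ := mul_le_mul_of_nonneg_left (by linarith) hc
  have hfin : δ * (X:ℝ) ^ (1 - 7 * η) * (9 * (X:ℝ) ^ (6 * η)) ≤ c * (9 * (X:ℝ) ^ (6 * η)) := by
    refine le_trans ?_ hchain
    have h1 : (X:ℝ) ^ (1 - 7 * η) * (X:ℝ) ^ (6 * η) = (X:ℝ) ^ (1 - η) := by
      rw [← Real.rpow_add hXpos]; ring_nf
    have h2 : δ * (X:ℝ) ^ (1 - 7 * η) * (9 * (X:ℝ) ^ (6 * η)) = 9 * δ * (X:ℝ) ^ (1 - η) := by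
      rw [← h1]; ring
    rw [h2]
    have h3 : 0 ≤ (X:ℝ) ^ (1 - η) := Real.rpow_nonneg hXpos.le _
    nlinarith [mul_nonneg hδ.le h3]
  exact le_of_mul_le_mul_right hfin (by positivity)

open Classical in
/-- The core: at the scale `X`. -/
theorem F5_core (ε : ℝ) (hε : 0 < ε) : ∃ η c₁ c₂ C₁ δ K : ℝ, 0 < η ∧ η ≤ 1 / 1000 ∧
    10 * η ≤ ε ∧ 0 < c₁ ∧ 0 < c₂ ∧ 1 ≤ C₁ ∧ 0 < δ ∧ 1 ≤ K ∧
    ∀ (X : ℕ) (A : Finset ℕ), A.Nonempty →
      (∀ p : ℕ, p.Prime → ∃ r : ZMod p, ∀ a ∈ A, (a : ZMod p) ≠ r) →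
      (∀ a ∈ A, (a : ℝ) ≤ X / 16) → Rg K X A.card →
      δ * (X : ℝ) ^ (1 - 7 * η) ≤
        (((Icc 1 (62 * X)).filter (fun n =>
          c₂ * el A.card ≤ ((A.filter (fun a => Nat.Prime (n + a))).card : ℝ) ∧
          ∀ a ∈ A, Nice c₁ C₁ X A.card (n + a))).card : ℝ) := by
  obtain ⟨η0, hη0, hmd⟩ := mdata_small
  obtain ⟨η, hη, hη1, hη2, hηε⟩ : ∃ η : ℝ, 0 < η ∧ η ≤ 1 / 1000 ∧ η ≤ η0 ∧ 10 * η ≤ ε := by
    refine ⟨min (min η0 (1 / 1000)) (ε / 10), ?_, ?_, ?_, ?_⟩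
    · positivity
    · exact (min_le_left _ _).trans (min_le_right _ _)
    · exact (min_le_left _ _).trans (min_le_left _ _)
    · have := min_le_right (min η0 (1 / 1000)) (ε / 10)
      linarith
  obtain ⟨X4, h4⟩ := hmd η hη hη2
  clear hmd
  obtain ⟨Cd, Kd, hCd, hKd, hdata⟩ := exists_data η hη hη1
  obtain ⟨cp, Kp, hcp, hKp, hprime⟩ := prime_mass η hη hη1 Cd
  obtain ⟨C1, K1, hC1, hK1, hone⟩ := one_mass η hη hη1 Cd
  obtain ⟨C2, K2, hC2, hK2, htwo⟩ := two_mass η hη hη1 Cd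
  obtain ⟨K3, hK3, htot⟩ := total_le η hη hη1
  obtain ⟨Ks, hKs, hsys⟩ := exists_sys η hη hη1
  obtain ⟨ct, hct, Xt, htt⟩ := totient_MX
  obtain ⟨XM, hMX⟩ := MX_le η hη
  obtain ⟨KL, hKL, hLf⟩ := Lf_sq_le η hη hη1
  obtain ⟨K6, hK6, hsmall⟩ := F5_small η hη hη1
  obtain ⟨Cv, hCv⟩ : ∃ Cv : ℝ, Cv = C1 + C2 := ⟨_, rfl⟩
  have hCv1 : 1 ≤ Cv := by linarith
  obtain ⟨cu, hcu⟩ : ∃ cu : ℝ, cu = cp * ct / 200 := ⟨_, rfl⟩
  have hcu0 : 0 < cu := by rw [hcu]; positivity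
  obtain ⟨δ0, hδ0⟩ : ∃ δ0 : ℝ, δ0 = cu ^ 2 / (8 * Cv ^ 2) := ⟨_, rfl⟩
  have hδ0' : 0 < δ0 := by rw [hδ0]; positivity
  obtain ⟨c₁, C₁, K5, hc₁, hC₁, hK5, hnice⟩ := nice_mass η hη hη1 Cd (δ0 / 2) (by positivity)
  have hcu9 : 0 < 9 / cu := by positivity
  obtain ⟨K7, hK7, hnum⟩ := numF η hη hη1 (1000 + 9 / cu)
  have a1 : (0:ℝ) ≤ X4 := Nat.cast_nonneg _
  have a2 : (0:ℝ) ≤ Xt := Nat.cast_nonneg _
  have a3 : (0:ℝ) ≤ XM := Nat.cast_nonneg _
  obtain ⟨K, hK⟩ : ∃ K : ℝ,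
    K = Kd + Kp + K1 + K2 + K3 + Ks + KL + K6 + K5 + K7 + X4 + Xt + XM := ⟨_, rfl⟩
  refine ⟨η, c₁, cu / 4, C₁, δ0, K,
    hη, hη1, hηε, hc₁, by positivity, hC₁, hδ0', by linarith, ?_⟩
  intro X A hAne hadm hAX hR
  have hK1' : 1 ≤ K := by linarith
  have hK0 : 0 ≤ K := by linarith
  have hXK : K ≤ X := F5_X_ge hR hK1'
  have hX4 : X4 ≤ X := by
    have : (X4 : ℝ) ≤ X := by linarith
    exact_mod_cast this
  have hXt : Xt ≤ X := by
    have : (Xt : ℝ) ≤ X := by linarith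
    exact_mod_cast this
  have hXM : XM ≤ X := by
    have : (XM : ℝ) ≤ X := by linarith
    exact_mod_cast this
  have hF := hnum X A.card (hR.mono hK0 (by linarith))
  obtain ⟨p1, hp1, hMD⟩ := h4 X hX4
  obtain ⟨hM1, hM2, hYW, hYX, hY2⟩ := hMX X hXM p1
  have hMpos := MX_pos X p1
  obtain ⟨hX1, hN1, hM32, hT1, hT2, hTlow, hT34, hB⟩ :=
    F5_T η hη hη1 X A.card (MX X p1) _ (by linarith) hF hM2 hMpos
  have hX1r : (1:ℝ) ≤ X := by exact_mod_cast hX1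
  have hXpos : (0:ℝ) < X := by linarith
  have hAX' : ∀ a ∈ A, a ≤ X := by
    intro a ha
    have h1 := hAX a ha
    have h2 : (a : ℝ) ≤ X := by linarith
    exact_mod_cast h2
  obtain ⟨ι, hι1, hι2, s, b0, hsM, hb0, hsb, hcop, hsv⟩ :=
    hsys X A hAne hadm hAX' (hR.mono hK0 (by linarith)) p1
  have hpd1 : ¬ p1 ∣ MX X p1 := by
    rw [dvd_MX X p1 p1 hp1]
    exact fun h => h.2 rfl
  have hpd2 : ∀ p, p.Prime → p ∣ MX X p1 → (p : ℝ) ≤ X / 8 := by
    intro p hp hpd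
    rw [dvd_MX X p1 p hp] at hpd
    have : (p:ℝ) ≤ YX X := by exact_mod_cast hpd.1
    linarith
  have htt' := htt X hXt p1 hp1
  have hMD' := hMD (MX X p1) hMpos hM1 hpd1
  generalize hMdef : MX X p1 = M at *
  have hsM0 : 0 < s.M := by rw [hsM]; exact hMpos
  have : NeZero s.M := ⟨hsM0.ne'⟩
  have hcard : Fintype.card {a // a ∈ A} = A.card := Fintype.card_coe A
  obtain ⟨α, hD⟩ := hdata X s hsv (by rw [hcard]; exact hR.mono hK0 (by linarith))
  generalize hTdef : 60 * X / M + 1 = T at *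
  have hT2r : (M:ℝ) * T ≤ 61 * X := by exact_mod_cast hT2
  have hMX' : M ≤ X := by
    have : (M:ℝ) ≤ X := by linarith
    exact_mod_cast this
  have hT12 : (X:ℝ) ^ (1 / 2 : ℝ) ≤ T :=
    (Real.rpow_le_rpow_of_exponent_le hX1r (by norm_num)).trans hT34
  have hRc : ∀ K', K' ≤ K → Rg K' X (Fintype.card {a // a ∈ A}) := fun K' h => by
    rw [hcard]; exact hR.mono hK0 h
  have hZ1 : 1 ≤ ZZ s (bg s α (NN η X)) := one_le_ZZ s _
  have hk1 : 1 ≤ A.card := Finset.card_pos.mpr hAne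
  have hkpos : (0:ℝ) < A.card := by exact_mod_cast hk1
  have hel := el_one_le hk1
  have hl0 : 0 < el A.card := by linarith
  have hTpos : (0:ℝ) < T := by
    have : 0 < (X:ℝ) ^ (3/4:ℝ) := Real.rpow_pos_of_pos hXpos _
    linarith
  have hbX : ∀ a : {a // a ∈ A}, ((s.b a + s.M : ℕ) : ℝ) ≤ X / 8 := by
    intro a
    rw [hsb, hsM]
    push_cast
    have h1 := hAX a.1 a.2
    have h2 : (b0:ℝ) ≤ M := by exact_mod_cast hb0.le
    linarith
  have hbX2 : ∀ a : {a // a ∈ A}, s.b a ≤ X := by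
    intro a
    have h1 := hbX a
    have h2 : (s.b a : ℝ) ≤ X := by
      push_cast at h1
      have : (0:ℝ) ≤ s.M := Nat.cast_nonneg _
      linarith
    exact_mod_cast h2
  have hllpos : 0 < Real.log (Real.log X) := by
    have := hF.llX
    linarith
  have hTZ : 0 < (T:ℝ) * ZZ s (bg s α (NN η X)) := by positivity
  -- second moment
  have h8 : 9 * (NN η X : ℝ) ^ 7 ≤
      cp * ct / 200 * el A.card / A.card * (T * ZZ s (bg s α (NN η X))) := by
    rw [← hcu]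
    have h10 : cu * el A.card / A.card * (T * ZZ s (bg s α (NN η X))) =
      cu * (el A.card * (T * ZZ s (bg s α (NN η X)))) / A.card := by ring
    rw [h10, le_div_iff₀ hkpos]
    have h11 : (X:ℝ) ^ (3 / 4 : ℝ) ≤ el A.card * (T * ZZ s (bg s α (NN η X))) := by
      calc (X:ℝ) ^ (3 / 4 : ℝ) ≤ T := hT34
        _ ≤ T * ZZ s (bg s α (NN η X)) := le_mul_of_one_le_right hTpos.le hZ1
        _ ≤ el A.card * (T * ZZ s (bg s α (NN η X))) := le_mul_of_one_le_left hTZ.le hel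
    have h12 : (9 / cu) * ((NN η X : ℝ) ^ 7 * A.card) ≤ (X:ℝ) ^ (3 / 4 : ℝ) := by
      refine le_trans ?_ hB
      refine mul_le_mul_of_nonneg_right (by linarith) (by positivity)
    calc 9 * (NN η X : ℝ) ^ 7 * A.card = cu * ((9 / cu) * ((NN η X : ℝ) ^ 7 * A.card)) := by
          field_simp
      _ ≤ cu * (el A.card * (T * ZZ s (bg s α (NN η X)))) :=
          mul_le_mul_of_nonneg_left (h12.trans h11) hcu0.le
  have hlo : ∀ j : {a // a ∈ A},
      cu * el A.card / A.card * (T * ZZ s (bg s α (NN η X))) ≤ mass s α (NN η X) T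
      (fun t => (s.b j + s.M * t).Prime ∧ ∀ i, s.pr i < s.b j + s.M * t) := by
    intro j
    rw [hcu]
    refine F5_prime s α (NN η X) X M T hsv.hi hMpos _ cp ct (el A.card) A.card
      (Real.log (Real.log X)) hcp hct hel hkpos hllpos hZ1 hTpos hT2r htt' j ?_ ?_ h8
    · have h1 := hprime X s α hD (hRc Kp (by linarith)) (by rw [hsM]; exact hMD')
        (by rw [hsM]; exact hM2) (by rw [hsM]; exact hpd2) j T (hcop j) (hbX j)
        (by rw [hsM]; exact hT1)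
      rw [hcard, (by rw [hsM] : (s.M.totient : ℝ) = (M.totient : ℝ))] at h1
      exact h1
    · exact hsmall X s α hsv hD.a0 (hRc K6 (by linarith)) hsM0 T j
  have hv1 : ∀ j : {a // a ∈ A}, mass s α (NN η X) T
      (fun t => ∀ i, ¬ s.pr i ∣ s.b j + s.M * t) ≤
        Cv * el A.card / A.card * (T * ZZ s (bg s α (NN η X))) := by
    intro j
    have h1 := hone X s α hD (hRc K1 (by linarith)) T hT12 j
    rw [hcard] at h1
    refine h1.trans ?_
    have h2 : C1 * (el A.card / A.card) * T * ZZ s (bg s α (NN η X)) =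
      C1 * (el A.card / A.card * (T * ZZ s (bg s α (NN η X)))) := by ring
    have h3 : Cv * el A.card / A.card * (T * ZZ s (bg s α (NN η X))) =
      Cv * (el A.card / A.card * (T * ZZ s (bg s α (NN η X)))) := by ring
    rw [h2, h3]
    exact mul_le_mul_of_nonneg_right (by linarith) (by positivity)
  have hv2 : ∀ j1 j2 : {a // a ∈ A}, j1 ≠ j2 → mass s α (NN η X) T
      (fun t => (∀ i, ¬ s.pr i ∣ s.b j1 + s.M * t) ∧ ∀ i, ¬ s.pr i ∣ s.b j2 + s.M * t) ≤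
        (Cv * el A.card / A.card) ^ 2 * (T * ZZ s (bg s α (NN η X))) := by
    intro j1 j2 hj
    have h1 := htwo X s α hD (hRc K2 (by linarith)) T hT12 j1 j2 hj
    rw [hcard] at h1
    refine h1.trans ?_
    have h2 : C2 * (el A.card / A.card) ^ 2 * T * ZZ s (bg s α (NN η X)) =
      C2 * ((el A.card / A.card) ^ 2 * (T * ZZ s (bg s α (NN η X)))) := by ring
    have h3 : (Cv * el A.card / A.card) ^ 2 * (T * ZZ s (bg s α (NN η X))) =
      Cv ^ 2 * ((el A.card / A.card) ^ 2 * (T * ZZ s (bg s α (NN η X)))) := by ring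
    rw [h2, h3]
    have h4 : C2 ≤ Cv ^ 2 := by nlinarith
    exact mul_le_mul_of_nonneg_right h4 (by positivity)
  have htotal := htot X s α hsv hD.a0 (hRc K3 (by linarith)) T hT12
  have hmany := many_primes s α (NN η X) T (T * ZZ s (bg s α (NN η X)))
    (cu * el A.card / A.card) (Cv * el A.card / A.card) hTZ
    (by positivity) (by positivity) (by rw [hcard]; exact hk1)
    (htotal.trans (le_of_eq (mul_assoc _ _ _))) hlo hv1 hv2
  rw [hcard] at hmany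
  have hmany2 := (F5_num δ0 cu Cv (el A.card) A.card (T * ZZ s (bg s α (NN η X))) hcu0 hCv1 hel
    hkpos hTZ.le hδ0).trans hmany
  have hgood := F5_good s α (NN η X) T _
    (fun j t => Nice c₁ C₁ X A.card (s.b j + s.M * t)) δ0 (T * ZZ s (bg s α (NN η X))) A.card
    hkpos (by rw [hcard]) hmany2 (fun j => by
      have h1 := hnice X s α hD (hRc K5 (by linarith)) p1 (by rw [hsM, hMdef]) T hT34
        (by rw [hsM]; exact hT2) j (hbX2 j) (hcop j)
      rw [hcard] at h1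
      exact h1.trans (le_of_eq (by ring)))
  have hcount := F5_count A s α (NN η X) X M T b0 hMpos hsM hsb hb0 hMX' hT2
    (hLf X s α hsv hD.a0 (hRc KL (by linarith)))
    (A.card * (cu * el A.card / A.card) / 4) (fun n => Nice c₁ C₁ X A.card n)
  have e1 : A.card * (cu * el A.card / A.card) / 4 = cu / 4 * el A.card := by
    field_simp
  rw [e1] at hcount
  rw [e1] at hgood
  exact F5_fin η δ0 X (NN η X) T hX1 hF.N_le _ _ hZ1 hδ0' (Nat.cast_nonneg _) hTlow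
    (hgood.trans hcount)

end Pool.Agent.Lib.H59D
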