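import Pool.Agent.Lib.H59D.F5

/-!
# The final theorem
-/

open Finset

namespace Pool.Agent.Lib.H59D

open Pool.Agent.Lib.H5C (WX)

/-- Elementary estimates for `X = ⌊x/100⌋`. -/
theorem F6_X (x : ℝ) (hx : 15625 ≤ x) :
    x / 125 ≤ (⌊x / 100⌋₊ : ℝ) ∧ (⌊x / 100⌋₊ : ℝ) ≤ x / 100 ∧
    Real.log x / 2 ≤ Real.log (⌊x / 100⌋₊ : ℝ) ∧ Real.log (⌊x / 100⌋₊ : ℝ) ≤ Real.log x ∧
    1 ≤ Real.log x := by
  have h0 : 0 ≤ x / 100 := by linarith
  have h1 : (⌊x / 100⌋₊ : ℝ) ≤ x / 100 := Nat.floor_le h0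
  have h2 : x / 125 ≤ (⌊x / 100⌋₊ : ℝ) := by
    have := Nat.lt_floor_add_one (x / 100)
    linarith
  have hx0 : 0 < x := by linarith
  have hpos : 0 < (⌊x / 100⌋₊ : ℝ) := lt_of_lt_of_le (by positivity) h2
  refine ⟨h2, h1, ?_, Real.log_le_log hpos (by linarith), ?_⟩
  · have h3 : Real.log (x / 125) ≤ Real.log (⌊x / 100⌋₊ : ℝ) := Real.log_le_log (by positivity) h2
    refine le_trans ?_ h3
    rw [Real.log_div hx0.ne' (by norm_num)]
    have h4 : Real.log ((125:ℝ) ^ 2) ≤ Real.log x := Real.log_le_log (by norm_num) (by linarith)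
    rw [Real.log_pow] at h4
    push_cast at h4
    linarith
  · rw [Real.le_log_iff_exp_le hx0]
    have := Real.exp_one_lt_d9
    linarith

theorem F6_WX (X : ℕ) (L : ℝ) (hL : Real.log X ≤ L) (h2 : 1 ≤ Real.log X) (h3 : 2 ≤ L) :
    (WX X : ℝ) ≤ L ^ 17 := by
  unfold WX
  have h := (Nat.ceil_lt_add_one (show 0 ≤ (Real.log X) ^ 16 by positivity)).le
  have h1 : (1 : ℝ) ≤ (Real.log X) ^ 16 := one_le_pow₀ h2
  have h4 : (Real.log X) ^ 16 ≤ L ^ 16 := pow_le_pow_left₀ (by linarith) hL 16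
  calc (⌈(Real.log X) ^ 16⌉₊ : ℝ) ≤ 2 * L ^ 16 := by linarith
    _ ≤ L * L ^ 16 := mul_le_mul_of_nonneg_right h3 (by positivity)
    _ = L ^ 17 := by ring

open Classical in
/-- **Theorem.** -/
theorem final (ε : ℝ) (hε : 0 < ε) : ∃ c C : ℝ, 0 < c ∧ 0 < C ∧ ∀ x : ℝ, C ≤ x →
    ∀ A : Finset ℕ, A.Nonempty →
      (∀ p : ℕ, p.Prime → ∃ r : ZMod p, ∀ a ∈ A, (a : ZMod p) ≠ r) →
      (∀ a ∈ A, (a : ℝ) ≤ c * x) →
      C * (A.card * (1 + Real.log A.card) * Real.log (Real.log x)) ≤ Real.log x →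
      x ^ (1 - ε) ≤ (((Icc 1 ⌊x⌋₊).filter (fun n =>
        c * (1 + Real.log A.card) ≤ ((A.filter (fun a => Nat.Prime (n + a))).card : ℝ) ∧
        ∀ a ∈ A, (ArithmeticFunction.cardFactors (n + a) : ℝ) ≤ C * (1 + Real.log A.card) ∧
          ∀ p, p.Prime → p ∣ n + a → (Real.log x) ^ 17 < p →
            x ^ (c / (A.card : ℝ) ^ 3) < p ∧ ¬ p ^ 2 ∣ n + a)).card : ℝ) := by
  obtain ⟨η, c₁, c₂, C₁, δ, K, hη, hη1, hηε, hc₁, hc₂, hC₁, hδ, hK, hcore⟩ := F5_core ε hε
  set e1 : ℝ := 3 / 10 * ε with he1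
  have he1' : 0 < e1 := by positivity
  obtain ⟨x1, hx1⟩ : ∃ x1 : ℝ, ∀ x : ℝ, x1 ≤ x → 125 / δ ≤ x ^ e1 := by
    exact Filter.eventually_atTop.mp ((tendsto_rpow_atTop he1').eventually_ge_atTop (125 / δ))
  refine ⟨min (1 / 2000) (min (c₁ / 2) c₂),
    |x1| + 15625 + 2 * K + C₁ + Real.exp (Real.exp (K + 1)), by positivity, by positivity, ?_⟩
  intro x hx A hAne hadm hAx hreg
  have hc1 : min (1 / 2000) (min (c₁ / 2) c₂) ≤ 1 / 2000 := min_le_left _ _
  have hc2 : min (1 / 2000) (min (c₁ / 2) c₂) ≤ c₁ / 2 :=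
    (min_le_right _ _).trans (min_le_left _ _)
  have hc3 : min (1 / 2000) (min (c₁ / 2) c₂) ≤ c₂ := (min_le_right _ _).trans (min_le_right _ _)
  have hc0 : 0 < min (1 / 2000) (min (c₁ / 2) c₂) := by positivity
  set c := min (1 / 2000) (min (c₁ / 2) c₂) with hc
  set C := |x1| + 15625 + 2 * K + C₁ + Real.exp (Real.exp (K + 1)) with hC
  have hee : 0 < Real.exp (Real.exp (K + 1)) := Real.exp_pos _
  have hax : 0 ≤ |x1| := abs_nonneg _
  have hx15 : 15625 ≤ x := by linarith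
  have hxx1 : x1 ≤ x := by
    have := le_abs_self x1
    linarith
  have hxe : Real.exp (Real.exp (K + 1)) ≤ x := by linarith
  have hx0 : 0 < x := by linarith
  obtain ⟨hX1, hX2, hL1, hL2, hLx⟩ := F6_X x hx15
  set X := ⌊x / 100⌋₊ with hX
  have hll : K + 1 ≤ Real.log (Real.log x) := by
    have h1 : Real.exp (K + 1) ≤ Real.log x := (Real.le_log_iff_exp_le hx0).mpr hxe
    exact (Real.le_log_iff_exp_le (by linarith)).mpr h1
  have hLx2 : Real.exp (K + 1) ≤ Real.log x := (Real.le_log_iff_exp_le hx0).mpr hxe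
  have hLx3 : 4 ≤ Real.log x := by
    have h1 : Real.exp 2 ≤ Real.exp (K + 1) := Real.exp_le_exp.mpr (by linarith)
    have h2 : (4:ℝ) ≤ Real.exp 2 := by
      have h3 := Real.exp_one_gt_d9
      have h4 : Real.exp 2 = Real.exp 1 * Real.exp 1 := by
        rw [← Real.exp_add]; norm_num
      rw [h4]
      nlinarith
    linarith
  have hLX0 : 0 < Real.log X := by linarith
  have hk1 : 1 ≤ A.card := Finset.card_pos.mpr hAne
  have hkpos : (0:ℝ) < A.card := by exact_mod_cast hk1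
  have hlk : 0 ≤ Real.log A.card := Real.log_natCast_nonneg _
  have hel : el A.card = 1 + Real.log A.card := rfl
  have hR : Rg K X A.card := by
    refine ⟨hk1, ?_, ?_⟩
    · have h1 : Real.log (Real.log x / 2) ≤ Real.log (Real.log X) :=
        Real.log_le_log (by linarith) hL1
      rw [Real.log_div (by linarith) (by norm_num)] at h1
      have := Real.log_two_lt_d9
      linarith
    · have h1 : Real.log (Real.log X) ≤ Real.log (Real.log x) := Real.log_le_log hLX0 hL2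
      have hKC : 2 * K ≤ C := by linarith
      have h2 : 0 ≤ A.card * (1 + Real.log A.card) * Real.log (Real.log x) := by
        have : 0 ≤ Real.log (Real.log x) := by linarith
        positivity
      have h3 : el A.card * A.card * Real.log (Real.log X) ≤
          A.card * (1 + Real.log A.card) * Real.log (Real.log x) := by
        rw [hel, mul_comm (1 + Real.log A.card)]
        exact mul_le_mul_of_nonneg_left h1 (by positivity)
      have h4 : 2 * K * (A.card * (1 + Real.log A.card) * Real.log (Real.log x)) ≤ Real.log x :=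
        (mul_le_mul_of_nonneg_right hKC h2).trans hreg
      have h5 := mul_le_mul_of_nonneg_left h3 (by linarith : 0 ≤ K)
      linarith
  have hmain := hcore X A hAne hadm (fun a ha => by
    have h1 := hAx a ha
    have h2 : c * x ≤ 1 / 2000 * x := mul_le_mul_of_nonneg_right hc1 hx0.le
    linarith) hR
  have hcount : x ^ (1 - ε) ≤ δ * (X : ℝ) ^ (1 - 7 * η) := by
    have h1 : (x / 125) ^ (1 - 7 * η) ≤ (X : ℝ) ^ (1 - 7 * η) :=
      Real.rpow_le_rpow (by positivity) hX1 (by linarith)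
    have h2 : x ^ (1 - 7 * η) / 125 ≤ (x / 125) ^ (1 - 7 * η) := by
      rw [Real.div_rpow hx0.le (by norm_num)]
      refine div_le_div_of_nonneg_left (Real.rpow_nonneg hx0.le _) (by positivity) ?_
      calc (125:ℝ) ^ (1 - 7 * η) ≤ (125:ℝ) ^ (1:ℝ) :=
            Real.rpow_le_rpow_of_exponent_le (by norm_num) (by linarith)
        _ = 125 := Real.rpow_one _
    have h3 : x ^ (1 - ε) * x ^ e1 ≤ x ^ (1 - 7 * η) := by
      rw [← Real.rpow_add hx0]
      exact Real.rpow_le_rpow_of_exponent_le (by linarith) (by rw [he1]; linarith)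
    have h4 := hx1 x hxx1
    have h5 : 0 < x ^ (1 - ε) := Real.rpow_pos_of_pos hx0 _
    calc x ^ (1 - ε) = δ * ((x ^ (1 - ε) * (125 / δ)) / 125) := by field_simp
      _ ≤ δ * ((x ^ (1 - ε) * x ^ e1) / 125) := by gcongr
      _ ≤ δ * (x ^ (1 - 7 * η) / 125) := by gcongr
      _ ≤ δ * (X : ℝ) ^ (1 - 7 * η) := mul_le_mul_of_nonneg_left (h2.trans h1) hδ.le
  refine hcount.trans (hmain.trans ?_)
  have hsub : (Icc 1 (62 * X)).filter (fun n =>
      c₂ * el A.card ≤ ((A.filter (fun a => Nat.Prime (n + a))).card : ℝ) ∧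
      ∀ a ∈ A, Nice c₁ C₁ X A.card (n + a)) ⊆ (Icc 1 ⌊x⌋₊).filter (fun n =>
        c * (1 + Real.log A.card) ≤ ((A.filter (fun a => Nat.Prime (n + a))).card : ℝ) ∧
        ∀ a ∈ A, (ArithmeticFunction.cardFactors (n + a) : ℝ) ≤ C * (1 + Real.log A.card) ∧
          ∀ p, p.Prime → p ∣ n + a → (Real.log x) ^ 17 < p →
            x ^ (c / (A.card : ℝ) ^ 3) < p ∧ ¬ p ^ 2 ∣ n + a) := by
    intro n hn
    rw [mem_filter, mem_Icc] at hn ⊢
    obtain ⟨⟨hn1, hn2⟩, hn3, hn4⟩ := hn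
    refine ⟨⟨hn1, Nat.le_floor ?_⟩, ?_, ?_⟩
    · have h1 : (n:ℝ) ≤ 62 * X := by exact_mod_cast hn2
      linarith
    · refine le_trans ?_ hn3
      rw [hel]
      exact mul_le_mul_of_nonneg_right hc3 (by linarith)
    · intro a ha
      obtain ⟨h1, h2⟩ := hn4 a ha
      refine ⟨h1.trans ?_, fun p hp hpd hpx => ?_⟩
      · rw [hel]
        exact mul_le_mul_of_nonneg_right (by linarith) (by linarith)
      · have h3 : WX X < p := by
          have h4 := F6_WX X (Real.log x) hL2 (by linarith) (by linarith)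
          have h5 : (WX X : ℝ) < p := lt_of_le_of_lt h4 hpx
          exact_mod_cast h5
        obtain ⟨h4, h5⟩ := h2 p hp hpd h3
        refine ⟨lt_of_le_of_lt ?_ h4, h5⟩
        rw [Real.rpow_def_of_pos hx0]
        apply Real.exp_le_exp.mpr
        rw [mul_div_assoc']
        apply div_le_div_of_nonneg_right _ (by positivity)
        calc Real.log x * c ≤ Real.log x * (c₁ / 2) :=
              mul_le_mul_of_nonneg_left hc2 (by linarith)
          _ = c₁ * (Real.log x / 2) := by ring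
          _ ≤ c₁ * Real.log X := mul_le_mul_of_nonneg_left hL1 hc₁.le
  exact_mod_cast Finset.card_le_card hsub

end Pool.Agent.Lib.H59D
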