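import Pool.Agent.Lib.H59D.Num
import Pool.Agent.Lib.Sieve.Averages
import Pool.Agent.Lib.Helper57.Mertens

/-!
# Definition of the modulus `M`, the product of the primes `≤ (log X)^(1/11)` except `p1`
-/

open Finset

namespace Pool.Agent.Lib.H59D

open Pool.Agent.Lib.H5C (WX)

/-- `y = ⌊(log X)^(1/11)⌋` -/
noncomputable def YX (X : ℕ) : ℕ := ⌊(Real.log X) ^ (1 / 11 : ℝ)⌋₊

/-- The modulus. -/
noncomputable def MX (X p1 : ℕ) : ℕ :=
  ∏ p ∈ (Icc 1 (YX X)).filter (fun p => p.Prime ∧ p ≠ p1), p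

/-- The primes `≤ W` which do not divide the modulus. -/
noncomputable def UU (X p1 : ℕ) : Finset ℕ :=
  (Icc 1 (WX X)).filter (fun p => p.Prime ∧ ¬ p ∣ MX X p1)

theorem MX_pos (X p1 : ℕ) : 0 < MX X p1 :=
  Finset.prod_pos fun p hp => (mem_filter.mp hp).2.1.pos

end Pool.Agent.Lib.H59D
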