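import Pool.Agent.Lib.H59D.MX0

/-!
# Chunk MXa: size and prime factors of the modulus
-/

open Finset

namespace Pool.Agent.Lib.H59D

open Pool.Agent.Lib.H5C (WX)

/-- A prime divides `MX X p1` iff it is `≤ y` and different from `p1` (`Prime.dvd_finset_prod_iff`,
`Nat.prime_dvd_prime_iff_eq`). -/
theorem dvd_MX (X p1 p : ℕ) (hp : p.Prime) : p ∣ MX X p1 ↔ p ≤ YX X ∧ p ≠ p1 := by
  unfold MX
  rw [hp.prime.dvd_finsetProd_iff]
  constructor
  · rintro ⟨a, ha, hpa⟩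
    rw [mem_filter, mem_Icc] at ha
    rw [(Nat.prime_dvd_prime_iff_eq hp ha.2.1).mp hpa]
    exact ⟨ha.1.2, ha.2.2⟩
  · rintro ⟨h1, h2⟩
    exact ⟨p, mem_filter.mpr ⟨mem_Icc.mpr ⟨hp.one_lt.le, h1⟩, hp, h2⟩, dvd_refl _⟩

theorem MXa_primorial (X p1 : ℕ) : MX X p1 ≤ 4 ^ YX X := by
  refine le_trans ?_ (primorial_le_four_pow (YX X))
  unfold MX primorial
  refine Finset.prod_le_prod_of_subset_of_one_le' ?_ ?_
  · intro p hp
    rw [mem_filter, mem_Icc] at hp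
    rw [mem_filter, mem_range]
    exact ⟨by omega, hp.2.1⟩
  · intro p hp _
    exact (mem_filter.mp hp).2.one_lt.le

theorem MXa_tendsto : Filter.Tendsto (fun X : ℕ => Real.log X) Filter.atTop Filter.atTop :=
  Real.tendsto_log_atTop.comp tendsto_natCast_atTop_atTop

/-- `MX ≤ primorial y ≤ 4^y ≤ exp (2 (log X)^(1/11)) ≤ exp ((log X)^(1/10))`, and this is `≤ X^η` for
large `X`; `y ≤ W`; `y ≤ X/8`. -/
theorem MX_le : ∀ η : ℝ, 0 < η → ∃ X0 : ℕ, ∀ X : ℕ, X0 ≤ X → ∀ p1 : ℕ,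
    (MX X p1 : ℝ) ≤ Real.exp ((Real.log X) ^ (1 / 10 : ℝ)) ∧ (MX X p1 : ℝ) ≤ (X : ℝ) ^ η ∧
    YX X ≤ WX X ∧ (YX X : ℝ) ≤ X / 8 ∧ 2 ≤ YX X := by
  intro η hη
  have e1 : ∀ᶠ X : ℕ in Filter.atTop, (2 : ℝ) ≤ (Real.log X) ^ (1 / 110 : ℝ) :=
    ((tendsto_rpow_atTop (by norm_num : (0 : ℝ) < 1 / 110)).comp MXa_tendsto).eventually_ge_atTop 2
  have e2 : ∀ᶠ X : ℕ in Filter.atTop, 1 / η ≤ (Real.log X) ^ (9 / 10 : ℝ) :=
    ((tendsto_rpow_atTop (by norm_num : (0 : ℝ) < 9 / 10)).comp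
      MXa_tendsto).eventually_ge_atTop (1 / η)
  have e3 : ∀ᶠ X : ℕ in Filter.atTop, (2 : ℝ) ≤ (Real.log X) ^ (1 / 11 : ℝ) :=
    ((tendsto_rpow_atTop (by norm_num : (0 : ℝ) < 1 / 11)).comp MXa_tendsto).eventually_ge_atTop 2
  have e4 : ∀ᶠ X : ℕ in Filter.atTop, (1 : ℝ) ≤ Real.log X := MXa_tendsto.eventually_ge_atTop 1
  have e5 : ∀ᶠ X : ℕ in Filter.atTop, Real.log X ≤ X / 8 := by
    have h1 := Real.isLittleO_log_id_atTop.bound (by norm_num : (0 : ℝ) < 1 / 8)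
    have h2 := tendsto_natCast_atTop_atTop (R := ℝ) |>.eventually h1
    filter_upwards [h2, e4] with X hX hX4
    rw [Real.norm_eq_abs, abs_of_nonneg (by linarith), id, Real.norm_natCast] at hX
    linarith
  have hall := (((e1.and e2).and e3).and e4).and e5
  obtain ⟨X0, hX0⟩ := Filter.eventually_atTop.mp hall
  refine ⟨max X0 1, fun X hX p1 => ?_⟩
  obtain ⟨⟨⟨⟨h1, h2⟩, h3⟩, h4⟩, h5⟩ := hX0 X ((le_max_left _ _).trans hX)
  have hX1 : 1 ≤ X := (le_max_right _ _).trans hX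
  have hX0' : (0 : ℝ) < X := by exact_mod_cast hX1
  set L := Real.log X with hL
  have hL0 : 0 < L := by linarith
  have hy : (YX X : ℝ) ≤ L ^ (1 / 11 : ℝ) := Nat.floor_le (by positivity)
  have hyL : (YX X : ℝ) ≤ L := by
    refine hy.trans ?_
    calc L ^ (1 / 11 : ℝ) ≤ L ^ (1 : ℝ) := Real.rpow_le_rpow_of_exponent_le h4 (by norm_num)
      _ = L := Real.rpow_one _
  have hM1 : (MX X p1 : ℝ) ≤ Real.exp (L ^ (1 / 10 : ℝ)) := by
    have h6 : (MX X p1 : ℝ) ≤ (4 : ℝ) ^ (YX X) := by exact_mod_cast MXa_primorial X p1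
    have h7 : (4 : ℝ) ^ (YX X) = Real.exp (YX X * Real.log 4) := by
      rw [mul_comm, Real.exp_mul, Real.exp_log (by norm_num), Real.rpow_natCast]
    have h8 : Real.log 4 ≤ 2 := by
      have : Real.log 4 = 2 * Real.log 2 := by
        rw [show (4 : ℝ) = 2 ^ 2 by norm_num, Real.log_pow]
        norm_num
      have := Real.log_two_lt_d9
      linarith
    have h9 : L ^ (1 / 10 : ℝ) = L ^ (1 / 11 : ℝ) * L ^ (1 / 110 : ℝ) := by
      rw [← Real.rpow_add hL0]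
      norm_num
    rw [h7] at h6
    refine h6.trans (Real.exp_le_exp.mpr ?_)
    rw [h9]
    refine mul_le_mul hy (h8.trans h1) (Real.log_nonneg (by norm_num)) (by positivity)
  refine ⟨hM1, ?_, ?_, ?_, ?_⟩
  · refine hM1.trans ?_
    rw [Real.rpow_def_of_pos hX0']
    refine Real.exp_le_exp.mpr ?_
    have h6 : L = L ^ (1 / 10 : ℝ) * L ^ (9 / 10 : ℝ) := by
      rw [← Real.rpow_add hL0]
      norm_num
    have h7 : 1 ≤ η * L ^ (9 / 10 : ℝ) := by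
      rw [div_le_iff₀ hη] at h2
      linarith
    have h8 : 0 < L ^ (1 / 10 : ℝ) := by positivity
    calc L ^ (1 / 10 : ℝ) = L ^ (1 / 10 : ℝ) * 1 := by ring
      _ ≤ L ^ (1 / 10 : ℝ) * (η * L ^ (9 / 10 : ℝ)) := mul_le_mul_of_nonneg_left h7 h8.le
      _ = (L ^ (1 / 10 : ℝ) * L ^ (9 / 10 : ℝ)) * η := by ring
      _ = L * η := by rw [← h6]
  · have h6 : L ≤ (WX X : ℝ) := by
      calc L = L ^ 1 := (pow_one L).symm
        _ ≤ L ^ 16 := pow_le_pow_right₀ h4 (by norm_num)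
        _ ≤ WX X := Nat.le_ceil _
    exact_mod_cast hyL.trans h6
  · linarith
  · unfold YX
    rw [Nat.le_floor_iff (by positivity)]
    exact_mod_cast h3

end Pool.Agent.Lib.H59D
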