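import Pool.Agent.Lib.H59D.Defs
import Pool.Agent.Lib.H5C.PM5

/-!
# Chunk P1: taking primes away, general weights
-/

open Finset
open Pool.Agent.Lib.H56G
open Pool.Agent.Lib.H5C (rem)

namespace Pool.Agent.Lib.H59D

variable {ι J : Type} [Fintype ι] [DecidableEq ι] [Fintype J] [DecidableEq J]

theorem P1_step (s : Sys ι J) (bb : Finset ι → ℝ)
    (hvv : ∀ A, ∀ i ∈ A, vv s bb A ≤ 1 / ((s.pr i : ℝ) - 1) * vv s bb (A.erase i))
    (κ : ι → Option J) (i : ι) :
    wt s bb κ ≤
      (if i ∈ supp κ then 1 / ((s.pr i : ℝ) - 1) else 1) *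
        wt s bb (fun i' => if i' = i then none else κ i') := by
  by_cases hi : i ∈ supp κ
  · rw [if_pos hi]
    obtain ⟨j, hj⟩ : ∃ j, κ i = some j := by
      rw [off_mem_supp] at hi
      exact Option.ne_none_iff_exists'.mp hi
    have hpart : part (fun i' => if i' = i then none else κ i') j = (part κ j).erase i := by
      ext i'
      rw [off_mem_part, Finset.mem_erase, off_mem_part]
      by_cases h : i' = i
      · simp [h]
      · simp [h]
    have hother : ∀ j' ∈ univ.erase j,
        part (fun i' => if i' = i then none else κ i') j' = part κ j' := by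
      intro j' hj'
      have hne := Finset.ne_of_mem_erase hj'
      ext i'
      rw [off_mem_part, off_mem_part]
      by_cases h : i' = i
      · subst h
        rw [if_pos rfl, hj]
        simp [hne.symm]
      · simp [h]
    unfold wt
    rw [← Finset.mul_prod_erase univ _ (Finset.mem_univ j),
      ← Finset.mul_prod_erase univ (fun j' => vv s bb
        (part (fun i' => if i' = i then none else κ i') j')) (Finset.mem_univ j), hpart,
      Finset.prod_congr rfl (fun j' hj' => by rw [hother j' hj'] :
        ∀ j' ∈ univ.erase j, vv s bb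
          (part (fun i' => if i' = i then none else κ i') j') = vv s bb (part κ j')),
      ← mul_assoc]
    refine mul_le_mul_of_nonneg_right ?_
      (Finset.prod_nonneg fun j' _ => vv_nonneg s _ _)
    exact hvv (part κ j) i ((off_mem_part κ j i).mpr hj)
  · rw [if_neg hi, one_mul]
    have h : (fun i' => if i' = i then none else κ i') = κ := by
      funext i'
      by_cases h' : i' = i
      · subst h'
        rw [if_pos rfl]
        rw [off_mem_supp, not_not] at hi
        exact hi.symm
      · rw [if_neg h']
    rw [h]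

/-- Copy of `H5C.wt_rem` with the hypothesis `hvv` in place of `H5C.vv_erase` (and `C = 1`). -/
theorem wt_rem (s : Sys ι J) (bb : Finset ι → ℝ)
    (hvv : ∀ A, ∀ i ∈ A, vv s bb A ≤ 1 / ((s.pr i : ℝ) - 1) * vv s bb (A.erase i))
    (κ : ι → Option J) (E : Finset ι) :
    wt s bb κ ≤ (∏ i ∈ E ∩ supp κ, 1 / ((s.pr i : ℝ) - 1)) * wt s bb (rem κ E) := by
  have hnn : ∀ i, 0 ≤ 1 / ((s.pr i : ℝ) - 1) := fun i => by
    have hp3 : (2 : ℝ) ≤ (s.pr i : ℝ) := by exact_mod_cast (s.prime i).two_le
    have hp : (0 : ℝ) < (s.pr i : ℝ) - 1 := by linarith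
    positivity
  induction E using Finset.induction_on with
  | empty =>
    have h : rem κ ∅ = κ := by
      funext i
      simp [rem]
    rw [h]
    simp
  | insert a E ha ih =>
    have hstep := P1_step s bb hvv (rem κ E) a
    have hrem : (fun i' => if i' = a then none else rem κ E i') = rem κ (insert a E) := by
      funext i'
      unfold rem
      by_cases h1 : i' = a
      · simp [h1]
      · simp [h1, Finset.mem_insert]
    rw [hrem] at hstep
    have hsupp : (a ∈ supp (rem κ E)) ↔ (a ∈ supp κ) := by
      rw [off_mem_supp, off_mem_supp]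
      unfold rem
      rw [if_neg ha]
    have hprod : ∏ i ∈ insert a E ∩ supp κ, 1 / ((s.pr i : ℝ) - 1) =
        (∏ i ∈ E ∩ supp κ, 1 / ((s.pr i : ℝ) - 1)) *
          (if a ∈ supp (rem κ E) then 1 / ((s.pr a : ℝ) - 1) else 1) := by
      by_cases h : a ∈ supp κ
      · rw [if_pos (hsupp.mpr h), Finset.insert_inter_of_mem h, Finset.prod_insert
          (fun h' => ha (Finset.mem_inter.mp h').1), mul_comm]
      · rw [if_neg (fun h' => h (hsupp.mp h')), Finset.insert_inter_of_notMem h, mul_one]
    rw [hprod, mul_assoc]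
    exact ih.trans (mul_le_mul_of_nonneg_left hstep (Finset.prod_nonneg fun i _ => hnn i))

end Pool.Agent.Lib.H59D
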