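import Pool.Agent.Lib.H59D.P1

/-!
# Chunk P2: the coefficients of the non-trivial families are small, general weights
-/

open Finset
open Pool.Agent.Lib.H56G
open Pool.Agent.Lib.H5C (rem Fam wch csupp RR PM5b_q_pos PM5b_sqrt_ph PM5b_t PM5b_t_nonneg
  PM5b_r_rem PM5b_schur PM5b_h PM5b_g2_nonneg PM5b_h_nonneg PM5b_h_symm PM5b_L PM5b_L_nonneg
  PM5b_L_symm gh qw norm_gh_le gh_one row_prod sum_rem pair_one g1 g2)

namespace Pool.Agent.Lib.H59D

variable {ι J : Type} [Fintype ι] [DecidableEq ι] [Fintype J] [DecidableEq J]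

/-- The normalised size of the coefficient. -/
noncomputable def P2_n (s : Sys ι J) (bb : Finset ι → ℝ) (D : ℝ) (κ : ι → Option J) : ℝ :=
  if s.r κ ≤ D then √(wt s bb κ) else 0

theorem P2_n_nonneg (s : Sys ι J) (bb : Finset ι → ℝ) (D : ℝ) (κ : ι → Option J) : 0 ≤ P2_n s bb D κ := by
  unfold P2_n
  split_ifs
  · exact Real.sqrt_nonneg _
  · exact le_rfl

theorem P2_n_sq (s : Sys ι J) (bb : Finset ι → ℝ) (D : ℝ) (κ : ι → Option J) :
    P2_n s bb D κ ^ 2 ≤ wt s bb κ := by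
  unfold P2_n
  split_ifs
  · rw [Real.sq_sqrt (wt_nonneg s _ κ)]
  · rw [zero_pow two_ne_zero]
    exact wt_nonneg s _ κ

theorem P2_c (s : Sys ι J) (bb : Finset ι → ℝ) (D c : ℝ) (κ : ι → Option J)
    (hc : |c| ≤ |cc s bb D κ|) : |c| * √(s.ph κ) ≤ P2_n s bb D κ := by
  unfold P2_n
  split_ifs with h
  · rw [← cc_sq_mul_ph s bb D κ h, Real.sqrt_mul (sq_nonneg _), Real.sqrt_sq_eq_abs]
    exact mul_le_mul_of_nonneg_right hc (Real.sqrt_nonneg _)
  · have h0 : cc s bb D κ = 0 := by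
      unfold cc
      rw [if_neg h]
    rw [h0, abs_zero] at hc
    have h1 : |c| = 0 := le_antisymm hc (abs_nonneg _)
    rw [h1, zero_mul]

theorem P2_rem (s : Sys ι J) (bb : Finset ι → ℝ)
    (hvv : ∀ A, ∀ i ∈ A, vv s bb A ≤ 1 / ((s.pr i : ℝ) - 1) * vv s bb (A.erase i)) (D : ℝ)
    (κ : ι → Option J) (E : Finset ι) :
    P2_n s bb D κ ≤ (∏ i, PM5b_t s 1 E i (κ i)) * P2_n s bb D (rem κ E) := by
  by_cases h : s.r κ ≤ D
  · have h' : s.r (rem κ E) ≤ D := (PM5b_r_rem s κ E).trans h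
    unfold P2_n
    rw [if_pos h, if_pos h']
    have h1 := wt_rem s bb hvv κ E
    have h2 : (∏ i, PM5b_t s 1 E i (κ i)) = √(∏ i ∈ E ∩ supp κ, 1 / ((s.pr i : ℝ) - 1)) := by
      rw [Real.sqrt_prod]
      · have e1 : ∀ i, PM5b_t s 1 E i (κ i) =
            if i ∈ E ∩ supp κ then √(1 / ((s.pr i : ℝ) - 1)) else 1 := by
          intro i
          unfold PM5b_t
          by_cases hi : i ∈ E
          · rw [if_pos hi]
            by_cases hk : κ i = none
            · rw [if_pos hk, if_neg]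
              rw [mem_inter]
              rintro ⟨_, h4⟩
              unfold supp at h4
              rw [mem_filter, hk] at h4
              simp at h4
            · rw [if_neg hk, if_pos]
              · rw [Real.sqrt_div (by positivity), Real.sqrt_one]
              · rw [mem_inter]
                refine ⟨hi, ?_⟩
                unfold supp
                rw [mem_filter]
                refine ⟨mem_univ _, ?_⟩
                rw [Option.isSome_iff_ne_none]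
                exact hk
          · rw [if_neg hi, if_neg]
            rw [mem_inter]
            exact fun h4 => hi h4.1
        rw [Finset.prod_congr rfl (fun i _ => e1 i), Finset.prod_ite_mem, Finset.univ_inter]
      · intro i _
        have hp2 : (2 : ℝ) ≤ s.pr i := by exact_mod_cast (s.prime i).two_le
        have : 0 < (s.pr i : ℝ) - 1 := by linarith
        positivity
    rw [h2, ← Real.sqrt_mul]
    · exact Real.sqrt_le_sqrt h1
    · apply Finset.prod_nonneg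
      intro i _
      have hp2 : (2 : ℝ) ≤ s.pr i := by exact_mod_cast (s.prime i).two_le
      have : 0 < (s.pr i : ℝ) - 1 := by linarith
      positivity
  · have h0 : P2_n s bb D κ = 0 := by unfold P2_n; rw [if_neg h]
    rw [h0]
    exact mul_nonneg (Finset.prod_nonneg fun i _ => PM5b_t_nonneg s 1 le_rfl E i _)
      (P2_n_nonneg s bb D _)

theorem P2_term (s : Sys ι J) (bb : Finset ι → ℝ)
    (hvv : ∀ A, ∀ i ∈ A, vv s bb A ≤ 1 / ((s.pr i : ℝ) - 1) * vv s bb (A.erase i)) (D : ℝ) (j0 : J)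
    (c' : (ι → Option J) → ℝ) (hc : ∀ κ ∈ noJ j0, |c' κ| ≤ |cc s bb D κ|) (χ : Fam s)
    (κ κ' : ι → Option J) (hκ : κ ∈ noJ j0) (hκ' : κ' ∈ noJ j0) :
    ‖((c' κ * c' κ' : ℝ) : ℂ) * ∏ i, gh s j0 i (κ i) (κ' i) (χ i)‖ ≤
      P2_n s bb D (rem κ (csupp s χ)) * P2_n s bb D (rem κ' (csupp s χ)) *
        ∏ i, PM5b_L s 1 (csupp s χ) i (κ i) (κ' i) := by
  classical
  set E := csupp s χ with hE
  have hk : ∀ i, κ i ≠ some j0 := by
    unfold noJ at hκ
    exact (mem_filter.1 hκ).2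
  have hk' : ∀ i, κ' i ≠ some j0 := by
    unfold noJ at hκ'
    exact (mem_filter.1 hκ').2
  have hg : ∀ i, ‖gh s j0 i (κ i) (κ' i) (χ i)‖ ≤ PM5b_h s E i (κ i) (κ' i) := by
    intro i
    unfold PM5b_h
    by_cases hi : i ∈ E
    · rw [if_pos hi]
      apply norm_gh_le s j0 i _ _ (hk i) (hk' i)
      rw [hE] at hi
      unfold csupp at hi
      exact (mem_filter.1 hi).2
    · rw [if_neg hi]
      have h1 : χ i = 1 := by
        by_contra h
        apply hi
        rw [hE]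
        unfold csupp
        rw [mem_filter]
        exact ⟨mem_univ _, h⟩
      rw [h1, gh_one s j0 i _ _ (hk i) (hk' i), Complex.norm_real, Real.norm_eq_abs]
  have hq : ∀ i a, √(qw s i a) ≠ 0 := fun i a => (Real.sqrt_pos.2 (PM5b_q_pos s i a)).ne'
  have e1 : ∏ i, PM5b_h s E i (κ i) (κ' i) =
      (∏ i, PM5b_h s E i (κ i) (κ' i) / (√(qw s i (κ i)) * √(qw s i (κ' i)))) *
        (√(s.ph κ) * √(s.ph κ')) := by
    rw [PM5b_sqrt_ph, PM5b_sqrt_ph, ← Finset.prod_mul_distrib, ← Finset.prod_mul_distrib]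
    apply Finset.prod_congr rfl
    intro i _
    have h1 := hq i (κ i)
    have h2 := hq i (κ' i)
    field_simp
  have e2 : ∏ i, PM5b_L s 1 E i (κ i) (κ' i) =
      (∏ i, PM5b_h s E i (κ i) (κ' i) / (√(qw s i (κ i)) * √(qw s i (κ' i)))) *
        ((∏ i, PM5b_t s 1 E i (κ i)) * ∏ i, PM5b_t s 1 E i (κ' i)) := by
    rw [← Finset.prod_mul_distrib, ← Finset.prod_mul_distrib]
    rfl
  set P := ∏ i, PM5b_h s E i (κ i) (κ' i) / (√(qw s i (κ i)) * √(qw s i (κ' i))) with hP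
  have hP0 : 0 ≤ P := by
    apply Finset.prod_nonneg
    intro i _
    have := PM5b_h_nonneg s E i (κ i) (κ' i)
    positivity
  have n1 := (P2_c s bb D (c' κ) κ (hc κ hκ)).trans
    (P2_rem s bb hvv D κ E)
  have n2 := (P2_c s bb D (c' κ') κ' (hc κ' hκ')).trans
    (P2_rem s bb hvv D κ' E)
  calc ‖((c' κ * c' κ' : ℝ) : ℂ) * ∏ i, gh s j0 i (κ i) (κ' i) (χ i)‖
      = |c' κ| * |c' κ'| * ∏ i, ‖gh s j0 i (κ i) (κ' i) (χ i)‖ := by
        rw [norm_mul, Complex.norm_real, Real.norm_eq_abs, abs_mul, norm_prod]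
    _ ≤ |c' κ| * |c' κ'| * ∏ i, PM5b_h s E i (κ i) (κ' i) := by
        apply mul_le_mul_of_nonneg_left _ (by positivity)
        exact Finset.prod_le_prod (fun i _ => norm_nonneg _) (fun i _ => hg i)
    _ = (|c' κ| * √(s.ph κ)) * (|c' κ'| * √(s.ph κ')) * P := by
        rw [e1]
        ring
    _ ≤ ((∏ i, PM5b_t s 1 E i (κ i)) * P2_n s bb D (rem κ E)) *
        ((∏ i, PM5b_t s 1 E i (κ' i)) * P2_n s bb D (rem κ' E)) * P := by
        apply mul_le_mul_of_nonneg_right _ hP0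
        apply mul_le_mul n1 n2 (by positivity)
        exact mul_nonneg (Finset.prod_nonneg fun i _ => PM5b_t_nonneg s 1 le_rfl E i _)
          (P2_n_nonneg s bb D _)
    _ = _ := by
        rw [e2]
        ring

theorem P2_norm_wch_le (s : Sys ι J) (bb : Finset ι → ℝ)
    (hvv : ∀ A, ∀ i ∈ A, vv s bb A ≤ 1 / ((s.pr i : ℝ) - 1) * vv s bb (A.erase i))
    (W : ℕ) (hW : 2 ≤ W) (hpr : ∀ i, W < s.pr i)
    (hJW : Fintype.card J ≤ W) (D : ℝ) (hD : 1 ≤ D) (j0 : J)
    (c' : (ι → Option J) → ℝ) (hc : ∀ κ ∈ noJ j0, |c' κ| ≤ |cc s bb D κ|) (χ : Fam s) :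
    ‖wch s j0 c' χ‖ ≤ RR J W D * ZZ s bb *
      ∏ i ∈ csupp s χ, (9 * (Fintype.card J : ℝ) / ((s.pr i : ℝ) - 1)) := by
  classical
  have h3 : ∀ i, 3 ≤ s.pr i := fun i => by have := hpr i; omega
  set E := csupp s χ with hE
  set n := P2_n s bb D with hn
  set A : (ι → Option J) → (ι → Option J) → ℝ := fun κ κ' => ∏ i, PM5b_L s 1 E i (κ i) (κ' i)
    with hA
  have hA0 : ∀ κ κ', 0 ≤ A κ κ' := fun κ κ' =>
    Finset.prod_nonneg fun i _ => PM5b_L_nonneg s 1 le_rfl E i _ _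
  have hn0 : ∀ κ, 0 ≤ n κ := P2_n_nonneg s bb D
  have s1 : ‖wch s j0 c' χ‖ ≤ ∑ κ, ∑ κ', n (rem κ E) * n (rem κ' E) * A κ κ' := by
    unfold wch
    calc ‖∑ κ ∈ noJ j0, ∑ κ' ∈ noJ j0, ((c' κ * c' κ' : ℝ) : ℂ) *
          ∏ i, gh s j0 i (κ i) (κ' i) (χ i)‖
        ≤ ∑ κ ∈ noJ j0, ∑ κ' ∈ noJ j0, ‖((c' κ * c' κ' : ℝ) : ℂ) *
          ∏ i, gh s j0 i (κ i) (κ' i) (χ i)‖ :=
          (norm_sum_le _ _).trans (Finset.sum_le_sum fun κ _ => norm_sum_le _ _)
      _ ≤ ∑ κ ∈ noJ j0, ∑ κ' ∈ noJ j0, n (rem κ E) * n (rem κ' E) * A κ κ' := by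
          apply Finset.sum_le_sum
          intro κ hκ
          apply Finset.sum_le_sum
          intro κ' hκ'
          exact P2_term s bb hvv D j0 c' hc χ κ κ' hκ hκ'
      _ ≤ ∑ κ ∈ noJ j0, ∑ κ', n (rem κ E) * n (rem κ' E) * A κ κ' := by
          apply Finset.sum_le_sum
          intro κ _
          apply Finset.sum_le_univ_sum_of_nonneg
          intro κ'
          exact mul_nonneg (mul_nonneg (hn0 _) (hn0 _)) (hA0 _ _)
      _ ≤ _ := by
          apply Finset.sum_le_univ_sum_of_nonneg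
          intro κ
          apply Finset.sum_nonneg
          intro κ' _
          exact mul_nonneg (mul_nonneg (hn0 _) (hn0 _)) (hA0 _ _)
  have s2 : ∑ κ, ∑ κ', n (rem κ E) * n (rem κ' E) * A κ κ' ≤
      ∑ κ, n (rem κ E) ^ 2 * ∑ κ', A κ κ' :=
    PM5b_schur (fun κ => n (rem κ E)) A
      (fun κ κ' => Finset.prod_congr rfl fun i _ => PM5b_L_symm s 1 E i _ _) hA0
  set H : ι → Option J → ℝ := fun i a => ∑ a', PM5b_L s 1 E i a a' with hH
  have hH0 : ∀ i a, 0 ≤ H i a := fun i a =>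
    Finset.sum_nonneg fun a' _ => PM5b_L_nonneg s 1 le_rfl E i _ _
  have s3 : ∀ κ, ∑ κ', A κ κ' = ∏ i, H i (κ i) := by
    intro κ
    rw [hH, hA]
    simp only
    rw [Finset.prod_univ_sum, Fintype.piFinset_univ]
  have hRR : 0 ≤ RR J W D := (Real.exp_pos _).le
  have s4 : ∀ κ, n (rem κ E) ^ 2 * ∏ i, H i (κ i) ≤
      RR J W D * (n (rem κ E) ^ 2 * ∏ i ∈ E, H i (κ i)) := by
    intro κ
    by_cases hr : s.r (rem κ E) ≤ D
    · rw [← Finset.prod_mul_prod_compl E (fun i => H i (κ i))]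
      have h4 : ∏ i ∈ Eᶜ, H i (κ i) ≤ RR J W D := by
        have h5 := row_prod s W hW hpr D (rem κ E) hr Eᶜ
        refine le_trans (le_of_eq ?_) h5
        apply Finset.prod_congr rfl
        intro i hi
        rw [mem_compl] at hi
        have e1 : rem κ E i = κ i := by unfold rem; rw [if_neg hi]
        rw [e1, hH]
        simp only
        apply Finset.sum_congr rfl
        intro a' _
        unfold PM5b_L PM5b_h PM5b_t
        rw [if_neg hi, if_neg hi, if_neg hi, one_mul, mul_one]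
      have h6 : 0 ≤ ∏ i ∈ E, H i (κ i) := Finset.prod_nonneg fun i _ => hH0 i _
      have h7 : 0 ≤ n (rem κ E) ^ 2 * ∏ i ∈ E, H i (κ i) := by positivity
      calc n (rem κ E) ^ 2 * ((∏ i ∈ E, H i (κ i)) * ∏ i ∈ Eᶜ, H i (κ i))
          = (n (rem κ E) ^ 2 * ∏ i ∈ E, H i (κ i)) * ∏ i ∈ Eᶜ, H i (κ i) := by ring
        _ ≤ (n (rem κ E) ^ 2 * ∏ i ∈ E, H i (κ i)) * RR J W D :=
            mul_le_mul_of_nonneg_left h4 h7
        _ = _ := by ring
    · have h0 : n (rem κ E) = 0 := by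
        rw [hn]
        unfold P2_n
        rw [if_neg hr]
      rw [h0, zero_pow two_ne_zero, zero_mul, zero_mul, mul_zero]
  have s5 : ∀ i ∈ E, ∑ a, H i a ≤ 9 * (Fintype.card J : ℝ) / ((s.pr i : ℝ) - 1) := by
    intro i hi
    have hJ : (Fintype.card J : ℝ) ≤ (s.pr i : ℝ) - 1 := by
      have h5 : Fintype.card J + 1 ≤ s.pr i := by have := hpr i; omega
      have h6 : ((Fintype.card J + 1 : ℕ) : ℝ) ≤ s.pr i := by exact_mod_cast h5
      push_cast at h6
      linarith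
    refine le_trans (le_of_eq ?_) ((pair_one s i 1 le_rfl hJ).trans (le_of_eq (by ring)))
    rw [hH]
    simp only
    apply Finset.sum_congr rfl
    intro a _
    apply Finset.sum_congr rfl
    intro a' _
    unfold PM5b_L PM5b_h PM5b_t
    rw [if_pos hi, if_pos hi, if_pos hi]
  calc ‖wch s j0 c' χ‖ ≤ ∑ κ, n (rem κ E) ^ 2 * ∏ i, H i (κ i) := by
        refine (s1.trans s2).trans (le_of_eq ?_)
        apply Finset.sum_congr rfl
        intro κ _
        rw [s3]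
    _ ≤ ∑ κ, RR J W D * (n (rem κ E) ^ 2 * ∏ i ∈ E, H i (κ i)) :=
        Finset.sum_le_sum fun κ _ => s4 κ
    _ = RR J W D * ((∏ i ∈ E, ∑ a : Option J, H i a) *
        ∑ κ ∈ univ.filter (fun κ : ι → Option J => ∀ i ∈ E, κ i = none), n κ ^ 2) := by
        rw [← Finset.mul_sum, sum_rem E (fun κ => n κ ^ 2) H]
    _ ≤ RR J W D * ((∏ i ∈ E, (9 * (Fintype.card J : ℝ) / ((s.pr i : ℝ) - 1))) *
        ZZ s bb) := by
        apply mul_le_mul_of_nonneg_left _ hRR
        apply mul_le_mul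
        · exact Finset.prod_le_prod (fun i _ => Finset.sum_nonneg fun a _ => hH0 i a) s5
        · unfold ZZ
          calc ∑ κ ∈ univ.filter (fun κ : ι → Option J => ∀ i ∈ E, κ i = none), n κ ^ 2
              ≤ ∑ κ, n κ ^ 2 := Finset.sum_le_univ_sum_of_nonneg fun κ => sq_nonneg _
            _ ≤ _ := Finset.sum_le_sum fun κ _ => P2_n_sq s bb D κ
        · exact Finset.sum_nonneg fun κ _ => sq_nonneg _
        · apply Finset.prod_nonneg
          intro i _
          have hp2 : (2 : ℝ) ≤ s.pr i := by exact_mod_cast (s.prime i).two_le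
          have : 0 < (s.pr i : ℝ) - 1 := by linarith
          positivity
    _ = _ := by ring

theorem norm_wch_small (s : Sys ι J) (bb : Finset ι → ℝ)
    (hvv : ∀ A, ∀ i ∈ A, vv s bb A ≤ 1 / ((s.pr i : ℝ) - 1) * vv s bb (A.erase i))
    (W : ℕ) (hW : 2 ≤ W) (hpr : ∀ i, W < s.pr i)
    (hJW : Fintype.card J ≤ W) (D : ℝ) (hD : 1 ≤ D) (j0 : J)
    (c' : (ι → Option J) → ℝ) (hc : ∀ κ ∈ noJ j0, |c' κ| ≤ |cc s bb D κ|)
    (hJ : 9 * (Fintype.card J : ℝ) ≤ (W : ℝ) ^ (1 / 8 : ℝ))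
    (χ : Fam s) (hχ : χ ≠ fun _ => 1) :
    ‖wch s j0 c' χ‖ ≤ RR J W D * ZZ s bb * (W : ℝ) ^ (-(7 / 8) : ℝ) := by
  classical
  refine (P2_norm_wch_le s bb hvv W hW hpr hJW D hD j0 c' hc χ).trans ?_
  have hRR : 0 ≤ RR J W D := (Real.exp_pos _).le
  have hZ : 0 ≤ ZZ s bb := zero_le_one.trans (one_le_ZZ s _)
  apply mul_le_mul_of_nonneg_left _ (mul_nonneg hRR hZ)
  have hW0 : (0 : ℝ) < W := by
    have : 0 < W := by omega
    exact_mod_cast this
  have hW1 : (1 : ℝ) ≤ W := by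
    have : 1 ≤ W := by omega
    exact_mod_cast this
  have hw : (W : ℝ) ^ (-(7 / 8) : ℝ) ≤ 1 := Real.rpow_le_one_of_one_le_of_nonpos hW1 (by norm_num)
  have hf : ∀ i, 9 * (Fintype.card J : ℝ) / ((s.pr i : ℝ) - 1) ≤ (W : ℝ) ^ (-(7 / 8) : ℝ) := by
    intro i
    have h5 : W + 1 ≤ s.pr i := hpr i
    have h6 : ((W + 1 : ℕ) : ℝ) ≤ s.pr i := by exact_mod_cast h5
    push_cast at h6
    have h7 : (W : ℝ) ≤ (s.pr i : ℝ) - 1 := by linarith
    calc 9 * (Fintype.card J : ℝ) / ((s.pr i : ℝ) - 1)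
        ≤ (W : ℝ) ^ (1 / 8 : ℝ) / W := by gcongr
      _ = (W : ℝ) ^ (-(7 / 8) : ℝ) := by
          rw [← Real.rpow_sub_one hW0.ne']
          norm_num
  have hf0 : ∀ i, 0 ≤ 9 * (Fintype.card J : ℝ) / ((s.pr i : ℝ) - 1) := by
    intro i
    have hp2 : (2 : ℝ) ≤ s.pr i := by exact_mod_cast (s.prime i).two_le
    have : 0 < (s.pr i : ℝ) - 1 := by linarith
    positivity
  have hne : ∃ i, i ∈ csupp s χ := by
    by_contra hcon
    push Not at hcon
    apply hχ
    funext i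
    by_contra h
    apply hcon i
    unfold csupp
    rw [mem_filter]
    exact ⟨mem_univ _, h⟩
  obtain ⟨i, hi⟩ := hne
  rw [← Finset.mul_prod_erase _ _ hi]
  calc _ ≤ (W : ℝ) ^ (-(7 / 8) : ℝ) * 1 := by
        apply mul_le_mul (hf i) _ (Finset.prod_nonneg fun i _ => hf0 i) (by positivity)
        exact Finset.prod_le_one (fun i _ => hf0 i) (fun i _ => (hf i).trans hw)
    _ = _ := mul_one _

end Pool.Agent.Lib.H59D
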