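import Pool.Agent.Lib.H59D.P2
import Pool.Agent.Lib.H5C.PM7

/-!
# Chunk P3: the lower bound for the primes in one progression, general weights
-/

open Finset
open Pool.Agent.Lib.H56G
open Pool.Agent.Lib.H68T (v lp)
open Pool.Agent.Lib.H5C (MData RR Lx Fam csupp wch wch_one_re wch_eq_zero pch pch_one pch_prim
  fval SP SP_pch SP_sub_FL sum_low_le sum_pairs_le prog_eq pm7_num pm7_split)

namespace Pool.Agent.Lib.H59D

/-- Copy of `H5C.prog_ge` with `P2.norm_wch_small`. -/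
theorem prog_ge : ∃ X₀ : ℕ, ∀ X : ℕ, X₀ ≤ X → ∀ Q : ℕ, (Q : ℝ) ≤ (X : ℝ) ^ (1 / 12 : ℝ) →
    ∀ {ι J : Type} [Fintype ι] [DecidableEq ι] [Fintype J] [DecidableEq J] (s : Sys ι J)
      [NeZero s.M], MData Q X s.M → (∀ p, p.Prime → p ∣ s.M → (p : ℝ) ≤ X / 8) →
      (∀ i, (s.pr i : ℝ) ≤ X / 8) →
    ∀ (bb : Finset ι → ℝ)
      (_ : ∀ A, ∀ i ∈ A, vv s bb A ≤ 1 / ((s.pr i : ℝ) - 1) * vv s bb (A.erase i))
      (W : ℕ) (D : ℝ), 2 ≤ W → (∀ i, W < s.pr i) → Fintype.card J ≤ W → 1 ≤ D →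
      (s.M : ℝ) * (D * D) ≤ Q →
      9 * (Fintype.card J : ℝ) ≤ (W : ℝ) ^ (1 / 8 : ℝ) → RR J W D ≤ 3 / 2 →
      (Real.log X) ^ 16 ≤ W →
    ∀ (j0 : J), Nat.Coprime (s.b j0) s.M → ∀ c' : (ι → Option J) → ℝ,
      (∀ κ, c' κ ≠ 0 → s.r κ ≤ D) → (∀ κ ∈ noJ j0, |c' κ| ≤ |cc s bb D κ|) →
      (1 / (s.M.totient : ℝ)) * (1 / 5 * ∑ κ ∈ noJ j0, (c' κ) ^ 2 * s.ph κ -
          ZZ s bb * ((Real.log X) ^ 4)⁻¹) ≤
        ∑ P ∈ (Icc 1 (60 * X)).filter (fun P => P ≡ s.b j0 [MOD s.M]),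
          lp (P : ℤ) * v X P / P * (Lx s j0 c' P) ^ 2 := by
  classical
  obtain ⟨X1, hX1⟩ := pm7_num
  obtain ⟨X2, hX2⟩ := sum_pairs_le
  obtain ⟨X3, hX3⟩ := sum_low_le
  obtain ⟨X4, hX4⟩ := SP_sub_FL
  refine ⟨X1 + X2 + X3 + X4, ?_⟩
  intro X hX Q hQ ι J _ _ _ _ s hM0 hMD hMp hpr bb hvv W D hW hprW hJW hD hMQ
    hJC hRR hWL j0 hb c' hc hcc
  obtain ⟨hL3, hnum, hX16⟩ := hX1 X (by omega)
  have hprog := prog_eq s X hpr j0 hb c'
  set Rr : ℝ := ∑ P ∈ (Icc 1 (60 * X)).filter (fun P => P ≡ s.b j0 [MOD s.M]),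
    lp (P : ℤ) * v X P / P * (Lx s j0 c' P) ^ 2 with hRr
  obtain ⟨r, hr, hr1, -⟩ := wch_one_re s W hW hprW j0 c' D hc
  set A : ℝ := ∑ κ ∈ noJ j0, (c' κ) ^ 2 * s.ph κ with hA
  have hA0 : 0 ≤ A := by
    refine Finset.sum_nonneg fun κ _ => mul_nonneg (sq_nonneg _) ?_
    have := one_le_phi s (supp κ)
    exact le_trans zero_le_one this
  have hrA : A / 2 ≤ r := by
    refine le_trans ?_ hr1
    nlinarith
  have hr0 : 0 ≤ r := le_trans (by positivity) hrA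
  set Z : ℝ := ZZ s bb with hZ
  have hZ1 : 1 ≤ Z := one_le_ZZ s _
  set L : ℝ := Real.log X with hL
  have hphi : (0 : ℝ) < s.M.totient := by
    have : 0 < s.M := Nat.pos_of_ne_zero hM0.out
    exact_mod_cast Nat.totient_pos.mpr this
  set f : DirichletCharacter ℂ s.M → Fam s → ℂ := fun ξ χ =>
    ξ ((s.b j0 : ZMod s.M)⁻¹) * wch s j0 c' χ *
      SP X (fun P => ξ (P : ZMod s.M) * fval s χ P) with hf
  have hnorm : ∀ ξ χ, ‖f ξ χ‖ ≤ ‖wch s j0 c' χ‖ *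
      ‖SP X (fun P => ξ (P : ZMod s.M) * fval s χ P)‖ := by
    intro ξ χ
    simp only [hf]
    rw [norm_mul, norm_mul]
    have h1 : ‖ξ ((s.b j0 : ZMod s.M)⁻¹)‖ ≤ 1 := DirichletCharacter.norm_le_one ξ _
    have h2 := norm_nonneg (wch s j0 c' χ)
    have h3 := norm_nonneg (SP X (fun P => ξ (P : ZMod s.M) * fval s χ P))
    exact mul_le_mul_of_nonneg_right (mul_le_of_le_one_left h2 h1) h3
  -- the term (1,1)
  have hone : r * (1 / 2 - (X : ℝ) ^ (-(1 / 3) : ℝ)) ≤ (f 1 (fun _ => 1)).re := by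
    have e1 : (1 : DirichletCharacter ℂ s.M) ((s.b j0 : ZMod s.M)⁻¹) = 1 := by
      rw [MulChar.one_apply]
      have hu : IsUnit (s.b j0 : ZMod s.M) := (ZMod.isUnit_iff_coprime _ _).mpr hb
      obtain ⟨u, hu⟩ := hu
      rw [← hu, ZMod.inv_coe_unit]
      exact Units.isUnit _
    have e2 := SP_pch s X hMp hpr 1 (fun _ => 1)
    have e3 := hX4 X (by omega) (pch s 1 (fun _ => 1)) (pch_prim s 1 (fun _ => 1)).1
    rw [← e2] at e3
    rw [pch_one] at e3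
    simp only [hf]
    rw [e1, one_mul, hr, Complex.re_ofReal_mul]
    refine mul_le_mul_of_nonneg_left ?_ hr0
    have e4 := (Complex.abs_re_le_norm _).trans e3
    rw [Complex.sub_re] at e4
    have e5 := (abs_le.mp e4).1
    have e6 := hMD.one
    linarith
  -- the terms (ξ, 1)
  have htwo : ∑ ξ ∈ univ.filter (fun ξ : DirichletCharacter ℂ s.M => ξ ≠ 1),
      ‖f ξ (fun _ => 1)‖ ≤ r * (1 / L + (X : ℝ) ^ (-(1 / 6) : ℝ)) := by
    have hMle : s.M ≤ Q := by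
      have h1 : (s.M : ℝ) ≤ Q := by
        refine le_trans ?_ hMQ
        have : (1 : ℝ) ≤ D * D := by nlinarith
        exact le_mul_of_one_le_right (Nat.cast_nonneg _) this
      exact_mod_cast h1
    have h1 := hX3 X (by omega) Q hQ s hMp hpr hMle
    have h2 := hMD.low
    calc ∑ ξ ∈ univ.filter (fun ξ : DirichletCharacter ℂ s.M => ξ ≠ 1), ‖f ξ (fun _ => 1)‖
        ≤ ∑ ξ ∈ univ.filter (fun ξ : DirichletCharacter ℂ s.M => ξ ≠ 1),
          r * ‖SP X (fun P => ξ (P : ZMod s.M) * fval s (fun _ => 1) P)‖ := by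
          refine Finset.sum_le_sum fun ξ _ => (hnorm ξ _).trans (le_of_eq ?_)
          rw [hr, Complex.norm_real, Real.norm_of_nonneg hr0]
      _ = r * ∑ ξ ∈ univ.filter (fun ξ : DirichletCharacter ℂ s.M => ξ ≠ 1),
          ‖SP X (fun P => ξ (P : ZMod s.M) * fval s (fun _ => 1) P)‖ := by
          rw [Finset.mul_sum]
      _ ≤ r * (1 / L + (X : ℝ) ^ (-(1 / 6) : ℝ)) := by
          refine mul_le_mul_of_nonneg_left (h1.trans ?_) hr0
          have h3 := add_le_add_left h2 ((X : ℝ) ^ (-(1 / 6) : ℝ))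
          exact h3
  -- the other terms
  have hthree : ∑ x ∈ (univ : Finset (DirichletCharacter ℂ s.M × Fam s)).filter
      (fun x => x.2 ≠ (fun _ => 1) ∧ (s.M : ℝ) * s.rho (csupp s x.2) ≤ Q), ‖f x.1 x.2‖ ≤
        (3 / 2 * Z * (W : ℝ) ^ (-(7 / 8) : ℝ)) * (L ^ 9 + 1) := by
    have hWn : 0 ≤ (W : ℝ) ^ (-(7 / 8) : ℝ) := Real.rpow_nonneg (Nat.cast_nonneg _) _
    have h1 := hX2 X (by omega) Q hQ s hMp hpr
      ((univ : Finset (DirichletCharacter ℂ s.M × Fam s)).filter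
      (fun x => x.2 ≠ (fun _ => 1) ∧ (s.M : ℝ) * s.rho (csupp s x.2) ≤ Q))
      (fun x hx => (mem_filter.mp hx).2.2) (fun hx => (mem_filter.mp hx).2.1 rfl)
    have h2 := hMD.all
    calc _ ≤ ∑ x ∈ (univ : Finset (DirichletCharacter ℂ s.M × Fam s)).filter
          (fun x => x.2 ≠ (fun _ => 1) ∧ (s.M : ℝ) * s.rho (csupp s x.2) ≤ Q),
          (3 / 2 * Z * (W : ℝ) ^ (-(7 / 8) : ℝ)) *
            ‖SP X (fun P => x.1 (P : ZMod s.M) * fval s x.2 P)‖ := by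
          refine Finset.sum_le_sum fun x hx => (hnorm x.1 x.2).trans ?_
          refine mul_le_mul_of_nonneg_right ?_ (norm_nonneg _)
          have h3 := norm_wch_small s bb hvv W hW hprW hJW D hD j0 c' hcc hJC
            x.2 (mem_filter.mp hx).2.1
          refine h3.trans ?_
          refine mul_le_mul_of_nonneg_right ?_ hWn
          exact mul_le_mul_of_nonneg_right hRR (by linarith)
      _ = (3 / 2 * Z * (W : ℝ) ^ (-(7 / 8) : ℝ)) *
          ∑ x ∈ (univ : Finset (DirichletCharacter ℂ s.M × Fam s)).filter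
          (fun x => x.2 ≠ (fun _ => 1) ∧ (s.M : ℝ) * s.rho (csupp s x.2) ≤ Q),
            ‖SP X (fun P => x.1 (P : ZMod s.M) * fval s x.2 P)‖ := by rw [Finset.mul_sum]
      _ ≤ _ := by
          refine mul_le_mul_of_nonneg_left (h1.trans ?_) (by positivity)
          linarith
  have hzero : ∀ ξ χ, χ ≠ (fun _ => 1) → ¬ ((s.M : ℝ) * s.rho (csupp s χ) ≤ Q) → f ξ χ = 0 := by
    intro ξ χ _ hχ
    have hMpos : (0 : ℝ) < s.M := by exact_mod_cast Nat.pos_of_ne_zero hM0.out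
    have h1 : D * D < s.rho (csupp s χ) := by
      push Not at hχ
      have h2 := lt_of_le_of_lt hMQ hχ
      exact lt_of_mul_lt_mul_left h2 hMpos.le
    simp only [hf]
    rw [wch_eq_zero s j0 c' D hc χ h1]
    simp
  have hmain := pm7_split (1 : DirichletCharacter ℂ s.M) (fun _ => 1 : Fam s) f
    (fun χ => (s.M : ℝ) * s.rho (csupp s χ) ≤ Q) hzero _ _ _ hone htwo hthree
  have hre : (∑ ξ, ∑ χ, f ξ χ).re = s.M.totient * Rr := by
    have h1 : (∑ ξ, ∑ χ, f ξ χ) = ((s.M.totient * Rr : ℝ) : ℂ) := by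
      have hne : ((s.M.totient : ℝ) : ℂ) ≠ 0 := by exact_mod_cast hphi.ne'
      rw [Complex.ofReal_mul, hprog, ← mul_assoc]
      have h2 : ((s.M.totient : ℝ) : ℂ) * (1 / (s.M.totient : ℂ)) = 1 := by
        rw [Complex.ofReal_natCast] at hne ⊢
        exact mul_one_div_cancel hne
      rw [h2, one_mul]
    rw [h1, Complex.ofReal_re]
  rw [hre] at hmain
  -- numbers
  have hW78 : (W : ℝ) ^ (-(7 / 8) : ℝ) ≤ (L ^ 14)⁻¹ := by
    have hLpos : 0 < L := by linarith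
    have hWpos : (0 : ℝ) < W := by exact_mod_cast (by omega : 0 < W)
    rw [Real.rpow_neg hWpos.le]
    refine inv_anti₀ (by positivity) ?_
    have h1 : (L ^ 16) ^ ((7 : ℝ) / 8) ≤ (W : ℝ) ^ ((7 : ℝ) / 8) :=
      Real.rpow_le_rpow (by positivity) hWL (by norm_num)
    refine le_trans (le_of_eq ?_) h1
    rw [← Real.rpow_natCast L 16, ← Real.rpow_mul hLpos.le, ← Real.rpow_natCast L 14]
    norm_num
  have hthree' : (3 / 2 * Z * (W : ℝ) ^ (-(7 / 8) : ℝ)) * (L ^ 9 + 1) ≤ Z * (L ^ 4)⁻¹ := by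
    have hLpos : 0 < L := by linarith
    have h1 : (3 / 2 * Z * (W : ℝ) ^ (-(7 / 8) : ℝ)) * (L ^ 9 + 1) ≤
        (3 / 2 * Z * (L ^ 14)⁻¹) * (L ^ 9 + 1) := by gcongr
    refine h1.trans ?_
    have h2 : 3 / 2 * (L ^ 9 + 1) ≤ L ^ 10 := by
      have h3 : 1 ≤ L ^ 9 := one_le_pow₀ (by linarith)
      have h4 : L ^ 10 = L ^ 9 * L := by ring
      rw [h4]
      nlinarith
    have hLne : L ≠ 0 := hLpos.ne'
    have h5 : (L ^ 4)⁻¹ = L ^ 10 * (L ^ 14)⁻¹ := by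
      have h8 : L ^ 14 = L ^ 10 * L ^ 4 := by ring
      rw [h8, mul_inv, ← mul_assoc, mul_inv_cancel₀ (pow_ne_zero _ hLne), one_mul]
    rw [h5]
    have h6 : (3 / 2 * Z * (L ^ 14)⁻¹) * (L ^ 9 + 1) = (3 / 2 * (L ^ 9 + 1)) * (Z * (L ^ 14)⁻¹) := by
      ring
    rw [h6]
    have h7 : Z * (L ^ 10 * (L ^ 14)⁻¹) = L ^ 10 * (Z * (L ^ 14)⁻¹) := by ring
    rw [h7]
    exact mul_le_mul_of_nonneg_right h2 (by positivity)
  have hfin : 1 / 5 * A - Z * (L ^ 4)⁻¹ ≤ s.M.totient * Rr := by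
    have h1 : 1 / 5 * A ≤ r * (2 / 5) := by linarith
    have h2 : r * (2 / 5) ≤ r * (1 / 2 - (X : ℝ) ^ (-(1 / 3) : ℝ)) -
        r * (1 / L + (X : ℝ) ^ (-(1 / 6) : ℝ)) := by
      rw [← mul_sub]
      refine mul_le_mul_of_nonneg_left ?_ hr0
      linarith
    linarith
  calc (1 / (s.M.totient : ℝ)) * (1 / 5 * A - Z * (L ^ 4)⁻¹)
      ≤ (1 / (s.M.totient : ℝ)) * (s.M.totient * Rr) :=
        mul_le_mul_of_nonneg_left hfin (by positivity)
    _ = Rr := by field_simp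

end Pool.Agent.Lib.H59D
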