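import Pool.Agent.Lib.H59D.U1
import Pool.Agent.Lib.H59D.W2
import Pool.Agent.Lib.H59D.W5
import Pool.Agent.Lib.H56G.Maj3

/-!
# Chunk U2: one form without sieve primes
-/

open Finset

namespace Pool.Agent.Lib.H59D

open Pool.Agent.Lib.H56G
open Pool.Agent.Lib.H5C (WX)

/-- `V ≥ log N/(3000 log W)` for the levels `≤ N²` (`VVlo` with `D2 = N`; `r κ ≤ N²` implies
`|supp κ| ≤ 2 log N²` (`card_supp_le`) `≤ W/2`; `2 #Mis ≤ 2 (log X)³ ≤ W`), and this is `≥ 1`. -/
theorem V0_le : ∀ η : ℝ, 0 < η → η ≤ 1 / 1000 → ∃ K : ℝ, 1 ≤ K ∧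
    ∀ (X : ℕ) {ι J : Type} [Fintype ι] [DecidableEq ι] [Fintype J] [DecidableEq J]
      (s : Sys ι J), Sv η X s → Rg K X (Fintype.card J) →
      1 ≤ Real.log (NN η X) / (3000 * Real.log (WX X)) ∧
      ∀ κ : ι → Option J, s.r κ ≤ (NN η X : ℝ) * NN η X →
        Real.log (NN η X) / (3000 * Real.log (WX X)) ≤ s.VV (NN η X) κ := by
  intro η h0 h1
  obtain ⟨K, hK, hnum⟩ := numF η h0 h1 (102000 / η + 10)
  refine ⟨K, hK, ?_⟩
  intro X ι J _ _ _ _ s hs hR
  have hn := hnum X _ hR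
  have hB0 : 0 < 102000 / η := by positivity
  have hN10 : (10 : ℝ) ≤ NN η X := by
    have := hn.N_B
    linarith
  have hL10 : (10 : ℝ) ≤ Real.log X := by
    have := hn.lX
    linarith
  have hll10 : (10 : ℝ) ≤ Real.log (Real.log X) := by
    have := hn.llX
    linarith
  have hW2 := hn.W_two
  have hW : 1 ≤ WX X := by omega
  have hlW : 0 < Real.log (WX X) := by
    have := hn.lW_ge
    linarith
  have hk1 : (1 : ℝ) ≤ Fintype.card J := by exact_mod_cast hn.k1
  have hel : 1 ≤ el (Fintype.card J) := el_one_le hn.k1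
  have hL16 : 8 * Real.log X ≤ (Real.log X) ^ 16 := by
    have h5 : (10 : ℝ) ^ 15 ≤ (Real.log X) ^ 15 := pow_le_pow_left₀ (by norm_num) hL10 15
    have h6 : (Real.log X) ^ 16 = (Real.log X) ^ 15 * Real.log X := by ring
    rw [h6]
    nlinarith
  have hL16' : 2 * (Real.log X) ^ 3 ≤ (Real.log X) ^ 16 := by
    have h5 : (10 : ℝ) ^ 13 ≤ (Real.log X) ^ 13 := pow_le_pow_left₀ (by norm_num) hL10 13
    have h6 : (Real.log X) ^ 16 = (Real.log X) ^ 13 * (Real.log X) ^ 3 := by ring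
    have h7 : 0 < (Real.log X) ^ 3 := by positivity
    rw [h6]
    nlinarith
  constructor
  · rw [le_div_iff₀ (by positivity)]
    have h5 := hn.lW_le
    have h6 := hn.lN_ge
    have h7 := hn.kL
    have h8 : 102000 / η * Real.log (Real.log X) ≤ Real.log X := by
      refine le_trans ?_ h7
      have h9 : Real.log (Real.log X) ≤
          el (Fintype.card J) * Fintype.card J * Real.log (Real.log X) := by
        have : 1 ≤ el (Fintype.card J) * Fintype.card J := by nlinarith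
        nlinarith
      exact mul_le_mul (by linarith) h9 (by linarith) (by positivity)
    have h10 : η * (102000 / η * Real.log (Real.log X)) ≤ η * Real.log X :=
      mul_le_mul_of_nonneg_left h8 h0.le
    have h11 : η * (102000 / η * Real.log (Real.log X)) = 102000 * Real.log (Real.log X) := by
      field_simp
    rw [h11] at h10
    linarith
  · intro κ hκ
    refine VVlo s (WX X) (NN η X) hW2 hs.lo ?_ (NN η X) (by linarith) le_rfl κ ?_
    · have h5 := hs.mis
      have h6 := hn.W_ge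
      have h7 : (2 : ℝ) * ((Mis s (WX X) (NN η X)).card : ℝ) ≤ (WX X : ℝ) := by linarith
      exact_mod_cast h7
    · have h5 := card_supp_le s κ _ hκ
      have h6 : Real.log ((NN η X : ℝ) * NN η X) = 2 * Real.log (NN η X) := by
        rw [Real.log_mul (by positivity) (by positivity)]
        ring
      rw [h6] at h5
      have h7 := hn.lN_le
      have h8 := hn.W_ge
      have h9 : (2 : ℝ) * ((supp κ).card : ℝ) ≤ (WX X : ℝ) := by
        have h10 : η * Real.log X ≤ Real.log X := by nlinarith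
        linarith
      exact_mod_cast h9

theorem U2_C {η C : ℝ} {X : ℕ} {ι J : Type} [Fintype ι] [DecidableEq ι] [Fintype J]
    [DecidableEq J] {s : Sys ι J} {α : ℝ} (h : Data η C X s α) (hw : 0 ≤ Real.log (WX X)) :
    1 ≤ C := by
  have h1 := h.glo
  have h2 := h.ghi
  set x := α * Real.log (WX X) * Gm s α (NN η X) with hx
  have hx0 : 0 ≤ x := mul_nonneg (mul_nonneg h.a0.le hw) (Gm_nonneg s _ _)
  have hC : 0 ≤ C := hx0.trans h2
  nlinarith

/-- The main estimate: `(w/log N) (1+θ)²/(1+Gm) ≤ 4 C³ ℓ/k`, and `1 + θ ≤ (log X)³`. -/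
theorem U2_est : ∀ η : ℝ, 0 < η → η ≤ 1 / 1000 → ∀ C : ℝ, ∃ K : ℝ, 1 ≤ K ∧
    ∀ (X : ℕ) {ι J : Type} [Fintype ι] [DecidableEq ι] [Fintype J] [DecidableEq J]
      (s : Sys ι J) (α : ℝ), Data η C X s α → Rg K X (Fintype.card J) →
      1 ≤ C ∧
      Real.log (WX X) / Real.log (NN η X) * ((1 + th s α (NN η X)) ^ 2 / (1 + Gm s α (NN η X))) ≤
        4 * C ^ 3 * (el (Fintype.card J) / Fintype.card J) ∧
      1 + th s α (NN η X) ≤ (Real.log X) ^ 3 ∧
      1 / Real.log X ≤ el (Fintype.card J) / Fintype.card J := by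
  intro η h0 h1 C
  obtain ⟨K, hK, hnum⟩ := numF η h0 h1 (2 * |C| + 10)
  refine ⟨K, hK, ?_⟩
  intro X ι J _ _ _ _ s α hd hR
  have hn := hnum X _ hR
  have hC0 : 0 ≤ |C| := abs_nonneg C
  have hL10 : (10 : ℝ) ≤ Real.log X := by
    have := hn.lX
    linarith
  have hLC : 2 * |C| ≤ Real.log X := by
    have := hn.lX
    linarith
  have hll10 : (10 : ℝ) ≤ Real.log (Real.log X) := by
    have := hn.llX
    linarith
  have hw1 : 1 ≤ Real.log (WX X) := by
    have := hn.lW_ge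
    linarith
  have hlN : 0 < Real.log (NN η X) := by
    have := hn.lN_B
    linarith
  have hlNX : Real.log (NN η X) ≤ Real.log X := by
    have := hn.lN_le
    nlinarith
  have hk1 : (1 : ℝ) ≤ Fintype.card J := by exact_mod_cast hn.k1
  have hel : 1 ≤ el (Fintype.card J) := el_one_le hn.k1
  have helk : el (Fintype.card J) ≤ Fintype.card J := el_le hn.k1
  have hkX := hn.k_le
  have hC1 : 1 ≤ C := U2_C hd (by linarith)
  have hCabs : |C| = C := abs_of_nonneg (by linarith)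
  rw [hCabs] at hLC
  set w := Real.log (WX X) with hw
  set l := Real.log (NN η X) with hl
  set θ := th s α (NN η X) with hθ
  set G := Gm s α (NN η X) with hG
  set k : ℝ := (Fintype.card J : ℝ) with hk
  set e := el (Fintype.card J) with he
  have ha := hd.a0
  have haw : 0 < α * w := by positivity
  have haw1 : α * w ≤ 1 := hd.aw
  have hthi : α * w * θ ≤ C * e := hd.thi
  have hglo : 1 ≤ C * (α * w * G) := hd.glo
  have halo : e * k ≤ α * l := hd.alo
  have hG0 : 0 ≤ G := Gm_nonneg s _ _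
  have hθ0 : 0 ≤ θ := th_nonneg s ha.le _
  -- q * (α w) ≤ 2 C e
  have hq : (1 + θ) * (α * w) ≤ 2 * C * e := by nlinarith
  have hq0 : 0 ≤ (1 + θ) * (α * w) := by positivity
  refine ⟨hC1, ?_, ?_, ?_⟩
  · -- main
    have h2 : ((1 + θ) * (α * w)) ^ 2 ≤ (2 * C * e) ^ 2 := pow_le_pow_left₀ hq0 hq 2
    have h3 : (1 : ℝ) ≤ C * (α * w) * (1 + G) := by nlinarith
    have h4 : (1 + θ) ^ 2 / (1 + G) ≤ (2 * C * e) ^ 2 * C / (α * w) := by
      rw [div_le_div_iff₀ (by positivity) haw]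
      have h5 : (1 + θ) ^ 2 * (α * w) ≤ (1 + θ) ^ 2 * (α * w) * (C * (α * w) * (1 + G)) :=
        le_mul_of_one_le_right (by positivity) h3
      calc (1 + θ) ^ 2 * (α * w) ≤ (1 + θ) ^ 2 * (α * w) * (C * (α * w) * (1 + G)) := h5
        _ = ((1 + θ) * (α * w)) ^ 2 * (C * (1 + G)) := by ring
        _ ≤ (2 * C * e) ^ 2 * (C * (1 + G)) :=
            mul_le_mul_of_nonneg_right h2 (by positivity)
        _ = (2 * C * e) ^ 2 * C * (1 + G) := by ring
    have h6 : w / l * ((1 + θ) ^ 2 / (1 + G)) ≤ w / l * ((2 * C * e) ^ 2 * C / (α * w)) :=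
      mul_le_mul_of_nonneg_left h4 (by positivity)
    refine h6.trans ?_
    have h7 : w / l * ((2 * C * e) ^ 2 * C / (α * w)) = 4 * C ^ 3 * (e ^ 2 / (α * l)) := by
      field_simp
      ring
    rw [h7]
    refine mul_le_mul_of_nonneg_left ?_ (by positivity)
    rw [div_le_div_iff₀ (by positivity) (by positivity)]
    nlinarith
  · -- 1 + θ ≤ (log X)^3
    have h2 : 1 ≤ α * l := by nlinarith
    have h3 : 1 ≤ α * w * l := by nlinarith
    have h4 : 1 + θ ≤ (1 + θ) * (α * w) * l := by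
      have : (1 + θ) * 1 ≤ (1 + θ) * (α * w * l) := mul_le_mul_of_nonneg_left h3 (by positivity)
      linarith
    have h5 : (1 + θ) * (α * w) * l ≤ 2 * C * e * Real.log X :=
      mul_le_mul hq hlNX hlN.le (by positivity)
    have h6 : 2 * C * e * Real.log X ≤ Real.log X * Real.log X * Real.log X := by
      have h7 : 2 * C * e ≤ Real.log X * Real.log X :=
        mul_le_mul hLC (helk.trans hkX) (by linarith) (by linarith)
      exact mul_le_mul_of_nonneg_right h7 (by linarith)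
    calc 1 + θ ≤ (1 + θ) * (α * w) * l := h4
      _ ≤ 2 * C * e * Real.log X := h5
      _ ≤ Real.log X * Real.log X * Real.log X := h6
      _ = (Real.log X) ^ 3 := by ring
  · rw [div_le_div_iff₀ (by linarith) (by linarith)]
    nlinarith

/-- `H56G.maj` for `c = cw/(1+θ)` (`|cp j c| ≤ cc ≤ 1` by `cp_le`), `D1 = D2 = N`,
`V0 = log N/(3000 w)`, `K = 5/4`; multiply by `(1+θ)²`:
`mass ≤ T (5/4) (3000 w/log N) Σ_{noJ j} (cp)² ph + 18 (1+θ)² N^16`. By `cp_le` and `W5.noJ_ge`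
(`B = 0`, `vv_erase`, `supp_small`): `Σ_{noJ j} cp² ph ≤ (1+θ)² Σ_{noJ j} wt ≤ (1+θ)² 2 ZZ/(1+Gm)`.
With `1 + θ ≤ 2Cℓ/(αw)` (`αw ≤ 1`, `ℓ ≥ 1`, `C ≥ 1`), `Gm ≥ 1/(Cαw)`:
`(w/log N)(1+θ)²/(1+Gm) ≤ 4C³ (w/log N) ℓ²/(αw) = 4C³ ℓ²/(α log N) ≤ 4C³ ℓ/k` (`alo`). Error:
`(1+θ)² ≤ (2Cℓ/(αw))² ≤ (log X)^5`, `N^16 (log X)^6 ≤ X^(1/4)`, `(ℓ/k) ≥ 1/log X`. -/
theorem one_mass : ∀ η : ℝ, 0 < η → η ≤ 1 / 1000 → ∀ C : ℝ, ∃ C' K : ℝ, 1 ≤ C' ∧ 1 ≤ K ∧
    ∀ (X : ℕ) {ι J : Type} [Fintype ι] [DecidableEq ι] [Fintype J] [DecidableEq J]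
      (s : Sys ι J) (α : ℝ), Data η C X s α → Rg K X (Fintype.card J) → ∀ T : ℕ,
      (X : ℝ) ^ (1 / 2 : ℝ) ≤ T → ∀ j : J,
      mass s α (NN η X) T (fun t => ∀ i, ¬ s.pr i ∣ s.b j + s.M * t) ≤
        C' * (el (Fintype.card J) / Fintype.card J) * T * ZZ s (bg s α (NN η X)) := by
  intro η h0 h1 C
  obtain ⟨K1, hK1, hnum⟩ := numF η h0 h1 1000
  obtain ⟨K2, hK2, hps⟩ := ps_le_ph η h0 h1
  obtain ⟨K3, hK3, hV0⟩ := V0_le η h0 h1
  obtain ⟨K4, hK4, hest⟩ := U2_est η h0 h1 C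
  obtain ⟨K5, hK5, hsupp⟩ := supp_small η h0 h1
  refine ⟨30000 * |C| ^ 3 + 1, K1 + K2 + K3 + K4 + K5, ?_, by linarith, ?_⟩
  · have : 0 ≤ |C| ^ 3 := by positivity
    linarith
  intro X ι J _ _ _ _ s α hd hR T hT j
  have hR1 : Rg K1 X (Fintype.card J) := hR.mono (by linarith) (by linarith)
  have hR2 : Rg K2 X (Fintype.card J) := hR.mono (by linarith) (by linarith)
  have hR3 : Rg K3 X (Fintype.card J) := hR.mono (by linarith) (by linarith)
  have hR4 : Rg K4 X (Fintype.card J) := hR.mono (by linarith) (by linarith)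
  have hR5 : Rg K5 X (Fintype.card J) := hR.mono (by linarith) (by linarith)
  have hn := hnum X _ hR1
  have hps := hps X s hd.sv hR2
  obtain ⟨hV1, hV⟩ := hV0 X s hd.sv hR3
  obtain ⟨hC1, hmain, hθX, hlX⟩ := hest X s α hd hR4
  have hsupp := hsupp X s α hR5
  have hCabs : |C| = C := abs_of_nonneg (by linarith)
  rw [hCabs]
  have hN2 : (1000 : ℝ) ≤ NN η X := hn.N_B
  have hN : (1 : ℝ) ≤ NN η X := by linarith
  have hN1 : (1 : ℝ) < NN η X := by linarith
  have hW : 1 ≤ WX X := by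
    have := hn.W_two
    omega
  have hα := hd.a0
  have hs := hd.sv
  have hX1 : (1 : ℝ) ≤ X := by
    by_contra hcon
    have hX0 : X = 0 := by
      have : X < 1 := by exact_mod_cast (not_le.mp hcon)
      omega
    have h5 := hn.lX
    rw [hX0] at h5
    norm_num at h5
  have hL1 : (1000 : ℝ) ≤ Real.log X := hn.lX
  set D : ℝ := (NN η X : ℝ) with hD
  set θ := th s α D with hθ
  set G := Gm s α D with hG
  set ρ : ℝ := el (Fintype.card J) / Fintype.card J with hρ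
  have hθ0 : 0 ≤ θ := th_nonneg s hα.le _
  have hG0 : 0 ≤ G := Gm_nonneg s _ _
  have hq : 0 < 1 + θ := by linarith
  set c : (ι → Option J) → ℝ := fun κ => cw s α D κ / (1 + θ) with hc
  have hcr : ∀ κ, c κ ≠ 0 → s.r κ ≤ D := by
    intro κ h
    apply cw_ne_zero s hN1 κ
    intro h2
    apply h
    show cw s α D κ / (1 + θ) = 0
    rw [h2, zero_div]
  have hcpc : ∀ κ, cp j c κ = cp j (cw s α D) κ / (1 + θ) := by
    intro κ
    unfold cp
    rw [Finset.sum_div]
  have hcp1 : ∀ κ ∈ noJ j, |cp j c κ| ≤ cc s (bg s α D) D κ := by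
    intro κ hκ
    obtain ⟨h2, h3⟩ := cp_le s hα.le hN1 j κ hκ
    rw [hcpc, abs_of_nonneg (by positivity), div_le_iff₀ hq]
    linarith
  have hcp : ∀ κ ∈ noJ j, |cp j c κ| ≤ 1 := fun κ hκ =>
    (hcp1 κ hκ).trans (cc_bg_le_one s hα.le hN κ)
  have hDD : D ≤ D * D := by nlinarith
  have hmaj := maj s (WX X) hW hs.lo hn.kW c D D (Real.log D / (3000 * Real.log (WX X))) (5 / 4)
    hN hN hV1 (by norm_num) j hcr hcp (fun κ _ h => hV κ (h.trans hDD))
    (fun κ h => hps κ (by nlinarith)) T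
  -- the left side
  have hmass : mass s α D T (fun t => ∀ i, ¬ s.pr i ∣ s.b j + s.M * t) = (1 + θ) ^ 2 *
      ∑ t ∈ (Icc 1 T).filter (fun t => ∀ i, ¬ s.pr i ∣ s.b j + s.M * t),
        (∑ κ, c κ * s.U κ t) ^ 2 := by
    unfold mass Lf
    rw [Finset.mul_sum]
    refine Finset.sum_congr ?_ fun t _ => ?_
    · ext t
      simp
    · have h2 : ∑ κ, c κ * s.U κ t = (∑ κ, cw s α D κ * s.U κ t) / (1 + θ) := by
        rw [Finset.sum_div]
        refine Finset.sum_congr rfl fun κ _ => ?_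
        show cw s α D κ / (1 + θ) * s.U κ t = _
        ring
      rw [h2]
      field_simp
  -- the sum of the squares
  have hZ := one_le_ZZ s (bg s α D)
  have hsq : ∑ κ ∈ noJ j, (cp j c κ) ^ 2 * s.ph κ ≤ 2 * ZZ s (bg s α D) / (1 + G) := by
    have h2 : ∑ κ ∈ noJ j, (cp j c κ) ^ 2 * s.ph κ ≤ ∑ κ ∈ noJ j, wt s (bg s α D) κ := by
      refine Finset.sum_le_sum fun κ hκ => ?_
      have hph : (0 : ℝ) ≤ s.ph κ := zero_le_one.trans (one_le_phi s (supp κ))
      have h3 : (cp j c κ) ^ 2 ≤ (cc s (bg s α D) D κ) ^ 2 := by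
        rw [← sq_abs (cp j c κ)]
        exact pow_le_pow_left₀ (abs_nonneg _) (hcp1 κ hκ) 2
      refine (mul_le_mul_of_nonneg_right h3 hph).trans ?_
      by_cases hr : s.r κ ≤ D
      · rw [cc_sq_mul_ph s _ D κ hr]
      · have h4 : cc s (bg s α D) D κ = 0 := if_neg hr
        rw [h4]
        have := wt_nonneg s (bg s α D) κ
        nlinarith
    have h3 := noJ_ge s (bg s α D) (WX X) hW hs.lo (fun A i hi => vv_erase s hα.le hN A i hi)
      hsupp j 0
    have h4 : (noJ j).filter (fun κ : ι → Option J => 0 < s.r κ) = noJ j :=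
      Finset.filter_true_of_mem fun κ _ => by
        have := one_le_r s κ
        linarith
    have h5 : (univ : Finset (ι → Option J)).filter (fun κ : ι → Option J => 0 < s.r κ) = univ :=
      Finset.filter_true_of_mem fun κ _ => by
        have := one_le_r s κ
        linarith
    rw [h4, h5] at h3
    have h6 : (1 + G) / 2 * ∑ κ ∈ noJ j, wt s (bg s α D) κ ≤ ZZ s (bg s α D) := h3
    refine h2.trans ?_
    rw [le_div_iff₀ (by positivity)]
    linarith
  have hT0 : (0 : ℝ) ≤ T := Nat.cast_nonneg T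
  have hlW : 0 < Real.log (WX X) := by
    have := hn.lW_ge
    have := hn.llX
    linarith
  have hlN : 0 < Real.log D := by
    have := hn.lN_B
    linarith
  rw [hmass]
  have hq2 : 0 ≤ (1 + θ) ^ 2 := by positivity
  refine (mul_le_mul_of_nonneg_left hmaj hq2).trans ?_
  rw [mul_add]
  have e1 : (1 + θ) ^ 2 * (T * (5 / 4 / (Real.log D / (3000 * Real.log (WX X)))) *
      ∑ κ ∈ noJ j, (cp j c κ) ^ 2 * s.ph κ) ≤ 30000 * C ^ 3 * ρ * T * ZZ s (bg s α D) := by
    have h2 : (1 + θ) ^ 2 * (T * (5 / 4 / (Real.log D / (3000 * Real.log (WX X)))) *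
        ∑ κ ∈ noJ j, (cp j c κ) ^ 2 * s.ph κ) ≤
        (1 + θ) ^ 2 * (T * (5 / 4 / (Real.log D / (3000 * Real.log (WX X)))) *
          (2 * ZZ s (bg s α D) / (1 + G))) := by
      refine mul_le_mul_of_nonneg_left (mul_le_mul_of_nonneg_left hsq ?_) hq2
      positivity
    refine h2.trans ?_
    have h3 : (1 + θ) ^ 2 * (T * (5 / 4 / (Real.log D / (3000 * Real.log (WX X)))) *
          (2 * ZZ s (bg s α D) / (1 + G))) = 7500 * T * ZZ s (bg s α D) *
          (Real.log (WX X) / Real.log D * ((1 + θ) ^ 2 / (1 + G))) := by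
      field_simp
      ring
    rw [h3]
    have h4 : 7500 * T * ZZ s (bg s α D) *
          (Real.log (WX X) / Real.log D * ((1 + θ) ^ 2 / (1 + G))) ≤
        7500 * T * ZZ s (bg s α D) * (4 * C ^ 3 * ρ) :=
      mul_le_mul_of_nonneg_left hmain (by positivity)
    refine h4.trans (le_of_eq ?_)
    ring
  have e2 : (1 + θ) ^ 2 * (18 * (D * D) ^ 8) ≤ ρ * T * ZZ s (bg s α D) := by
    have hρ0 : 0 < ρ := lt_of_lt_of_le (by positivity) hlX
    have h2 : (1 + θ) ^ 2 ≤ ((Real.log X) ^ 3) ^ 2 := pow_le_pow_left₀ hq.le hθX 2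
    have h3 : (D * D) ^ 8 ≤ D ^ 50 := by
      have : (D * D) ^ 8 = D ^ 16 := by ring
      rw [this]
      exact pow_le_pow_right₀ hN (by norm_num)
    have h4 : (1 + θ) ^ 2 * (18 * (D * D) ^ 8) * Real.log X ≤ T := by
      have h5 := hn.N_pow
      have h6 := hn.logpow
      have h7 : (X : ℝ) ^ (η / 2) ≤ (X : ℝ) ^ (1 / 8 : ℝ) :=
        Real.rpow_le_rpow_of_exponent_le hX1 (by linarith)
      have h8 : (X : ℝ) ^ (1 / 8 : ℝ) * (X : ℝ) ^ (1 / 8 : ℝ) ≤ (X : ℝ) ^ (1 / 2 : ℝ) := by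
        rw [← Real.rpow_add (by linarith)]
        exact Real.rpow_le_rpow_of_exponent_le hX1 (by norm_num)
      have h9 : (Real.log X) ^ 7 ≤ (Real.log X) ^ 100 :=
        pow_le_pow_right₀ (by linarith) (by norm_num)
      have h10 : (0 : ℝ) ≤ (Real.log X) ^ 100 := by positivity
      have h11 : (0 : ℝ) ≤ D ^ 50 := by positivity
      calc (1 + θ) ^ 2 * (18 * (D * D) ^ 8) * Real.log X
          ≤ ((Real.log X) ^ 3) ^ 2 * (18 * D ^ 50) * Real.log X := by
            refine mul_le_mul_of_nonneg_right ?_ (by linarith)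
            exact mul_le_mul h2 (by linarith) (by positivity) (by positivity)
        _ = (Real.log X) ^ 7 * (18 * D ^ 50) := by ring
        _ ≤ (1000 * (Real.log X) ^ 100) * (1000 * D ^ 50) :=
            mul_le_mul (by linarith) (by linarith) (by positivity) (by positivity)
        _ ≤ (X : ℝ) ^ (1 / 8 : ℝ) * (X : ℝ) ^ (1 / 8 : ℝ) :=
            mul_le_mul (h6.trans h7) h5 (by positivity) (by positivity)
        _ ≤ T := h8.trans hT
    have h5 : (1 + θ) ^ 2 * (18 * (D * D) ^ 8) ≤ ρ * T := by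
      have h6 : (1 + θ) ^ 2 * (18 * (D * D) ^ 8) ≤ T / Real.log X := by
        rw [le_div_iff₀ (by linarith)]
        exact h4
      refine h6.trans ?_
      have h7 : (T : ℝ) / Real.log X = 1 / Real.log X * T := by ring
      rw [h7]
      exact mul_le_mul_of_nonneg_right hlX hT0
    refine h5.trans (le_mul_of_one_le_right (by positivity) hZ)
  have e3 : (30000 * C ^ 3 + 1) * ρ * T * ZZ s (bg s α D) =
      30000 * C ^ 3 * ρ * T * ZZ s (bg s α D) + ρ * T * ZZ s (bg s α D) := by ring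
  rw [e3]
  exact add_le_add e1 e2

end Pool.Agent.Lib.H59D
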