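import Pool.Agent.Lib.H59D.Defs
import Pool.Agent.Lib.H15P.NT1

/-!
# Chunk W1: upper bound for `Σ_{A ≠ ∅, log ρ(A) ≤ v} 1/φ(A)`
-/

open Finset

namespace Pool.Agent.Lib.H59D

open Pool.Agent.Lib.H56G

theorem W1_prod (a b : ℕ) (ha : 2 ≤ a) (hab : a ≤ b) :
    (∏ p ∈ (Ioc a b).filter Nat.Prime, (1 - 1 / (p : ℝ)))⁻¹ ≤
      500 * (Real.log b / Real.log a) := by
  have hloga : 0 < Real.log a := Real.log_pos (by exact_mod_cast (by omega : 1 < a))
  have h1 := Sieve.prod_one_sub_inv_le a ha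
  have h2 := Helper57.prod_one_sub_inv_inv_le b (ha.trans hab)
  have hposa : 0 < ∏ p ∈ Sieve.primesUpTo a, (1 - 1 / (p : ℝ)) :=
    prod_pos fun p hp => H15P.NT1_pos p (Sieve.mem_primesUpTo.mp hp).1
  have hposab : 0 < ∏ p ∈ (Ioc a b).filter Nat.Prime, (1 - 1 / (p : ℝ)) :=
    prod_pos fun p hp => H15P.NT1_pos p (mem_filter.1 hp).2
  rw [prod_inv_distrib, H15P.NT1_split _ a b hab] at h2
  rw [mul_inv] at h2
  have e1 : (∏ p ∈ (Ioc a b).filter Nat.Prime, (1 - 1 / (p : ℝ)))⁻¹ =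
      (∏ p ∈ Sieve.primesUpTo a, (1 - 1 / (p : ℝ))) *
        ((∏ p ∈ Sieve.primesUpTo a, (1 - 1 / (p : ℝ)))⁻¹ *
        (∏ p ∈ (Ioc a b).filter Nat.Prime, (1 - 1 / (p : ℝ)))⁻¹) := by
    field_simp
  rw [e1]
  calc _ ≤ (1 / Real.log a) * (500 * Real.log b) :=
        mul_le_mul h1 h2 (by positivity) (by positivity)
    _ = _ := by ring

theorem W1_pr_le_rho {ι J : Type} [Fintype ι] [DecidableEq ι] [Fintype J] [DecidableEq J]
    (s : Sys ι J) (A : Finset ι) (i : ι) (hi : i ∈ A) : (s.pr i : ℝ) ≤ s.rho A := by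
  rw [H5C.pm4a_rho s A i hi]
  exact le_mul_of_one_le_right (Nat.cast_nonneg _) (one_le_rho s _)

/-- Proof. If `v < log W` the sum is empty (`A ≠ ∅` implies `ρ(A) > W`, `H5C.th1b_le_rho`-like) and
the right side is `≥ 0`. Otherwise let `n = ⌊exp v⌋ ≥ W`. If `log ρ(A) ≤ v` then all `pr i`, `i ∈ A`,
are `≤ n`, so the sum is at most `∏_{i : pr i ≤ n} (1 + 1/(pr i - 1)) = ∏ (1 - 1/pr i)⁻¹`
(`Finset.prod_one_add` / `Finset.prod_add`, `phi` is a product), at most
`∏_{W < p ≤ n} (1 - 1/p)⁻¹` (`s.inj`), and this is `≤ 500 log n / log W`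
(as in the proof of `H15P.mertens_sum_le`: `Sieve.prod_one_sub_inv_le W`,
`Helper57.prod_one_sub_inv_inv_le n`), `log n ≤ v`. So `C = 500`. -/
theorem Vup : ∃ C : ℝ, 1 ≤ C ∧ ∀ {ι J : Type} [Fintype ι] [DecidableEq ι] [Fintype J]
    [DecidableEq J] (s : Sys ι J) (W : ℕ), 2 ≤ W → (∀ i, W < s.pr i) → ∀ v : ℝ, 0 ≤ v →
    ∑ A ∈ univ.filter (fun A : Finset ι => A ≠ ∅ ∧ Real.log (s.rho A) ≤ v), 1 / s.phi A
      ≤ C * (v / Real.log W) := by
  refine ⟨500, by norm_num, ?_⟩
  intro ι J _ _ _ _ s W hW hpr v hv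
  have hWR : (2 : ℝ) ≤ W := by exact_mod_cast hW
  have hlogW : 0 < Real.log W := Real.log_pos (by linarith)
  have hbig : ∀ A : Finset ι, ∀ i ∈ A, Real.log (s.rho A) ≤ v → (s.pr i : ℝ) ≤ Real.exp v := by
    intro A i hi h
    have h1 := W1_pr_le_rho s A i hi
    have h2 : 0 < s.rho A := lt_of_lt_of_le zero_lt_one (one_le_rho s A)
    exact h1.trans ((Real.log_le_iff_le_exp h2).1 h)
  by_cases hvW : v < Real.log W
  · rw [Finset.filter_false_of_mem, Finset.sum_empty]
    · positivity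
    · rintro A _ ⟨hA, hle⟩
      obtain ⟨i, hi⟩ := Finset.nonempty_iff_ne_empty.2 hA
      have h1 := hbig A i hi hle
      have h2 : (W : ℝ) < s.pr i := by exact_mod_cast hpr i
      have h3 : Real.exp v < W := by
        rw [← Real.lt_log_iff_exp_lt (by linarith)]
        exact hvW
      linarith
  · push Not at hvW
    obtain ⟨n, hn⟩ : ∃ n : ℕ, n = ⌊Real.exp v⌋₊ := ⟨_, rfl⟩
    have hWe : (W : ℝ) ≤ Real.exp v := (Real.log_le_iff_le_exp (by linarith)).1 hvW
    have hWn : W ≤ n := by rw [hn]; exact Nat.le_floor hWe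
    have hnle : (n : ℝ) ≤ Real.exp v := by rw [hn]; exact Nat.floor_le (Real.exp_pos v).le
    have hn0 : (0 : ℝ) < n := by
      have : (W : ℝ) ≤ n := by exact_mod_cast hWn
      linarith
    have hlogn : Real.log n ≤ v := (Real.log_le_iff_le_exp hn0).2 hnle
    have hp2 : ∀ i, (2 : ℝ) ≤ s.pr i := fun i => by exact_mod_cast (s.prime i).two_le
    have h1 : ∑ A ∈ univ.filter (fun A : Finset ι => A ≠ ∅ ∧ Real.log (s.rho A) ≤ v),
        1 / s.phi A ≤ ∑ A ∈ (univ.filter (fun i : ι => s.pr i ≤ n)).powerset, 1 / s.phi A := by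
      refine Finset.sum_le_sum_of_subset_of_nonneg ?_ fun A _ _ => ?_
      · intro A hA
        rw [mem_filter] at hA
        rw [mem_powerset]
        intro i hi
        rw [mem_filter]
        refine ⟨mem_univ _, ?_⟩
        rw [hn]
        exact Nat.le_floor (hbig A i hi hA.2.2)
      · have := one_le_phi s A
        positivity
    have h2 : ∑ A ∈ (univ.filter (fun i : ι => s.pr i ≤ n)).powerset, 1 / s.phi A =
        ∏ i ∈ univ.filter (fun i : ι => s.pr i ≤ n), (1 - 1 / (s.pr i : ℝ))⁻¹ := by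
      have h3 : ∀ i, (1 - 1 / (s.pr i : ℝ))⁻¹ = 1 + 1 / ((s.pr i : ℝ) - 1) := by
        intro i
        have h4 := hp2 i
        have h5 : (s.pr i : ℝ) - 1 ≠ 0 := by linarith
        have h6 : (s.pr i : ℝ) ≠ 0 := by linarith
        field_simp
        ring
      simp only [h3]
      rw [Finset.prod_one_add]
      refine Finset.sum_congr rfl fun A _ => ?_
      unfold Sys.phi
      rw [Finset.prod_div_distrib, Finset.prod_const_one]
    have h3 : ∏ i ∈ univ.filter (fun i : ι => s.pr i ≤ n), (1 - 1 / (s.pr i : ℝ))⁻¹ ≤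
        ∏ p ∈ (Ioc W n).filter Nat.Prime, (1 - 1 / (p : ℝ))⁻¹ := by
      have h4 : ∏ i ∈ univ.filter (fun i : ι => s.pr i ≤ n), (1 - 1 / (s.pr i : ℝ))⁻¹ =
          ∏ p ∈ (univ.filter (fun i : ι => s.pr i ≤ n)).image s.pr, (1 - 1 / (p : ℝ))⁻¹ := by
        rw [Finset.prod_image fun i _ j _ h => s.inj h]
      rw [h4]
      have hsub : (univ.filter (fun i : ι => s.pr i ≤ n)).image s.pr ⊆
          (Ioc W n).filter Nat.Prime := by
        intro p hp
        rw [mem_image] at hp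
        obtain ⟨i, hi, rfl⟩ := hp
        rw [mem_filter] at hi
        rw [mem_filter, mem_Ioc]
        exact ⟨⟨hpr i, hi.2⟩, s.prime i⟩
      have hinv : ∀ p : ℕ, p.Prime → 1 ≤ (1 - 1 / (p : ℝ))⁻¹ := by
        intro p hp
        have h5 := H15P.NT1_pos p hp
        rw [one_le_inv₀ h5]
        have : 0 ≤ 1 / (p : ℝ) := by positivity
        linarith
      rw [← Finset.prod_sdiff hsub]
      refine le_mul_of_one_le_left (Finset.prod_nonneg fun p hp => ?_) ?_
      · have h6 := hinv p (mem_filter.1 (hsub hp)).2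
        linarith
      · have h7 : ∀ T : Finset ℕ, (∀ p ∈ T, p.Prime) → 1 ≤ ∏ p ∈ T, (1 - 1 / (p : ℝ))⁻¹ := by
          intro T
          induction T using Finset.induction_on with
          | empty => intro _; simp
          | insert a T ha ih =>
            intro hT
            rw [Finset.prod_insert ha]
            have h8 := hinv a (hT a (mem_insert_self a T))
            have h9 := ih fun p hp => hT p (mem_insert_of_mem hp)
            exact one_le_mul_of_one_le_of_one_le h8 h9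
        exact h7 _ fun p hp => (mem_filter.1 (mem_sdiff.1 hp).1).2
    refine (h1.trans (h2.le.trans h3)).trans ?_
    rw [Finset.prod_inv_distrib]
    refine (W1_prod W n hW hWn).trans ?_
    refine mul_le_mul_of_nonneg_left ?_ (by norm_num)
    exact div_le_div_of_nonneg_right hlogn hlogW.le

end Pool.Agent.Lib.H59D
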