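import Pool.Agent.Lib.H59D.Defs
import Pool.Agent.Lib.H5C.TH2

/-!
# Chunk W5a: the total weight and the weights of the configurations which do not use a form
-/

open Finset

namespace Pool.Agent.Lib.H59D

open Pool.Agent.Lib.H56G

variable {ι J : Type} [Fintype ι] [DecidableEq ι] [Fintype J] [DecidableEq J]

omit [Fintype J] [DecidableEq J] in
theorem W5a_single (s : Sys ι J) (g : Finset ι → ℝ)
    (g0 : ∀ A, 0 ≤ g A) (hg : ∀ A, ∀ i ∈ A, g A ≤ 1 / ((s.pr i : ℝ) - 1) * g (A.erase i))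
    (i : ι) :
    ∑ A ∈ univ.filter (fun A : Finset ι => i ∈ A), g A ≤ 1 / ((s.pr i : ℝ) - 1) * ∑ A, g A := by
  have hp : (2 : ℝ) ≤ s.pr i := by exact_mod_cast (s.prime i).two_le
  have h1 : (0 : ℝ) < (s.pr i : ℝ) - 1 := by linarith
  have hinj : Set.InjOn (fun A : Finset ι => A.erase i)
      (univ.filter (fun A : Finset ι => i ∈ A) : Finset (Finset ι)) := by
    intro A hA B hB hAB
    have hA' : i ∈ A := (mem_filter.1 hA).2
    have hB' : i ∈ B := (mem_filter.1 hB).2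
    have h := congrArg (insert i) hAB
    simp only [Finset.insert_erase hA', Finset.insert_erase hB'] at h
    exact h
  calc ∑ A ∈ univ.filter (fun A : Finset ι => i ∈ A), g A
      ≤ ∑ A ∈ univ.filter (fun A : Finset ι => i ∈ A),
          1 / ((s.pr i : ℝ) - 1) * g (A.erase i) :=
        Finset.sum_le_sum fun A hA => hg A i (mem_filter.1 hA).2
    _ = 1 / ((s.pr i : ℝ) - 1) *
          ∑ A ∈ univ.filter (fun A : Finset ι => i ∈ A), g (A.erase i) := by
        rw [Finset.mul_sum]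
    _ ≤ 1 / ((s.pr i : ℝ) - 1) * ∑ A, g A := by
        refine mul_le_mul_of_nonneg_left ?_ (by positivity)
        rw [← Finset.sum_image (f := g) (g := fun A : Finset ι => A.erase i) hinj]
        exact Finset.sum_le_sum_of_subset_of_nonneg (subset_univ _) fun A _ _ => g0 A

/-- Most sets of primes avoid a given configuration (`g` nonnegative on sets with
`g A ≤ g (A \ {i})/(p_i - 1)`): `Σ_{A ∋ i} g A ≤ (1/(p_i - 1)) Σ_A g A` (`A = insert i A'`,
`Wgt2`-like `wgt2_sum`), so the sum over the `A` which meet `supp κ` is at most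
`(|supp κ|/W) Σ_A g A ≤ (1/2) Σ_A g A`. -/
theorem free_ge (s : Sys ι J) (W : ℕ) (hW : 1 ≤ W) (hpr : ∀ i, W < s.pr i) (g : Finset ι → ℝ)
    (g0 : ∀ A, 0 ≤ g A) (hg : ∀ A, ∀ i ∈ A, g A ≤ 1 / ((s.pr i : ℝ) - 1) * g (A.erase i))
    (κ : ι → Option J) (hκ : 2 * (supp κ).card ≤ W) :
    (∑ A, g A) / 2 ≤ ∑ A ∈ (free κ).powerset, g A := by
  have hG : 0 ≤ ∑ A, g A := Finset.sum_nonneg fun A _ => g0 A
  have hWr : (1 : ℝ) ≤ W := by exact_mod_cast hW
  have h1 : ∑ A, g A = ∑ A ∈ (free κ).powerset, g A +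
      ∑ A ∈ univ.filter (fun A => A ∉ (free κ).powerset), g A := by
    rw [← Finset.sum_filter_add_sum_filter_not univ (fun A => A ∈ (free κ).powerset)]
    congr 1
    refine Finset.sum_congr ?_ fun _ _ => rfl
    ext A
    simp
  have h2 : ∑ A ∈ univ.filter (fun A => A ∉ (free κ).powerset), g A ≤
      ∑ i ∈ supp κ, ∑ A ∈ univ.filter (fun A : Finset ι => i ∈ A), g A := by
    have h2a : ∀ A ∈ univ.filter (fun A => A ∉ (free κ).powerset), g A ≤
        ∑ i ∈ supp κ, if i ∈ A then g A else 0 := by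
      intro A hA
      have hA2 := (mem_filter.1 hA).2
      rw [mem_powerset, Finset.not_subset] at hA2
      obtain ⟨i, hi, hi2⟩ := hA2
      have hi3 : i ∈ supp κ := by
        rw [off_mem_supp]
        rw [off_mem_free] at hi2
        exact hi2
      have h2b := Finset.single_le_sum (f := fun i => if i ∈ A then g A else 0)
        (fun i _ => by
          split_ifs
          · exact g0 A
          · exact le_rfl) hi3
      simp only [if_pos hi] at h2b
      exact h2b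
    refine (Finset.sum_le_sum h2a).trans ?_
    refine (Finset.sum_le_sum_of_subset_of_nonneg (Finset.subset_univ _) fun A _ _ =>
      Finset.sum_nonneg fun i _ => by
        split_ifs
        · exact g0 A
        · exact le_rfl).trans ?_
    rw [Finset.sum_comm]
    refine Finset.sum_le_sum fun i _ => ?_
    rw [Finset.sum_filter]
  have h3 : ∑ i ∈ supp κ, ∑ A ∈ univ.filter (fun A : Finset ι => i ∈ A), g A ≤
      ∑ i ∈ supp κ, 1 / (W : ℝ) * ∑ A, g A := by
    refine Finset.sum_le_sum fun i _ => ?_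
    refine (W5a_single s g g0 hg i).trans (mul_le_mul_of_nonneg_right ?_ hG)
    have h4 : (W : ℝ) + 1 ≤ s.pr i := by exact_mod_cast hpr i
    exact one_div_le_one_div_of_le (by linarith) (by linarith)
  rw [Finset.sum_const, nsmul_eq_mul] at h3
  have h5 : ((supp κ).card : ℝ) * (1 / (W : ℝ) * ∑ A, g A) ≤ (∑ A, g A) / 2 := by
    have h6 : ((supp κ).card : ℝ) * (1 / (W : ℝ)) ≤ 1 / 2 := by
      rw [mul_one_div, div_le_div_iff₀ (by linarith) (by norm_num)]
      have h7 : (2 : ℝ) * (supp κ).card ≤ W := by exact_mod_cast hκ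
      linarith
    have h8 := mul_le_mul_of_nonneg_right h6 hG
    linarith
  linarith

theorem W5a_sum_vv (s : Sys ι J) (bb : Finset ι → ℝ) : ∑ A : Finset ι, vv s bb A =
      1 + ∑ A ∈ univ.filter (fun A : Finset ι => A ≠ ∅), vv s bb A := by
  have h4 := Finset.sum_filter_add_sum_filter_not (univ : Finset (Finset ι))
    (fun A : Finset ι => A = ∅) (fun A => vv s bb A)
  rw [← h4]
  congr 1
  rw [Finset.sum_filter]
  simp [cher2_vv_empty]

/-- General form: `χ` nonnegative and increasing under insertion. -/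
theorem W5a_gen (s : Sys ι J) (bb : Finset ι → ℝ) (W : ℕ) (hW : 1 ≤ W) (hpr : ∀ i, W < s.pr i)
    (hvv : ∀ A, ∀ i ∈ A, vv s bb A ≤ 1 / ((s.pr i : ℝ) - 1) * vv s bb (A.erase i))
    (hsup : ∀ κ, wt s bb κ ≠ 0 → 2 * (supp κ).card ≤ W) (j : J)
    (χ : (ι → Option J) → ℝ) (hχ0 : ∀ κ, 0 ≤ χ κ)
    (hχ : ∀ κ ∈ noJ j, ∀ A ⊆ free κ, χ κ ≤ χ (ins κ j A)) :
    (1 + ∑ A ∈ univ.filter (fun A : Finset ι => A ≠ ∅), vv s bb A) / 2 *
        ∑ κ ∈ noJ j, χ κ * wt s bb κ ≤
      ∑ κ : ι → Option J, χ κ * wt s bb κ := by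
  rw [sum_off j, Finset.mul_sum]
  refine Finset.sum_le_sum fun κ hκ => ?_
  by_cases hw : wt s bb κ = 0
  · rw [hw, mul_zero, mul_zero]
    exact Finset.sum_nonneg fun A _ => mul_nonneg (hχ0 _) (wt_nonneg s bb _)
  · have h1 := free_ge s W hW hpr (vv s bb) (cher2_vv_nonneg s bb) hvv κ (hsup κ hw)
    rw [W5a_sum_vv] at h1
    have h2 : ∀ A ∈ (free κ).powerset, χ κ * wt s bb κ * vv s bb A ≤
        χ (ins κ j A) * wt s bb (ins κ j A) := by
      intro A hA
      rw [Pool.Agent.Lib.H5C.th2_wt_ins s bb j κ hκ A (mem_powerset.1 hA)]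
      have h3 := hχ κ hκ A (mem_powerset.1 hA)
      have h4 := mul_nonneg (cher2_vv_nonneg s bb A) (wt_nonneg s bb κ)
      calc χ κ * wt s bb κ * vv s bb A = χ κ * (vv s bb A * wt s bb κ) := by ring
        _ ≤ _ := mul_le_mul_of_nonneg_right h3 h4
    refine le_trans ?_ (Finset.sum_le_sum h2)
    rw [← Finset.mul_sum, mul_comm]
    exact mul_le_mul_of_nonneg_left h1 (mul_nonneg (hχ0 _) (wt_nonneg s bb _))

/-- `sum_off`: `Σ_{κ : B < r κ} wt κ ≥ Σ_{κ' ∈ noJ j, B < r κ'} wt κ' Σ_{A ⊆ free κ'} vv A`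
(`H5C.th2_wt_ins`, `r_ins`, `one_le_rho`), and the inner sum is `≥ (1 + Σ_{A ≠ ∅} vv A)/2` by
`free_ge` (if `wt κ' ≠ 0`). -/
theorem noJ_ge (s : Sys ι J) (bb : Finset ι → ℝ) (W : ℕ) (hW : 1 ≤ W) (hpr : ∀ i, W < s.pr i)
    (hvv : ∀ A, ∀ i ∈ A, vv s bb A ≤ 1 / ((s.pr i : ℝ) - 1) * vv s bb (A.erase i))
    (hsup : ∀ κ, wt s bb κ ≠ 0 → 2 * (supp κ).card ≤ W) (j : J) (B : ℝ) :
    (1 + ∑ A ∈ univ.filter (fun A : Finset ι => A ≠ ∅), vv s bb A) / 2 *
        ∑ κ ∈ (noJ j).filter (fun κ => B < s.r κ), wt s bb κ ≤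
      ∑ κ ∈ univ.filter (fun κ : ι → Option J => B < s.r κ), wt s bb κ := by
  have h := W5a_gen s bb W hW hpr hvv hsup j (fun κ => if B < s.r κ then 1 else 0)
    (fun κ => by split_ifs <;> norm_num) (by
      intro κ _ A hA
      by_cases h1 : B < s.r κ
      · have h2 : B < s.r (ins κ j A) := by
          rw [r_ins s κ j A hA]
          have h3 := one_le_rho s A
          have h4 : 1 ≤ s.r κ := one_le_rho s (supp κ)
          nlinarith
        rw [if_pos h1, if_pos h2]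
      · rw [if_neg h1]
        split_ifs <;> norm_num)
  have e1 : ∑ κ ∈ (noJ j).filter (fun κ => B < s.r κ), wt s bb κ =
      ∑ κ ∈ noJ j, (if B < s.r κ then (1 : ℝ) else 0) * wt s bb κ := by
    rw [Finset.sum_filter]
    refine Finset.sum_congr rfl fun κ _ => ?_
    split_ifs <;> simp
  have e2 : ∑ κ ∈ univ.filter (fun κ : ι → Option J => B < s.r κ), wt s bb κ =
      ∑ κ : ι → Option J, (if B < s.r κ then (1 : ℝ) else 0) * wt s bb κ := by
    rw [Finset.sum_filter]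
    refine Finset.sum_congr rfl fun κ _ => ?_
    split_ifs <;> simp
  rw [e1, e2]
  exact h

end Pool.Agent.Lib.H59D
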