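import Pool.Agent.Lib.H59D.W5a

/-!
# Chunk W7a: the coefficients of the restrictions
-/

open Finset

namespace Pool.Agent.Lib.H59D

open Pool.Agent.Lib.H56G
open Pool.Agent.Lib.H5C (cr)

variable {ι J : Type} [Fintype ι] [DecidableEq ι] [Fintype J] [DecidableEq J]

/-- For `κ ∈ noJ j`, `A ⊆ free κ`: `cw (ins κ j A) = cut D (r κ ρ A) ga(A) ∏_{j'} ga(part κ j')`
(the part `j` of `κ` is empty, `ga_empty`; cf. `H56G.coef2_cc_ins`). -/
theorem cw_ins (s : Sys ι J) (α D : ℝ) (j : J) (κ : ι → Option J) (hκ : κ ∈ noJ j)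
    (A : Finset ι) (hA : A ⊆ free κ) :
    cw s α D (ins κ j A) =
      cut D (s.r κ * s.rho A) * (ga s α D A * ∏ j', ga s α D (part κ j')) := by
  unfold cw
  rw [r_ins s κ j A hA]
  have h1 : ∏ j', ga s α D (part (ins κ j A) j') = ga s α D A * ∏ j', ga s α D (part κ j') := by
    rw [← Finset.mul_prod_erase univ _ (mem_univ j), part_ins_same κ j hκ A hA]
    rw [← Finset.mul_prod_erase univ (fun j' => ga s α D (part κ j')) (mem_univ j),
      part_noJ κ j hκ]
    have h2 : ∏ j' ∈ univ.erase j, ga s α D (part (ins κ j A) j')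
        = ∏ j' ∈ univ.erase j, ga s α D (part κ j') := by
      refine Finset.prod_congr rfl fun j' hj => ?_
      rw [part_ins_other κ j j' (Finset.ne_of_mem_erase hj) A hA]
    rw [h2, ga_empty, one_mul]
  rw [h1]

theorem W7a_sum_ga (s : Sys ι J) (α D : ℝ) : ∑ A, ga s α D A = 1 + th s α D := by
  unfold th
  rw [← Finset.sum_filter_add_sum_filter_not univ (fun A : Finset ι => A = ∅)]
  congr 1
  rw [Finset.filter_eq' univ (∅ : Finset ι)]
  simp [ga_empty]

/-- `cp j (cw) κ = Σ_{A ⊆ free κ} cut(r κ ρ A) ga A ∏ ga(part κ j')`, `0 ≤ cut ≤ 1`,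
`Σ_A ga A = 1 + θ` and `cut = 0` if `r κ > D`. -/
theorem cp_le (s : Sys ι J) {α D : ℝ} (hα : 0 ≤ α) (hD : 1 < D) (j : J) (κ : ι → Option J)
    (hκ : κ ∈ noJ j) :
    0 ≤ cp j (cw s α D) κ ∧
      cp j (cw s α D) κ ≤ (1 + th s α D) * cc s (bg s α D) D κ := by
  have hG : 0 ≤ ∏ j', ga s α D (part κ j') := Finset.prod_nonneg fun j' _ => ga_nonneg s hα D _
  have h1r := one_le_r s κ
  constructor
  · exact Finset.sum_nonneg fun A _ => cw_nonneg s hα D _
  · rw [cc_bg]
    unfold cp
    rw [Finset.sum_congr rfl (fun A hA => cw_ins s α D j κ hκ A (mem_powerset.mp hA))]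
    split_ifs with h
    · rw [← W7a_sum_ga, Finset.sum_mul]
      calc ∑ A ∈ (free κ).powerset, cut D (s.r κ * s.rho A) * (ga s α D A * ∏ j', ga s α D (part κ j'))
          ≤ ∑ A ∈ (free κ).powerset, ga s α D A * ∏ j', ga s α D (part κ j') := by
            refine Finset.sum_le_sum fun A _ => ?_
            have h2 : 0 ≤ ga s α D A * ∏ j', ga s α D (part κ j') := mul_nonneg (ga_nonneg s hα D A) hG
            refine mul_le_of_le_one_left h2 (cut_le_one hD.le ?_)
            have := one_le_rho s A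
            nlinarith
        _ ≤ ∑ A, ga s α D A * ∏ j', ga s α D (part κ j') := by
            refine Finset.sum_le_sum_of_subset_of_nonneg (Finset.subset_univ _) fun A _ _ => ?_
            exact mul_nonneg (ga_nonneg s hα D A) hG
    · rw [mul_zero]
      refine le_of_eq (Finset.sum_eq_zero fun A _ => ?_)
      rw [cut_eq_zero hD, zero_mul]
      have h2 := one_le_rho s A
      have h3 := not_le.mp h
      nlinarith

/-- If `r κ ≤ √D` and `ga A ≠ 0` then `log (r κ ρ A) ≤ (3/4) log D` (`ga_eq_zero`), so `cut ≥ 1/4`;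
`Σ_{A ⊆ free κ} ga A ≥ (1 + θ)/2` by `free_ge` (`ga_erase`). -/
theorem le_cp (s : Sys ι J) {α D : ℝ} (hα : 0 ≤ α) (hD : 1 < D) (W : ℕ) (hW : 1 ≤ W)
    (hpr : ∀ i, W < s.pr i) (j : J) (κ : ι → Option J) (hκ : κ ∈ noJ j)
    (hs : 2 * (supp κ).card ≤ W) (hr : s.r κ ≤ √D) :
    (1 + th s α D) / 8 * cc s (bg s α D) D κ ≤ cp j (cw s α D) κ := by
  have hG : 0 ≤ ∏ j', ga s α D (part κ j') := Finset.prod_nonneg fun j' _ => ga_nonneg s hα D _
  have h1r := one_le_r s κ
  have hlD : 0 < Real.log D := Real.log_pos hD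
  have hfree := free_ge s W hW hpr (ga s α D) (fun A => ga_nonneg s hα D A)
    (fun A i hi => ga_erase s hα hD.le A i hi) κ hs
  rw [W7a_sum_ga] at hfree
  have hrD : s.r κ ≤ D := by
    refine hr.trans ?_
    rw [Real.sqrt_le_left (by linarith)]
    nlinarith
  rw [cc_bg, if_pos hrD]
  unfold cp
  rw [Finset.sum_congr rfl (fun A hA => cw_ins s α D j κ hκ A (mem_powerset.mp hA))]
  have hlr : Real.log (s.r κ) ≤ Real.log D / 2 := by
    rw [← Real.log_sqrt (by linarith)]
    exact Real.log_le_log (by linarith) hr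
  have hterm : ∀ A ∈ (free κ).powerset, 1 / 4 * (ga s α D A * ∏ j', ga s α D (part κ j')) ≤
      cut D (s.r κ * s.rho A) * (ga s α D A * ∏ j', ga s α D (part κ j')) := by
    intro A _
    have h2 : 0 ≤ ga s α D A * ∏ j', ga s α D (part κ j') := mul_nonneg (ga_nonneg s hα D A) hG
    by_cases hA : Real.log D / 4 ≤ Real.log (s.rho A)
    · rw [ga_eq_zero s hD A hA]; simp
    · refine mul_le_mul_of_nonneg_right ?_ h2
      unfold cut
      refine le_trans ?_ (le_max_right _ _)
      have h3 := one_le_rho s A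
      rw [Real.log_mul (by linarith) (by linarith)]
      have h4 : (Real.log (s.r κ) + Real.log (s.rho A)) / Real.log D ≤ 3 / 4 := by
        rw [div_le_iff₀ hlD]
        push Not at hA
        linarith
      linarith
  refine le_trans ?_ (Finset.sum_le_sum hterm)
  rw [← Finset.mul_sum, ← Finset.sum_mul]
  have h5 := mul_le_mul_of_nonneg_right hfree hG
  linarith

end Pool.Agent.Lib.H59D
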